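import Pool.Agent.ConeD.BasicA

/-! Edge isoperimetry in the lattice (section 5 (c) of the text). -/

set_option autoImplicit false

namespace ConeD

variable {d : ℕ}

/-- the edges with both ends in `A` -/
noncomputable def inner (A : Finset (V d)) : Finset (Edge d) :=
  (A ×ˢ (Finset.univ : Finset (Fin d))).filter (fun e => e.1 + ev e.2 ∈ A)

/-- the boundary edges of `A` in the level: the edges from `A` in the direction `i0` and the edges
in the other directions with exactly one end in `A` -/
noncomputable def Bd (i0 : Fin d) (A : Finset (V d)) : Finset (Edge d) :=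
  ((A ×ˢ (Finset.univ : Finset (Fin d))) ∪
    (A ×ˢ (Finset.univ : Finset (Fin d))).image (fun q => (q.1 - ev q.2, q.2))).filter
      (fun e => (e.2 = i0 ∧ e.1 ∈ A) ∨ (e.2 ≠ i0 ∧ (e.1 ∈ A ↔ e.1 + ev e.2 ∉ A)))

theorem mem_Bd {i0 : Fin d} {A : Finset (V d)} {e : Edge d} :
    e ∈ Bd i0 A ↔ (e.2 = i0 ∧ e.1 ∈ A) ∨ (e.2 ≠ i0 ∧ (e.1 ∈ A ↔ e.1 + ev e.2 ∉ A)) := by
  obtain ⟨v, j⟩ := e
  simp only [Bd, Finset.mem_filter, Finset.mem_union, Finset.mem_product, Finset.mem_univ,
    and_true, Finset.mem_image, Prod.mk.injEq, Prod.exists]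
  constructor
  · rintro ⟨_, h⟩
    exact h
  · intro h
    refine ⟨?_, h⟩
    rcases h with ⟨_, h⟩ | ⟨_, h⟩
    · exact Or.inl h
    · by_cases hv : v ∈ A
      · exact Or.inl hv
      · refine Or.inr ⟨v + ev j, j, ?_, by simp, rfl⟩
        by_contra h2
        exact hv (h.2 h2)

/-- MODULE ISO1.  `a log a + b log b + 2 min(a, b) log 2 ≤ (a + b) log (a + b)`. -/
theorem iso_real {a b : ℕ} (ha : 0 < a) (hab : a ≤ b) :
    (a : ℝ) * Real.log a + b * Real.log b + 2 * Real.log 2 * a ≤
      ((a : ℝ) + b) * Real.log ((a : ℝ) + b) := by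

  have ha' : (0 : ℝ) < a := by exact_mod_cast ha
  have hab' : (a : ℝ) ≤ b := by exact_mod_cast hab
  have hb' : (0 : ℝ) < b := lt_of_lt_of_le ha' hab'
  have h2 : (0 : ℝ) < (a : ℝ) + b := by positivity
  -- `log (a + b) = log a + log (1 + b / a) ≥ log a + log 2`
  have e1 : Real.log a + Real.log 2 ≤ Real.log ((a : ℝ) + b) := by
    rw [← Real.log_mul ha'.ne' (by norm_num)]
    exact Real.log_le_log (by positivity) (by linarith)
  -- `log (a + b) = log b + log (1 + a / b) ≥ log b + (a / b) log 2`
  have e2 : Real.log b + (a : ℝ) / b * Real.log 2 ≤ Real.log ((a : ℝ) + b) := by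
    have k1 : (0 : ℝ) ≤ 1 - (a : ℝ) / b := by
      rw [sub_nonneg, div_le_one hb']
      exact hab'
    have k2 : (0 : ℝ) ≤ (a : ℝ) / b := by positivity
    have hc := strictConcaveOn_log_Ioi.concaveOn.2 (show (1 : ℝ) ∈ Set.Ioi (0 : ℝ) by simp)
      (show (2 : ℝ) ∈ Set.Ioi (0 : ℝ) by simp) k1 k2 (by ring)
    simp only [smul_eq_mul, Real.log_one, mul_zero, zero_add, mul_one] at hc
    have e3 : (1 - (a : ℝ) / b + a / b * 2) = ((a : ℝ) + b) / b := by
      field_simp
      ring
    rw [e3, Real.log_div h2.ne' hb'.ne'] at hc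
    linarith
  have e4 : (b : ℝ) * (Real.log b + (a : ℝ) / b * Real.log 2) ≤ b * Real.log ((a : ℝ) + b) :=
    mul_le_mul_of_nonneg_left e2 hb'.le
  have e5 : (b : ℝ) * (Real.log b + (a : ℝ) / b * Real.log 2) =
      b * Real.log b + a * Real.log 2 := by
    field_simp
  have e6 : (a : ℝ) * (Real.log a + Real.log 2) ≤ a * Real.log ((a : ℝ) + b) :=
    mul_le_mul_of_nonneg_left e1 ha'.le
  rw [e5] at e4
  nlinarith [e4, e6]

private theorem iso_ev_self (j : Fin d) : (ev j : V d) j = 1 := by simp [ev]

private theorem iso_ev_ne {i j : Fin d} (h : j ≠ i) : (ev i : V d) j = 0 := by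
  simp [ev, h]

private theorem iso_ev_ne_zero (j : Fin d) : (ev j : V d) ≠ 0 := by
  intro h
  have := congrFun h j
  rw [iso_ev_self] at this
  simp at this

private theorem iso_mem_inner {A : Finset (V d)} {e : Edge d} :
    e ∈ inner A ↔ e.1 ∈ A ∧ e.1 + ev e.2 ∈ A := by
  simp [inner]

private theorem iso_inner_eq_empty {A : Finset (V d)} (h : A.card ≤ 1) : inner A = ∅ := by
  rw [Finset.eq_empty_iff_forall_notMem]
  intro e he
  rw [iso_mem_inner] at he
  have := Finset.card_le_one.mp h _ he.1 _ he.2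
  exact iso_ev_ne_zero e.2 (by simpa using this)

private theorem iso_exists_cut {A : Finset (V d)} (h : 1 < A.card) :
    ∃ (j : Fin d) (t : ℤ), (A.filter (fun v => v j ≤ t)).Nonempty ∧
      (A.filter (fun v => ¬ v j ≤ t)).Nonempty := by
  obtain ⟨x, hx, y, hy, hxy⟩ := Finset.one_lt_card.mp h
  obtain ⟨j, hj⟩ := Function.ne_iff.mp hxy
  rcases lt_or_gt_of_ne hj with h1 | h1
  · exact ⟨j, x j, ⟨x, Finset.mem_filter.mpr ⟨hx, le_refl _⟩⟩,
      ⟨y, Finset.mem_filter.mpr ⟨hy, not_le.mpr h1⟩⟩⟩
  · exact ⟨j, y j, ⟨y, Finset.mem_filter.mpr ⟨hy, le_refl _⟩⟩,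
      ⟨x, Finset.mem_filter.mpr ⟨hx, not_le.mpr h1⟩⟩⟩

private theorem iso_card_inner (A : Finset (V d)) (j : Fin d) (t : ℤ) :
    (inner A).card ≤ (inner (A.filter (fun v => v j ≤ t))).card +
        (inner (A.filter (fun v => ¬ v j ≤ t))).card + (A.filter (fun v => v j ≤ t)).card ∧
    (inner A).card ≤ (inner (A.filter (fun v => v j ≤ t))).card +
        (inner (A.filter (fun v => ¬ v j ≤ t))).card + (A.filter (fun v => ¬ v j ≤ t)).card := by
  set A1 := A.filter (fun v => v j ≤ t) with hA1
  set A2 := A.filter (fun v => ¬ v j ≤ t) with hA2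
  set B := A1.filter (fun v => v + ev j ∈ A2) with hB
  have hsub : inner A ⊆ (inner A1 ∪ inner A2) ∪ B.image (fun v => (v, j)) := by
    rintro ⟨v, i⟩ he
    rw [iso_mem_inner] at he
    obtain ⟨h1, h2⟩ := he
    simp only at h1 h2
    by_cases hv : v j ≤ t
    · by_cases hw : (v + ev i) j ≤ t
      · refine Finset.mem_union_left _ (Finset.mem_union_left _ (iso_mem_inner.mpr ⟨?_, ?_⟩))
        · exact Finset.mem_filter.mpr ⟨h1, hv⟩
        · exact Finset.mem_filter.mpr ⟨h2, hw⟩
      · have hij : i = j := by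
          by_contra hne
          apply hw
          rw [Pi.add_apply, iso_ev_ne (fun h => hne h.symm), add_zero]
          exact hv
        subst hij
        refine Finset.mem_union_right _ (Finset.mem_image.mpr ⟨v, ?_, rfl⟩)
        exact Finset.mem_filter.mpr ⟨Finset.mem_filter.mpr ⟨h1, hv⟩,
          Finset.mem_filter.mpr ⟨h2, hw⟩⟩
    · have hw : ¬ (v + ev i) j ≤ t := by
        by_cases hij : i = j
        · subst hij
          rw [Pi.add_apply, iso_ev_self]
          omega
        · rw [Pi.add_apply, iso_ev_ne (fun h => hij h.symm), add_zero]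
          exact hv
      refine Finset.mem_union_left _ (Finset.mem_union_right _ (iso_mem_inner.mpr ⟨?_, ?_⟩))
      · exact Finset.mem_filter.mpr ⟨h1, hv⟩
      · exact Finset.mem_filter.mpr ⟨h2, hw⟩
  have h3 : (inner A).card ≤ (inner A1).card + (inner A2).card + B.card := by
    refine (Finset.card_le_card hsub).trans ((Finset.card_union_le _ _).trans ?_)
    exact add_le_add (Finset.card_union_le _ _) Finset.card_image_le
  have h4 : B.card ≤ A1.card := Finset.card_filter_le _ _
  have h5 : B.card ≤ A2.card := by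
    refine Finset.card_le_card_of_injOn (fun v => v + ev j) (fun v hv => ?_) ?_
    · exact (Finset.mem_filter.mp hv).2
    · intro v _ w _ hvw
      simpa using hvw
  exact ⟨by omega, by omega⟩

/-- MODULE ISO2.  Strong induction on the number of points: if there are two points, cut by
`x j ≤ t`, `x j > t` for some `j`, `t` into two nonempty sets; the edges between the two parts have
direction `j` and distinct ends in both parts. -/
theorem iso (A : Finset (V d)) :
    2 * Real.log 2 * (inner A).card ≤ (A.card : ℝ) * Real.log A.card := by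

  induction hn : A.card using Nat.strong_induction_on generalizing A with
  | _ n ih =>
    subst hn
    by_cases h1 : A.card ≤ 1
    · rw [iso_inner_eq_empty h1, Finset.card_empty, Nat.cast_zero, mul_zero]
      exact mul_nonneg (Nat.cast_nonneg _) (Real.log_natCast_nonneg _)
    · obtain ⟨j, t, hx, hy⟩ := iso_exists_cut (not_le.mp h1)
      set A1 := A.filter (fun v => v j ≤ t) with hA1
      set A2 := A.filter (fun v => ¬ v j ≤ t) with hA2
      have hcard : A1.card + A2.card = A.card := by
        rw [hA1, hA2]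
        exact Finset.card_filter_add_card_filter_not _
      have hp1 : 0 < A1.card := Finset.card_pos.mpr hx
      have hp2 : 0 < A2.card := Finset.card_pos.mpr hy
      have i1 := ih A1.card (by omega) A1 rfl
      have i2 := ih A2.card (by omega) A2 rfl
      obtain ⟨c1, c2⟩ := iso_card_inner A j t
      have hl2 : 0 ≤ Real.log 2 := Real.log_nonneg (by norm_num)
      have hc : (A.card : ℝ) = (A1.card : ℝ) + A2.card := by rw [← hcard]; push_cast; ring
      rw [hc]
      rcases le_total A1.card A2.card with h | h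
      · have r := iso_real hp1 h
        have c3 : ((inner A).card : ℝ) ≤ (inner A1).card + (inner A2).card + A1.card := by
          exact_mod_cast c1
        have c4 := mul_le_mul_of_nonneg_left c3 (mul_nonneg (by norm_num : (0 : ℝ) ≤ 2) hl2)
        nlinarith [c4, r, i1, i2]
      · have r := iso_real hp2 h
        have c3 : ((inner A).card : ℝ) ≤ (inner A1).card + (inner A2).card + A2.card := by
          exact_mod_cast c2
        have c4 := mul_le_mul_of_nonneg_left c3 (mul_nonneg (by norm_num : (0 : ℝ) ≤ 2) hl2)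
        rw [add_comm (A2.card : ℝ)] at r
        nlinarith [c4, r, i1, i2]

private theorem card_Bd_mem_inner {A : Finset (V d)} {e : Edge d} :
    e ∈ inner A ↔ e.1 ∈ A ∧ e.1 + ev e.2 ∈ A := by
  simp [inner]

/-- MODULE ISO3.  Each of the `k` points of `A` has one edge in the direction `i0` and `2 (d - 1)`
lateral edges; the lateral edges with both ends in `A` are counted twice. -/
theorem card_Bd (i0 : Fin d) (A : Finset (V d)) (hA : A.Nonempty) (hk : A.card ≤ d ^ 2) :
    (2 * ((d : ℝ) - 1) - 2 * (Real.log d / Real.log 2) + 1) * A.card ≤ (Bd i0 A).card ∧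
    ((Bd i0 A).filter (fun e => e.2 = i0)).card = A.card := by

  have hup : (Bd i0 A).filter (fun e => e.2 = i0) = A ×ˢ {i0} := by
    ext ⟨v, j⟩
    simp only [Finset.mem_filter, mem_Bd, Finset.mem_product, Finset.mem_singleton]
    constructor
    · rintro ⟨h | h, h2⟩
      · exact ⟨h.2, h2⟩
      · exact absurd h2 h.1
    · rintro ⟨h1, h2⟩
      exact ⟨Or.inl ⟨h2, h1⟩, h2⟩
  have hup2 : ((Bd i0 A).filter (fun e => e.2 = i0)).card = A.card := by
    rw [hup, Finset.card_product, Finset.card_singleton, mul_one]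
  refine ⟨?_, hup2⟩
  -- the lateral edges
  set P := A ×ˢ (Finset.univ.erase i0 : Finset (Fin d)) with hP
  have hPc : P.card = A.card * (d - 1) := by
    rw [hP, Finset.card_product, Finset.card_erase_of_mem (Finset.mem_univ _), Finset.card_univ,
      Fintype.card_fin]
  have hd1 : 1 ≤ d := by
    have := i0.pos
    omega
  set L1 := P.filter (fun e => ¬ e.1 + ev e.2 ∈ A) with hL1
  set L2 := P.filter (fun e => ¬ e.1 - ev e.2 ∈ A) with hL2
  have g1 : (P.filter (fun e => e.1 + ev e.2 ∈ A)).card + L1.card = P.card :=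
    Finset.card_filter_add_card_filter_not _
  have g2 : (P.filter (fun e => e.1 - ev e.2 ∈ A)).card + L2.card = P.card :=
    Finset.card_filter_add_card_filter_not _
  have g3 : (P.filter (fun e => e.1 + ev e.2 ∈ A)).card ≤ (inner A).card := by
    refine Finset.card_le_card (fun e he => ?_)
    rw [Finset.mem_filter, hP, Finset.mem_product] at he
    exact card_Bd_mem_inner.mpr ⟨he.1.1, he.2⟩
  have g4 : (P.filter (fun e => e.1 - ev e.2 ∈ A)).card ≤ (inner A).card := by
    refine Finset.card_le_card_of_injOn (fun e => (e.1 - ev e.2, e.2)) (fun e he => ?_) ?_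
    · rw [Finset.mem_coe, Finset.mem_filter, hP, Finset.mem_product] at he
      refine card_Bd_mem_inner.mpr ⟨he.2, ?_⟩
      simpa using he.1.1
    · rintro ⟨v, j⟩ _ ⟨w, k⟩ _ h
      simp only [Prod.mk.injEq] at h
      obtain ⟨h1, h2⟩ := h
      subst h2
      simpa using h1
  have hinj : Set.InjOn (fun e : Edge d => (e.1 - ev e.2, e.2)) (L2 : Set (Edge d)) := by
    rintro ⟨v, j⟩ _ ⟨w, k⟩ _ h
    simp only [Prod.mk.injEq] at h
    obtain ⟨h1, h2⟩ := h
    subst h2
    simpa using h1
  have hdisj : Disjoint L1 (L2.image (fun e => (e.1 - ev e.2, e.2))) := by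
    rw [Finset.disjoint_left]
    intro e he he2
    obtain ⟨q, hq, rfl⟩ := Finset.mem_image.mp he2
    rw [hL1, Finset.mem_filter, hP, Finset.mem_product] at he
    rw [hL2, Finset.mem_filter] at hq
    exact hq.2 he.1.1
  have hsub : L1 ∪ L2.image (fun e => (e.1 - ev e.2, e.2)) ⊆
      (Bd i0 A).filter (fun e => ¬ e.2 = i0) := by
    intro e he
    rw [Finset.mem_union] at he
    rw [Finset.mem_filter, mem_Bd]
    rcases he with he | he
    · rw [hL1, Finset.mem_filter, hP, Finset.mem_product, Finset.mem_erase] at he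
      have hne := he.1.2.1
      exact ⟨Or.inr ⟨hne, fun _ => he.2, fun _ => he.1.1⟩, hne⟩
    · obtain ⟨q, hq, rfl⟩ := Finset.mem_image.mp he
      rw [hL2, Finset.mem_filter, hP, Finset.mem_product, Finset.mem_erase] at hq
      have hne := hq.1.2.1
      refine ⟨Or.inr ⟨hne, fun h => absurd h hq.2, fun h => ?_⟩, hne⟩
      exfalso
      apply h
      simpa using hq.1.1
  have g5 : L1.card + L2.card ≤ ((Bd i0 A).filter (fun e => ¬ e.2 = i0)).card := by
    rw [← Finset.card_image_of_injOn hinj, ← Finset.card_union_of_disjoint hdisj]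
    exact Finset.card_le_card hsub
  have g6 : ((Bd i0 A).filter (fun e => e.2 = i0)).card +
      ((Bd i0 A).filter (fun e => ¬ e.2 = i0)).card = (Bd i0 A).card :=
    Finset.card_filter_add_card_filter_not _
  have hl2 : 0 < Real.log 2 := Real.log_pos (by norm_num)
  have hiso := iso A
  have hApos : 0 < A.card := Finset.card_pos.mpr hA
  have hlog : Real.log A.card ≤ 2 * Real.log d := by
    have e1 : Real.log A.card ≤ Real.log ((d : ℝ) ^ 2) := by
      refine Real.log_le_log (by exact_mod_cast hApos) ?_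
      exact_mod_cast hk
    rwa [Real.log_pow, Nat.cast_ofNat] at e1
  have hinn : ((inner A).card : ℝ) ≤ A.card * (Real.log d / Real.log 2) := by
    have e1 : 2 * Real.log 2 * ((inner A).card : ℝ) ≤ A.card * (2 * Real.log d) :=
      hiso.trans (mul_le_mul_of_nonneg_left hlog (Nat.cast_nonneg _))
    rw [mul_div_assoc', le_div_iff₀ hl2]
    nlinarith [e1]
  have hdc : ((d - 1 : ℕ) : ℝ) = (d : ℝ) - 1 := by
    rw [Nat.cast_sub hd1, Nat.cast_one]
  have k1 : ((P.card : ℕ) : ℝ) = A.card * ((d : ℝ) - 1) := by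
    rw [hPc, Nat.cast_mul, hdc]
  have k2 : (P.card : ℝ) ≤ (inner A).card + L1.card := by
    rw [← g1]
    push_cast
    have : ((P.filter (fun e => e.1 + ev e.2 ∈ A)).card : ℝ) ≤ (inner A).card := by
      exact_mod_cast g3
    linarith
  have k3 : (P.card : ℝ) ≤ (inner A).card + L2.card := by
    rw [← g2]
    push_cast
    have : ((P.filter (fun e => e.1 - ev e.2 ∈ A)).card : ℝ) ≤ (inner A).card := by
      exact_mod_cast g4
    linarith
  have k4 : (L1.card : ℝ) + L2.card + A.card ≤ (Bd i0 A).card := by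
    have : L1.card + L2.card + A.card ≤ (Bd i0 A).card := by omega
    exact_mod_cast this
  rw [k1] at k2 k3
  nlinarith [k2, k3, k4, hinn]

end ConeD
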