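import Pool.Agent.ConeD.TProp
import Pool.Agent.ConeD.Iso

/-!
# The crossing time of a level (section 5 (c) of the text)
-/

set_option autoImplicit false

namespace ConeD

open ConeE (mE lintegral_mE mE_ae_pos mE_Ioi)

variable {d : ℕ}

open MeasureTheory

/-- lateral walks: no step in the direction `i0` -/
def Lat (i0 : Fin d) (l : List (Step d)) : Prop := ∀ s ∈ l, s.1 ≠ i0

/-- the crossing time from `A`: lateral walk from a point of `A`, then an edge upwards -/
noncomputable def Cr (i0 : Fin d) (A : Finset (V d)) (E : Edge d → ℝ) : ℝ :=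
  ⨅ q : {q : V d × List (Step d) // q.1 ∈ A ∧ Lat i0 q.2},
    (wt E q.1.1 q.1.2 + E (endp q.1.1 q.1.2, i0))

theorem Cr_nonneg (i0 : Fin d) (A : Finset (V d)) {E : Edge d → ℝ} (hE : ∀ e, 0 ≤ E e) :
    0 ≤ Cr i0 A E := by
  unfold Cr
  exact Real.iInf_nonneg fun q => add_nonneg (wt_nonneg hE _ _) (hE _)

theorem Cr_le {i0 : Fin d} {A : Finset (V d)} {E : Edge d → ℝ} (hE : ∀ e, 0 ≤ E e) {v : V d}
    {l : List (Step d)} (hv : v ∈ A) (hl : Lat i0 l) : Cr i0 A E ≤ wt E v l + E (endp v l, i0) := by
  unfold Cr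
  refine ciInf_le (f := fun q : {q : V d × List (Step d) // q.1 ∈ A ∧ Lat i0 q.2} =>
    (wt E q.1.1 q.1.2 + E (endp q.1.1 q.1.2, i0))) ⟨0, ?_⟩ ⟨(v, l), hv, hl⟩
  rintro _ ⟨q, rfl⟩
  exact add_nonneg (wt_nonneg hE _ _) (hE _)

theorem measurable_Cr (i0 : Fin d) (A : Finset (V d)) :
    Measurable (fun E : Edge d → ℝ => Cr i0 A E) := by
  unfold Cr
  exact Measurable.iInf fun q => (measurable_wt _ _).add (measurable_pi_apply _)

/-- the new vertex of a lateral boundary edge -/
noncomputable def nv (A : Finset (V d)) (e : Edge d) : V d := if e.1 ∈ A then e.1 + ev e.2 else e.1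

private theorem Cr_shift_edg {i0 : Fin d} {A : Finset (V d)} {x : V d} {s : Step d}
    (hs : s.1 ≠ i0) : edg x s ∈ Bd i0 A ↔ (x ∈ A ↔ x + vec s ∉ A) := by
  obtain ⟨j, b⟩ := s
  cases b
  · have h1 : edg x ((j, false) : Step d) = (x - ev j, j) := by simp [edg]
    have h2 : x + vec ((j, false) : Step d) = x - ev j := by simp [vec, sub_eq_add_neg]
    rw [h1, h2, mem_Bd]
    simp only [sub_add_cancel]
    simp only at hs
    tauto
  · have h1 : edg x ((j, true) : Step d) = (x, j) := by simp [edg]
    have h2 : x + vec ((j, true) : Step d) = x + ev j := by simp [vec]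
    rw [h1, h2, mem_Bd]
    simp only at hs ⊢
    tauto

private theorem Cr_shift_up {i0 : Fin d} {A : Finset (V d)} {x : V d} :
    ((x, i0) : Edge d) ∈ Bd i0 A ↔ x ∈ A := by
  rw [mem_Bd]
  simp

private theorem Cr_shift_out {i0 : Fin d} {A : Finset (V d)} {E : Edge d → ℝ} {t : ℝ} :
    ∀ (l : List (Step d)) (x : V d), Lat i0 l → (∀ l1 l2, l = l1 ++ l2 → endp x l1 ∉ A) →
      wt (fun e => if e ∈ Bd i0 A then E e - t else E e) x l +
        (if ((endp x l, i0) : Edge d) ∈ Bd i0 A then E (endp x l, i0) - t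
          else E (endp x l, i0)) = wt E x l + E (endp x l, i0) := by
  intro l
  induction l with
  | nil =>
    intro x _ h
    have hx : x ∉ A := h [] [] rfl
    rw [endp_nil, if_neg (fun h2 => hx (Cr_shift_up.mp h2)), wt_nil, wt_nil]
  | cons s l ih =>
    intro x hl h
    have hx : x ∉ A := h [] (s :: l) rfl
    have hx2 : x + vec s ∉ A := h [s] l rfl
    have hs : s.1 ≠ i0 := hl s (by simp)
    have he : edg x s ∉ Bd i0 A := fun h2 => by
      have := (Cr_shift_edg hs).mp h2
      exact hx (this.mpr hx2)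
    have := ih (x + vec s) (fun s' hs' => hl s' (List.mem_cons_of_mem _ hs'))
      (fun l1 l2 h12 => h (s :: l1) l2 (by rw [h12]; rfl))
    rw [endp_cons, wt_cons, wt_cons, if_neg he]
    linarith

private theorem Cr_shift_main {i0 : Fin d} {A : Finset (V d)} {E : Edge d → ℝ} {t : ℝ}
    (hE : ∀ e, 0 ≤ E e) (hE2 : ∀ e ∈ Bd i0 A, t ≤ E e) :
    ∀ (n : ℕ) (l : List (Step d)), l.length = n → ∀ x : V d, Lat i0 l → x ∈ A →
      Cr i0 A E ≤ t + (wt (fun e => if e ∈ Bd i0 A then E e - t else E e) x l +
        (if ((endp x l, i0) : Edge d) ∈ Bd i0 A then E (endp x l, i0) - t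
          else E (endp x l, i0))) := by
  have hE' : ∀ e, 0 ≤ (if e ∈ Bd i0 A then E e - t else E e) := fun e => by
    split_ifs with h
    · exact sub_nonneg.mpr (hE2 e h)
    · exact hE e
  intro n
  induction n using Nat.strong_induction_on with
  | _ n ih =>
    intro l hn x hl hx
    by_cases h : ∃ l1 l2 : List (Step d), l = l1 ++ l2 ∧ l1 ≠ [] ∧ endp x l1 ∈ A
    · obtain ⟨l1, l2, h12, hne, hA1⟩ := h
      have hlen : l2.length < n := by
        rw [← hn, h12, List.length_append]
        have := List.length_pos_iff.mpr hne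
        omega
      have h3 := ih l2.length hlen l2 rfl (endp x l1)
        (fun s hs => hl s (by rw [h12]; exact List.mem_append_right _ hs)) hA1
      have h4 := wt_nonneg hE' x l1
      rw [h12, wt_append, endp_append]
      linarith
    · cases l with
      | nil =>
        have h1 := Cr_le (i0 := i0) hE hx hl
        rw [wt_nil, endp_nil] at h1 ⊢
        rw [if_pos (Cr_shift_up.mpr hx)]
        linarith
      | cons s l =>
        have hs : s.1 ≠ i0 := hl s (by simp)
        have hx2 : x + vec s ∉ A := fun h2 => h ⟨[s], l, rfl, by simp, h2⟩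
        have he : edg x s ∈ Bd i0 A := (Cr_shift_edg hs).mpr ⟨fun _ => hx2, fun _ => hx⟩
        have h1 := Cr_le (i0 := i0) hE hx hl
        have h2 := Cr_shift_out (i0 := i0) (A := A) (E := E) (t := t) l (x + vec s)
          (fun s' hs' => hl s' (List.mem_cons_of_mem _ hs'))
          (fun l1 l2 h12 h3 => h ⟨s :: l1, l2, by rw [h12]; rfl, by simp, h3⟩)
        rw [wt_cons, endp_cons] at h1 ⊢
        rw [if_pos he]
        linarith

/-- MODULE BI1.  All the boundary edges can be shortened by `t`: a lateral walk from a point of `A`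
to `w` followed by the upward edge at `w`, cut at its last visit to `A`, uses exactly one boundary
edge (the first one, lateral or upward) after this visit. -/
theorem Cr_shift {i0 : Fin d} {A : Finset (V d)} (hA : A.Nonempty) {E : Edge d → ℝ} {t : ℝ}
    (ht : 0 ≤ t) (hE : ∀ e, 0 ≤ E e) (hE2 : ∀ e ∈ Bd i0 A, t ≤ E e) :
    Cr i0 A E ≤ t + Cr i0 A (fun e => if e ∈ Bd i0 A then E e - t else E e) := by

  have hE' : ∀ e, 0 ≤ (if e ∈ Bd i0 A then E e - t else E e) := fun e => by
    split_ifs with h
    · exact sub_nonneg.mpr (hE2 e h)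
    · exact hE e
  obtain ⟨v, hv⟩ := hA
  have : Nonempty {q : V d × List (Step d) // q.1 ∈ A ∧ Lat i0 q.2} :=
    ⟨⟨(v, []), hv, fun s hs => absurd hs (List.not_mem_nil)⟩⟩
  have key : Cr i0 A E - t ≤ Cr i0 A (fun e => if e ∈ Bd i0 A then E e - t else E e) := by
    refine le_ciInf fun q => ?_
    have := Cr_shift_main hE hE2 q.1.2.length q.1.2 rfl q.1.1 q.2.2 q.2.1
    linarith
  linarith

/-- MODULE BI2.  A boundary edge of length zero. -/
theorem Cr_zero {i0 : Fin d} {A : Finset (V d)} {E : Edge d → ℝ} (hE : ∀ e, 0 ≤ E e)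
    {e : Edge d} (he : e ∈ Bd i0 A) (h0 : E e = 0) :
    (e.2 = i0 → Cr i0 A E = 0) ∧ (e.2 ≠ i0 → Cr i0 A E ≤ Cr i0 (insert (nv A e) A) E) := by

  have hB := mem_Bd.mp he
  constructor
  · intro h2
    have h1 : e.1 ∈ A := by
      rcases hB with h | h
      · exact h.2
      · exact absurd h2 h.1
    refine le_antisymm ?_ (Cr_nonneg i0 A hE)
    have h3 := Cr_le (i0 := i0) (l := []) hE h1 (fun s hs => absurd hs (List.not_mem_nil))
    rw [wt_nil, endp_nil, zero_add] at h3
    have h4 : (e.1, i0) = e := by rw [← h2]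
    rwa [h4, h0] at h3
  · intro h2
    have hiff : e.1 ∈ A ↔ e.1 + ev e.2 ∉ A := by
      rcases hB with h | h
      · exact absurd h.1 h2
      · exact h.2
    have : Nonempty {q : V d × List (Step d) // q.1 ∈ insert (nv A e) A ∧ Lat i0 q.2} :=
      ⟨⟨(nv A e, []), Finset.mem_insert_self _ _, fun s hs => absurd hs (List.not_mem_nil)⟩⟩
    refine le_ciInf fun q => ?_
    obtain ⟨⟨v, l⟩, hv, hl⟩ := q
    simp only at hv hl ⊢
    rcases Finset.mem_insert.mp hv with h3 | h3
    · by_cases h4 : e.1 ∈ A
      · have hl' : Lat i0 ((e.2, true) :: l) := by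
          intro s hs
          rcases List.mem_cons.mp hs with h5 | h5
          · rw [h5]; exact h2
          · exact hl s h5
        have h6 := Cr_le hE h4 hl'
        have h7 : edg e.1 ((e.2, true) : Step d) = e := by simp [edg]
        have h8 : e.1 + vec ((e.2, true) : Step d) = v := by
          rw [h3, nv, if_pos h4]
          simp [vec]
        rwa [wt_cons, endp_cons, h7, h8, h0, zero_add] at h6
      · have h5 : e.1 + ev e.2 ∈ A := by
          by_contra h
          exact h4 (hiff.mpr h)
        have hl' : Lat i0 ((e.2, false) :: l) := by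
          intro s hs
          rcases List.mem_cons.mp hs with h5 | h5
          · rw [h5]; exact h2
          · exact hl s h5
        have h6 := Cr_le hE h5 hl'
        have h7 : edg (e.1 + ev e.2) ((e.2, false) : Step d) = e := by simp [edg]
        have h8 : e.1 + ev e.2 + vec ((e.2, false) : Step d) = v := by
          rw [h3, nv, if_neg h4]
          simp [vec]
        rwa [wt_cons, endp_cons, h7, h8, h0, zero_add] at h6
    · exact Cr_le hE h3 hl

/-- the crossing time is monotone in the configuration -/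
theorem Cr_mono {i0 : Fin d} {A : Finset (V d)} (hA : A.Nonempty) {E E' : Edge d → ℝ}
    (hE : ∀ e, 0 ≤ E e) (h : ∀ e, E e ≤ E' e) : Cr i0 A E ≤ Cr i0 A E' := by
  obtain ⟨v, hv⟩ := hA
  have : Nonempty {q : V d × List (Step d) // q.1 ∈ A ∧ Lat i0 q.2} :=
    ⟨⟨(v, []), hv, fun s hs => absurd hs (List.not_mem_nil)⟩⟩
  refine le_ciInf fun q => ?_
  refine (Cr_le hE q.2.1 q.2.2).trans ?_
  exact add_le_add (wt_mono _ _ fun e _ => h e) (h _)

private theorem shift_law_meas (a : Edge d) {h : (Edge d → ℝ) → ℝ} (hh : Measurable h) :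
    Measurable (fun E : Edge d → ℝ => Function.update E a (h E)) := by
  have := (prod_measurable_update a).comp (measurable_id.prodMk hh)
  exact this

private theorem shift_law_real {x : ℝ} (hx : 0 ≤ x) {g : ℝ → ENNReal} (hg : Measurable g) :
    ∫⁻ y, (Set.Ioi x).indicator (fun y => g (y - x)) y ∂mE =
      ENNReal.ofReal (Real.exp (-x)) * ∫⁻ y, g y ∂mE := by
  have hm : Measurable (fun y => (Set.Ioi x).indicator (fun y => g (y - x)) y) :=
    (hg.comp (measurable_id.sub_const x)).indicator measurableSet_Ioi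
  rw [lintegral_mE _ hm, lintegral_mE _ hg]
  have h1 : ∫⁻ y in Set.Ioi (0 : ℝ), (Set.Ioi x).indicator (fun y => g (y - x)) y *
      ENNReal.ofReal (Real.exp (-y)) =
      ∫⁻ y, (Set.Ioi x).indicator (fun y => g (y - x) * ENNReal.ofReal (Real.exp (-y))) y := by
    rw [← lintegral_indicator measurableSet_Ioi]
    refine lintegral_congr fun y => ?_
    by_cases h : y ∈ Set.Ioi x
    · have h0 : y ∈ Set.Ioi (0 : ℝ) := lt_of_le_of_lt hx h
      rw [Set.indicator_of_mem h0, Set.indicator_of_mem h, Set.indicator_of_mem h]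
    · rw [Set.indicator_of_notMem h]
      by_cases h0 : y ∈ Set.Ioi (0 : ℝ)
      · rw [Set.indicator_of_mem h0, Set.indicator_of_notMem h, zero_mul]
      · rw [Set.indicator_of_notMem h0]
  rw [h1, ← lintegral_add_right_eq_self _ x, ← lintegral_const_mul' _ _ ENNReal.ofReal_ne_top,
    ← lintegral_indicator measurableSet_Ioi]
  refine lintegral_congr fun z => ?_
  by_cases h : z ∈ Set.Ioi (0 : ℝ)
  · have h2 : z + x ∈ Set.Ioi x := by
      have : (0 : ℝ) < z := h
      change x < z + x
      linarith
    rw [Set.indicator_of_mem h, Set.indicator_of_mem h2, add_sub_cancel_right, neg_add,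
      Real.exp_add, ENNReal.ofReal_mul (Real.exp_pos _).le]
    ring
  · have h2 : z + x ∉ Set.Ioi x := by
      intro h3
      apply h
      have : x < z + x := h3
      change 0 < z
      linarith
    rw [Set.indicator_of_notMem h, Set.indicator_of_notMem h2]

private theorem shift_law_set (G : Finset (Edge d)) (x : ℝ) :
    MeasurableSet {E : Edge d → ℝ | ∀ g ∈ G, x < E g} := by
  have : {E : Edge d → ℝ | ∀ g ∈ G, x < E g} = ⋂ g ∈ G, {E : Edge d → ℝ | x < E g} := by
    ext E
    simp
  rw [this]
  exact Finset.measurableSet_biInter _ fun g _ =>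
    measurableSet_lt measurable_const (measurable_pi_apply g)

/-- resampling one coordinate, for integrals -/
private theorem shift_law_resample (e : Edge d) {h : (Edge d → ℝ) → ENNReal} (hh : Measurable h) :
    ∫⁻ E, h E ∂(PE d) = ∫⁻ y, ∫⁻ E, h (Function.update E e y) ∂(PE d) ∂mE := by
  rw [← (measurePreserving_update e).lintegral_comp hh]
  exact lintegral_prod_symm' _ (hh.comp (prod_measurable_update e))

private theorem shift_law_resample2 (e : Edge d) {h : (Edge d → ℝ) → ENNReal} (hh : Measurable h) :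
    ∫⁻ E, h E ∂(PE d) = ∫⁻ E, ∫⁻ y, h (Function.update E e y) ∂mE ∂(PE d) := by
  rw [← (measurePreserving_update e).lintegral_comp hh]
  exact lintegral_prod _ (hh.comp (prod_measurable_update e)).aemeasurable

private theorem shift_law_one (a : Edge d) {x : ℝ} (hx : 0 ≤ x) {f : (Edge d → ℝ) → ENNReal}
    (hf : Measurable f) :
    ∫⁻ E, {E : Edge d → ℝ | x < E a}.indicator (fun E => f (Function.update E a (E a - x))) E
      ∂(PE d) = ENNReal.ofReal (Real.exp (-x)) * ∫⁻ E, f E ∂(PE d) := by
  have hMa : Measurable (fun E : Edge d → ℝ => E a) := measurable_pi_apply a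
  have hM : Measurable (fun E : Edge d → ℝ => Function.update E a (E a - x)) :=
    shift_law_meas a (hMa.sub_const x)
  have hfM : Measurable (fun E : Edge d → ℝ => f (Function.update E a (E a - x))) := hf.comp hM
  have hset : MeasurableSet {E : Edge d → ℝ | x < E a} :=
    measurableSet_lt measurable_const (measurable_pi_apply a)
  rw [shift_law_resample2 a (hfM.indicator hset), shift_law_resample2 a hf,
    ← lintegral_const_mul' _ _ ENNReal.ofReal_ne_top]
  refine lintegral_congr fun E => ?_
  have hg : Measurable (fun y : ℝ => f (Function.update E a y)) :=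
    hf.comp ((prod_measurable_update a).comp (measurable_const.prodMk measurable_id))
  rw [← shift_law_real hx hg]
  refine lintegral_congr fun y => ?_
  by_cases h : x < y
  · have m1 : Function.update E a y ∈ {E : Edge d → ℝ | x < E a} := by
      change x < Function.update E a y a
      rw [Function.update_self]; exact h
    have m2 : y ∈ Set.Ioi x := h
    rw [Set.indicator_of_mem m1, Set.indicator_of_mem m2, Function.update_self,
      Function.update_idem]
  · have m1 : Function.update E a y ∉ {E : Edge d → ℝ | x < E a} := by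
      intro h2
      apply h
      have h2' : x < Function.update E a y a := h2
      rwa [Function.update_self] at h2'
    have m2 : y ∉ Set.Ioi x := h
    rw [Set.indicator_of_notMem m1, Set.indicator_of_notMem m2]

/-- MODULE SH1.  The exponential law shifted by `x`, for a finite set `G` of coordinates. -/
theorem shift_law (G : Finset (Edge d)) {x : ℝ} (hx : 0 ≤ x) {f : (Edge d → ℝ) → ENNReal}
    (hf : Measurable f) :
    ∫⁻ E in {E : Edge d → ℝ | ∀ g ∈ G, x < E g}, f (fun g => if g ∈ G then E g - x else E g)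
      ∂(PE d) = ENNReal.ofReal (Real.exp (-(x * G.card))) * ∫⁻ E, f E ∂(PE d) := by

  induction G using Finset.induction_on generalizing f with
  | empty => simp
  | insert a G ha ih =>
    have hMa : Measurable (fun E : Edge d → ℝ => E a) := measurable_pi_apply a
    have hM : Measurable (fun E : Edge d → ℝ => Function.update E a (E a - x)) :=
      shift_law_meas a (hMa.sub_const x)
    have hset : MeasurableSet {E : Edge d → ℝ | x < E a} :=
      measurableSet_lt measurable_const (measurable_pi_apply a)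
    have hf2 : Measurable (fun E : Edge d → ℝ =>
        {E : Edge d → ℝ | x < E a}.indicator (fun E => f (Function.update E a (E a - x))) E) :=
      (hf.comp hM).indicator hset
    have h1 := ih hf2
    have h2 := shift_law_one a hx hf
    rw [Finset.card_insert_of_notMem ha]
    have h3 : Real.exp (-(x * ((G.card + 1 : ℕ) : ℝ))) =
        Real.exp (-(x * G.card)) * Real.exp (-x) := by
      rw [← Real.exp_add]
      congr 1
      push_cast
      ring
    rw [h3, ENNReal.ofReal_mul (Real.exp_pos _).le, mul_assoc, ← h2, ← h1,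
      ← lintegral_indicator (shift_law_set _ _), ← lintegral_indicator (shift_law_set _ _)]
    refine lintegral_congr fun E => ?_
    have hEa : (fun g => if g ∈ G then E g - x else E g) a = E a := by
      simp only [ha, if_false]
    have hEu : Function.update (fun g => if g ∈ G then E g - x else E g) a (E a - x) =
        fun g => if g ∈ insert a G then E g - x else E g := by
      funext g
      by_cases hg : g = a
      · subst hg
        simp
      · rw [Function.update_of_ne hg]
        simp only [Finset.mem_insert, hg, false_or]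
    by_cases hE1 : ∀ g ∈ G, x < E g
    · by_cases hE2 : x < E a
      · have m1 : E ∈ {E : Edge d → ℝ | ∀ g ∈ insert a G, x < E g} := by
          intro g hg
          rcases Finset.mem_insert.mp hg with h | h
          · rw [h]; exact hE2
          · exact hE1 g h
        have m2 : E ∈ {E : Edge d → ℝ | ∀ g ∈ G, x < E g} := hE1
        have m3 : (fun g => if g ∈ G then E g - x else E g) ∈ {E : Edge d → ℝ | x < E a} := by
          change x < (fun g => if g ∈ G then E g - x else E g) a
          rw [hEa]; exact hE2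
        rw [Set.indicator_of_mem m1, Set.indicator_of_mem m2, Set.indicator_of_mem m3, hEa, hEu]
      · have m1 : E ∉ {E : Edge d → ℝ | ∀ g ∈ insert a G, x < E g} := fun h =>
          hE2 (h a (Finset.mem_insert_self _ _))
        have m2 : E ∈ {E : Edge d → ℝ | ∀ g ∈ G, x < E g} := hE1
        have m3 : (fun g => if g ∈ G then E g - x else E g) ∉ {E : Edge d → ℝ | x < E a} := by
          intro h
          apply hE2
          have h' : x < (fun g => if g ∈ G then E g - x else E g) a := h
          rwa [hEa] at h'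
        rw [Set.indicator_of_notMem m1, Set.indicator_of_mem m2, Set.indicator_of_notMem m3]
    · have m1 : E ∉ {E : Edge d → ℝ | ∀ g ∈ insert a G, x < E g} := fun h =>
        hE1 (fun g hg => h g (Finset.mem_insert_of_mem hg))
      have m2 : E ∉ {E : Edge d → ℝ | ∀ g ∈ G, x < E g} := hE1
      rw [Set.indicator_of_notMem m1, Set.indicator_of_notMem m2]

private theorem shift_min_set (F : Finset (Edge d)) (e : Edge d) :
    MeasurableSet {E : Edge d → ℝ | ∀ g ∈ F, g ≠ e → E e < E g} := by
  have : {E : Edge d → ℝ | ∀ g ∈ F, g ≠ e → E e < E g} =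
      ⋂ g ∈ F.erase e, {E : Edge d → ℝ | E e < E g} := by
    ext E
    simp only [Set.mem_iInter, Finset.mem_erase]
    exact ⟨fun h g hg => h g hg.2 hg.1, fun h g hg hge => h g ⟨hge, hg⟩⟩
  rw [this]
  exact Finset.measurableSet_biInter _ fun g _ =>
    measurableSet_lt (measurable_pi_apply e) (measurable_pi_apply g)

private theorem shift_min_exp (m : ℕ) :
    ∫⁻ y, ENNReal.ofReal (Real.exp (-(y * (m : ℝ)))) ∂mE =
      ENNReal.ofReal (1 / ((m : ℝ) + 1)) := by
  have h := ConeE.lintegral_exp_mE (s := -(m : ℝ)) (by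
    have : (0 : ℝ) ≤ m := Nat.cast_nonneg m
    linarith)
  have e1 : ∀ y : ℝ, -(m : ℝ) * y = -(y * (m : ℝ)) := fun y => by ring
  simp only [e1] at h
  rw [h]
  congr 2
  ring

/-- MODULE SH2.  Given that `e` has the smallest value among the coordinates in `F`, the
differences of the others with this value are again independent exponential variables (`f` is
monotone in the coordinate `e`, which is replaced by zero). -/
theorem shift_min (F : Finset (Edge d)) {e : Edge d} (he : e ∈ F) {f : (Edge d → ℝ) → ENNReal}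
    (hf : Measurable f)
    (hmono : ∀ E : Edge d → ℝ, (∀ g, 0 ≤ E g) → f (Function.update E e 0) ≤ f E) :
    ∫⁻ E in {E : Edge d → ℝ | ∀ g ∈ F, g ≠ e → E e < E g},
        f (Function.update (fun g => if g ∈ F then E g - E e else E g) e 0) ∂(PE d) ≤
      (F.card : ENNReal)⁻¹ * ∫⁻ E, f E ∂(PE d) := by

  have hMu : Measurable (fun E : Edge d → ℝ => Function.update E e 0) :=
    shift_law_meas e measurable_const
  have hfu : Measurable (fun E : Edge d → ℝ => f (Function.update E e 0)) := hf.comp hMu
  have hMd : Measurable (fun (E : Edge d → ℝ) (g : Edge d) => if g ∈ F then E g - E e else E g) := by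
    rw [measurable_pi_iff]
    intro g
    by_cases hg : g ∈ F
    · simp only [hg, if_true]
      exact (measurable_pi_apply g).sub (measurable_pi_apply e)
    · simp only [hg, if_false]
      exact measurable_pi_apply g
  have hm : Measurable (fun E : Edge d → ℝ =>
      f (Function.update (fun g => if g ∈ F then E g - E e else E g) e 0)) :=
    hf.comp (hMu.comp hMd)
  have hs := shift_min_set F e
  rw [← lintegral_indicator hs, shift_law_resample e (hm.indicator hs)]
  have h1 : ∀ᵐ y ∂mE, ∫⁻ E, {E : Edge d → ℝ | ∀ g ∈ F, g ≠ e → E e < E g}.indicator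
      (fun E => f (Function.update (fun g => if g ∈ F then E g - E e else E g) e 0))
        (Function.update E e y) ∂(PE d) =
      ENNReal.ofReal (Real.exp (-(y * ((F.erase e).card : ℝ)))) *
        ∫⁻ E, f (Function.update E e 0) ∂(PE d) := by
    filter_upwards [mE_ae_pos] with y hy
    rw [← shift_law (F.erase e) hy.le hfu,
      ← lintegral_indicator (shift_law_set _ _)]
    refine lintegral_congr fun E => ?_
    by_cases h : ∀ g ∈ F.erase e, y < E g
    · have m1 : Function.update E e y ∈
          {E : Edge d → ℝ | ∀ g ∈ F, g ≠ e → E e < E g} := by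
        intro g hg hge
        rw [Function.update_self, Function.update_of_ne hge]
        exact h g (Finset.mem_erase.mpr ⟨hge, hg⟩)
      have m2 : E ∈ {E : Edge d → ℝ | ∀ g ∈ F.erase e, y < E g} := h
      rw [Set.indicator_of_mem m1, Set.indicator_of_mem m2]
      congr 1
      funext g
      by_cases hg : g = e
      · subst hg
        rw [Function.update_self, Function.update_self]
      · rw [Function.update_of_ne hg, Function.update_of_ne hg, Function.update_self,
          Function.update_of_ne hg]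
        by_cases hgF : g ∈ F
        · rw [if_pos hgF, if_pos (Finset.mem_erase.mpr ⟨hg, hgF⟩)]
        · rw [if_neg hgF, if_neg (fun h => hgF (Finset.mem_of_mem_erase h))]
    · have m1 : Function.update E e y ∉
          {E : Edge d → ℝ | ∀ g ∈ F, g ≠ e → E e < E g} := by
        intro h2
        apply h
        intro g hg
        have hge := Finset.ne_of_mem_erase hg
        have h3 := h2 g (Finset.mem_of_mem_erase hg) hge
        rwa [Function.update_self, Function.update_of_ne hge] at h3
      have m2 : E ∉ {E : Edge d → ℝ | ∀ g ∈ F.erase e, y < E g} := h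
      rw [Set.indicator_of_notMem m1, Set.indicator_of_notMem m2]
  rw [lintegral_congr_ae h1, lintegral_mul_const _ (by fun_prop)]
  have h2 : ∫⁻ y, ENNReal.ofReal (Real.exp (-(y * ((F.erase e).card : ℝ)))) ∂mE =
      (F.card : ENNReal)⁻¹ := by
    have h3 := shift_min_exp (m := (F.erase e).card)
    rw [h3]
    have h4 : (F.erase e).card + 1 = F.card := Finset.card_erase_add_one he
    rw [← h4]
    rw [one_div, ENNReal.ofReal_inv_of_pos (by positivity)]
    congr 1
    rw [show (((F.erase e).card : ℝ) + 1) = (((F.erase e).card + 1 : ℕ) : ℝ) by push_cast; ring,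
      ENNReal.ofReal_natCast]
  rw [h2]
  refine mul_le_mul_right ?_ _
  refine lintegral_mono_ae ?_
  filter_upwards [ae_pos] with E hE
  exact hmono E (fun g => (hE g).le)

private theorem lintegral_min_exp (m : ℕ) :
    ∫⁻ y, ENNReal.ofReal y * ENNReal.ofReal (Real.exp (-(y * (m : ℝ)))) ∂mE =
      ENNReal.ofReal (1 / ((m : ℝ) + 1) ^ 2) := by
  have hm1 : (0 : ℝ) < (m : ℝ) + 1 := by positivity
  rw [lintegral_mE _ (by fun_prop)]
  have h1 : ∫⁻ y in Set.Ioi (0 : ℝ), ENNReal.ofReal y *
      ENNReal.ofReal (Real.exp (-(y * (m : ℝ)))) * ENNReal.ofReal (Real.exp (-y)) =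
      ∫⁻ y in Set.Ioi (0 : ℝ), ENNReal.ofReal (y ^ ((2 : ℝ) - 1) *
        Real.exp (-(((m : ℝ) + 1) * y))) := by
    refine setLIntegral_congr_fun measurableSet_Ioi (fun y hy => ?_)
    have hy' : (0 : ℝ) < y := hy
    rw [show (2 : ℝ) - 1 = 1 by norm_num, Real.rpow_one, mul_assoc,
      ← ENNReal.ofReal_mul (Real.exp_pos _).le, ← Real.exp_add, ← ENNReal.ofReal_mul hy'.le]
    congr 3
    ring
  have hint : IntegrableOn (fun y : ℝ => y ^ ((2 : ℝ) - 1) *
      Real.exp (-(((m : ℝ) + 1) * y))) (Set.Ioi 0) := by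
    have h := integrableOn_rpow_mul_exp_neg_mul_rpow (p := 1) (s := (2 : ℝ) - 1)
      (b := (m : ℝ) + 1) (by norm_num) one_pos hm1
    refine h.congr_fun (fun y _ => ?_) measurableSet_Ioi
    simp only [Real.rpow_one]
    congr 2
    ring
  rw [h1, ← ofReal_integral_eq_lintegral_ofReal hint]
  · rw [Real.integral_rpow_mul_exp_neg_mul_Ioi (by norm_num) hm1, Real.Gamma_two, mul_one]
    congr 1
    rw [Real.rpow_two, one_div, one_div, inv_pow]
  · refine (ae_restrict_iff' measurableSet_Ioi).mpr (Filter.Eventually.of_forall (fun x hx => ?_))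
    have hx' : (0 : ℝ) < x := hx
    exact mul_nonneg (Real.rpow_nonneg hx'.le _) (Real.exp_pos _).le

/-- MODULE SH3.  The expectation of the smallest of the coordinates in `F`. -/
theorem lintegral_min (F : Finset (Edge d)) {e : Edge d} (he : e ∈ F) :
    ∫⁻ E in {E : Edge d → ℝ | ∀ g ∈ F, g ≠ e → E e < E g}, ENNReal.ofReal (E e) ∂(PE d) =
      ((F.card : ENNReal) ^ 2)⁻¹ := by

  have hs := shift_min_set F e
  have hm : Measurable (fun E : Edge d → ℝ => ENNReal.ofReal (E e)) :=
    (measurable_pi_apply e).ennreal_ofReal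
  rw [← lintegral_indicator hs, shift_law_resample e (hm.indicator hs)]
  have h1 : ∀ᵐ y ∂mE, ∫⁻ E, {E : Edge d → ℝ | ∀ g ∈ F, g ≠ e → E e < E g}.indicator
      (fun E => ENNReal.ofReal (E e)) (Function.update E e y) ∂(PE d) =
      ENNReal.ofReal y * ENNReal.ofReal (Real.exp (-(y * ((F.erase e).card : ℝ)))) := by
    filter_upwards [mE_ae_pos] with y hy
    have h2 := shift_law (F.erase e) hy.le (f := fun _ : Edge d → ℝ => ENNReal.ofReal y)
      measurable_const
    have h3 : ∫⁻ _E : Edge d → ℝ, ENNReal.ofReal y ∂(PE d) = ENNReal.ofReal y := by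
      rw [lintegral_const, measure_univ, mul_one]
    rw [h3] at h2
    rw [mul_comm, ← h2, ← lintegral_indicator (shift_law_set _ _)]
    refine lintegral_congr fun E => ?_
    by_cases h : ∀ g ∈ F.erase e, y < E g
    · have m1 : Function.update E e y ∈
          {E : Edge d → ℝ | ∀ g ∈ F, g ≠ e → E e < E g} := by
        intro g hg hge
        rw [Function.update_self, Function.update_of_ne hge]
        exact h g (Finset.mem_erase.mpr ⟨hge, hg⟩)
      have m2 : E ∈ {E : Edge d → ℝ | ∀ g ∈ F.erase e, y < E g} := h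
      rw [Set.indicator_of_mem m1, Set.indicator_of_mem m2, Function.update_self]
    · have m1 : Function.update E e y ∉
          {E : Edge d → ℝ | ∀ g ∈ F, g ≠ e → E e < E g} := by
        intro h2
        apply h
        intro g hg
        have hge := Finset.ne_of_mem_erase hg
        have h3 := h2 g (Finset.mem_of_mem_erase hg) hge
        rwa [Function.update_self, Function.update_of_ne hge] at h3
      have m2 : E ∉ {E : Edge d → ℝ | ∀ g ∈ F.erase e, y < E g} := h
      rw [Set.indicator_of_notMem m1, Set.indicator_of_notMem m2]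
  rw [lintegral_congr_ae h1, lintegral_min_exp]
  have h4 : (F.erase e).card + 1 = F.card := Finset.card_erase_add_one he
  rw [← h4, one_div, ENNReal.ofReal_inv_of_pos (by positivity)]
  congr 1
  rw [show (((F.erase e).card : ℝ) + 1) = (((F.erase e).card + 1 : ℕ) : ℝ) by push_cast; ring,
    ENNReal.ofReal_pow (by positivity), ENNReal.ofReal_natCast]

private theorem Cr_first_ne {e g : Edge d} (h : e ≠ g) : ∀ᵐ E ∂(PE d), E e ≠ E g := by
  rw [ae_iff]
  simp only [ne_eq, not_not]
  have hs : MeasurableSet {E : Edge d → ℝ | E e = E g} :=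
    measurableSet_eq_fun (measurable_pi_apply e) (measurable_pi_apply g)
  rw [← (measurePreserving_update e).measure_preimage hs.nullMeasurableSet,
    Measure.prod_apply ((measurePreserving_update e).measurable hs)]
  have h1 : ∀ E : Edge d → ℝ, mE (Prod.mk E ⁻¹' ((fun q : (Edge d → ℝ) × ℝ =>
      Function.update q.1 e q.2) ⁻¹' {E : Edge d → ℝ | E e = E g})) = 0 := by
    intro E
    have h2 : (Prod.mk E ⁻¹' ((fun q : (Edge d → ℝ) × ℝ =>
        Function.update q.1 e q.2) ⁻¹' {E : Edge d → ℝ | E e = E g})) = {E g} := by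
      ext y
      simp only [Set.mem_preimage, Set.mem_singleton_iff]
      change (Function.update E e y) e = (Function.update E e y) g ↔ y = E g
      rw [Function.update_self, Function.update_of_ne (Ne.symm h)]
    rw [h2]
    exact ConeE.mE_singleton _
  simp only [h1, lintegral_zero]

private theorem Cr_first_ae (F : Finset (Edge d)) (hF : F.Nonempty) :
    ∀ᵐ E ∂(PE d), ∃ e ∈ F, ∀ g ∈ F, g ≠ e → E e < E g := by
  have h1 : ∀ᵐ E ∂(PE d), ∀ e g : Edge d, e ≠ g → E e ≠ E g := by
    rw [ae_all_iff]
    intro e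
    rw [ae_all_iff]
    intro g
    by_cases h : e = g
    · exact Filter.Eventually.of_forall fun E h2 => absurd h h2
    · filter_upwards [Cr_first_ne h] with E hE _ using hE
  filter_upwards [h1] with E hE
  obtain ⟨e, he, h2⟩ := F.exists_min_image (fun e => E e) hF
  exact ⟨e, he, fun g hg hge => lt_of_le_of_ne (h2 g hg) (hE e g (Ne.symm hge))⟩

private theorem Cr_first_union (F : Finset (Edge d)) (S : Edge d → Set (Edge d → ℝ))
    (h : (Edge d → ℝ) → ENNReal) :
    ∫⁻ E in ⋃ e ∈ F, S e, h E ∂(PE d) ≤ ∑ e ∈ F, ∫⁻ E in S e, h E ∂(PE d) := by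
  induction F using Finset.induction_on with
  | empty => simp
  | insert a F ha ih =>
    rw [Finset.set_biUnion_insert, Finset.sum_insert ha]
    exact (lintegral_union_le _ _ _).trans (add_le_add_right ih _)

private theorem Cr_first_split (F : Finset (Edge d)) (hF : F.Nonempty)
    (h : (Edge d → ℝ) → ENNReal) :
    ∫⁻ E, h E ∂(PE d) ≤
      ∑ e ∈ F, ∫⁻ E in {E : Edge d → ℝ | ∀ g ∈ F, g ≠ e → E e < E g}, h E ∂(PE d) := by
  have h1 : (⋃ e ∈ F, {E : Edge d → ℝ | ∀ g ∈ F, g ≠ e → E e < E g}) =ᵐ[PE d] Set.univ := by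
    rw [ae_eq_univ, ← mem_ae_iff]
    filter_upwards [Cr_first_ae F hF] with E hE
    obtain ⟨e, he, h2⟩ := hE
    simp only [Set.mem_iUnion]
    exact ⟨e, he, h2⟩
  rw [← setLIntegral_univ, ← setLIntegral_congr h1]
  exact Cr_first_union F _ h

private theorem Cr_first_point {i0 : Fin d} {A : Finset (V d)} (hA : A.Nonempty) {e : Edge d}
    (he : e ∈ Bd i0 A) {E : Edge d → ℝ} (hE : ∀ g, 0 ≤ E g)
    (hEs : ∀ g ∈ Bd i0 A, g ≠ e → E e < E g) :
    (e.2 = i0 → Cr i0 A E ≤ E e) ∧ (e.2 ≠ i0 → Cr i0 A E ≤ E e + Cr i0 (insert (nv A e) A)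
      (Function.update (fun g => if g ∈ Bd i0 A then E g - E e else E g) e 0)) := by
  have h1 : ∀ g ∈ Bd i0 A, E e ≤ E g := fun g hg => by
    by_cases h : g = e
    · rw [h]
    · exact (hEs g hg h).le
  have h2 := Cr_shift hA (hE e) hE h1
  have h3 : (fun g => if g ∈ Bd i0 A then E g - E e else E g) =
      Function.update (fun g => if g ∈ Bd i0 A then E g - E e else E g) e 0 := by
    funext g
    by_cases h : g = e
    · subst h
      rw [Function.update_self, if_pos he, sub_self]
    · rw [Function.update_of_ne h]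
  have h4 : ∀ g, 0 ≤ (fun g => if g ∈ Bd i0 A then E g - E e else E g) g := fun g => by
    simp only
    split_ifs with h
    · exact sub_nonneg.mpr (h1 g h)
    · exact hE g
  have h5 := Cr_zero h4 he (by simp only [if_pos he, sub_self])
  constructor
  · intro h
    rw [h5.1 h, add_zero] at h2
    exact h2
  · intro h
    rw [← h3]
    exact h2.trans (add_le_add_right (h5.2 h) _)

/-- MODULE BI3.  First step analysis: sum over the boundary edge with the smallest value. -/
theorem Cr_first {i0 : Fin d} {A : Finset (V d)} (hA : A.Nonempty) :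
    ∫⁻ E, ENNReal.ofReal (Cr i0 A E) ∂(PE d) ≤ ((Bd i0 A).card : ENNReal)⁻¹ *
      (1 + ∑ e ∈ (Bd i0 A).filter (fun e => e.2 ≠ i0),
        ∫⁻ E, ENNReal.ofReal (Cr i0 (insert (nv A e) A) E) ∂(PE d)) := by

  obtain ⟨v, hv⟩ := hA
  have hBne : (Bd i0 A).Nonempty := ⟨(v, i0), Cr_shift_up.mpr hv⟩
  have hn0 : ((Bd i0 A).card : ENNReal) ≠ 0 := by
    rw [Nat.cast_ne_zero]
    exact (Finset.card_pos.mpr hBne).ne'
  have hnt : ((Bd i0 A).card : ENNReal) ≠ ⊤ := ENNReal.natCast_ne_top _
  refine (Cr_first_split (Bd i0 A) hBne _).trans ?_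
  have h1 : ∀ e ∈ Bd i0 A,
      ∫⁻ E in {E : Edge d → ℝ | ∀ g ∈ Bd i0 A, g ≠ e → E e < E g},
        ENNReal.ofReal (Cr i0 A E) ∂(PE d) ≤
      (((Bd i0 A).card : ENNReal) ^ 2)⁻¹ + (if e.2 ≠ i0 then ((Bd i0 A).card : ENNReal)⁻¹ *
        ∫⁻ E, ENNReal.ofReal (Cr i0 (insert (nv A e) A) E) ∂(PE d) else 0) := by
    intro e he
    rw [← lintegral_min (Bd i0 A) he]
    by_cases h2 : e.2 = i0
    · rw [if_neg (fun h => h h2), add_zero]
      refine setLIntegral_mono_ae (measurable_pi_apply e).ennreal_ofReal.aemeasurable ?_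
      filter_upwards [ae_pos] with E hE hEs
      refine ENNReal.ofReal_le_ofReal ?_
      have h3 := (Cr_first_point ⟨v, hv⟩ he (fun g => (hE g).le) hEs).1 h2
      exact h3
    · rw [if_pos h2]
      have hMf : Measurable (fun E : Edge d → ℝ =>
          ENNReal.ofReal (Cr i0 (insert (nv A e) A) E)) :=
        (measurable_Cr i0 _).ennreal_ofReal
      refine le_trans ?_ (add_le_add_right (shift_min (Bd i0 A) he hMf (fun E hE => ?_)) _)
      · rw [← lintegral_add_left (measurable_pi_apply e).ennreal_ofReal]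
        refine setLIntegral_mono_ae' (shift_min_set _ _) ?_
        filter_upwards [ae_pos] with E hE hEs
        rw [← ENNReal.ofReal_add (hE e).le]
        · refine ENNReal.ofReal_le_ofReal ?_
          exact (Cr_first_point ⟨v, hv⟩ he (fun g => (hE g).le) hEs).2 h2
        · refine Cr_nonneg _ _ (fun g => ?_)
          by_cases hg : g = e
          · subst hg
            rw [Function.update_self]
          · rw [Function.update_of_ne hg]
            split_ifs with hgB
            · exact sub_nonneg.mpr (hEs g hgB hg).le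
            · exact (hE g).le
      · refine ENNReal.ofReal_le_ofReal (Cr_mono (Finset.insert_nonempty _ _) (fun g => ?_)
          (fun g => ?_))
        · by_cases hg : g = e
          · subst hg
            rw [Function.update_self]
          · rw [Function.update_of_ne hg]
            exact hE g
        · by_cases hg : g = e
          · subst hg
            rw [Function.update_self]
            exact hE g
          · rw [Function.update_of_ne hg]
  refine (Finset.sum_le_sum h1).trans (le_of_eq ?_)
  rw [Finset.sum_add_distrib, Finset.sum_const, nsmul_eq_mul, ← Finset.sum_filter, mul_add,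
    mul_one, Finset.mul_sum]
  congr 1
  rw [pow_two, ENNReal.mul_inv (Or.inl hn0) (Or.inl hnt), ← mul_assoc,
    ENNReal.mul_inv_cancel hn0 hnt, one_mul]

/-- MODULE BI4.  The crossing time is at most the smallest of the values of the edges upwards. -/
theorem Cr_crude {i0 : Fin d} {A : Finset (V d)} (hA : A.Nonempty) :
    ∫⁻ E, ENNReal.ofReal (Cr i0 A E) ∂(PE d) ≤ (A.card : ENNReal)⁻¹ := by

  obtain ⟨v, hv⟩ := hA
  set F : Finset (Edge d) := A ×ˢ {i0} with hF
  have hFc : F.card = A.card := by
    rw [hF, Finset.card_product, Finset.card_singleton, mul_one]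
  have hFne : F.Nonempty := ⟨(v, i0), by rw [hF]; simp [hv]⟩
  have hn0 : (F.card : ENNReal) ≠ 0 := by
    rw [Nat.cast_ne_zero]
    exact (Finset.card_pos.mpr hFne).ne'
  have hnt : (F.card : ENNReal) ≠ ⊤ := ENNReal.natCast_ne_top _
  refine (Cr_first_split F hFne _).trans ?_
  have h1 : ∀ e ∈ F, ∫⁻ E in {E : Edge d → ℝ | ∀ g ∈ F, g ≠ e → E e < E g},
      ENNReal.ofReal (Cr i0 A E) ∂(PE d) ≤ ((F.card : ENNReal) ^ 2)⁻¹ := by
    intro e he
    rw [← lintegral_min F he]
    refine setLIntegral_mono_ae (measurable_pi_apply e).ennreal_ofReal.aemeasurable ?_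
    filter_upwards [ae_pos] with E hE _
    refine ENNReal.ofReal_le_ofReal ?_
    rw [hF, Finset.mem_product, Finset.mem_singleton] at he
    have h3 := Cr_le (i0 := i0) (l := []) (fun g => (hE g).le) he.1
      (fun s hs => absurd hs (List.not_mem_nil))
    rw [wt_nil, endp_nil, zero_add] at h3
    have h4 : (e.1, i0) = e := by rw [← he.2]
    rwa [h4] at h3
  refine (Finset.sum_le_sum h1).trans (le_of_eq ?_)
  rw [Finset.sum_const, nsmul_eq_mul, ← hFc, pow_two, ENNReal.mul_inv (Or.inl hn0) (Or.inl hnt),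
    ← mul_assoc, ENNReal.mul_inv_cancel hn0 hnt, one_mul]

/-- the bounds for the expected crossing times from sets of `N - m` points -/
noncomputable def Vb (D : ℝ) (N : ℕ) : ℕ → ℝ
  | 0 => 1 / N
  | m + 1 => 1 / ((D + 1) * ((N : ℝ) - (m + 1))) + D / (D + 1) * Vb D N m

/-- MODULE BI5.  `Vb D N m ≤ 1 / (N - m)` and the sum: with `x = D / (D + 1)`,
`Vb D N (N - 1) = ∑_{k=1}^{N-1} x ^ (k - 1) / ((D + 1) k) + x ^ (N - 1) / N` and
`∑ x ^ k / k ≤ - log (1 - x) = log (D + 1)`. -/
theorem Vb_le {D : ℝ} (hD : 0 < D) {N : ℕ} (hN : 0 < N) :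
    (∀ m, m < N → 0 ≤ Vb D N m ∧ Vb D N m ≤ 1 / ((N : ℝ) - m)) ∧
    Vb D N (N - 1) ≤ Real.log (D + 1) / D + 1 / N := by

  have hD1 : (0 : ℝ) < D + 1 := by linarith
  refine ⟨?_, ?_⟩
  · intro m
    induction m with
    | zero =>
      intro _
      rw [Vb, Nat.cast_zero, sub_zero]
      exact ⟨by positivity, le_refl _⟩
    | succ m ih =>
      intro hm
      obtain ⟨i1, i2⟩ := ih (by omega)
      have hm' : ((m : ℝ) + 1) < N := by exact_mod_cast hm
      have hp : (0 : ℝ) < (N : ℝ) - ((m : ℝ) + 1) := by linarith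
      rw [Vb]
      push_cast
      constructor
      · have : 0 ≤ 1 / ((D + 1) * ((N : ℝ) - ((m : ℝ) + 1))) := by positivity
        have : 0 ≤ D / (D + 1) * Vb D N m := by positivity
        linarith
      · have e1 : 1 / ((N : ℝ) - m) ≤ 1 / ((N : ℝ) - ((m : ℝ) + 1)) :=
          one_div_le_one_div_of_le hp (by linarith)
        have e2 : D / (D + 1) * Vb D N m ≤ D / (D + 1) * (1 / ((N : ℝ) - ((m : ℝ) + 1))) :=
          mul_le_mul_of_nonneg_left (i2.trans e1) (by positivity)
        have e3 : 1 / ((D + 1) * ((N : ℝ) - ((m : ℝ) + 1))) +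
            D / (D + 1) * (1 / ((N : ℝ) - ((m : ℝ) + 1))) = 1 / ((N : ℝ) - ((m : ℝ) + 1)) := by
          field_simp
          ring
        linarith
  · set x : ℝ := D / (D + 1) with hx
    have hx0 : 0 < x := by positivity
    have hx1 : x < 1 := by rw [hx, div_lt_one hD1]; linarith
    have hxD : 1 - x = 1 / (D + 1) := by rw [hx]; field_simp; ring
    have hform : ∀ m, m < N → Vb D N m = x ^ m / N +
        ∑ i ∈ Finset.range m, x ^ i / ((D + 1) * ((N : ℝ) - m + i)) := by
      intro m
      induction m with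
      | zero =>
        intro _
        simp [Vb]
      | succ m ih =>
        intro hm
        rw [Vb, ih (by omega), Finset.sum_range_succ', ← hx, mul_add, Finset.mul_sum]
        have e1 : ∀ i ∈ Finset.range m, x * (x ^ i / ((D + 1) * ((N : ℝ) - m + i))) =
            x ^ (i + 1) / ((D + 1) * ((N : ℝ) - ((m + 1 : ℕ) : ℝ) + ((i + 1 : ℕ) : ℝ))) := by
          intro i _
          rw [mul_div_assoc', pow_succ']
          congr 2
          push_cast
          ring
        rw [Finset.sum_congr rfl e1]
        push_cast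
        rw [pow_succ']
        ring
    have hsum : ∑ i ∈ Finset.range (N - 1), x ^ (i + 1) / ((i : ℝ) + 1) ≤ Real.log (D + 1) := by
      have h1 := Real.hasSum_pow_div_log_of_abs_lt_one (x := x)
        (by rw [abs_of_pos hx0]; exact hx1)
      have h2 := sum_le_hasSum (Finset.range (N - 1)) (fun i _ => by positivity) h1
      rw [hxD, one_div, Real.log_inv, neg_neg] at h2
      exact h2
    have hN1 : ((N - 1 : ℕ) : ℝ) = (N : ℝ) - 1 := by
      rw [Nat.cast_sub hN, Nat.cast_one]
    rw [hform (N - 1) (by omega), hN1]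
    have e1 : ∀ i ∈ Finset.range (N - 1), x ^ i / ((D + 1) * ((N : ℝ) - ((N : ℝ) - 1) + i)) =
        (1 / D) * (x ^ (i + 1) / ((i : ℝ) + 1)) := by
      intro i _
      have h1 : (N : ℝ) - ((N : ℝ) - 1) + i = (i : ℝ) + 1 := by ring
      have h2 : x ^ (i + 1) = x ^ i * (D / (D + 1)) := by rw [pow_succ, hx]
      rw [h1, h2]
      have h3 : (0 : ℝ) < (i : ℝ) + 1 := by positivity
      field_simp
    rw [Finset.sum_congr rfl e1, ← Finset.mul_sum]
    have e2 : (1 / D) * ∑ i ∈ Finset.range (N - 1), x ^ (i + 1) / ((i : ℝ) + 1) ≤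
        (1 / D) * Real.log (D + 1) := mul_le_mul_of_nonneg_left hsum (by positivity)
    have e3 : x ^ (N - 1) / (N : ℝ) ≤ 1 / N := by
      have : x ^ (N - 1) ≤ 1 := pow_le_one₀ hx0.le hx1.le
      exact div_le_div_of_nonneg_right this (Nat.cast_nonneg _)
    have e4 : (1 / D) * Real.log (D + 1) = Real.log (D + 1) / D := by ring
    linarith

/-- MODULE BI6.  Induction on `m` (the number of points is `N - m`, `N = d ^ 2`) with `Cr_first`,
`Cr_crude`, `card_Bd`: `1 / n + (1 - k / n) V` is non-increasing in `n` if `k V ≤ 1`. -/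
theorem Cr_bound {i0 : Fin d} (hd : 2 ≤ d)
    (hD : 0 < 2 * ((d : ℝ) - 1) - 2 * (Real.log d / Real.log 2)) :
    ∀ m, m < d ^ 2 → ∀ A : Finset (V d), A.card = d ^ 2 - m →
      ∫⁻ E, ENNReal.ofReal (Cr i0 A E) ∂(PE d) ≤
        ENNReal.ofReal (Vb (2 * ((d : ℝ) - 1) - 2 * (Real.log d / Real.log 2)) (d ^ 2) m) := by

  have h0 : 0 < d ^ 2 := by positivity
  set D : ℝ := 2 * ((d : ℝ) - 1) - 2 * (Real.log d / Real.log 2) with hDdef
  have hVb := (Vb_le hD h0).1
  intro m
  induction m with
  | zero =>
    intro _ A hA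
    have hAc : A.card = d ^ 2 := by rw [hA]; rfl
    have hAne : A.Nonempty := Finset.card_pos.mp (by omega)
    refine (Cr_crude hAne).trans (le_of_eq ?_)
    rw [hAc, Vb, one_div, ENNReal.ofReal_inv_of_pos (by positivity), ENNReal.ofReal_natCast]
  | succ m ih =>
    intro hm A hA
    have hAne : A.Nonempty := Finset.card_pos.mp (by omega)
    obtain ⟨V0, V1⟩ := hVb m (by omega)
    obtain ⟨c1, c2⟩ := card_Bd i0 A hAne (by omega)
    rw [← hDdef] at c1
    have hlat : ((Bd i0 A).filter (fun e => e.2 ≠ i0)).card + A.card = (Bd i0 A).card := by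
      rw [← c2, add_comm]
      exact Finset.card_filter_add_card_filter_not _
    have hI : ∀ e ∈ (Bd i0 A).filter (fun e => e.2 ≠ i0),
        ∫⁻ E, ENNReal.ofReal (Cr i0 (insert (nv A e) A) E) ∂(PE d) ≤
          ENNReal.ofReal (Vb D (d ^ 2) m) := by
      intro e he
      rw [Finset.mem_filter, mem_Bd] at he
      refine ih (by omega) _ ?_
      rw [Finset.card_insert_of_notMem, hA]
      · omega
      · have hiff : e.1 ∈ A ↔ e.1 + ev e.2 ∉ A := by
          rcases he.1 with h | h
          · exact absurd h.1 he.2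
          · exact h.2
        rw [nv]
        split_ifs with h
        · exact hiff.mp h
        · exact h
    refine (Cr_first hAne).trans ?_
    have hn0 : 0 < (Bd i0 A).card := by
      have := Finset.card_pos.mpr hAne
      omega
    have hn0' : (0 : ℝ) < (Bd i0 A).card := by exact_mod_cast hn0
    have step1 : ((Bd i0 A).card : ENNReal)⁻¹ *
        (1 + ∑ e ∈ (Bd i0 A).filter (fun e => e.2 ≠ i0),
          ∫⁻ E, ENNReal.ofReal (Cr i0 (insert (nv A e) A) E) ∂(PE d)) ≤
        ((Bd i0 A).card : ENNReal)⁻¹ *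
          (1 + (((Bd i0 A).filter (fun e => e.2 ≠ i0)).card : ENNReal) *
            ENNReal.ofReal (Vb D (d ^ 2) m)) := by
      refine mul_le_mul_right (add_le_add_right ?_ _) _
      refine (Finset.sum_le_sum hI).trans (le_of_eq ?_)
      rw [Finset.sum_const, nsmul_eq_mul]
    refine step1.trans ?_
    have step2 : ((Bd i0 A).card : ENNReal)⁻¹ *
          (1 + (((Bd i0 A).filter (fun e => e.2 ≠ i0)).card : ENNReal) *
            ENNReal.ofReal (Vb D (d ^ 2) m)) =
        ENNReal.ofReal (((Bd i0 A).card : ℝ)⁻¹ *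
          (1 + (((Bd i0 A).filter (fun e => e.2 ≠ i0)).card : ℝ) * Vb D (d ^ 2) m)) := by
      rw [ENNReal.ofReal_mul (by positivity), ENNReal.ofReal_inv_of_pos hn0',
        ENNReal.ofReal_natCast, ENNReal.ofReal_add zero_le_one (by positivity),
        ENNReal.ofReal_one, ENNReal.ofReal_mul (Nat.cast_nonneg _), ENNReal.ofReal_natCast]
    rw [step2]
    refine ENNReal.ofReal_le_ofReal ?_
    -- the real inequality
    have hk0 : 0 < A.card := Finset.card_pos.mpr hAne
    have hk0' : (0 : ℝ) < A.card := by exact_mod_cast hk0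
    have hkN : (A.card : ℝ) = ((d ^ 2 : ℕ) : ℝ) - (m + 1) := by
      rw [hA, Nat.cast_sub (by omega)]
      push_cast
      ring
    have hlatR : (((Bd i0 A).filter (fun e => e.2 ≠ i0)).card : ℝ) =
        (Bd i0 A).card - A.card := by
      have : (((Bd i0 A).filter (fun e => e.2 ≠ i0)).card : ℝ) + A.card = (Bd i0 A).card := by
        exact_mod_cast hlat
      linarith
    rw [hlatR, Vb]
    set W := Vb D (d ^ 2) m with hW
    set n : ℝ := ((Bd i0 A).card : ℝ) with hn
    set k : ℝ := (A.card : ℝ) with hk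
    have hkW : k * W ≤ 1 := by
      have e1 : ((d ^ 2 : ℕ) : ℝ) - m = k + 1 := by rw [hkN]; ring
      rw [e1] at V1
      have e2 : k * W ≤ k * (1 / (k + 1)) := mul_le_mul_of_nonneg_left V1 hk0'.le
      have e3 : k * (1 / (k + 1)) ≤ 1 := by
        rw [mul_one_div, div_le_one (by linarith)]
        linarith
      linarith
    have e4 : n⁻¹ * (1 + (n - k) * W) = W + (1 - k * W) * n⁻¹ := by
      field_simp
      ring
    have e5 : 1 / ((D + 1) * (((d ^ 2 : ℕ) : ℝ) - (m + 1))) + D / (D + 1) * W =
        W + (1 - k * W) * ((D + 1) * k)⁻¹ := by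
      rw [← hkN]
      have : (0 : ℝ) < D + 1 := by linarith
      field_simp
      ring
    rw [e4, e5]
    have e6 : n⁻¹ ≤ ((D + 1) * k)⁻¹ := by
      refine inv_anti₀ (by positivity) ?_
      linarith
    have e7 : (1 - k * W) * n⁻¹ ≤ (1 - k * W) * ((D + 1) * k)⁻¹ :=
      mul_le_mul_of_nonneg_left e6 (by linarith)
    linarith

/-- the bound for the expected time to cross a level -/
noncomputable def Ud (d : ℕ) : ℝ :=
  Real.log (2 * ((d : ℝ) - 1) - 2 * (Real.log d / Real.log 2) + 1) /
    (2 * ((d : ℝ) - 1) - 2 * (Real.log d / Real.log 2)) + 1 / (d : ℝ) ^ 2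

theorem Cr_single {i0 : Fin d} (hd : 2 ≤ d)
    (hD : 0 < 2 * ((d : ℝ) - 1) - 2 * (Real.log d / Real.log 2)) (w : V d) :
    ∫⁻ E, ENNReal.ofReal (Cr i0 {w} E) ∂(PE d) ≤ ENNReal.ofReal (Ud d) := by
  have h0 : 0 < d ^ 2 := by positivity
  refine (Cr_bound hd hD (d ^ 2 - 1) (by omega) {w} ?_).trans ?_
  · rw [Finset.card_singleton]; omega
  · refine ENNReal.ofReal_le_ofReal ?_
    have := (Vb_le hD h0).2
    rw [Ud]
    push_cast at this
    exact this

end ConeD
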