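import Pool.Agent.ConeD.PathCount
import Pool.Agent.ConeD.Birth

/-!
# The comparison of the two bounds in high dimension (section 5 (b) of the text)
-/

set_option autoImplicit false

namespace ConeD

variable {d : ℕ}

open Filter

/-- no coordinate dominates -/
def Flat (y : V d) : Prop := 0 < nrm y ∧ ∀ j, |(y j : ℝ)| ≤ 3 / 4 * nrm y

private theorem AS1_cosh {t s : ℝ} (ht : t ^ 2 ≤ 1) :
    Real.cosh (t * s) - 1 ≤ t ^ 2 * (Real.cosh s - 1) := by
  have h1 := Real.hasSum_cosh (t * s)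
  have h2 := (Real.hasSum_cosh s).mul_left (t ^ 2)
  have h3 : HasSum (fun n : ℕ => if n = 0 then (1 - t ^ 2) else 0) (1 - t ^ 2) :=
    hasSum_ite_eq 0 (1 - t ^ 2)
  have h4 := h3.add h2
  have h5 := hasSum_le (fun n => ?_) h1 h4
  · linarith
  · rcases Nat.eq_zero_or_pos n with h0 | h0
    · subst h0
      simp
    · rw [if_neg h0.ne', zero_add, mul_pow, pow_mul t 2 n, mul_div_assoc]
      refine mul_le_mul_of_nonneg_right ?_ (by rw [pow_mul]; positivity)
      calc (t ^ 2) ^ n ≤ (t ^ 2) ^ 1 := pow_le_pow_of_le_one (sq_nonneg t) ht h0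
        _ = t ^ 2 := pow_one _

private theorem AS1_nrm (y : V d) : nrm y ^ 2 = ∑ j : Fin d, ((y j : ℝ)) ^ 2 :=
  Real.sq_sqrt (Finset.sum_nonneg fun _ _ => sq_nonneg _)

/-- MODULE AS1.  `cosh (t s) - 1 ≤ t ^ 2 (cosh s - 1)` for `|t| ≤ 1` (`cosh x - 1 = 2 sinh² (x/2)`
and convexity of `sinh` on the positive half line); for `y` flat and `q = λ y / |y|`:
`Qc q ≤ d + 16 / 9 (cosh (3 λ / 4) - 1)`. -/
theorem Qc_le {y : V d} (hy : Flat y) {lam : ℝ} (hl : 0 ≤ lam) :
    (d : ℝ) ≤ Qc (fun j => lam * ((y j : ℝ) / nrm y)) ∧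
    Qc (fun j => lam * ((y j : ℝ) / nrm y)) ≤ d + 16 / 9 * (Real.cosh (3 / 4 * lam) - 1) := by
  obtain ⟨hn, hf⟩ := hy
  constructor
  · unfold Qc
    calc (d : ℝ) = ∑ _j : Fin d, (1 : ℝ) := by simp
      _ ≤ _ := Finset.sum_le_sum fun j _ => Real.one_le_cosh _
  · have h1 : ∀ j, Real.cosh (lam * ((y j : ℝ) / nrm y)) ≤
        1 + (4 / 3 * ((y j : ℝ) / nrm y)) ^ 2 * (Real.cosh (3 / 4 * lam) - 1) := by
      intro j
      have h2 : (4 / 3 * ((y j : ℝ) / nrm y)) ^ 2 ≤ 1 := by
        have h3 : |(y j : ℝ)| / nrm y ≤ 3 / 4 := by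
          rw [div_le_iff₀ hn]
          exact hf j
        have h4 : |4 / 3 * ((y j : ℝ) / nrm y)| = 4 / 3 * (|(y j : ℝ)| / nrm y) := by
          rw [abs_mul, abs_of_pos (by norm_num : (0 : ℝ) < 4 / 3), abs_div, abs_of_pos hn]
        rw [sq_le_one_iff_abs_le_one, h4]
        linarith
      have h5 := AS1_cosh (s := 3 / 4 * lam) h2
      have h6 : 4 / 3 * ((y j : ℝ) / nrm y) * (3 / 4 * lam) = lam * ((y j : ℝ) / nrm y) := by ring
      rw [h6] at h5
      linarith
    unfold Qc
    refine (Finset.sum_le_sum fun j _ => h1 j).trans (le_of_eq ?_)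
    rw [Finset.sum_add_distrib, ← Finset.sum_mul]
    have h7 : ∑ j : Fin d, (4 / 3 * ((y j : ℝ) / nrm y)) ^ 2 = 16 / 9 := by
      have h8 : ∀ j : Fin d, (4 / 3 * ((y j : ℝ) / nrm y)) ^ 2 =
          16 / 9 / nrm y ^ 2 * (y j : ℝ) ^ 2 := fun j => by
        field_simp
        ring
      rw [Finset.sum_congr rfl fun j _ => h8 j, ← Finset.mul_sum, ← AS1_nrm]
      field_simp
    rw [h7]
    simp

/-- the lower bound for the energy in flat directions -/
noncomputable def Md (d : ℕ) : ℝ :=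
  5 / 4 * Real.log d / (2 * (d + 16 / 9 * (Real.cosh (15 / 16 * Real.log d) - 1)))

/-- MODULE AS2.  From `hm_low_exp` with `λ = 5/4 log d` (`log (1 + x) ≤ x`; if `pr z y ≤ 0` the
claim is `hm_nonneg`). -/
theorem flat_low (hd : 2 ≤ d) {y : V d} (hy : Flat y) (z : V d) : Md d * pr z y - 1 ≤ hm z := by
  have hd0 : (2 : ℝ) ≤ d := by exact_mod_cast hd
  have hlog : 0 ≤ Real.log d := Real.log_nonneg (by linarith)
  have hl : 0 ≤ 5 / 4 * Real.log d := by positivity
  obtain ⟨h1, h2⟩ := Qc_le hy hl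
  have e1 : 3 / 4 * (5 / 4 * Real.log d) = 15 / 16 * Real.log d := by ring
  rw [e1] at h2
  set Q := Qc (fun j => 5 / 4 * Real.log d * ((y j : ℝ) / nrm y)) with hQ
  have hQ0 : 0 < Q := by linarith
  have hc : 0 ≤ Real.cosh (15 / 16 * Real.log d) - 1 := by
    have := Real.one_le_cosh (15 / 16 * Real.log d)
    linarith
  have hQ' : 0 < 2 * ((d : ℝ) + 16 / 9 * (Real.cosh (15 / 16 * Real.log d) - 1)) := by positivity
  have hM : 0 ≤ Md d := by
    unfold Md
    positivity
  rcases le_total (pr z y) 0 with hp | hp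
  · have h3 := hm_nonneg z
    have h4 := mul_nonpos_of_nonneg_of_nonpos hM hp
    linarith
  · have h3 := hm_low_exp (by omega) (fun j => 5 / 4 * Real.log d * ((y j : ℝ) / nrm y)) z
    rw [← hQ] at h3
    have h4 : ∑ j, 5 / 4 * Real.log d * ((y j : ℝ) / nrm y) * (z j : ℝ) =
        5 / 4 * Real.log d * pr z y := by
      unfold pr ip
      rw [Finset.sum_div, Finset.mul_sum]
      refine Finset.sum_congr rfl fun j _ => ?_
      ring
    rw [h4, sub_div] at h3
    have h5 : Real.log (1 + 2 * Q) / (2 * Q) ≤ 1 := by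
      rw [div_le_one (by linarith)]
      have := Real.log_le_sub_one_of_pos (by linarith : 0 < 1 + 2 * Q)
      linarith
    have h6 : Md d * pr z y ≤ 5 / 4 * Real.log d * pr z y / (2 * Q) := by
      unfold Md
      rw [div_mul_eq_mul_div]
      exact div_le_div_of_nonneg_left (mul_nonneg hl hp) (by linarith) (by linarith)
    linarith

private theorem AS3_logx : Tendsto (fun x : ℝ => Real.log x / x) atTop (nhds 0) := by
  have h := Real.isLittleO_log_id_atTop.tendsto_div_nhds_zero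
  simpa using h

private theorem AS3_M : Tendsto (fun x : ℝ => 5 / 4 * Real.log x /
    (2 * (x + 16 / 9 * (Real.cosh (15 / 16 * Real.log x) - 1))) * (2 * x / Real.log x)) atTop
    (nhds (5 / 4)) := by
  have h1 : Tendsto (fun x : ℝ => (Real.cosh (15 / 16 * Real.log x) - 1) / x) atTop (nhds 0) := by
    refine tendsto_of_tendsto_of_tendsto_of_le_of_le' tendsto_const_nhds
      (tendsto_rpow_neg_atTop (y := 1 / 16) (by norm_num)) ?_ ?_
    · filter_upwards [eventually_ge_atTop 1] with x hx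
      have := Real.one_le_cosh (15 / 16 * Real.log x)
      exact div_nonneg (by linarith) (by linarith)
    · filter_upwards [eventually_ge_atTop 1] with x hx
      have hx0 : 0 < x := by linarith
      rw [div_le_iff₀ hx0]
      have e1 : x ^ (-(1 / 16) : ℝ) * x = x ^ (15 / 16 : ℝ) := by
        nth_rewrite 2 [← Real.rpow_one x]
        rw [← Real.rpow_add hx0]
        norm_num
      have e2 : Real.exp (15 / 16 * Real.log x) = x ^ (15 / 16 : ℝ) := by
        rw [Real.rpow_def_of_pos hx0, mul_comm]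
      rw [e1, ← e2]
      have hl : 0 ≤ Real.log x := Real.log_nonneg hx
      have e3 : Real.cosh (15 / 16 * Real.log x) ≤ Real.exp (15 / 16 * Real.log x) := by
        rw [Real.cosh_eq]
        have : Real.exp (-(15 / 16 * Real.log x)) ≤ Real.exp (15 / 16 * Real.log x) :=
          Real.exp_le_exp.2 (by linarith)
        linarith
      linarith
  have h2 : Tendsto (fun x : ℝ => 5 / 4 / (1 + 16 / 9 *
      ((Real.cosh (15 / 16 * Real.log x) - 1) / x))) atTop (nhds (5 / 4 / (1 + 16 / 9 * 0))) :=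
    tendsto_const_nhds.div ((h1.const_mul _).const_add 1) (by norm_num)
  have e : (5 / 4 / (1 + 16 / 9 * 0) : ℝ) = 5 / 4 := by norm_num
  rw [e] at h2
  refine h2.congr' ?_
  filter_upwards [eventually_gt_atTop 1] with x hx
  have hx0 : 0 < x := by linarith
  have hl : 0 < Real.log x := Real.log_pos hx
  have hc := Real.one_le_cosh (15 / 16 * Real.log x)
  have h3 : 0 < x + 16 / 9 * (Real.cosh (15 / 16 * Real.log x) - 1) := by
    have : 0 ≤ Real.cosh (15 / 16 * Real.log x) - 1 := by linarith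
    positivity
  have h4 : 1 + 16 / 9 * ((Real.cosh (15 / 16 * Real.log x) - 1) / x) =
      (x + 16 / 9 * (Real.cosh (15 / 16 * Real.log x) - 1)) / x := by
    field_simp
  rw [h4]
  field_simp

private noncomputable def AS3_D (x : ℝ) : ℝ := 2 * (x - 1) - 2 * (Real.log x / Real.log 2)

private theorem AS3_D1 : Tendsto (fun x : ℝ => AS3_D x / (2 * x)) atTop (nhds 1) := by
  have h1 : Tendsto (fun x : ℝ => 1 - x⁻¹ - (Real.log 2)⁻¹ * (Real.log x / x)) atTop
      (nhds (1 - 0 - (Real.log 2)⁻¹ * 0)) :=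
    (tendsto_const_nhds.sub tendsto_inv_atTop_zero).sub (AS3_logx.const_mul _)
  have e : (1 - 0 - (Real.log 2)⁻¹ * 0 : ℝ) = 1 := by ring
  rw [e] at h1
  refine h1.congr' ?_
  filter_upwards [eventually_gt_atTop 0] with x hx
  have h2 : Real.log 2 ≠ 0 := (Real.log_pos (by norm_num)).ne'
  unfold AS3_D
  field_simp

private theorem AS3_U : Tendsto (fun x : ℝ => (Real.log (AS3_D x + 1) / AS3_D x + 1 / x ^ 2) *
    (2 * x / Real.log x)) atTop (nhds 1) := by
  have hlog : Tendsto (fun x : ℝ => (Real.log x)⁻¹) atTop (nhds 0) :=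
    tendsto_inv_atTop_zero.comp Real.tendsto_log_atTop
  have hinv : Tendsto (fun x : ℝ => x⁻¹) atTop (nhds 0) := tendsto_inv_atTop_zero
  have h1 : Tendsto (fun x : ℝ => (AS3_D x + 1) / (2 * x)) atTop (nhds 1) := by
    have h2 := AS3_D1.add (hinv.const_mul (1 / 2))
    rw [mul_zero, add_zero] at h2
    refine h2.congr' ?_
    filter_upwards [eventually_gt_atTop 0] with x hx
    field_simp
  have h2 : Tendsto (fun x : ℝ => Real.log ((AS3_D x + 1) / (2 * x))) atTop (nhds 0) := by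
    have := h1.log one_ne_zero
    rwa [Real.log_one] at this
  have h3 : Tendsto (fun x : ℝ => 1 + (Real.log 2 + Real.log ((AS3_D x + 1) / (2 * x))) *
      (Real.log x)⁻¹) atTop (nhds (1 + (Real.log 2 + 0) * 0)) :=
    ((h2.const_add _).mul hlog).const_add 1
  rw [mul_zero, add_zero] at h3
  have h4 : Tendsto (fun x : ℝ => (AS3_D x / (2 * x))⁻¹) atTop (nhds 1⁻¹) :=
    AS3_D1.inv₀ one_ne_zero
  rw [inv_one] at h4
  have h5 : Tendsto (fun x : ℝ => 2 * (x⁻¹ * (Real.log x)⁻¹)) atTop (nhds (2 * (0 * 0))) :=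
    (hinv.mul hlog).const_mul 2
  have h6 := (h3.mul h4).add h5
  have e : (1 * 1 + 2 * (0 * 0) : ℝ) = 1 := by ring
  rw [e] at h6
  refine h6.congr' ?_
  filter_upwards [eventually_gt_atTop 1, h1.eventually (lt_mem_nhds one_pos),
    AS3_D1.eventually (lt_mem_nhds one_pos)] with x hx hp hp2
  have hx0 : 0 < x := by linarith
  have hl : 0 < Real.log x := Real.log_pos hx
  have hD : AS3_D x ≠ 0 := by
    intro h0
    rw [h0, zero_div] at hp2
    exact lt_irrefl _ hp2
  have e1 : Real.log (AS3_D x + 1) =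
      Real.log 2 + Real.log x + Real.log ((AS3_D x + 1) / (2 * x)) := by
    have e2 : AS3_D x + 1 = 2 * x * ((AS3_D x + 1) / (2 * x)) := by
      field_simp
    conv_lhs => rw [e2]
    rw [Real.log_mul (by positivity) hp.ne', Real.log_mul two_ne_zero hx0.ne']
  rw [e1]
  field_simp
  ring

/-- MODULE AS3.  Both numbers are `c log d / (2 d)` with `c → 1` and `c → 5/4`. -/
theorem Ud_lt_Md : ∀ᶠ d : ℕ in atTop, 2 ≤ d ∧
    0 < 2 * ((d : ℝ) - 1) - 2 * (Real.log d / Real.log 2) ∧ 0 < Ud d ∧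
    11 / 10 * Ud d < Md d := by
  have hM := AS3_M.comp tendsto_natCast_atTop_atTop
  have hU := AS3_U.comp tendsto_natCast_atTop_atTop
  have hD := AS3_D1.comp tendsto_natCast_atTop_atTop
  have h1 := (hU.const_mul (11 / 10)).eventually
    (gt_mem_nhds (show (11 / 10 * 1 : ℝ) < 12 / 10 by norm_num))
  have h2 := hM.eventually (lt_mem_nhds (show (12 / 10 : ℝ) < 5 / 4 by norm_num))
  have h3 := hU.eventually (lt_mem_nhds (show (0 : ℝ) < 1 by norm_num))
  have h4 := hD.eventually (lt_mem_nhds (show (0 : ℝ) < 1 by norm_num))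
  filter_upwards [h1, h2, h3, h4, eventually_ge_atTop 2] with d k1 k2 k3 k4 hd
  simp only [Function.comp_apply] at k1 k2 k3 k4
  have hd2 : (2 : ℝ) ≤ d := by exact_mod_cast hd
  have hd0 : (0 : ℝ) < d := by linarith
  have hl : 0 < Real.log (d : ℝ) := Real.log_pos (by linarith)
  have hc : 0 < 2 * (d : ℝ) / Real.log d := by positivity
  have e1 : Ud d = Real.log (AS3_D d + 1) / AS3_D d + 1 / (d : ℝ) ^ 2 := rfl
  have hD0 : 0 < AS3_D d := by
    have h5 : AS3_D d = AS3_D d / (2 * d) * (2 * d) := by field_simp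
    rw [h5]
    positivity
  refine ⟨hd, hD0, ?_, ?_⟩
  · rw [e1]
    exact pos_of_mul_pos_left k3 hc.le
  · rw [← e1] at k1
    have k2' : 12 / 10 < Md d * (2 * d / Real.log d) := k2
    have h6 : 11 / 10 * Ud d * (2 * d / Real.log d) < Md d * (2 * d / Real.log d) := by
      linarith
    exact lt_of_mul_lt_mul_right h6 hc.le

end ConeD
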