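import Pool.Agent.ConeD.Defs

/-! Walks: end points, weights, edges (module BA). -/

set_option autoImplicit false

namespace ConeD

variable {d : ℕ}

/-- the reversed step -/
def rstep (s : Step d) : (Step d) := (s.1, !s.2)

/-- the reversed list of steps -/
def rev (l : List (Step d)) : List (Step d) := (l.map rstep).reverse

theorem endp_nil (x : V d) : endp x [] = x := rfl
theorem endp_cons (x : V d) (s : Step d) (l : List (Step d)) : endp x (s :: l) = endp (x + vec s) l := rfl
theorem wt_nil (τ : Edge d → ℝ) (x : V d) : wt τ x [] = 0 := rfl
theorem wt_cons (τ : Edge d → ℝ) (x : V d) (s : Step d) (l : List (Step d)) :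
    wt τ x (s :: l) = τ (edg x s) + wt τ (x + vec s) l := rfl

theorem endp_append (x : V d) (l1 l2 : List (Step d)) : endp x (l1 ++ l2) = endp (endp x l1) l2 := by
  induction l1 generalizing x with
  | nil => rfl
  | cons s l ih => simpa [endp_cons] using ih (x + vec s)

theorem wt_append (τ : Edge d → ℝ) (x : V d) (l1 l2 : List (Step d)) :
    wt τ x (l1 ++ l2) = wt τ x l1 + wt τ (endp x l1) l2 := by
  induction l1 generalizing x with
  | nil => simp [wt_nil, endp_nil]
  | cons s l ih =>
    rw [List.cons_append, wt_cons, wt_cons, endp_cons, ih (x + vec s), add_assoc]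

theorem edges_append (x : V d) (l1 l2 : List (Step d)) :
    edges x (l1 ++ l2) = edges x l1 ++ edges (endp x l1) l2 := by
  induction l1 generalizing x with
  | nil => rfl
  | cons s l ih =>
    rw [List.cons_append]
    simp only [edges, endp_cons, ih (x + vec s), List.cons_append]

theorem length_edges (x : V d) (l : List (Step d)) : (edges x l).length = l.length := by
  induction l generalizing x with
  | nil => rfl
  | cons s l ih => simp only [edges, List.length_cons, ih (x + vec s)]

theorem wt_eq_sum (τ : Edge d → ℝ) (x : V d) (l : List (Step d)) :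
    wt τ x l = ((edges x l).map τ).sum := by
  induction l generalizing x with
  | nil => rfl
  | cons s l ih => simp only [edges, List.map_cons, List.sum_cons, wt_cons, ih (x + vec s)]

theorem wt_nonneg {τ : Edge d → ℝ} (hτ : ∀ e, 0 ≤ τ e) (x : V d) (l : List (Step d)) : 0 ≤ wt τ x l := by
  induction l generalizing x with
  | nil => exact le_refl _
  | cons s l ih => exact add_nonneg (hτ _) (ih _)

theorem wt_mono {τ τ' : Edge d → ℝ} (x : V d) (l : List (Step d)) (h : ∀ e ∈ edges x l, τ e ≤ τ' e) :
    wt τ x l ≤ wt τ' x l := by
  induction l generalizing x with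
  | nil => exact le_refl _
  | cons s l ih =>
    refine add_le_add (h _ ?_) (ih _ ?_)
    · simp [edges]
    · intro e he
      exact h e (by simp only [edges, List.mem_cons]; exact Or.inr he)

theorem vec_rstep (s : Step d) : vec (rstep s) = -vec s := by
  obtain ⟨j, b⟩ := s
  cases b <;> simp [vec, rstep]

theorem edg_rstep (x : V d) (s : Step d) : edg (x + vec s) (rstep s) = edg x s := by
  obtain ⟨j, b⟩ := s
  cases b <;> simp [vec, rstep, edg, sub_eq_add_neg]

theorem rev_cons (s : Step d) (l : List (Step d)) : rev (s :: l) = rev l ++ [rstep s] := by
  simp [rev]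

theorem endp_rev (x : V d) (l : List (Step d)) : endp (endp x l) (rev l) = x := by
  induction l generalizing x with
  | nil => rfl
  | cons s l ih =>
    rw [endp_cons, rev_cons, endp_append, ih (x + vec s), endp_cons, vec_rstep, endp_nil]
    simp

theorem wt_rev (τ : Edge d → ℝ) (x : V d) (l : List (Step d)) :
    wt τ (endp x l) (rev l) = wt τ x l := by
  induction l generalizing x with
  | nil => rfl
  | cons s l ih =>
    rw [endp_cons, rev_cons, wt_append, ih (x + vec s), endp_rev, wt_cons, wt_cons, wt_nil,
      edg_rstep]
    ring

theorem mem_edges_rev (x : V d) (l : List (Step d)) (e : Edge d) :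
    e ∈ edges (endp x l) (rev l) ↔ e ∈ edges x l := by
  induction l generalizing x with
  | nil => rfl
  | cons s l ih =>
    rw [endp_cons, rev_cons, edges_append, List.mem_append, ih (x + vec s), endp_rev]
    simp only [edges, List.mem_cons, List.not_mem_nil, or_false, edg_rstep]
    exact or_comm

/-! translation -/

theorem endp_add (x z : V d) (l : List (Step d)) : endp (x + z) l = endp x l + z := by
  induction l generalizing x with
  | nil => rfl
  | cons s l ih =>
    rw [endp_cons, endp_cons, ← ih (x + vec s)]
    congr 1
    abel

theorem edges_add (x z : V d) (l : List (Step d)) :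
    edges (x + z) l = (edges x l).map (fun e => (e.1 + z, e.2)) := by
  induction l generalizing x with
  | nil => rfl
  | cons s l ih =>
    have h : x + z + vec s = (x + vec s) + z := by abel
    have h2 : edg (x + z) s = ((edg x s).1 + z, (edg x s).2) := by
      obtain ⟨j, b⟩ := s
      cases b
      · simp only [edg, Bool.false_eq_true, if_false]
        ext1
        · simp only
          abel
        · rfl
      · simp [edg]
    simp only [edges, List.map_cons]
    rw [h, ih (x + vec s), h2]

end ConeD
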