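import Pool.Agent.ConeD.BasicA

/-! Norms, midpoints, scalar product (module BB). -/

set_option autoImplicit false

namespace ConeD

variable {d : ℕ}

/-! norms -/

/-- the standard embedding of the lattice in the Euclidean space -/
noncomputable def toE (x : V d) : EuclideanSpace ℝ (Fin d) := WithLp.toLp 2 (fun j => (x j : ℝ))

theorem toE_apply (x : V d) (j : Fin d) : toE x j = (x j : ℝ) := rfl

theorem toE_zero : toE (0 : V d) = 0 := by
  ext j; simp [toE_apply]

theorem toE_add (x y : V d) : toE (x + y) = toE x + toE y := by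
  ext j; simp [toE_apply]

theorem toE_neg (x : V d) : toE (-x) = -toE x := by
  ext j; simp [toE_apply]

theorem toE_sub (x y : V d) : toE (x - y) = toE x - toE y := by
  ext j; simp [toE_apply]

theorem nrm_eq (x : V d) : nrm x = ‖toE x‖ := by
  rw [EuclideanSpace.norm_eq, nrm]
  congr 1
  refine Finset.sum_congr rfl fun j _ => ?_
  rw [toE_apply, Real.norm_eq_abs, sq_abs]

theorem nrm_nonneg (x : V d) : 0 ≤ nrm x := Real.sqrt_nonneg _

theorem nrm_zero : nrm (0 : V d) = 0 := by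
  rw [nrm_eq, toE_zero, norm_zero]

theorem nrm_neg (x : V d) : nrm (-x) = nrm x := by
  rw [nrm_eq, nrm_eq, toE_neg, norm_neg]

theorem nrm_add_le (x y : V d) : nrm (x + y) ≤ nrm x + nrm y := by
  rw [nrm_eq, nrm_eq, nrm_eq, toE_add]
  exact norm_add_le _ _

theorem nrm_sub_le (x y : V d) : nrm (x - y) ≤ nrm x + nrm y := by
  rw [sub_eq_add_neg, ← nrm_neg y]
  exact nrm_add_le _ _

theorem nrm_sub_comm (x y : V d) : nrm (x - y) = nrm (y - x) := by
  rw [← nrm_neg, neg_sub]

theorem nrm_le_add (x y : V d) : nrm x ≤ nrm y + nrm (x - y) := by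
  have := nrm_add_le y (x - y)
  rwa [add_sub_cancel] at this

theorem nrm_triangle (x y z : V d) : nrm (x - z) ≤ nrm (x - y) + nrm (y - z) := by
  have := nrm_add_le (x - y) (y - z)
  rwa [sub_add_sub_cancel] at this

theorem nrm_ev (j : Fin d) : nrm (ev j) = 1 := by
  unfold nrm ev
  rw [Finset.sum_eq_single j]
  · simp
  · intro i _ hi
    simp [Pi.single_eq_of_ne hi]
  · simp

theorem nrm_vec (s : Step d) : nrm (vec s) = 1 := by
  obtain ⟨j, b⟩ := s
  cases b
  · simp only [vec, Bool.false_eq_true, if_false]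
    rw [nrm_neg, nrm_ev]
  · simp only [vec, if_true]
    exact nrm_ev j

theorem nrm_sq (x : V d) : nrm x ^ 2 = ∑ j : Fin d, ((x j : ℝ)) ^ 2 :=
  Real.sq_sqrt (Finset.sum_nonneg fun _ _ => sq_nonneg _)

theorem nrm_nsmul (n : ℕ) (x : V d) : nrm (n • x) = n * nrm x := by
  unfold nrm
  rw [← Real.sqrt_sq (Nat.cast_nonneg n : (0 : ℝ) ≤ n), ← Real.sqrt_mul (by positivity), Finset.mul_sum]
  congr 1
  refine Finset.sum_congr rfl fun j _ => ?_
  simp only [Pi.smul_apply, nsmul_eq_mul]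
  push_cast
  rw [mul_pow]

theorem abs_coord_le (x : V d) (j : Fin d) : |(x j : ℝ)| ≤ nrm x := by
  apply Real.abs_le_sqrt
  exact Finset.single_le_sum (f := fun j => ((x j : ℝ)) ^ 2) (fun i _ => sq_nonneg _)
    (Finset.mem_univ j)

theorem one_le_nrm {x : V d} (hx : x ≠ 0) : 1 ≤ nrm x := by
  obtain ⟨j, hj⟩ : ∃ j, x j ≠ 0 := by
    by_contra h
    push Not at h
    exact hx (funext h)
  refine le_trans ?_ (abs_coord_le x j)
  have : (1 : ℤ) ≤ |x j| := Int.one_le_abs hj
  have h2 : ((1 : ℤ) : ℝ) ≤ ((|x j| : ℤ) : ℝ) := Int.cast_le.mpr this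
  simpa using h2

theorem finite_ball (R : ℝ) : {x : V d | nrm x ≤ R}.Finite := by
  have hfin : (Set.pi Set.univ (fun _ : Fin d => Set.Icc (-⌈R⌉) ⌈R⌉)).Finite :=
    Set.Finite.pi' (fun _ => Set.finite_Icc _ _) |>.subset (fun x hx i => hx i (Set.mem_univ i))
  refine hfin.subset (fun x hx i _ => ?_)
  have h1 : |(x i : ℝ)| ≤ R := le_trans (abs_coord_le x i) hx
  have h2 : |(x i : ℝ)| ≤ (⌈R⌉ : ℝ) := le_trans h1 (Int.le_ceil R)
  rw [abs_le] at h2
  constructor
  · have : ((-⌈R⌉ : ℤ) : ℝ) ≤ ((x i : ℤ) : ℝ) := by push_cast; exact h2.1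
    exact Int.cast_le.mp this
  · exact Int.cast_le.mp h2.2

theorem nrm_endp_sub_le (x : V d) (l : List (Step d)) : nrm (endp x l - x) ≤ l.length := by
  induction l generalizing x with
  | nil => simp [endp_nil, nrm_zero]
  | cons s l ih =>
    have h : endp x (s :: l) - x = (endp (x + vec s) l - (x + vec s)) + vec s := by
      rw [endp_cons]; abel
    rw [h]
    refine le_trans (nrm_add_le _ _) ?_
    rw [nrm_vec, List.length_cons]
    push_cast
    exact add_le_add (ih _) (le_refl _)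

theorem half_le_mid (e : Edge d) : 1 / 2 ≤ mid e := by
  apply Real.le_sqrt_of_sq_le
  refine le_trans ?_ (Finset.single_le_sum
    (f := fun j : Fin d => ((e.1 j : ℝ) + (if j = e.2 then (1 / 2 : ℝ) else 0)) ^ 2)
    (fun i _ => sq_nonneg _) (Finset.mem_univ e.2))
  simp only [if_true]
  have hint : (1 : ℤ) ≤ |2 * e.1 e.2 + 1| := by
    apply Int.one_le_abs
    omega
  have h2 : ((1 : ℤ) : ℝ) ≤ ((|2 * e.1 e.2 + 1| : ℤ) : ℝ) := Int.cast_le.mpr hint
  push_cast at h2
  have h3 : (1 : ℝ) ≤ (2 * (e.1 e.2 : ℝ) + 1) ^ 2 := by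
    rw [← sq_abs]
    nlinarith
  nlinarith

theorem mid_pos (e : Edge d) : 0 < mid e := lt_of_lt_of_le (by norm_num) (half_le_mid e)

/-- the midpoint as a point of the Euclidean space -/
noncomputable def bb_midE (e : Edge d) : EuclideanSpace ℝ (Fin d) :=
  toE e.1 + (1 / 2 : ℝ) • toE (ev e.2)

theorem bb_mid_eq (e : Edge d) : mid e = ‖bb_midE e‖ := by
  rw [EuclideanSpace.norm_eq, mid]
  congr 1
  refine Finset.sum_congr rfl fun j _ => ?_
  rw [Real.norm_eq_abs, sq_abs]
  congr 1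
  show _ = toE e.1 j + (1 / 2 : ℝ) • toE (ev e.2) j
  rw [toE_apply, toE_apply]
  by_cases h : j = e.2
  · subst h
    simp [ev]
  · simp [ev, h]

theorem bb_midE_edg (x : V d) (s : Step d) :
    bb_midE (edg x s) = toE x + (1 / 2 : ℝ) • toE (vec s) := by
  obtain ⟨j, b⟩ := s
  cases b
  · simp only [edg, vec, Bool.false_eq_true, if_false, bb_midE, toE_sub, toE_neg]
    rw [smul_neg, sub_add, ← sub_eq_add_neg]
    congr 1
    nth_rewrite 1 [← one_smul ℝ (toE (ev j))]
    rw [← sub_smul]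
    norm_num
  · simp only [edg, vec, if_true, bb_midE]

theorem bb_norm_half (s : Step d) : ‖(1 / 2 : ℝ) • toE (vec s)‖ = 1 / 2 := by
  rw [norm_smul, ← nrm_eq, nrm_vec]
  norm_num

theorem mid_edg_le (x : V d) (s : Step d) : mid (edg x s) ≤ nrm x + 1 / 2 := by
  have h := norm_add_le (toE x) ((1 / 2 : ℝ) • toE (vec s))
  rw [bb_norm_half] at h
  rw [bb_mid_eq, bb_midE_edg, nrm_eq]
  exact h

theorem le_mid_edg (x : V d) (s : Step d) : nrm x - 1 / 2 ≤ mid (edg x s) := by
  have h := norm_sub_norm_le (toE x) (-((1 / 2 : ℝ) • toE (vec s)))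
  rw [norm_neg, sub_neg_eq_add, bb_norm_half] at h
  rw [bb_mid_eq, bb_midE_edg, nrm_eq]
  exact h

/-- the two ends of the edge of a step -/
theorem edg_cases (x : V d) (s : Step d) :
    ((edg x s).1 = x ∧ (edg x s).1 + ev (edg x s).2 = x + vec s) ∨
    ((edg x s).1 = x + vec s ∧ (edg x s).1 + ev (edg x s).2 = x) := by
  obtain ⟨j, b⟩ := s
  cases b
  · right
    simp [edg, vec, sub_eq_add_neg]
  · left
    simp [edg, vec]

theorem tau_nonneg {α : ℝ} {E : Edge d → ℝ} (hE : ∀ e, 0 ≤ E e) (e : Edge d) : 0 ≤ tau α E e :=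
  div_nonneg (hE e) (Real.rpow_nonneg (mid_pos e).le α)

theorem tau_pos {α : ℝ} {E : Edge d → ℝ} (hE : ∀ e, 0 < E e) (e : Edge d) : 0 < tau α E e :=
  div_pos (hE e) (Real.rpow_pos_of_pos (mid_pos e) α)

/-! the scalar product -/

theorem ip_comm (x y : V d) : ip x y = ip y x :=
  Finset.sum_congr rfl fun _ _ => mul_comm _ _

theorem ip_add (x y z : V d) : ip (x + y) z = ip x z + ip y z := by
  unfold ip
  rw [← Finset.sum_add_distrib]
  refine Finset.sum_congr rfl fun j _ => ?_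
  simp only [Pi.add_apply]
  push_cast
  ring

theorem ip_neg (x z : V d) : ip (-x) z = -ip x z := by
  unfold ip
  rw [← Finset.sum_neg_distrib]
  refine Finset.sum_congr rfl fun j _ => ?_
  simp only [Pi.neg_apply]
  push_cast
  ring

theorem ip_sub (x y z : V d) : ip (x - y) z = ip x z - ip y z := by
  rw [sub_eq_add_neg, ip_add, ip_neg]
  ring

theorem ip_zero (z : V d) : ip 0 z = 0 := by simp [ip]

theorem ip_nsmul (n : ℕ) (x z : V d) : ip (n • x) z = n * ip x z := by
  induction n with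
  | zero => simp [ip_zero]
  | succ n ih => rw [succ_nsmul, ip_add, ih]; push_cast; ring

theorem ip_self (x : V d) : ip x x = nrm x ^ 2 := by
  rw [nrm_sq, ip]
  exact Finset.sum_congr rfl fun _ _ => (sq _).symm

theorem abs_ip_le (x y : V d) : |ip x y| ≤ nrm x * nrm y := by
  have h := abs_real_inner_le_norm (toE x) (toE y)
  rw [← nrm_eq, ← nrm_eq] at h
  have h2 : (inner ℝ (toE x) (toE y) : ℝ) = ip x y := by
    rw [PiLp.inner_apply, ip]
    refine Finset.sum_congr rfl fun j _ => ?_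
    rw [toE_apply, toE_apply]
    simp [mul_comm]
  rwa [h2] at h

theorem nrm_add_sq (x y : V d) : nrm (x + y) ^ 2 = nrm x ^ 2 + 2 * ip x y + nrm y ^ 2 := by
  rw [← ip_self, ip_add, ip_comm x (x + y), ip_comm y (x + y), ip_add, ip_add, ip_self, ip_self,
    ip_comm y x]
  ring

theorem pr_add (x y z : V d) : pr (x + y) z = pr x z + pr y z := by
  unfold pr
  rw [ip_add, add_div]

theorem pr_sub (x y z : V d) : pr (x - y) z = pr x z - pr y z := by
  unfold pr
  rw [ip_sub, sub_div]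

theorem pr_nsmul (n : ℕ) (x z : V d) : pr (n • x) z = n * pr x z := by
  unfold pr
  rw [ip_nsmul, mul_div_assoc]

theorem abs_pr_le (x y : V d) : |pr x y| ≤ nrm x := by
  unfold pr
  rw [abs_div, abs_of_nonneg (nrm_nonneg y)]
  refine div_le_of_le_mul₀ (nrm_nonneg y) (nrm_nonneg x) (abs_ip_le x y)

theorem pr_le (x y : V d) : pr x y ≤ nrm x := (le_abs_self _).trans (abs_pr_le x y)

theorem pr_self {y : V d} (hy : 0 < nrm y) : pr y y = nrm y := by
  unfold pr
  rw [ip_self]
  field_simp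

end ConeD
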