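import Pool.Agent.ConeD.Var

/-! Uniform concentration of passage times (module CONC). -/

set_option autoImplicit false

namespace ConeD

variable {d : ℕ}

open MeasureTheory Filter Topology

/-- lattice points with coordinates at most `N` -/
noncomputable def conc_box (d N : ℕ) : Finset (V d) :=
  Fintype.piFinset (fun _ : Fin d => Finset.Icc (-(N : ℤ)) N)

theorem mem_conc_box {N : ℕ} {v : V d} : v ∈ conc_box d N ↔ ∀ j, -(N : ℤ) ≤ v j ∧ v j ≤ N := by
  simp [conc_box]

theorem card_conc_box (N : ℕ) : (conc_box d N).card = (2 * N + 1) ^ d := by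
  unfold conc_box
  rw [Fintype.card_piFinset]
  simp only [Int.card_Icc, Finset.prod_const, Finset.card_univ, Fintype.card_fin]
  congr 1
  omega

theorem conc_nrm_le {v : V d} {M : ℝ} (hM : 0 ≤ M) (h : ∀ j, |(v j : ℝ)| ≤ M) :
    nrm v ≤ d * M := by
  unfold nrm
  rw [Real.sqrt_le_left (by positivity)]
  have h1 : ∑ j : Fin d, ((v j : ℝ)) ^ 2 ≤ ∑ _j : Fin d, M ^ 2 := by
    refine Finset.sum_le_sum fun j _ => ?_
    exact sq_le_sq' (abs_le.1 (h j)).1 (abs_le.1 (h j)).2
  rw [Finset.sum_const, Finset.card_univ, Fintype.card_fin, nsmul_eq_mul] at h1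
  refine h1.trans ?_
  rw [mul_pow]
  refine mul_le_mul_of_nonneg_right ?_ (sq_nonneg M)
  rcases Nat.eq_zero_or_pos d with h0 | h0
  · subst h0; simp
  · have : (1 : ℝ) ≤ d := by exact_mod_cast h0
    nlinarith

/-- the net point of mesh `s` below `x` -/
def conc_pt (s : ℕ) (x : V d) : V d := fun j => (s : ℤ) * (x j / (s : ℤ))

theorem conc_pt_near {s : ℕ} (hs : 0 < s) (x : V d) : nrm (conc_pt s x - x) ≤ d * s := by
  refine conc_nrm_le (by positivity) fun j => ?_
  have hs' : (0 : ℤ) < s := by exact_mod_cast hs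
  have h1 := Int.emod_nonneg (x j) hs'.ne'
  have h2 := Int.emod_lt_of_pos (x j) hs'
  have h3 := Int.mul_ediv_add_emod (x j) (s : ℤ)
  have h4 : (conc_pt s x - x) j = -(x j % (s : ℤ)) := by
    simp only [conc_pt, Pi.sub_apply]
    linarith
  rw [h4]
  push_cast
  rw [abs_neg, abs_of_nonneg (by exact_mod_cast h1)]
  exact_mod_cast h2.le

theorem conc (d : ℕ) : ∀ᵐ E ∂(PE d), ∃ R0 : ℝ, CC (hm (d := d)) (eta d) E R0 := by
  classical
  obtain ⟨C, hC, hvar⟩ := var_bound (d := d)
  have hpos : ∀ᵐ E ∂(PE d), ∀ e, 0 ≤ E e := ae_pos.mono fun E h e => (h e).le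
  set k : ℕ := 2 * d + 3 with hk
  -- Chebyshev
  have cheb : ∀ (p q : V d) (c : ℝ), 0 < c →
      (PE d) {E | c ≤ |T E p q - hm (q - p)|} ≤
        ENNReal.ofReal (C * (nrm (q - p) + 1) / c ^ 2) := by
    intro p q c hc
    have h1 := ProbabilityTheory.meas_ge_le_variance_div_sq (memLp_T p q) hc
    rw [integral_T] at h1
    refine h1.trans (ENNReal.ofReal_le_ofReal ?_)
    refine div_le_div_of_nonneg_right ?_ (by positivity)
    rw [ProbabilityTheory.variance_eq_integral (measurable_T p q).aemeasurable, integral_T,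
      var_T]
    exact hvar _
  -- the words joining a point to its net point
  choose w hw1 hw2 hw3 using fun (s : ℕ) (x : V d) => exists_walk x (conc_pt s x)
  -- the two families of events
  let A : ℕ → Set (Edge d → ℝ) := fun n => ⋃ a ∈ conc_box d (n + 1) ×ˢ conc_box d (n + 1),
    {E | ((n + 1 : ℕ) : ℝ) ^ k ≤
      |T E ((((n + 1) ^ k : ℕ) : ℤ) • a.1) ((((n + 1) ^ k : ℕ) : ℤ) • a.2)
      - hm ((((n + 1) ^ k : ℕ) : ℤ) • a.2 - (((n + 1) ^ k : ℕ) : ℤ) • a.1)|}
  let D1 : ℝ := (d : ℝ) ^ 2 + 1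
  have hD1 : 1 ≤ D1 := by simp only [D1]; nlinarith [sq_nonneg (d : ℝ)]
  let B : ℕ → Set (Edge d → ℝ) := fun n => ⋃ x ∈ conc_box d ((n + 1) ^ (k + 1)),
    {E | 4 * (D1 * ((n + 1 : ℕ) : ℝ) ^ k) ≤ wt E x (w ((n + 1) ^ k) x)}
  have hA : ∀ n, (PE d) (A n) ≤
      ENNReal.ofReal (3 ^ (2 * d) * (2 * d + 1) * C * (1 / ((n + 1 : ℕ) : ℝ) ^ 2)) := by
    intro n
    set r : ℝ := ((n + 1 : ℕ) : ℝ) with hr
    have hr1 : 1 ≤ r := by rw [hr]; push_cast; linarith [Nat.cast_nonneg (α := ℝ) n]
    have hr0 : 0 < r := by linarith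
    calc (PE d) (A n) ≤ ∑ a ∈ conc_box d (n + 1) ×ˢ conc_box d (n + 1),
          (PE d) {E | r ^ k ≤
            |T E ((((n + 1) ^ k : ℕ) : ℤ) • a.1) ((((n + 1) ^ k : ℕ) : ℤ) • a.2)
      - hm ((((n + 1) ^ k : ℕ) : ℤ) • a.2 - (((n + 1) ^ k : ℕ) : ℤ) • a.1)|} :=
          measure_biUnion_finset_le _ _
      _ ≤ ∑ a ∈ conc_box d (n + 1) ×ˢ conc_box d (n + 1),
          ENNReal.ofReal ((2 * d + 1) * C * r ^ (k + 1) / r ^ (2 * k)) := by
          refine Finset.sum_le_sum fun a ha => ?_
          refine (cheb _ _ (r ^ k) (by positivity)).trans (ENNReal.ofReal_le_ofReal ?_)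
          rw [← pow_mul, mul_comm k 2]
          refine div_le_div_of_nonneg_right ?_ (by positivity)
          obtain ⟨ha1, ha2⟩ := Finset.mem_product.1 ha
          rw [mem_conc_box] at ha1 ha2
          have hn : nrm ((((n + 1) ^ k : ℕ) : ℤ) • a.2 - (((n + 1) ^ k : ℕ) : ℤ) • a.1)
              ≤ d * (2 * r ^ (k + 1)) := by
            refine conc_nrm_le (by positivity) fun j => ?_
            have e : (((((n + 1) ^ k : ℕ) : ℤ) • a.2 - (((n + 1) ^ k : ℕ) : ℤ) • a.1) j : ℤ)
                = ((n + 1 : ℕ) : ℤ) ^ k * (a.2 j - a.1 j) := by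
              simp only [Pi.sub_apply, Pi.smul_apply, smul_eq_mul]
              push_cast; ring
            rw [e]
            push_cast
            rw [abs_mul, abs_of_nonneg (by positivity)]
            have h1 : |((a.2 j : ℝ) - (a.1 j : ℝ))| ≤ 2 * r := by
              have b1 : (a.1 j : ℝ) ≤ r := by rw [hr]; exact_mod_cast (ha1 j).2
              have b2 : -r ≤ (a.1 j : ℝ) := by rw [hr]; exact_mod_cast (ha1 j).1
              have b3 : (a.2 j : ℝ) ≤ r := by rw [hr]; exact_mod_cast (ha2 j).2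
              have b4 : -r ≤ (a.2 j : ℝ) := by rw [hr]; exact_mod_cast (ha2 j).1
              rw [abs_le]; constructor <;> linarith
            have h2 : ((n : ℝ) + 1) = r := by rw [hr]; push_cast; ring
            rw [h2]
            calc r ^ k * |((a.2 j : ℝ) - (a.1 j : ℝ))| ≤ r ^ k * (2 * r) := by gcongr
              _ = 2 * r ^ (k + 1) := by ring
          have h8 : 1 ≤ r ^ (k + 1) := one_le_pow₀ hr1
          have h9 : nrm ((((n + 1) ^ k : ℕ) : ℤ) • a.2 - (((n + 1) ^ k : ℕ) : ℤ) • a.1) + 1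
              ≤ (2 * d + 1) * r ^ (k + 1) := by linarith
          calc C * (nrm ((((n + 1) ^ k : ℕ) : ℤ) • a.2 - (((n + 1) ^ k : ℕ) : ℤ) • a.1) + 1)
              ≤ C * ((2 * d + 1) * r ^ (k + 1)) := by gcongr
            _ = (2 * d + 1) * C * r ^ (k + 1) := by ring
      _ = ENNReal.ofReal (((2 * (n + 1 : ℕ) + 1) ^ (2 * d) : ℝ) *
            ((2 * d + 1) * C * r ^ (k + 1) / r ^ (2 * k))) := by
          rw [Finset.sum_const, Finset.card_product, card_conc_box, nsmul_eq_mul,
            ENNReal.ofReal_mul (by positivity)]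
          congr 1
          rw [← ENNReal.ofReal_natCast]
          congr 1
          push_cast; ring
      _ ≤ _ := by
          refine ENNReal.ofReal_le_ofReal ?_
          have e : (2 * d + 1) * C * r ^ (k + 1) / r ^ (2 * k) =
              (2 * d + 1) * C * (1 / r ^ (2 * d + 2)) := by
            have h5 : r ^ (2 * k) = r ^ (k + 1) * r ^ (2 * d + 2) := by
              rw [← pow_add]; congr 1; omega
            rw [h5]
            field_simp
          rw [e, ← hr]
          have h3 : (2 * r + 1) ^ (2 * d) ≤ 3 ^ (2 * d) * r ^ (2 * d) := by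
            calc (2 * r + 1) ^ (2 * d) ≤ (3 * r) ^ (2 * d) := by gcongr; linarith
              _ = 3 ^ (2 * d) * r ^ (2 * d) := by rw [mul_pow]
          calc (2 * r + 1) ^ (2 * d) * ((2 * d + 1) * C * (1 / r ^ (2 * d + 2)))
              ≤ 3 ^ (2 * d) * r ^ (2 * d) * ((2 * d + 1) * C * (1 / r ^ (2 * d + 2))) := by
                gcongr
            _ = 3 ^ (2 * d) * (2 * d + 1) * C * (1 / r ^ 2) := by
                rw [pow_add r (2 * d) 2]
                field_simp
  have hB : ∀ n, (PE d) (B n) ≤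
      ENNReal.ofReal (3 ^ d * (((n + 1 : ℕ) : ℝ) ^ ((k + 1) * d) *
      Real.exp (-(((n + 1 : ℕ) : ℝ))))) := by
    intro n
    set r : ℝ := ((n + 1 : ℕ) : ℝ) with hr
    have hr1 : 1 ≤ r := by rw [hr]; push_cast; linarith [Nat.cast_nonneg (α := ℝ) n]
    have hs0 : 0 < (n + 1) ^ k := by positivity
    calc (PE d) (B n) ≤ ∑ x ∈ conc_box d ((n + 1) ^ (k + 1)),
          (PE d) {E | 4 * (D1 * r ^ k) ≤ wt E x (w ((n + 1) ^ k) x)} :=
            measure_biUnion_finset_le _ _
      _ ≤ ∑ x ∈ conc_box d ((n + 1) ^ (k + 1)), ENNReal.ofReal (Real.exp (-(D1 * r ^ k))) := by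
          refine Finset.sum_le_sum fun x _ => ?_
          refine upper_tail x _ (hw3 _ x) ?_
          refine (hw2 _ x).trans ?_
          have := conc_pt_near hs0 x
          push_cast at this
          have h2 : ((n : ℝ) + 1) = r := by rw [hr]; push_cast; ring
          rw [h2] at this
          calc (d : ℝ) * nrm (conc_pt ((n + 1) ^ k) x - x) ≤ d * (d * r ^ k) := by gcongr
            _ ≤ D1 * r ^ k := by
              simp only [D1]
              have : 0 ≤ r ^ k := by positivity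
              nlinarith
      _ = ENNReal.ofReal ((2 * r ^ (k + 1) + 1) ^ d * Real.exp (-(D1 * r ^ k))) := by
          rw [Finset.sum_const, card_conc_box, nsmul_eq_mul, ENNReal.ofReal_mul (by positivity)]
          congr 1
          rw [← ENNReal.ofReal_natCast]
          congr 1
          rw [hr]; push_cast; ring
      _ ≤ _ := by
          refine ENNReal.ofReal_le_ofReal ?_
          have h8 : 1 ≤ r ^ (k + 1) := one_le_pow₀ hr1
          have h7 : r ≤ D1 * r ^ k := by
            have : r ^ 1 ≤ r ^ k := pow_le_pow_right₀ hr1 (by omega)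
            rw [pow_one] at this
            nlinarith
          calc (2 * r ^ (k + 1) + 1) ^ d * Real.exp (-(D1 * r ^ k))
              ≤ (3 * r ^ (k + 1)) ^ d * Real.exp (-r) := by
                gcongr
                linarith
            _ = 3 ^ d * (r ^ ((k + 1) * d) * Real.exp (-r)) := by
                rw [mul_pow, ← pow_mul]; ring
  have sumA : ∑' n, (PE d) (A n) ≠ ⊤ := by
    have hs : Summable (fun n : ℕ => 3 ^ (2 * d) * (2 * d + 1) * C *
        (1 / ((n + 1 : ℕ) : ℝ) ^ 2)) := by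
      have h1 : Summable (fun n : ℕ => 1 / (n : ℝ) ^ 2) :=
        Real.summable_one_div_nat_pow.2 (by norm_num)
      exact ((summable_nat_add_iff 1).2 h1).mul_left _
    refine ne_top_of_le_ne_top hs.tsum_ofReal_ne_top (ENNReal.tsum_le_tsum hA)
  have sumB : ∑' n, (PE d) (B n) ≠ ⊤ := by
    have hs : Summable (fun n : ℕ => 3 ^ d * (((n + 1 : ℕ) : ℝ) ^ ((k + 1) * d) *
        Real.exp (-(((n + 1 : ℕ) : ℝ))))) := by
      have h1 := Real.summable_pow_mul_exp_neg_nat_mul ((k + 1) * d) (r := 1) one_pos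
      simp only [neg_mul, one_mul] at h1
      exact ((summable_nat_add_iff 1).2 h1).mul_left _
    refine ne_top_of_le_ne_top hs.tsum_ofReal_ne_top (ENNReal.tsum_le_tsum hB)
  filter_upwards [hpos, ae_eventually_notMem sumA, ae_eventually_notMem sumB] with E hE hEA hEB
  obtain ⟨N, hN⟩ := eventually_atTop.1 (hEA.and hEB)
  set Kc : ℝ := 1 + 8 * D1 + 2 * d ^ 2 with hKc
  have hKc0 : 0 < Kc := by positivity
  set p1 : ℝ := 1 / ((k : ℝ) + 1) with hp1
  have hk0 : (0 : ℝ) < (k : ℝ) + 1 := by positivity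
  have hp10 : 0 < p1 := by positivity
  set q1 : ℝ := p1 - eta d with hq1
  have hq10 : 0 < q1 := by
    rw [hq1, hp1, eta, sub_pos]
    apply one_div_lt_one_div_of_lt hk0
    rw [hk]; push_cast; linarith
  have hten : Tendsto (fun R : ℝ => R ^ q1) atTop atTop := tendsto_rpow_atTop hq10
  obtain ⟨R1, hR1⟩ := eventually_atTop.1 (hten.eventually_ge_atTop (Kc * 2 ^ k : ℝ))
  have hten2 : Tendsto (fun R : ℝ => R ^ p1) atTop atTop := tendsto_rpow_atTop hp10
  obtain ⟨R2, hR2⟩ := eventually_atTop.1 (hten2.eventually_ge_atTop ((N : ℝ) + 2))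
  refine ⟨max 1 (max R1 R2), fun R hR x y hx hy => ?_⟩
  have hR0 : (1 : ℝ) ≤ R := (le_max_left _ _).trans hR
  have hRa := hR1 R (((le_max_left _ _).trans (le_max_right _ _)).trans hR)
  have hRb := hR2 R (((le_max_right _ _).trans (le_max_right _ _)).trans hR)
  have hRp : 0 < R := by linarith
  -- the scale
  set n : ℕ := ⌊R ^ p1⌋₊ with hn
  set r : ℝ := ((n + 1 : ℕ) : ℝ) with hr
  have hrn : r = (n : ℝ) + 1 := by rw [hr]; push_cast; ring
  have hn1 : (n : ℝ) ≤ R ^ p1 := Nat.floor_le (by positivity)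
  have hn2 : R ^ p1 < r := by rw [hrn]; exact Nat.lt_floor_add_one _
  have hnN : N ≤ n := by
    refine Nat.le_floor ?_
    linarith
  obtain ⟨hnA, hnB⟩ := hN n hnN
  have hr2 : r ≤ 2 * R ^ p1 := by
    have : (1 : ℝ) ≤ R ^ p1 := Real.one_le_rpow hR0 hp10.le
    linarith
  have hr1 : 1 ≤ r := by rw [hrn]; linarith [Nat.cast_nonneg (α := ℝ) n]
  have hRr : R ≤ r ^ (k + 1) := by
    have h1 : (R ^ p1) ^ (k + 1) = R := by
      rw [← Real.rpow_natCast, ← Real.rpow_mul hRp.le, hp1]
      push_cast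
      rw [one_div, inv_mul_cancel₀ hk0.ne', Real.rpow_one]
    calc R = (R ^ p1) ^ (k + 1) := h1.symm
      _ ≤ r ^ (k + 1) := by gcongr
  have hr7 : r ^ k ≤ 2 ^ k * R ^ (1 - p1) := by
    have h1 : (R ^ p1) ^ k = R ^ (1 - p1) := by
      rw [← Real.rpow_natCast, ← Real.rpow_mul hRp.le]
      congr 1
      rw [hp1]
      field_simp
      ring
    calc r ^ k ≤ (2 * R ^ p1) ^ k := by gcongr
      _ = 2 ^ k * R ^ (1 - p1) := by rw [mul_pow, h1]
  set s : ℕ := (n + 1) ^ k with hs
  have hs0 : 0 < s := by positivity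
  have hsr : (s : ℝ) = r ^ k := by rw [hs, hr]; push_cast; ring
  have hbox : ∀ v : V d, nrm v ≤ R → v ∈ conc_box d ((n + 1) ^ (k + 1)) := by
    intro v hv
    rw [mem_conc_box]
    intro j
    have h1 := abs_le.1 ((abs_coord_le v j).trans (hv.trans hRr))
    have h2 : (((n + 1) ^ (k + 1) : ℕ) : ℝ) = r ^ (k + 1) := by rw [hr]; push_cast; ring
    rw [← h2] at h1
    constructor
    · have := h1.1
      exact_mod_cast this
    · have := h1.2
      exact_mod_cast this
  have hnet : ∀ v : V d, nrm v ≤ R → (fun j => v j / (s : ℤ)) ∈ conc_box d (n + 1) := by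
    intro v hv
    have h0 := mem_conc_box.1 (hbox v hv)
    rw [mem_conc_box]
    intro j
    obtain ⟨h1, h2⟩ := h0 j
    have hs' : (0 : ℤ) < s := by exact_mod_cast hs0
    have e8 : (((n + 1) ^ (k + 1) : ℕ) : ℤ) = ((n + 1 : ℕ) : ℤ) * (s : ℤ) := by
      rw [hs]; push_cast; ring
    constructor
    · rw [Int.le_ediv_iff_mul_le hs']
      rw [e8] at h1
      linarith
    · refine Int.ediv_le_of_le_mul hs' ?_
      rw [e8] at h2
      exact h2
  have hclose : ∀ v : V d, nrm v ≤ R → T E v (conc_pt s v) ≤ 4 * D1 * r ^ k := by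
    intro v hv
    have h1 : ¬ 4 * (D1 * r ^ k) ≤ wt E v (w s v) := by
      intro h
      apply hnB
      exact Set.mem_biUnion (hbox v hv) h
    have h2 := T_le_wt hE (hw1 s v)
    linarith
  have hmain : |T E (conc_pt s x) (conc_pt s y) - hm (conc_pt s y - conc_pt s x)| ≤ r ^ k := by
    by_contra hcon
    push Not at hcon
    apply hnA
    have hm1 := hnet x hx
    have hm2 := hnet y hy
    refine Set.mem_biUnion (x := ((fun j => x j / (s : ℤ)), (fun j => y j / (s : ℤ))))
      (Finset.mem_product.2 ⟨hm1, hm2⟩) ?_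
    exact hcon.le
  -- conclusion
  set p := conc_pt s x with hp
  set q := conc_pt s y with hq
  have t1 : T E x y ≤ T E x p + T E p q + T E q y :=
    (T_triangle hE x q y).trans (by linarith [T_triangle hE x p q])
  have t2 : T E p q ≤ T E p x + T E x y + T E y q :=
    (T_triangle hE p y q).trans (by linarith [T_triangle hE p x y])
  have c1 := T_comm hE p x
  have c2 := T_comm hE q y
  have k1 := hclose x hx
  have k2 := hclose y hy
  have d1 := conc_pt_near hs0 x
  have d2 := conc_pt_near hs0 y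
  rw [← hp] at d1
  rw [← hq] at d2
  rw [hsr] at d1 d2
  have hdiff : |hm (q - p) - hm (y - x)| ≤ 2 * d ^ 2 * r ^ k := by
    have b1 : hm (q - p) ≤ hm (y - x) + hm (q - y) + hm (x - p) := by
      have e : q - p = ((y - x) + (q - y)) + (x - p) := by abel
      rw [e]
      linarith [hm_add_le ((y - x) + (q - y)) (x - p), hm_add_le (y - x) (q - y)]
    have b2 : hm (y - x) ≤ hm (q - p) + hm (y - q) + hm (p - x) := by
      have e : y - x = ((q - p) + (y - q)) + (p - x) := by abel
      conv_lhs => rw [e]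
      linarith [hm_add_le ((q - p) + (y - q)) (p - x), hm_add_le (q - p) (y - q)]
    have e1 : hm (x - p) = hm (p - x) := by rw [← hm_neg, neg_sub]
    have e2 : hm (y - q) = hm (q - y) := by rw [← hm_neg, neg_sub]
    have u1 := hm_le (p - x)
    have u2 := hm_le (q - y)
    have hd0 : (0 : ℝ) ≤ d := Nat.cast_nonneg d
    have v1 := mul_le_mul_of_nonneg_left d1 hd0
    have v2 := mul_le_mul_of_nonneg_left d2 hd0
    have e3 : (d : ℝ) * (d * r ^ k) = d ^ 2 * r ^ k := by ring
    rw [e3] at v1 v2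
    rw [abs_le]
    constructor <;> linarith
  have hfin : |T E x y - hm (y - x)| ≤ Kc * r ^ k := by
    have m1 := abs_le.1 hmain
    have m2 := abs_le.1 hdiff
    rw [hKc, abs_le]
    constructor <;> linarith
  refine hfin.trans ?_
  have h910 : R ^ (1 - eta d) = R ^ q1 * R ^ (1 - p1) := by
    rw [← Real.rpow_add hRp]
    congr 1
    rw [hq1]; ring
  rw [h910]
  have h78 : 0 ≤ R ^ (1 - p1) := by positivity
  calc Kc * r ^ k ≤ Kc * (2 ^ k * R ^ (1 - p1)) := by gcongr
    _ = (Kc * 2 ^ k) * R ^ (1 - p1) := by ring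
    _ ≤ R ^ q1 * R ^ (1 - p1) := by gcongr

end ConeD
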