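import Pool.Agent.ConeD.Sup

/-! Good walks cannot go inwards (section 3 (I) of the text). -/

set_option autoImplicit false

namespace ConeD

variable {d : ℕ}

/-- last exit: if the walk ends inside the ball of radius `r`, the final piece after the last
visit outside stays inside -/
private theorem in_last_exit (r : ℝ) (y : V d) (l : List (Step d)) (hy : r ≤ nrm y)
    (hz : nrm (endp y l) < r) :
    ∃ l1 l2, l = l1 ++ l2 ∧ r ≤ nrm (endp y l1) ∧
      ∀ l3 l4, l2 = l3 ++ l4 → nrm (endp (endp y l1) l3) ≤ r + 1 := by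
  induction l using List.reverseRecOn with
  | nil => rw [endp_nil] at hz; linarith
  | append_singleton l s ih =>
    rw [endp_append, endp_cons, endp_nil] at hz
    by_cases h : nrm (endp y l) < r
    · obtain ⟨l1, l2, h1, h2, h4⟩ := ih h
      refine ⟨l1, l2 ++ [s], by rw [h1, List.append_assoc], h2, ?_⟩
      intro l3 l4 hl
      rcases List.eq_nil_or_concat l4 with h5 | ⟨l5, s', h5⟩
      · rw [h5, List.append_nil] at hl
        rw [← hl, endp_append]
        have h6 : endp (endp y l1) l2 = endp y l := by rw [h1, endp_append]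
        rw [h6, endp_cons, endp_nil]
        linarith
      · rw [h5, List.concat_eq_append, ← List.append_assoc] at hl
        have h6 := List.append_inj' hl rfl
        exact h4 l3 l5 h6.1
    · push Not at h
      have h7 : nrm (endp y l) ≤ nrm (endp y l + vec s) + 1 := by
        have := nrm_sub_le (endp y l + vec s) (vec s)
        rw [add_sub_cancel_right, nrm_vec] at this
        exact this
      refine ⟨l, [s], rfl, h, ?_⟩
      intro l3 l4 hl
      rcases l3 with _ | ⟨s3, l3⟩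
      · rw [endp_nil]; linarith
      · rw [List.cons_append, List.cons.injEq] at hl
        have h8 : l3 = [] := by
          have := hl.2.symm
          exact (List.append_eq_nil_iff.mp this).1
        rw [h8, endp_cons, endp_nil, ← hl.1]
        linarith

/-- the conditions on the radius -/
private theorem in_radius {b C η α : ℝ} (hb : 0 < b) (hη : 0 < η) (hα : 2 ≤ α) :
    ∃ R1 : ℝ, 1 ≤ R1 ∧ ∀ r : ℝ, R1 ≤ r → (1 + 2 / r) ^ α ≤ 3 / 2 ∧
      C + (2 * r) ^ (1 - η) ≤ b / (α - 1) * r := by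
  have hβ : 0 < α - 1 := by linarith
  have hlim : Filter.Tendsto (fun r : ℝ => (1 + 2 / r) ^ α) Filter.atTop (nhds 1) := by
    have h1 : Filter.Tendsto (fun r : ℝ => 1 + 2 / r) Filter.atTop (nhds (1 + 0)) :=
      tendsto_const_nhds.add (Filter.Tendsto.const_div_atTop Filter.tendsto_id 2)
    rw [add_zero] at h1
    have h2 := h1.rpow_const (p := α) (Or.inl one_ne_zero)
    rwa [Real.one_rpow] at h2
  have e1 := hlim.eventually (gt_mem_nhds (show (1:ℝ) < 3 / 2 by norm_num))
  have e2 := (tendsto_rpow_atTop hη).eventually (Filter.eventually_ge_atTop (4 * (α - 1) / b))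
  obtain ⟨R2, hR2⟩ := Filter.eventually_atTop.mp (e1.and e2)
  refine ⟨max (max 1 R2) (2 * C * (α - 1) / b), (le_max_left _ _).trans (le_max_left _ _), ?_⟩
  intro r hr
  have hr1 : 1 ≤ r := (le_max_left _ _).trans ((le_max_left _ _).trans hr)
  have hr2 : R2 ≤ r := (le_max_right _ _).trans ((le_max_left _ _).trans hr)
  have hr3 : 2 * C * (α - 1) / b ≤ r := (le_max_right _ _).trans hr
  refine ⟨(hR2 r hr2).1.le, ?_⟩
  have h1 : C ≤ b / (α - 1) * r / 2 := by
    rw [div_le_iff₀ hb] at hr3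
    rw [le_div_iff₀ (by norm_num), div_mul_eq_mul_div, le_div_iff₀ hβ]
    linarith
  have h2 : (2 * r) ^ (1 - η) ≤ b / (α - 1) * r / 2 := by
    have h3 := (hR2 (2 * r) (by linarith)).2
    have h4 : (0:ℝ) < 2 * r := by linarith
    have h5 : 0 < (2 * r) ^ η := Real.rpow_pos_of_pos h4 _
    rw [Real.rpow_sub h4, Real.rpow_one, div_le_iff₀ h5]
    have h6 : 4 * (α - 1) / b ≤ (2 * r) ^ η := h3
    have h7 : b / (α - 1) * r / 2 * (4 * (α - 1) / b) = 2 * r := by
      field_simp
      ring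
    calc 2 * r = b / (α - 1) * r / 2 * (4 * (α - 1) / b) := h7.symm
      _ ≤ _ := mul_le_mul_of_nonneg_left h6 (by positivity)
  linarith

/-- MODULE IN.  Port of `ConeE.inward` (same proof: last vertex of norm at least `|v|` before the
given one, `CC` at the radius `2 |v|`; the only facts used on the walk are the crude bounds for
the weights of its final pieces; the constant is `K = 4 b / a`). -/
theorem inward {h : V d → ℝ} {a b C : ℝ} (hh : HF h a b C) {η : ℝ} (hη : 0 < η) (hη1 : η ≤ 1) :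
    ∃ K : ℝ, 0 < K ∧ ∀ α : ℝ, 2 ≤ α → ∃ R1 : ℝ,
      ∀ (E : Edge d → ℝ) (R0 : ℝ), (∀ e, 0 ≤ E e) → CC h η E R0 →
      ∀ (v : V d) (l : List (Step d)), R1 ≤ nrm v → R0 ≤ nrm v →
        (∀ l1 l2, l = l1 ++ l2 → nrm v ≤ nrm (endp v l1) →
          wt (tau α E) (endp v l1) l2 ≤ 2 * b / (α - 1) * nrm (endp v l1) ^ (1 - α)) →
        ∀ l1 l2, l = l1 ++ l2 → (1 - K / (α - 1)) * nrm v ≤ nrm (endp v l1) := by
  rcases Nat.eq_zero_or_pos d with hd0 | hd
  · refine ⟨1, one_pos, fun α _ => ⟨0, fun E R0 _ _ v l _ _ _ l1 l2 _ => ?_⟩⟩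
    have h0 : ∀ w : V d, nrm w = 0 := by
      intro w
      subst hd0
      simp [nrm]
    rw [h0, h0, mul_zero]
  have ha := hh.pos
  have hb : 0 < b := hh.bpos ⟨0, hd⟩
  refine ⟨4 * b / a, by positivity, ?_⟩
  intro α hα
  have hβ : 0 < α - 1 := by linarith
  obtain ⟨R1, hR11, hR1⟩ := in_radius (C := C) hb hη hα
  refine ⟨R1, ?_⟩
  intro E R0 hE hC v l hv1 hv2 hl l1 l2 hl12
  obtain ⟨hr1, hr2⟩ := hR1 _ hv1
  have hv3 : 1 ≤ nrm v := hR11.trans hv1
  by_cases hz : nrm v ≤ nrm (endp v l1)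
  · have : 0 ≤ 4 * b / a / (α - 1) := by positivity
    nlinarith
  push Not at hz
  obtain ⟨m1, m2, hm, hm1, hm2⟩ := in_last_exit (nrm v) v l1 le_rfl hz
  have hτ : ∀ e, 0 ≤ tau α E e := fun e => tau_nonneg hE e
  have hend : endp (endp v m1) m2 = endp v l1 := by rw [hm, endp_append]
  have hm1' : nrm (endp v m1) ≤ nrm v + 1 := by
    have := hm2 [] m2 rfl
    rwa [endp_nil] at this
  have hp1 : 0 < (nrm v + 2) ^ (-α) := Real.rpow_pos_of_pos (by linarith) _
  have hw0 : wt (tau α E) (endp v m1) m2 ≤ 2 * b / (α - 1) * nrm v ^ (1 - α) := by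
    have h1 := hl m1 (m2 ++ l2) (by rw [hl12, hm, List.append_assoc]) hm1
    rw [wt_append] at h1
    have h2 := wt_nonneg hτ (endp (endp v m1) m2) l2
    have h3 : nrm (endp v m1) ^ (1 - α) ≤ nrm v ^ (1 - α) :=
      Real.rpow_le_rpow_of_nonpos (by linarith) hm1 (by linarith)
    have h4 : 2 * b / (α - 1) * nrm (endp v m1) ^ (1 - α) ≤
        2 * b / (α - 1) * nrm v ^ (1 - α) :=
      mul_le_mul_of_nonneg_left h3 (by positivity)
    linarith
  have hw2 : (nrm v + 2) ^ (-α) * wt E (endp v m1) m2 ≤ wt (tau α E) (endp v m1) m2 := by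
    apply le_wt_tau (by linarith) (by linarith) hE
    intro l3 s l4 h34
    have h1 := mid_edg_le (endp (endp v m1) l3) s
    have h2 := hm2 l3 (s :: l4) h34
    linarith
  have hT : T E (endp v m1) (endp v l1) ≤ wt E (endp v m1) m2 := T_le_wt hE hend
  have hA := hC (2 * nrm v) (by linarith) (endp v m1) (endp v l1) (by linarith) (by linarith)
  rw [abs_le] at hA
  have hlow := hh.low (endp v l1 - endp v m1)
  have hdist : nrm v - nrm (endp v l1) ≤ nrm (endp v l1 - endp v m1) := by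
    have h1 := nrm_le_add (endp v m1) (endp v l1)
    rw [nrm_sub_comm] at h1
    linarith
  have hmain : a * (nrm v - nrm (endp v l1)) - (C + (2 * nrm v) ^ (1 - η)) ≤
      wt E (endp v m1) m2 := by
    have : a * (nrm v - nrm (endp v l1)) ≤ a * nrm (endp v l1 - endp v m1) :=
      mul_le_mul_of_nonneg_left hdist ha.le
    linarith [hA.1]
  have hchain : (nrm v + 2) ^ (-α) *
      (a * (nrm v - nrm (endp v l1)) - (C + (2 * nrm v) ^ (1 - η))) ≤
      2 * b / (α - 1) * nrm v ^ (1 - α) :=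
    (mul_le_mul_of_nonneg_left hmain hp1.le).trans (hw2.trans hw0)
  have hr0 : 0 < nrm v := by linarith
  have hratio : nrm v ^ (1 - α) = (nrm v + 2) ^ (-α) * ((1 + 2 / nrm v) ^ α * nrm v) := by
    have h1 : (1 + 2 / nrm v) = (nrm v + 2) / nrm v := by field_simp
    rw [h1, Real.div_rpow (by linarith) hr0.le, Real.rpow_neg (by linarith : (0:ℝ) ≤ nrm v + 2)]
    have h2 : nrm v ^ (1 - α) = nrm v / nrm v ^ α := by
      rw [Real.rpow_sub hr0, Real.rpow_one]
    rw [h2]
    have h3 : 0 < (nrm v + 2) ^ α := Real.rpow_pos_of_pos (by linarith) _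
    have h4 : 0 < nrm v ^ α := Real.rpow_pos_of_pos hr0 _
    field_simp
  rw [hratio] at hchain
  have hc2 : a * (nrm v - nrm (endp v l1)) - (C + (2 * nrm v) ^ (1 - η)) ≤
      2 * b / (α - 1) * ((1 + 2 / nrm v) ^ α * nrm v) := by
    have h1 : (nrm v + 2) ^ (-α) *
        (a * (nrm v - nrm (endp v l1)) - (C + (2 * nrm v) ^ (1 - η))) ≤
        (nrm v + 2) ^ (-α) * (2 * b / (α - 1) * ((1 + 2 / nrm v) ^ α * nrm v)) := by
      calc _ ≤ _ := hchain
        _ = _ := by ring
    exact le_of_mul_le_mul_left h1 hp1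
  have hc3 : a * (nrm v - nrm (endp v l1)) ≤ 4 * (b / (α - 1)) * nrm v := by
    have h1 : 2 * b / (α - 1) * ((1 + 2 / nrm v) ^ α * nrm v) ≤
        2 * b / (α - 1) * (3 / 2 * nrm v) :=
      mul_le_mul_of_nonneg_left (mul_le_mul_of_nonneg_right hr1 hr0.le) (by positivity)
    have h2 : 2 * b / (α - 1) * (3 / 2 * nrm v) = 3 * (b / (α - 1) * nrm v) := by ring
    linarith
  have hfin : nrm v - nrm (endp v l1) ≤ 4 * b / a / (α - 1) * nrm v := by
    have h1 : 4 * b / a / (α - 1) * nrm v = (4 * (b / (α - 1)) * nrm v) / a := by field_simp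
    rw [h1, le_div_iff₀ ha]
    linarith
  linarith

end ConeD
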