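import Pool.Agent.ConeD.Sup

/-!
# Lower bound for the energy (section 3 (L) of the text)

`y` is a vertex with `M1 ⟨z, y / |y|⟩ - C1 ≤ h z` for all `z`, `r = |y|`.  A walk from `y` which
goes to distance `K2 r / (α - 1)` costs at least `(1 - ε) M1 / (α - 1) r ^ (1 - α)`.
-/

set_option autoImplicit false

namespace ConeD

variable {d : ℕ}

/-- first visit of a walk to a set -/
private theorem LO_first (P : V d → Prop) (x : V d) (l : List (Step d)) :
    (∀ l1 l2, l = l1 ++ l2 → ¬ P (endp x l1)) ∨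
    ∃ l1 l2, l = l1 ++ l2 ∧ P (endp x l1) ∧
      ∀ l3 l4, l1 = l3 ++ l4 → l4 ≠ [] → ¬ P (endp x l3) := by
  classical
  induction l generalizing x with
  | nil =>
    by_cases h : P x
    · right
      refine ⟨[], [], rfl, h, ?_⟩
      intro l3 l4 h34 h4
      have := List.append_eq_nil_iff.mp h34.symm
      exact absurd this.2 h4
    · left
      intro l1 l2 h12
      have := List.append_eq_nil_iff.mp h12.symm
      rw [this.1]; exact h
  | cons s l ih =>
    by_cases h : P x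
    · right
      refine ⟨[], s :: l, rfl, h, ?_⟩
      intro l3 l4 h34 h4
      have := List.append_eq_nil_iff.mp h34.symm
      exact absurd this.2 h4
    · rcases ih (x + vec s) with h1 | ⟨l1, l2, h12, hP, hmin⟩
      · left
        intro l1 l2 h12
        cases l1 with
        | nil => exact h
        | cons s' l1 =>
          simp only [List.cons_append, List.cons.injEq] at h12
          rw [← h12.1]
          exact h1 l1 l2 h12.2
      · right
        refine ⟨s :: l1, l2, by rw [h12]; rfl, hP, ?_⟩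
        intro l3 l4 h34 h4
        cases l3 with
        | nil => exact h
        | cons s' l3 =>
          simp only [List.cons_append, List.cons.injEq] at h34
          rw [← h34.1]
          exact hmin l3 l4 h34.2 h4

/-- a power `r ^ (1 - η)` is negligible, from some `r` on -/
private theorem LO_scale {η : ℝ} (hη : 0 < η) (x1 : ℝ) {x0 : ℝ} (hx0 : 0 < x0) :
    ∃ R1 : ℝ, 1 ≤ R1 ∧ ∀ r, R1 ≤ r → x1 ≤ r ∧ (2 * r) ^ (1 - η) ≤ x0 * r := by
  have h1 : Filter.Tendsto (fun r : ℝ => (2 * r) ^ (-η)) Filter.atTop (nhds 0) :=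
    (tendsto_rpow_neg_atTop hη).comp (Filter.tendsto_id.const_mul_atTop (by norm_num))
  have h4 := (h1.eventually (Iic_mem_nhds (by positivity : 0 < x0 / 2))).and
    (Filter.eventually_ge_atTop (max x1 1))
  obtain ⟨R1, hR⟩ := Filter.eventually_atTop.1 h4
  refine ⟨max R1 1, le_max_right _ _, fun r hr => ?_⟩
  obtain ⟨g1, g2⟩ := hR r ((le_max_left _ _).trans hr)
  have hr1 : 1 ≤ r := (le_max_right _ _).trans hr
  refine ⟨(le_max_left _ _).trans g2, ?_⟩
  have g1' : (2 * r) ^ (-η) ≤ x0 / 2 := g1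
  rw [sub_eq_add_neg, Real.rpow_add (by linarith), Real.rpow_one]
  have := mul_le_mul_of_nonneg_left g1' (by linarith : 0 ≤ 2 * r)
  linarith

/-- the norm of a point near `y`, compared with its component in the direction of `y` -/
private theorem LO_perp {y v : V d} (hy : 0 < nrm y) :
    nrm v ^ 2 ≤ pr v y ^ 2 + nrm (v - y) ^ 2 := by
  have h1 : nrm (v - y) ^ 2 = nrm v ^ 2 - 2 * (pr v y * nrm y) + nrm y ^ 2 := by
    have h2 := nrm_add_sq v (-y)
    rw [ip_comm v (-y), ip_neg, ip_comm y v, nrm_neg, ← sub_eq_add_neg] at h2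
    have h3 : pr v y * nrm y = ip v y := by
      unfold pr
      rw [div_mul_cancel₀ _ hy.ne']
    rw [h3, h2]
    ring
  have h4 : 0 ≤ (pr v y - nrm y) ^ 2 := sq_nonneg _
  nlinarith

/-- the norm of a point `v` at distance at most `κ r` from `y`: the excess over `x ≥ r / 2` -/
private theorem LO_nrm {y v : V d} {x κ : ℝ} (hy : 0 < nrm y) (hx : nrm y / 2 ≤ x)
    (h1 : pr v y ≤ x) (h0 : 0 ≤ pr v y) (hκ : 0 ≤ κ) (h2 : nrm (v - y) ≤ κ * nrm y) :
    nrm v ≤ x * (1 + 2 * κ ^ 2) := by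
  have hx0 : 0 < x := by linarith
  have h3 := LO_perp (v := v) hy
  have h4 : pr v y ^ 2 ≤ x ^ 2 := by
    exact pow_le_pow_left₀ h0 h1 2
  have h5 : nrm (v - y) ^ 2 ≤ (κ * (2 * x)) ^ 2 := by
    refine pow_le_pow_left₀ (nrm_nonneg _) (h2.trans ?_) 2
    exact mul_le_mul_of_nonneg_left (by linarith) hκ
  refine abs_le_of_sq_le_sq' ?_ (by positivity) |>.2
  have h6 : (x * (1 + 2 * κ ^ 2)) ^ 2 = x ^ 2 + (κ * (2 * x)) ^ 2 + 4 * κ ^ 4 * x ^ 2 := by ring
  have h7 : 0 ≤ 4 * κ ^ 4 * x ^ 2 := by positivity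
  linarith

private theorem LO_exp {α κ : ℝ} (hα : 0 ≤ α) (hκ : 0 ≤ κ) :
    Real.exp (-(α * κ)) ≤ (1 + κ) ^ (-α) := by
  rw [Real.rpow_def_of_pos (by linarith)]
  apply Real.exp_le_exp.2
  have h1 := Real.log_le_sub_one_of_pos (by linarith : 0 < 1 + κ)
  nlinarith

private theorem LO_bern {α κ : ℝ} (hα : 0 ≤ α) (hκ : 0 ≤ κ) :
    1 - α * κ ≤ (1 + κ) ^ (-α) := by
  have h1 := LO_exp hα hκ
  have h2 := Real.add_one_le_exp (-(α * κ))
  linarith

/-- the last vertex of a nonempty walk is at distance one from a previous vertex -/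
private theorem LO_last {c z : V d} {l : List (Step d)} (hl : l ≠ []) :
    ∃ m1 s, l = m1 ++ [s] ∧ nrm (endp c l - z) ≤ nrm (endp c m1 - z) + 1 := by
  refine ⟨l.dropLast, l.getLast hl, (List.dropLast_append_getLast hl).symm, ?_⟩
  have h1 : endp c l = endp c l.dropLast + vec (l.getLast hl) := by
    conv_lhs => rw [← List.dropLast_append_getLast hl]
    rw [endp_append]
    rfl
  rw [h1]
  have h2 : endp c l.dropLast + vec (l.getLast hl) - z =
      (endp c l.dropLast - z) + vec (l.getLast hl) := by abel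
  rw [h2]
  refine (nrm_add_le _ _).trans ?_
  rw [nrm_vec]

private theorem LO_pr_low {y v : V d} (hy : 0 < nrm y) : nrm y - nrm (v - y) ≤ pr v y := by
  have h1 : pr v y = pr y y + pr (v - y) y := by
    rw [← pr_add]
    congr 1
    abel
  rw [h1, pr_self hy]
  have h2 := (abs_le.mp (abs_pr_le (v - y) y)).1
  linarith

/-- MODULE LO1.  One piece `l1` of the walk, from `c` to the first vertex at distance
`θ r / (α - 1)` of `c`, where `|c - y| ≤ K2 r / (α - 1)`.  Put `D = endp c l1 - c`.  If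
`pr D y ≤ 0` the left side is `≤ 0`.  Otherwise all the midpoints have norm at most
`pr c y (1 + 2 K2 ^ 2 / (α - 1) ^ 2 + 4 θ / (α - 1))`, the `E`-weight is at least
`(1 - ε/6) h(D)`, and `M1 pr D y ≤ (1 + ε/6) h(D)`; use `tangent`. -/
theorem low_step {h : V d → ℝ} {a b C : ℝ} (hh : HF h a b C) {η : ℝ} (hη : 0 < η) (hη1 : η ≤ 1)
    {M1 : ℝ} (hM1 : 0 < M1) {ε : ℝ} (hε : 0 < ε) (hε1 : ε < 1) {K2 : ℝ} (hK2 : 0 < K2)
    {θ : ℝ} (hθ : 0 < θ) (hθε : 48 * θ ≤ ε) :
    ∃ α0 : ℝ, 2 ≤ α0 ∧ ∀ α, α0 < α → ∀ C1 : ℝ, ∃ R1 : ℝ,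
      ∀ (E : Edge d → ℝ) (R0 : ℝ), (∀ e, 0 ≤ E e) → CC h η E R0 →
      ∀ (y c : V d) (l1 : List (Step d)), R1 ≤ nrm y → R0 ≤ nrm y →
        (∀ z, M1 * pr z y - C1 ≤ h z) →
        nrm (c - y) ≤ K2 / (α - 1) * nrm y →
        (∀ m1 s m2, l1 = m1 ++ s :: m2 → nrm (endp c m1 - c) ≤ θ / (α - 1) * nrm y) →
        θ / (α - 1) * nrm y ≤ nrm (endp c l1 - c) →
        (1 - ε) * (M1 / (α - 1)) * (pr c y ^ (1 - α) - pr (endp c l1) y ^ (1 - α)) ≤
          wt (tau α E) c l1 := by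
  have ha := hh.pos
  have hC := hh.Cnn
  refine ⟨max 3 (1 + max (4 * (K2 + θ) + 8) (24 * K2 ^ 2 / ε)), le_trans (by norm_num)
    (le_max_left _ _), ?_⟩
  intro α hα C1
  obtain ⟨β, hβ⟩ : ∃ β : ℝ, β = α - 1 := ⟨_, rfl⟩
  have hβ3 : 2 < β := by
    have := (le_max_left _ _).trans_lt hα
    linarith
  have hβm : max (4 * (K2 + θ) + 8) (24 * K2 ^ 2 / ε) < β := by
    have := (le_max_right _ _).trans_lt hα
    linarith
  have hβ1 : 4 * (K2 + θ) + 8 < β := (le_max_left _ _).trans_lt hβm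
  have hβ2 : 24 * K2 ^ 2 / ε < β := (le_max_right _ _).trans_lt hβm
  have hβ0 : 0 < β := by linarith
  rw [← hβ]
  obtain ⟨ω, hω⟩ : ∃ ω : ℝ, ω = θ / β := ⟨_, rfl⟩
  have hω0 : 0 < ω := by rw [hω]; positivity
  have hωβ : ω * β = θ := by rw [hω]; field_simp
  obtain ⟨κ, hκ⟩ : ∃ κ : ℝ, κ = K2 / β := ⟨_, rfl⟩
  have hκ0 : 0 < κ := by rw [hκ]; positivity
  have hκβ : κ * β = K2 := by rw [hκ]; field_simp
  have hκω : κ + ω ≤ 1 / 4 := by
    rw [hκ, hω, ← add_div, div_le_iff₀ hβ0]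
    linarith
  rw [← hω, ← hκ]
  -- the scales
  obtain ⟨R1, hR1, hR⟩ := LO_scale hη (max (8 + 1 / ω) (max (2 * C / (a * ω))
    (|C1| * 12 / (ε * (a * ω))))) (x0 := ε / 12 * (a * ω)) (by positivity)
  refine ⟨R1, ?_⟩
  intro E R0 hE hCC y c l1 hr hR0 hM hcy hpre hend
  obtain ⟨g1, g2⟩ := hR (nrm y) hr
  obtain ⟨r, hrdef⟩ : ∃ r : ℝ, r = nrm y := ⟨_, rfl⟩
  rw [← hrdef] at hr hR0 hcy hpre hend g1 g2
  have hr1 : 1 ≤ r := hR1.trans hr
  have hr0 : 0 < r := by linarith
  have hy : 0 < nrm y := by rw [← hrdef]; exact hr0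
  have g3 : 8 + 1 / ω ≤ r := (le_max_left _ _).trans g1
  have g8 : 8 ≤ r := by
    have : 0 < 1 / ω := by positivity
    linarith
  have gω : 1 ≤ ω * r := by
    have h1 : 1 / ω ≤ r := by linarith
    rw [div_le_iff₀ hω0] at h1
    linarith
  have g4 : C ≤ a * (ω * r) / 2 := by
    have h1 := ((le_max_left _ _).trans (le_max_right _ _)).trans g1
    rw [div_le_iff₀ (by positivity)] at h1
    linarith
  have g5 : C1 ≤ ε / 6 * (a * (ω * r) / 2) := by
    have h1 := ((le_max_right _ _).trans (le_max_right _ _)).trans g1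
    rw [div_le_iff₀ (by positivity)] at h1
    have h2 := le_abs_self C1
    linarith
  -- end of the piece
  have hl1 : l1 ≠ [] := by
    rintro rfl
    rw [endp_nil, sub_self, nrm_zero] at hend
    linarith
  obtain ⟨D, hD⟩ : ∃ D : V d, D = endp c l1 - c := ⟨_, rfl⟩
  rw [← hD] at hend
  have hDup : nrm D ≤ ω * r + 1 := by
    obtain ⟨m1, s, hms, h1⟩ := LO_last (c := c) (z := c) hl1
    rw [← hD] at h1
    have h2 := hpre m1 s [] hms
    linarith
  have hcD : endp c l1 = c + D := by rw [hD]; abel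
  obtain ⟨x, hx⟩ : ∃ x : ℝ, x = pr c y := ⟨_, rfl⟩
  have hxlow : r * (1 - κ) ≤ x := by
    have h1 := LO_pr_low (v := c) hy
    rw [← hx, ← hrdef] at h1
    linarith
  have hκr : κ * r + ω * r ≤ r / 4 := by
    have := mul_le_mul_of_nonneg_right hκω hr0.le
    linarith
  have hxr : r / 2 ≤ x := by linarith
  have hx0 : 0 < x := by linarith
  obtain ⟨s, hs⟩ : ∃ s : ℝ, s = pr D y := ⟨_, rfl⟩
  have hxe : pr (endp c l1) y = x + s := by rw [hcD, pr_add, ← hx, ← hs]
  have hslow : -(ω * r + 1) ≤ s := by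
    have h1 := (abs_le.mp (abs_pr_le D y)).1
    rw [← hs] at h1
    linarith
  have hxs : 0 < x + s := by linarith
  rw [hxe, ← hx]
  have hwt0 : 0 ≤ wt (tau α E) c l1 := wt_nonneg (fun e => tau_nonneg hE e) _ _
  have hcoef : 0 ≤ (1 - ε) * (M1 / β) := mul_nonneg (by linarith) (by positivity)
  by_cases hs0 : s ≤ 0
  · have h1 : x ^ (1 - α) ≤ (x + s) ^ (1 - α) :=
      Real.rpow_le_rpow_of_nonpos hxs (by linarith) (by linarith)
    refine le_trans ?_ hwt0
    exact mul_nonpos_of_nonneg_of_nonpos hcoef (by linarith)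
  push Not at hs0
  have htan := tangent (by linarith : 1 < α) hx0 hxs
  rw [← hβ] at htan
  have hxα : 0 < x ^ (-α) := Real.rpow_pos_of_pos hx0 _
  have hL : (1 - ε) * (M1 / β) * (x ^ (1 - α) - (x + s) ^ (1 - α)) ≤
      x ^ (-α) * ((1 - ε) * (M1 * s)) := by
    have h1 : x ^ (1 - α) - (x + s) ^ (1 - α) ≤ β * x ^ (-α) * s := by
      have h2 : x + s - x = s := by ring
      rw [h2] at htan
      linarith
    refine (mul_le_mul_of_nonneg_left h1 hcoef).trans (le_of_eq ?_)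
    field_simp
  refine hL.trans ?_
  -- the weight for E
  have hcn : nrm c ≤ 2 * r := by
    have h1 := nrm_le_add c y
    rw [← hrdef] at h1
    have : κ * r ≤ r / 4 := by
      have : 0 < ω * r := by positivity
      linarith
    linarith
  have hen : nrm (endp c l1) ≤ 2 * r := by
    rw [hcD]
    have h1 := nrm_add_le c D
    have h2 := nrm_le_add c y
    rw [← hrdef] at h2
    linarith
  have hAp := hCC (2 * r) (by linarith) c (endp c l1) hcn hen
  rw [← hD] at hAp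
  have hAp1 := (abs_le.mp hAp).1
  have hTw : T E c (endp c l1) ≤ wt E c l1 := T_le_wt hE rfl
  have hlowD := hh.low D
  have hDa : a * (ω * r) ≤ a * nrm D := mul_le_mul_of_nonneg_left hend ha.le
  have hhD : a * (ω * r) / 2 ≤ h D := by linarith
  have hwE : (1 - ε / 6) * h D ≤ wt E c l1 := by
    have h1 : (2 * r) ^ (1 - η) ≤ ε / 6 * h D := by
      refine g2.trans ?_
      have := mul_le_mul_of_nonneg_left hhD (by positivity : 0 ≤ ε / 6)
      linarith
    linarith
  have hMs : M1 * s ≤ (1 + ε / 6) * h D := by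
    have h1 := hM D
    rw [← hs] at h1
    have h2 := mul_le_mul_of_nonneg_left hhD (by positivity : 0 ≤ ε / 6)
    linarith
  -- midpoints
  obtain ⟨χ, hχ⟩ : ∃ χ : ℝ, χ = 2 * κ ^ 2 + 4 * ω := ⟨_, rfl⟩
  have hχ0 : 0 < χ := by rw [hχ]; positivity
  have hcx : nrm c ≤ x * (1 + 2 * κ ^ 2) := by
    apply LO_nrm hy (by rw [← hrdef]; exact hxr) (by rw [hx]) (by rw [← hx]; exact hx0.le) hκ0.le
    rw [← hrdef]
    exact hcy
  have hmid : ∀ l3 t l4, l1 = l3 ++ t :: l4 → mid (edg (endp c l3) t) ≤ x * (1 + χ) := by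
    intro l3 t l4 hl
    have h1 := hpre l3 t l4 hl
    have h2 := mid_edg_le (endp c l3) t
    have h3 := nrm_le_add (endp c l3) c
    have h4 : ω * r ≤ ω * (2 * x) := mul_le_mul_of_nonneg_left (by linarith) hω0.le
    rw [hχ]
    linarith
  have hbase := le_wt_tau (by linarith : (0 : ℝ) ≤ α) (by positivity : 0 < x * (1 + χ)) hE c l1 hmid
  refine le_trans ?_ hbase
  rw [Real.mul_rpow hx0.le (by positivity), mul_assoc]
  refine mul_le_mul_of_nonneg_left ?_ hxα.le
  have hχα : α * χ ≤ ε / 3 := by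
    have h1 : α ≤ 3 / 2 * β := by linarith
    have h2 : β * χ ≤ ε * (2 / 9) := by
      have h3 : β * χ = 2 * K2 * κ + 4 * θ := by
        rw [hχ]
        have : β * (2 * κ ^ 2 + 4 * ω) = 2 * (κ * β) * κ + 4 * (ω * β) := by ring
        rw [this, hκβ, hωβ]
      rw [h3]
      have h4 : K2 * κ ≤ ε / 24 := by
        rw [hκ, ← mul_div_assoc, div_le_iff₀ hβ0]
        rw [div_lt_iff₀ hε] at hβ2
        linarith
      linarith
    calc α * χ ≤ 3 / 2 * β * χ := mul_le_mul_of_nonneg_right h1 hχ0.le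
      _ ≤ ε / 3 := by linarith
  have hpw := LO_bern (by linarith : 0 ≤ α) hχ0.le
  have hpw2 : 1 - ε / 3 ≤ (1 + χ) ^ (-α) := by linarith
  have hhD0 : 0 ≤ h D := hh.nonneg D
  calc (1 - ε) * (M1 * s) ≤ (1 - ε) * ((1 + ε / 6) * h D) :=
        mul_le_mul_of_nonneg_left hMs (by linarith)
    _ ≤ (1 - ε / 3) * ((1 - ε / 6) * h D) := by
        have h1 : (1 - ε) * (1 + ε / 6) ≤ (1 - ε / 3) * (1 - ε / 6) := by nlinarith
        have := mul_le_mul_of_nonneg_right h1 hhD0
        linarith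
    _ ≤ (1 + χ) ^ (-α) * wt E c l1 := by
        refine mul_le_mul hpw2 hwE (mul_nonneg (by linarith) hhD0)
          (Real.rpow_nonneg (by positivity) _)

/-- MODULE LO2.  Induction on the length of the walk; the last piece, shorter than
`θ r / (α - 1)`, costs at most the last term (by `tangent`). -/
theorem low_chop {h : V d → ℝ} {a b C : ℝ} (hh : HF h a b C) {η : ℝ} (hη : 0 < η) (hη1 : η ≤ 1)
    {M1 : ℝ} (hM1 : 0 < M1) {ε : ℝ} (hε : 0 < ε) (hε1 : ε < 1) {K2 : ℝ} (hK2 : 0 < K2)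
    {θ : ℝ} (hθ : 0 < θ) (hθε : 48 * θ ≤ ε) :
    ∃ α0 : ℝ, 2 ≤ α0 ∧ ∀ α, α0 < α → ∀ C1 : ℝ, ∃ R1 : ℝ,
      ∀ (E : Edge d → ℝ) (R0 : ℝ), (∀ e, 0 ≤ E e) → CC h η E R0 →
      ∀ (y c : V d) (l : List (Step d)), R1 ≤ nrm y → R0 ≤ nrm y →
        (∀ z, M1 * pr z y - C1 ≤ h z) →
        (∀ l1 l2, l = l1 ++ l2 → nrm (endp c l1 - y) ≤ K2 / (α - 1) * nrm y) →
        (1 - ε) * (M1 / (α - 1)) * (pr c y ^ (1 - α) - pr (endp c l) y ^ (1 - α))
          - M1 * (θ / (α - 1)) * Real.exp (2 * K2 + 1) * nrm y ^ (1 - α) ≤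
          wt (tau α E) c l := by
  obtain ⟨α1, hα1, hstep⟩ := low_step hh hη hη1 hM1 hε hε1 hK2 hθ hθε
  refine ⟨max α1 (2 * K2 + 3), hα1.trans (le_max_left _ _), ?_⟩
  intro α hα C1
  obtain ⟨R1, hR1⟩ := hstep α ((le_max_left _ _).trans_lt hα) C1
  have hα2 := (le_max_right _ _).trans_lt hα
  have hα3 : 2 < α := hα1.trans_lt ((le_max_left _ _).trans_lt hα)
  refine ⟨max R1 1, ?_⟩
  intro E R0 hE hCC y c l hr hR0 hM
  have hr1 : 1 ≤ nrm y := (le_max_right _ _).trans hr
  have hrR : R1 ≤ nrm y := (le_max_left _ _).trans hr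
  have hy : 0 < nrm y := by linarith
  have hβ0 : 0 < α - 1 := by linarith
  have hκ1 : K2 / (α - 1) < 1 := by
    rw [div_lt_one hβ0]
    linarith
  have hθβ : 0 < θ / (α - 1) * nrm y := by positivity
  induction hn : l.length using Nat.strong_induction_on generalizing c l with
  | _ n ih =>
    intro hl
    rcases LO_first (fun v => θ / (α - 1) * nrm y ≤ nrm (v - c)) c l with
      hA | ⟨l1, l2, h12, hP, hmin⟩
    · -- last piece
      have h1 := not_le.mp (hA l [] (by simp))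
      have hwt0 : 0 ≤ wt (tau α E) c l := wt_nonneg (fun e => tau_nonneg hE e) _ _
      refine le_trans ?_ hwt0
      have hc := hl [] l rfl
      have he := hl l [] (by simp)
      rw [endp_nil] at hc
      have hxc : nrm y * (1 - K2 / (α - 1)) ≤ pr c y := by
        have := LO_pr_low (v := c) hy
        linarith
      have hxe : nrm y * (1 - K2 / (α - 1)) ≤ pr (endp c l) y := by
        have := LO_pr_low (v := endp c l) hy
        linarith
      have hpos : 0 < nrm y * (1 - K2 / (α - 1)) := mul_pos hy (by linarith)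
      have htan := tangent (by linarith : 1 < α) (hpos.trans_le hxc) (hpos.trans_le hxe)
      have hd : pr (endp c l) y - pr c y ≤ θ / (α - 1) * nrm y := by
        rw [← pr_sub]
        exact (pr_le _ _).trans h1.le
      have hpow : pr c y ^ (-α) ≤ Real.exp (2 * K2 + 1) * nrm y ^ (-α) := by
        have h2 : pr c y ^ (-α) ≤ (nrm y * (1 - K2 / (α - 1))) ^ (-α) :=
          Real.rpow_le_rpow_of_nonpos hpos hxc (by linarith)
        refine h2.trans ?_
        rw [Real.mul_rpow hy.le (by linarith), mul_comm]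
        refine mul_le_mul_of_nonneg_right ?_ (Real.rpow_nonneg hy.le _)
        rw [Real.rpow_def_of_pos (by linarith)]
        apply Real.exp_le_exp.2
        have h3 := Real.one_sub_inv_le_log_of_pos (by linarith : 0 < 1 - K2 / (α - 1))
        have h4 : -(K2 / (α - 1 - K2)) ≤ Real.log (1 - K2 / (α - 1)) := by
          refine le_trans (le_of_eq ?_) h3
          have h5 : α - 1 ≠ 0 := hβ0.ne'
          have h6 : α - 1 - K2 ≠ 0 := by
            have : 0 < α - 1 - K2 := by linarith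
            exact this.ne'
          have h7 : 1 - K2 / (α - 1) = (α - 1 - K2) / (α - 1) := by field_simp
          rw [h7, inv_div]
          field_simp
          ring
        have h5 : α * (K2 / (α - 1 - K2)) ≤ 2 * K2 + 1 := by
          rw [← mul_div_assoc, div_le_iff₀ (by linarith)]
          nlinarith
        have h6 := mul_le_mul_of_nonneg_left h4 (by linarith : 0 ≤ α)
        linarith
      have h2 : pr c y ^ (1 - α) - pr (endp c l) y ^ (1 - α) ≤
          θ * Real.exp (2 * K2 + 1) * nrm y ^ (1 - α) := by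
        have h3 : (α - 1) * pr c y ^ (-α) * (pr (endp c l) y - pr c y) ≤
            (α - 1) * (Real.exp (2 * K2 + 1) * nrm y ^ (-α)) * (θ / (α - 1) * nrm y) := by
          have hp0 : 0 ≤ pr c y ^ (-α) := Real.rpow_nonneg (hpos.trans_le hxc).le _
          calc (α - 1) * pr c y ^ (-α) * (pr (endp c l) y - pr c y)
              ≤ (α - 1) * pr c y ^ (-α) * (θ / (α - 1) * nrm y) :=
                mul_le_mul_of_nonneg_left hd (by positivity)
            _ ≤ _ := mul_le_mul_of_nonneg_right (mul_le_mul_of_nonneg_left hpow hβ0.le) hθβ.le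
        have h4 : nrm y ^ (1 - α) = nrm y * nrm y ^ (-α) := by
          rw [sub_eq_add_neg, Real.rpow_add hy, Real.rpow_one]
        have h5 : (α - 1) * (Real.exp (2 * K2 + 1) * nrm y ^ (-α)) * (θ / (α - 1) * nrm y) =
            θ * Real.exp (2 * K2 + 1) * nrm y ^ (1 - α) := by
          rw [h4]
          field_simp
        linarith
      have h3 : (1 - ε) * (M1 / (α - 1)) * (pr c y ^ (1 - α) - pr (endp c l) y ^ (1 - α)) ≤
          (1 - ε) * (M1 / (α - 1)) * (θ * Real.exp (2 * K2 + 1) * nrm y ^ (1 - α)) :=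
        mul_le_mul_of_nonneg_left h2 (mul_nonneg (by linarith) (by positivity))
      have h4 : (1 - ε) * (M1 / (α - 1)) * (θ * Real.exp (2 * K2 + 1) * nrm y ^ (1 - α)) ≤
          1 * (M1 / (α - 1)) * (θ * Real.exp (2 * K2 + 1) * nrm y ^ (1 - α)) := by
        refine mul_le_mul_of_nonneg_right (mul_le_mul_of_nonneg_right (by linarith) (by positivity))
          ?_
        have : 0 ≤ nrm y ^ (1 - α) := Real.rpow_nonneg hy.le _
        positivity
      have h5 : 1 * (M1 / (α - 1)) * (θ * Real.exp (2 * K2 + 1) * nrm y ^ (1 - α)) =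
          M1 * (θ / (α - 1)) * Real.exp (2 * K2 + 1) * nrm y ^ (1 - α) := by ring
      linarith
    · have hl1 : l1 ≠ [] := by
        rintro rfl
        have hP' : θ / (α - 1) * nrm y ≤ nrm (c - c) := hP
        rw [sub_self, nrm_zero] at hP'
        linarith
      have hlen : l2.length < n := by
        rw [← hn, h12, List.length_append]
        have := List.length_pos_of_ne_nil hl1
        omega
      have hl2 : ∀ l3 l4, l2 = l3 ++ l4 →
          nrm (endp (endp c l1) l3 - y) ≤ K2 / (α - 1) * nrm y := by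
        intro l3 l4 h34
        rw [← endp_append]
        apply hl (l1 ++ l3) l4
        rw [h12, h34, List.append_assoc]
      have h1 := ih l2.length hlen (endp c l1) l2 rfl hl2
      have h2 := hR1 E R0 hE hCC y c l1 hrR hR0 hM (hl [] l rfl) (fun m1 s m2 hm =>
        (not_le.mp (hmin m1 (s :: m2) hm (by simp))).le) hP
      have h3 : endp c l = endp (endp c l1) l2 := by rw [h12, endp_append]
      rw [h12, wt_append, endp_append]
      linarith

/-- MODULE LO3.  A walk to distance `K2 r / (α - 1)` which does not advance more than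
`K' r / (α - 1)` in the direction of `y`: all its midpoints have norm at most
`r (1 + K' / (α - 1) + K2 ^ 2 / (α - 1) ^ 2) + 1`, so
that its weight is at least `exp (-2 K') r ^ (-α)` times `a K2 r / (2 (α - 1))`. -/
theorem low_side {h : V d → ℝ} {a b C : ℝ} (hh : HF h a b C) {η : ℝ} (hη : 0 < η) (hη1 : η ≤ 1)
    {K' : ℝ} (hK' : 0 < K') {K2 : ℝ} (hK2 : 0 < K2) :
    ∃ α0 : ℝ, 2 ≤ α0 ∧ ∀ α, α0 < α → ∃ R1 : ℝ,
      ∀ (E : Edge d → ℝ) (R0 : ℝ), (∀ e, 0 ≤ E e) → CC h η E R0 →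
      ∀ (y : V d) (l : List (Step d)), R1 ≤ nrm y → R0 ≤ nrm y →
        (∀ l1 s l2, l = l1 ++ s :: l2 → nrm (endp y l1 - y) ≤ K2 / (α - 1) * nrm y ∧
          pr (endp y l1) y ≤ (1 + K' / (α - 1)) * nrm y) →
        K2 / (α - 1) * nrm y ≤ nrm (endp y l - y) →
        a * K2 / 2 * Real.exp (-(2 * K')) / (α - 1) * nrm y ^ (1 - α) ≤ wt (tau α E) y l := by
  have ha := hh.pos
  have hC := hh.Cnn
  refine ⟨max 4 (1 + max (4 * K2) (2 * K2 ^ 2 / K')), le_trans (by norm_num)
    (le_max_left _ _), ?_⟩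
  intro α hα
  obtain ⟨β, hβ⟩ : ∃ β : ℝ, β = α - 1 := ⟨_, rfl⟩
  have hβ3 : 3 < β := by
    have := (le_max_left _ _).trans_lt hα
    linarith
  have hβm : max (4 * K2) (2 * K2 ^ 2 / K') < β := by
    have := (le_max_right _ _).trans_lt hα
    linarith
  have hβ1 : 4 * K2 < β := (le_max_left _ _).trans_lt hβm
  have hβ2 : 2 * K2 ^ 2 / K' < β := (le_max_right _ _).trans_lt hβm
  have hβ0 : 0 < β := by linarith
  rw [← hβ]
  obtain ⟨κ, hκ⟩ : ∃ κ : ℝ, κ = K2 / β := ⟨_, rfl⟩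
  have hκ0 : 0 < κ := by rw [hκ]; positivity
  have hκβ : κ * β = K2 := by rw [hκ]; field_simp
  have hκ1 : κ ≤ 1 / 4 := by
    rw [hκ, div_le_iff₀ hβ0]
    linarith
  obtain ⟨ν, hν⟩ : ∃ ν : ℝ, ν = K' / β := ⟨_, rfl⟩
  have hν0 : 0 < ν := by rw [hν]; positivity
  have hνβ : ν * β = K' := by rw [hν]; field_simp
  rw [← hκ, ← hν]
  obtain ⟨R1, hR1, hR⟩ := LO_scale hη (max (4 + 1 / κ ^ 2) (4 * C / (a * κ)))
    (x0 := a * κ / 4) (by positivity)
  refine ⟨R1, ?_⟩
  intro E R0 hE hCC y l hr hR0 hpre hend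
  obtain ⟨g1, g2⟩ := hR (nrm y) hr
  obtain ⟨r, hrdef⟩ : ∃ r : ℝ, r = nrm y := ⟨_, rfl⟩
  rw [← hrdef] at hr hR0 hpre hend g1 g2
  rw [← hrdef]
  have hr1 : 1 ≤ r := hR1.trans hr
  have hr0 : 0 < r := by linarith
  have hy : 0 < nrm y := by rw [← hrdef]; exact hr0
  have g3 : 4 + 1 / κ ^ 2 ≤ r := (le_max_left _ _).trans g1
  have g4 : 4 ≤ r := by
    have : 0 < 1 / κ ^ 2 := by positivity
    linarith
  have gκ : 1 ≤ κ ^ 2 * r := by
    have h1 : 1 / κ ^ 2 ≤ r := by linarith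
    rw [div_le_iff₀ (by positivity)] at h1
    linarith
  have g5 : C ≤ a * (κ * r) / 4 := by
    have h1 := (le_max_right _ _).trans g1
    rw [div_le_iff₀ (by positivity)] at h1
    linarith
  have hl : l ≠ [] := by
    rintro rfl
    rw [endp_nil, sub_self, nrm_zero] at hend
    have : 0 < κ * r := by positivity
    linarith
  have hκr : κ * r ≤ r / 4 := by
    have := mul_le_mul_of_nonneg_right hκ1 hr0.le
    linarith
  have hup : nrm (endp y l - y) ≤ κ * r + 1 := by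
    obtain ⟨m1, s, hms, h1⟩ := LO_last (c := y) (z := y) hl
    have h2 := (hpre m1 s [] hms).1
    linarith
  have hen : nrm (endp y l) ≤ 2 * r := by
    have h1 := nrm_le_add (endp y l) y
    rw [← hrdef] at h1
    linarith
  have hyn : nrm y ≤ 2 * r := by rw [← hrdef]; linarith
  have hAp := hCC (2 * r) (by linarith) y (endp y l) hyn hen
  have hAp1 := (abs_le.mp hAp).1
  have hTw : T E y (endp y l) ≤ wt E y l := T_le_wt hE rfl
  have hlowD := hh.low (endp y l - y)
  have hDa : a * (κ * r) ≤ a * nrm (endp y l - y) := mul_le_mul_of_nonneg_left hend ha.le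
  have hwE : a * (κ * r) / 2 ≤ wt E y l := by linarith
  obtain ⟨χ, hχ⟩ : ∃ χ : ℝ, χ = ν + κ ^ 2 := ⟨_, rfl⟩
  have hχ0 : 0 < χ := by rw [hχ]; positivity
  have hmid : ∀ l3 t l4, l = l3 ++ t :: l4 → mid (edg (endp y l3) t) ≤ r * (1 + χ) := by
    intro l3 t l4 hl3
    obtain ⟨h1, h2⟩ := hpre l3 t l4 hl3
    have h3 := mid_edg_le (endp y l3) t
    have h4 := LO_perp (v := endp y l3) hy
    have h5 := LO_pr_low (v := endp y l3) hy
    rw [← hrdef] at h5
    have h6 : 0 ≤ pr (endp y l3) y := by linarith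
    have h7 : pr (endp y l3) y ^ 2 ≤ ((1 + ν) * r) ^ 2 := pow_le_pow_left₀ h6 h2 2
    have h8 : nrm (endp y l3 - y) ^ 2 ≤ (κ * r) ^ 2 := pow_le_pow_left₀ (nrm_nonneg _) h1 2
    have h9 : nrm (endp y l3) ≤ r * (1 + ν + κ ^ 2 / 2) := by
      refine abs_le_of_sq_le_sq' ?_ (by positivity) |>.2
      have h10 : (r * (1 + ν + κ ^ 2 / 2)) ^ 2 =
          ((1 + ν) * r) ^ 2 + (κ * r) ^ 2 + (ν * κ ^ 2 + κ ^ 4 / 4) * r ^ 2 := by ring
      have h11 : 0 ≤ (ν * κ ^ 2 + κ ^ 4 / 4) * r ^ 2 := by positivity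
      linarith
    rw [hχ]
    linarith
  have hbase := le_wt_tau (by linarith : (0 : ℝ) ≤ α) (by positivity : 0 < r * (1 + χ)) hE y l hmid
  refine le_trans ?_ hbase
  rw [Real.mul_rpow hr0.le (by positivity)]
  have hrα : r ^ (1 - α) = r * r ^ (-α) := by
    rw [sub_eq_add_neg, Real.rpow_add hr0, Real.rpow_one]
  have hrα0 : 0 < r ^ (-α) := Real.rpow_pos_of_pos hr0 _
  have hex : Real.exp (-(2 * K')) ≤ (1 + χ) ^ (-α) := by
    refine le_trans (Real.exp_le_exp.2 ?_) (LO_exp (by linarith : 0 ≤ α) hχ0.le)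
    have h1 : α ≤ 4 / 3 * β := by linarith
    have h2 : β * χ ≤ 3 / 2 * K' := by
      have h3 : β * χ = K' + K2 * κ := by
        rw [hχ]
        have : β * (ν + κ ^ 2) = ν * β + (κ * β) * κ := by ring
        rw [this, hκβ, hνβ]
      rw [h3]
      have h4 : K2 * κ ≤ K' / 2 := by
        rw [hκ, ← mul_div_assoc, div_le_iff₀ hβ0]
        rw [div_lt_iff₀ hK'] at hβ2
        linarith
      linarith
    have h5 : α * χ ≤ 4 / 3 * β * χ := mul_le_mul_of_nonneg_right h1 hχ0.le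
    linarith
  calc a * K2 / 2 * Real.exp (-(2 * K')) / β * r ^ (1 - α)
      = r ^ (-α) * Real.exp (-(2 * K')) * (a * (κ * r) / 2) := by
        rw [hrα, hκ]
        ring
    _ ≤ r ^ (-α) * (1 + χ) ^ (-α) * wt E y l := by
        refine mul_le_mul (mul_le_mul_of_nonneg_left hex hrα0.le) hwE (by positivity) ?_
        exact mul_nonneg hrα0.le (Real.rpow_nonneg (by positivity) _)

/-- MODULE LO4.  Assembly: `K' = log (4 / ε) + 1`, `K2 = 2 exp (2 K') M1 / a`, `low_chop` with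
`K2 + 1` instead of `K2`, `ε / 4` instead of `ε` and `θ` small; consider the shortest prefix of
`l` whose end `z` has `|z - y| ≥ K2 r / (α - 1)` or `pr z y ≥ (1 + K' / (α - 1)) r`. -/
theorem low_bound {h : V d → ℝ} {a b C : ℝ} (hh : HF h a b C) {η : ℝ} (hη : 0 < η) (hη1 : η ≤ 1)
    {M1 : ℝ} (hM1 : 0 < M1) {ε : ℝ} (hε : 0 < ε) (hε1 : ε < 1) :
    ∃ α0 K2 : ℝ, 2 ≤ α0 ∧ 0 < K2 ∧ ∀ α, α0 < α → ∀ C1 : ℝ, ∃ R1 : ℝ,
      ∀ (E : Edge d → ℝ) (R0 : ℝ), (∀ e, 0 ≤ E e) → CC h η E R0 →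
      ∀ (y : V d) (l : List (Step d)), R1 ≤ nrm y → R0 ≤ nrm y →
        (∀ z, M1 * pr z y - C1 ≤ h z) →
        K2 / (α - 1) * nrm y ≤ nrm (endp y l - y) →
        (1 - ε) * (M1 / (α - 1)) * nrm y ^ (1 - α) ≤ wt (tau α E) y l := by
  have ha := hh.pos
  obtain ⟨K', hK'⟩ : ∃ K' : ℝ, K' = Real.log (4 / ε) + 1 := ⟨_, rfl⟩
  have hlog : 0 < Real.log (4 / ε) := by
    apply Real.log_pos
    rw [lt_div_iff₀ hε]
    linarith
  have hK'1 : 1 < K' := by linarith
  have hK'0 : 0 < K' := by linarith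
  obtain ⟨K2, hK2⟩ : ∃ K2 : ℝ, K2 = 2 * Real.exp (2 * K') * M1 / a := ⟨_, rfl⟩
  have hK20 : 0 < K2 := by
    rw [hK2]
    have := Real.exp_pos (2 * K')
    positivity
  obtain ⟨θ, hθ⟩ : ∃ θ : ℝ, θ = min (ε / 4 / 48) (ε / 4 * Real.exp (-(2 * (K2 + 1) + 1))) :=
    ⟨_, rfl⟩
  have hθ0 : 0 < θ := by
    rw [hθ]
    have := Real.exp_pos (-(2 * (K2 + 1) + 1))
    positivity
  have hθ1 : 48 * θ ≤ ε / 4 := by
    have : θ ≤ ε / 4 / 48 := by rw [hθ]; exact min_le_left _ _
    linarith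
  have hθ2 : θ * Real.exp (2 * (K2 + 1) + 1) ≤ ε / 4 := by
    have h1 : θ ≤ ε / 4 * Real.exp (-(2 * (K2 + 1) + 1)) := by rw [hθ]; exact min_le_right _ _
    have h2 := mul_le_mul_of_nonneg_right h1 (Real.exp_pos (2 * (K2 + 1) + 1)).le
    rw [mul_assoc, ← Real.exp_add, neg_add_cancel, Real.exp_zero, mul_one] at h2
    exact h2
  obtain ⟨α1, hα1, hchop⟩ := low_chop hh hη hη1 hM1 (by positivity : 0 < ε / 4) (by linarith)
    (by linarith : 0 < K2 + 1) hθ0 hθ1
  obtain ⟨α2, hα2, hside⟩ := low_side hh hη hη1 hK'0 hK20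
  refine ⟨max (max α1 α2) (K' * K' + 1), K2, hα1.trans ((le_max_left _ _).trans
    (le_max_left _ _)), hK20, ?_⟩
  intro α hα C1
  have hαa : α1 < α := ((le_max_left _ _).trans (le_max_left _ _)).trans_lt hα
  have hαb : α2 < α := ((le_max_right _ _).trans (le_max_left _ _)).trans_lt hα
  have hαc : K' * K' + 1 < α := (le_max_right _ _).trans_lt hα
  obtain ⟨R1, hR1⟩ := hchop α hαa C1
  obtain ⟨R2, hR2⟩ := hside α hαb
  have hβ0 : 0 < α - 1 := by linarith
  refine ⟨max (max R1 R2) (α + 1), ?_⟩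
  intro E R0 hE hCC y l hr hR0 hM hend
  have hr1 : R1 ≤ nrm y := ((le_max_left _ _).trans (le_max_left _ _)).trans hr
  have hr2 : R2 ≤ nrm y := ((le_max_right _ _).trans (le_max_left _ _)).trans hr
  have hr3 : α + 1 ≤ nrm y := (le_max_right _ _).trans hr
  have hy : 0 < nrm y := by linarith
  have hnα : 0 < nrm y ^ (1 - α) := Real.rpow_pos_of_pos hy _
  rcases LO_first (fun v => K2 / (α - 1) * nrm y ≤ nrm (v - y) ∨
      (1 + K' / (α - 1)) * nrm y ≤ pr v y) y l with hA | ⟨l1, l2, h12, hP, hmin⟩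
  · exact absurd (Or.inl hend) (hA l [] (by simp))
  have hwl : wt (tau α E) y l1 ≤ wt (tau α E) y l := by
    rw [h12, wt_append]
    have := wt_nonneg (fun e => tau_nonneg (α := α) hE e) (endp y l1) l2
    linarith
  refine le_trans ?_ hwl
  rcases hP with hP | hP
  · have h1 := hR2 E R0 hE hCC y l1 hr2 hR0 (fun m1 s m2 hm => by
      have h2 := hmin m1 (s :: m2) hm (by simp)
      push Not at h2
      exact ⟨h2.1.le, h2.2.le⟩) hP
    refine le_trans ?_ h1
    refine mul_le_mul_of_nonneg_right ?_ hnα.le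
    have h2 : a * K2 / 2 * Real.exp (-(2 * K')) = M1 := by
      rw [hK2]
      have h3 : Real.exp (2 * K') * Real.exp (-(2 * K')) = 1 := by
        rw [← Real.exp_add, add_neg_cancel, Real.exp_zero]
      have h4 : a * (2 * Real.exp (2 * K') * M1 / a) / 2 * Real.exp (-(2 * K')) =
          (Real.exp (2 * K') * Real.exp (-(2 * K'))) * M1 := by
        field_simp
      rw [h4, h3, one_mul]
    rw [h2]
    have h3 : 0 < M1 / (α - 1) := by positivity
    nlinarith
  · have hdist : ∀ m1 m2, l1 = m1 ++ m2 → nrm (endp y m1 - y) ≤ (K2 + 1) / (α - 1) * nrm y := by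
      intro m1 m2 hm
      have hone : 1 ≤ 1 / (α - 1) * nrm y := by
        rw [one_div, inv_mul_eq_div, one_le_div hβ0]
        linarith
      have hsplit : (K2 + 1) / (α - 1) * nrm y = K2 / (α - 1) * nrm y + 1 / (α - 1) * nrm y := by
        ring
      by_cases hm2 : m2 = []
      · by_cases hm1 : m1 = []
        · rw [hm1, endp_nil, sub_self, nrm_zero]
          positivity
        · obtain ⟨k1, s, hks, hk⟩ := LO_last (c := y) (z := y) hm1
          have h2 := hmin k1 (s :: m2) (by rw [hm, hks]; simp) (by simp)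
          push Not at h2
          rw [hsplit]
          linarith [h2.1]
      · have h2 := hmin m1 m2 hm hm2
        push Not at h2
        rw [hsplit]
        linarith [h2.1]
    have h1 := hR1 E R0 hE hCC y y l1 hr1 hR0 hM hdist
    refine le_trans ?_ h1
    rw [pr_self hy]
    have h2 : pr (endp y l1) y ^ (1 - α) ≤ ε / 4 * nrm y ^ (1 - α) := by
      have hν0 : 0 < K' / (α - 1) := by positivity
      have h3 : pr (endp y l1) y ^ (1 - α) ≤ ((1 + K' / (α - 1)) * nrm y) ^ (1 - α) :=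
        Real.rpow_le_rpow_of_nonpos (by positivity) hP (by linarith)
      refine h3.trans ?_
      rw [Real.mul_rpow (by positivity) hy.le]
      refine mul_le_mul_of_nonneg_right ?_ hnα.le
      rw [Real.rpow_def_of_pos (by positivity)]
      have h4 : ε / 4 = Real.exp (-Real.log (4 / ε)) := by
        rw [Real.exp_neg, Real.exp_log (by positivity), inv_div]
      rw [h4]
      apply Real.exp_le_exp.2
      have h5 := Real.one_sub_inv_le_log_of_pos (by positivity : 0 < 1 + K' / (α - 1))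
      have h6 : 1 - (1 + K' / (α - 1))⁻¹ = K' / (α - 1 + K') := by
        field_simp
        ring
      rw [h6] at h5
      have h7 : K' - 1 ≤ (α - 1) * (K' / (α - 1 + K')) := by
        rw [← mul_div_assoc, le_div_iff₀ (by linarith)]
        nlinarith
      have h8 := mul_le_mul_of_nonneg_left h5 hβ0.le
      have h9 : Real.log (4 / ε) = K' - 1 := by rw [hK']; ring
      rw [h9]
      linarith
    have hMβ : 0 < M1 / (α - 1) := by positivity
    have h3 : (1 - ε / 4) * (M1 / (α - 1)) * ((1 - ε / 4) * nrm y ^ (1 - α)) ≤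
        (1 - ε / 4) * (M1 / (α - 1)) * (nrm y ^ (1 - α) - pr (endp y l1) y ^ (1 - α)) := by
      refine mul_le_mul_of_nonneg_left (by linarith) (mul_nonneg (by linarith) hMβ.le)
    have h4 : M1 * (θ / (α - 1)) * Real.exp (2 * (K2 + 1) + 1) * nrm y ^ (1 - α) ≤
        ε / 4 * (M1 / (α - 1)) * nrm y ^ (1 - α) := by
      have h5 : M1 * (θ / (α - 1)) * Real.exp (2 * (K2 + 1) + 1) * nrm y ^ (1 - α) =
          (θ * Real.exp (2 * (K2 + 1) + 1)) * ((M1 / (α - 1)) * nrm y ^ (1 - α)) := by ring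
      rw [h5]
      have := mul_le_mul_of_nonneg_right hθ2 (mul_pos hMβ hnα).le
      linarith
    have h5 : (1 - ε) * (M1 / (α - 1)) * nrm y ^ (1 - α) ≤
        (1 - ε / 4) * (M1 / (α - 1)) * ((1 - ε / 4) * nrm y ^ (1 - α)) -
          ε / 4 * (M1 / (α - 1)) * nrm y ^ (1 - α) := by
      have h6 : (1 - ε / 4) * (M1 / (α - 1)) * ((1 - ε / 4) * nrm y ^ (1 - α)) -
          ε / 4 * (M1 / (α - 1)) * nrm y ^ (1 - α) - (1 - ε) * (M1 / (α - 1)) * nrm y ^ (1 - α) =
          (ε / 4 + ε ^ 2 / 16) * ((M1 / (α - 1)) * nrm y ^ (1 - α)) := by ring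
      have h7 : 0 ≤ (ε / 4 + ε ^ 2 / 16) * ((M1 / (α - 1)) * nrm y ^ (1 - α)) := by positivity
      linarith
    linarith

end ConeD
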