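import Pool.Agent.ConeD.Mono
import Pool.Agent.ConeD.Inw
import Pool.Agent.ConeD.Low

/-!
# The barrier theorem (section 4 of the text), deterministic part
-/

set_option autoImplicit false

namespace ConeD

variable {d : ℕ}

/-- one of the ends of `e` has norm less than `R / 2 + 1` -/
def Inner (R : ℝ) (e : Edge d) : Prop := nrm e.1 < R / 2 + 1 ∨ nrm (e.1 + ev e.2) < R / 2 + 1

/-- the modified configuration: `τ'` is small on the walk `pw` from the origin, at least `1` on the
other edges near the origin, and equal to `tau α E` elsewhere -/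
structure Bar (h : V d → ℝ) (η α R R0 B : ℝ) (E τ' : Edge d → ℝ) (pw : List (Step d)) : Prop where
  cc : CC h η E R0
  Enn : ∀ e, 0 ≤ E e
  nn : ∀ e, 0 ≤ τ' e
  ex : Explodes τ'
  pwR : ∀ l1 l2, pw = l1 ++ l2 → nrm (endp 0 l1) ≤ R + B
  onp : ∀ e ∈ edges 0 pw, τ' e ≤ tau α E e
  blk : ∀ e, e ∉ edges 0 pw → Inner R e → 1 ≤ τ' e
  off : ∀ e, e ∉ edges 0 pw → ¬ Inner R e → τ' e = tau α E e

/-- MODULE C0.  Cut a walk `l` from the origin at its last visit to the vertices of `pw`: the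
rest uses no edge of `pw`. -/
theorem last_on (pw l : List (Step d)) : ∃ p1 p2 l1 l2 : List (Step d), pw = p1 ++ p2 ∧
    l = l1 ++ l2 ∧ endp 0 l1 = endp 0 p1 ∧ ∀ e ∈ edges (endp 0 p1) l2, e ∉ edges 0 pw := by
  induction l using List.reverseRecOn with
  | nil =>
    refine ⟨[], pw, [], [], rfl, rfl, rfl, ?_⟩
    intro e he
    simp [edges] at he
  | append_singleton l s ih =>
    by_cases h : ∃ p1 p2 : List (Step d), pw = p1 ++ p2 ∧ endp 0 p1 = endp 0 (l ++ [s])
    · obtain ⟨p1, p2, h1, h2⟩ := h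
      refine ⟨p1, p2, l ++ [s], [], h1, by simp, h2.symm, ?_⟩
      intro e he
      simp [edges] at he
    · obtain ⟨p1, p2, l1, l2, h1, h2, h3, h4⟩ := ih
      refine ⟨p1, p2, l1, l2 ++ [s], h1, by rw [h2, List.append_assoc], h3, ?_⟩
      intro e he
      rw [edges_append, List.mem_append] at he
      rcases he with he | he
      · exact h4 e he
      · intro hpw
        have h5 : endp (endp 0 p1) l2 = endp 0 l := by rw [h2, endp_append, h3]
        rw [h5] at he
        simp only [edges, List.mem_cons, List.not_mem_nil, or_false] at he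
        have h6 : endp 0 (l ++ [s]) = endp 0 l + vec s := by
          rw [endp_append, endp_cons, endp_nil]
        have hx : endp 0 l + vec s = e.1 ∨ endp 0 l + vec s = e.1 + ev e.2 := by
          rw [he]
          rcases edg_cases (endp 0 l) s with ⟨_, h8⟩ | ⟨h7, _⟩
          · exact Or.inr h8.symm
          · exact Or.inl h7.symm
        obtain ⟨a, c, hac, ha⟩ := bc_split e _ hx 0 pw hpw
        exact h ⟨a, c, hac, by rw [ha, h6]⟩

/-- MODULE C1.  A walk with weight less than `1` which uses no edge of `pw` uses no blocked edge: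
`τ' = tau α E` on its edges, and it is empty or all its vertices have norm at least `R / 2 + 1`. -/
theorem no_block {h : V d → ℝ} {η α R R0 B : ℝ} {E τ' : Edge d → ℝ} {pw : List (Step d)}
    (hb : Bar h η α R R0 B E τ' pw) {v : V d} {l : List (Step d)}
    (hl : ∀ e ∈ edges v l, e ∉ edges 0 pw) (hw : wt τ' v l < 1) :
    (∀ l1 l2, l = l1 ++ l2 → wt τ' (endp v l1) l2 = wt (tau α E) (endp v l1) l2) ∧
    (l = [] ∨ ∀ l1 l2, l = l1 ++ l2 → R / 2 + 1 ≤ nrm (endp v l1)) := by
  have hni : ∀ e ∈ edges v l, ¬ Inner R e := by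
    intro e he hin
    have h1 := hb.blk e (hl e he) hin
    have h2 : τ' e ≤ wt τ' v l := by
      rw [wt_eq_sum]
      exact List.single_le_sum (fun x hx => by
        obtain ⟨e', _, he'⟩ := List.mem_map.1 hx
        rw [← he']
        exact hb.nn e') _ (List.mem_map_of_mem he)
    linarith
  constructor
  · intro l1 l2 h12
    have hsub : ∀ e ∈ edges (endp v l1) l2, e ∈ edges v l := by
      intro e he
      rw [h12, edges_append, List.mem_append]
      exact Or.inr he
    apply le_antisymm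
    · exact wt_mono _ _ (fun e he =>
        (hb.off e (hl e (hsub e he)) (hni e (hsub e he))).le)
    · exact wt_mono _ _ (fun e he =>
        (hb.off e (hl e (hsub e he)) (hni e (hsub e he))).ge)
  · by_cases hnil : l = []
    · exact Or.inl hnil
    · right
      intro l1 l2 h12
      -- an edge of the walk at the vertex `endp v l1`
      obtain ⟨e, he, hx⟩ : ∃ e ∈ edges v l, endp v l1 = e.1 ∨ endp v l1 = e.1 + ev e.2 := by
        rcases l2 with _ | ⟨s, t⟩
        · rw [List.append_nil] at h12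
          rcases List.eq_nil_or_concat l1 with h5 | ⟨l5, s, h5⟩
          · exact absurd (h12.trans h5) hnil
          · rw [List.concat_eq_append] at h5
            refine ⟨edg (endp v l5) s, ?_, ?_⟩
            · rw [h12, h5, edges_append, List.mem_append]
              exact Or.inr (by simp [edges])
            · rw [h5, endp_append, endp_cons, endp_nil]
              rcases edg_cases (endp v l5) s with ⟨_, h8⟩ | ⟨h7, _⟩
              · exact Or.inr h8.symm
              · exact Or.inl h7.symm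
        · refine ⟨edg (endp v l1) s, ?_, ?_⟩
          · rw [h12, edges_append, List.mem_append]
            exact Or.inr (by simp [edges])
          · rcases edg_cases (endp v l1) s with ⟨h7, _⟩ | ⟨_, h8⟩
            · exact Or.inl h7.symm
            · exact Or.inr h8.symm
      have h3 := hni e he
      unfold Inner at h3
      push Not at h3
      rcases hx with hx | hx
      · rw [hx]; exact h3.1
      · rw [hx]; exact h3.2

private theorem C2_small {η c : ℝ} (hη : 0 < η) (hc : 0 < c) :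
    ∃ R1 : ℝ, 1 ≤ R1 ∧ ∀ R, R1 ≤ R → R ^ (1 - η) ≤ c * R := by
  have h1 : Filter.Tendsto (fun R : ℝ => R ^ (-η)) Filter.atTop (nhds 0) :=
    tendsto_rpow_neg_atTop hη
  obtain ⟨R1, hR1⟩ := Filter.eventually_atTop.mp (h1.eventually (gt_mem_nhds hc))
  refine ⟨max 1 R1, le_max_left _ _, ?_⟩
  intro R hR
  have hR0 : 0 < R := lt_of_lt_of_le one_pos ((le_max_left _ _).trans hR)
  have h2 := (hR1 R ((le_max_right _ _).trans hR)).le
  rw [show 1 - η = -η + 1 by ring, Real.rpow_add hR0, Real.rpow_one]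
  exact mul_le_mul_of_nonneg_right h2 hR0.le

/-- shortest prefix with a property -/
private theorem C2_short (P : List (Step d) → Prop) : ∀ (n : ℕ) (l : List (Step d)),
    l.length ≤ n → P l → ∃ l1 l2, l = l1 ++ l2 ∧ P l1 ∧
      ∀ m1 s m2, l1 = m1 ++ s :: m2 → ¬ P m1 := by
  intro n
  induction n with
  | zero =>
    intro l hl hP
    have hnil : l = [] := List.length_eq_zero_iff.mp (Nat.le_zero.mp hl)
    refine ⟨l, [], by simp, hP, ?_⟩
    intro m1 s m2 hm
    rw [hnil] at hm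
    exact absurd hm (by simp)
  | succ n ih =>
    intro l hl hP
    by_cases h : ∃ m1 s m2, l = m1 ++ s :: m2 ∧ P m1
    · obtain ⟨m1, s, m2, h1, h2⟩ := h
      obtain ⟨l1, l2, h3, h4, h5⟩ := ih m1 (by
        rw [h1, List.length_append, List.length_cons] at hl
        omega) h2
      exact ⟨l1, l2 ++ s :: m2, by rw [h1, h3, List.append_assoc], h4, h5⟩
    · refine ⟨l, [], by simp, hP, ?_⟩
      intro m1 s m2 hm hPm
      exact h ⟨m1, s, m2, hm, hPm⟩

private theorem C2_first (r : ℝ) (v : V d) (l : List (Step d)) (h : r < nrm (endp v l)) :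
    ∃ l1 l2, l = l1 ++ l2 ∧ r < nrm (endp v l1) ∧
      ∀ m1 s m2, l1 = m1 ++ s :: m2 → nrm (endp v m1) ≤ r := by
  obtain ⟨l1, l2, h1, h2, h3⟩ := C2_short (fun m => r < nrm (endp v m)) l.length l le_rfl h
  exact ⟨l1, l2, h1, h2, fun m1 s m2 hm => not_lt.mp (h3 m1 s m2 hm)⟩

/-- MODULE C2.  A walk starting in `R / 2 ≤ |v| ≤ 7 R / 8` cannot leave the ball of radius `R`: to
get `R / 16` away costs at least `(15 R / 16 + 1) ^ (-α) (a R / 16 - C - (2 R) ^ (1 - η))`. -/
theorem case_mid {h : V d → ℝ} {a b C : ℝ} (hh : HF h a b C) {η : ℝ} (hη : 0 < η) (hη1 : η ≤ 1)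
    {c1 : ℝ} (hc1 : 0 < c1) :
    ∃ α0 : ℝ, 2 ≤ α0 ∧ ∀ α, α0 < α → ∃ R1 : ℝ,
      ∀ (E : Edge d → ℝ) (R0 : ℝ), (∀ e, 0 ≤ E e) → CC h η E R0 →
      ∀ (R : ℝ) (v : V d) (l : List (Step d)), R1 ≤ R → R0 ≤ R → nrm v ≤ 7 / 8 * R →
        wt (tau α E) v l < c1 / (α - 1) * R ^ (1 - α) → nrm (endp v l) ≤ R := by
  have ha := hh.pos
  refine ⟨max 2 (1 + 32 * c1 / a), le_max_left _ _, ?_⟩
  intro α hα
  have hα2 : 2 < α := (le_max_left _ _).trans_lt hα
  have hαc : 1 + 32 * c1 / a < α := (le_max_right _ _).trans_lt hα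
  obtain ⟨Ra, hRa1, hRa⟩ := C2_small hη (show 0 < a / 64 by positivity)
  refine ⟨max (max Ra (64 * C / a)) 16, ?_⟩
  intro E R0 hE hCC R v l hR hR0 hv hw
  have hR1 : Ra ≤ R := (le_max_left _ _).trans ((le_max_left _ _).trans hR)
  have hR2 : 64 * C / a ≤ R := (le_max_right _ _).trans ((le_max_left _ _).trans hR)
  have hR3 : 16 ≤ R := (le_max_right _ _).trans hR
  rw [div_le_iff₀ ha] at hR2
  have hRpos : 0 < R := by linarith
  by_contra hcon
  push Not at hcon
  obtain ⟨l1, l2, h12, hout, hin⟩ := C2_first (15 / 16 * R) v l (by linarith)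
  have hy1 : nrm (endp v l1) ≤ 15 / 16 * R + 1 := by
    rcases List.eq_nil_or_concat l1 with h5 | ⟨l5, s, h5⟩
    · rw [h5, endp_nil]; linarith
    · rw [List.concat_eq_append] at h5
      have h6 := hin l5 s [] (by rw [h5])
      rw [h5, endp_append, endp_cons, endp_nil]
      have h7 := nrm_add_le (endp v l5) (vec s)
      rw [nrm_vec] at h7
      linarith
  have hT : T E v (endp v l1) ≤ wt E v l1 := T_le_wt hE rfl
  have hA := hCC R hR0 v (endp v l1) (by linarith) (by linarith)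
  rw [abs_le] at hA
  have hlow := hh.low (endp v l1 - v)
  have hd : 15 / 16 * R - nrm v ≤ nrm (endp v l1 - v) := by
    have := nrm_le_add (endp v l1) v
    linarith
  have hd2 : a * (1 / 16 * R) ≤ a * nrm (endp v l1 - v) :=
    mul_le_mul_of_nonneg_left (by linarith) ha.le
  have hsm := hRa R hR1
  have hwE : a / 32 * R ≤ wt E v l1 := by linarith [hA.1]
  have hwt := le_wt_tau (α := α) (by linarith) hRpos hE v l1 (by
    intro m1 s m2 hm
    have h1 := mid_edg_le (endp v m1) s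
    have h2 := hin m1 s m2 hm
    linarith)
  have hτ : ∀ e, 0 ≤ tau α E e := fun e => tau_nonneg hE e
  have hle : wt (tau α E) v l1 ≤ wt (tau α E) v l := by
    rw [h12, wt_append]
    linarith [wt_nonneg hτ (endp v l1) l2]
  have hp : 0 < R ^ (-α) := Real.rpow_pos_of_pos hRpos _
  have heq : R ^ (1 - α) = R ^ (-α) * R := by
    rw [show 1 - α = -α + 1 by ring, Real.rpow_add hRpos, Real.rpow_one]
  have h1 : R ^ (-α) * (a / 32 * R) ≤ R ^ (-α) * wt E v l1 :=
    mul_le_mul_of_nonneg_left hwE hp.le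
  have hβ : 0 < α - 1 := by linarith
  have h2 : c1 / (α - 1) ≤ a / 32 := by
    rw [div_le_iff₀ hβ]
    have : 32 * c1 / a < α - 1 := by linarith
    rw [div_lt_iff₀ ha] at this
    linarith
  have h3 : c1 / (α - 1) * R ^ (1 - α) ≤ a / 32 * R ^ (1 - α) :=
    mul_le_mul_of_nonneg_right h2 (Real.rpow_nonneg hRpos.le _)
  rw [heq] at h3 hw
  have h4 : a / 32 * (R ^ (-α) * R) = R ^ (-α) * (a / 32 * R) := by ring
  linarith

/-- longest prefix with a property -/
private theorem C3_last (P : List (Step d) → Prop) (h0 : P []) (l : List (Step d)) :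
    ∃ l1 l2, l = l1 ++ l2 ∧ P l1 ∧ ∀ s m1 m2, l2 = s :: m1 ++ m2 → ¬ P (l1 ++ s :: m1) := by
  induction l using List.reverseRecOn with
  | nil =>
    refine ⟨[], [], rfl, h0, ?_⟩
    intro s m1 m2 hm
    exact absurd hm (by simp)
  | append_singleton l s ih =>
    by_cases h : P (l ++ [s])
    · refine ⟨l ++ [s], [], by simp, h, ?_⟩
      intro s' m1 m2 hm
      exact absurd hm (by simp)
    · obtain ⟨l1, l2, h1, h2, h3⟩ := ih
      refine ⟨l1, l2 ++ [s], by rw [h1, List.append_assoc], h2, ?_⟩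
      intro s' m1 m2 hm
      rcases List.eq_nil_or_concat m2 with h5 | ⟨l5, s'', h5⟩
      · rw [h5, List.append_nil] at hm
        rw [← hm, ← List.append_assoc, ← h1]
        exact h
      · rw [List.concat_eq_append] at h5
        rw [h5, ← List.append_assoc] at hm
        have h6 := List.append_inj' hm rfl
        exact h3 s' m1 l5 h6.1

private theorem C3_ratio {B β q : ℝ} (hq : 1 < q) :
    ∃ R1 : ℝ, ∀ R, R1 ≤ R → (R + B) ^ β ≤ q * R ^ β := by
  have h1 : Filter.Tendsto (fun R : ℝ => (1 + B / R) ^ β) Filter.atTop (nhds 1) := by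
    have h2 : Filter.Tendsto (fun R : ℝ => 1 + B / R) Filter.atTop (nhds (1 + 0)) :=
      tendsto_const_nhds.add (Filter.Tendsto.const_div_atTop Filter.tendsto_id B)
    rw [add_zero] at h2
    have h3 := h2.rpow_const (p := β) (Or.inl one_ne_zero)
    rwa [Real.one_rpow] at h3
  obtain ⟨R1, hR1⟩ := Filter.eventually_atTop.mp (h1.eventually (gt_mem_nhds hq))
  refine ⟨max R1 (|B| + 1), ?_⟩
  intro R hR
  have hRa := (le_max_left _ _).trans hR
  have hRb := (le_max_right _ _).trans hR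
  have hB0 := abs_nonneg B
  have hBn := neg_abs_le B
  have hR0 : 0 < R := by linarith
  have h2 := (hR1 R hRa).le
  have h3 : R + B = (1 + B / R) * R := by field_simp
  have h4 : 0 ≤ 1 + B / R := by
    have : 1 + B / R = (R + B) / R := by field_simp
    rw [this]
    exact div_nonneg (by linarith) hR0.le
  rw [h3, Real.mul_rpow h4 hR0.le]
  exact mul_le_mul_of_nonneg_right h2 (Real.rpow_nonneg hR0.le _)

/-- MODULE C3.  A walk starting near the sphere of radius at least `7 R / 8`, with the upper bound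
(U) at all its vertices of norm at least `3 R / 4` and energy at most `(1 + ε) m1 / (α - 1)`, stays
near its start or near the complement of `Dir`.  Constants: `K2` from `low_bound` with an `ε` such
that `(1 - ε) M1 > (1 + 5 ε) m1`; `inward` (all vertices have norm at least `3 R / 4`);
`energy_mono`.  For a vertex `z` with `|z - v| > K2 / (α - 1) |v|` take the last vertex `y` before
`z` with `|z - y| ≥ K2 / (α - 1) |y|`: by `energy_mono` the energy at `y` is at most
`(1 + 5 ε) m1 / (α - 1)`, by `low_bound` for the piece of `l` from `y` to `z` it is at least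
`(1 - ε) M1 / (α - 1)` if `Dir y`. -/
theorem case_far {h : V d → ℝ} {a b C : ℝ} (hh : HF h a b C) {η : ℝ} (hη : 0 < η) (hη1 : η ≤ 1)
    {m1 M1 : ℝ} (hm : 0 < m1) (hmM : m1 < M1) :
    ∃ ε K α0 : ℝ, 0 < ε ∧ 0 < K ∧ 2 ≤ α0 ∧ ∀ α, α0 < α → ∀ C1 Ku B : ℝ, 0 < Ku → ∃ R1 : ℝ,
      ∀ (E : Edge d → ℝ) (R0 : ℝ), (∀ e, 0 ≤ E e) → CC h η E R0 →
      ∀ (Dir : V d → Prop), (∀ y, Dir y → ∀ z, M1 * pr z y - C1 ≤ h z) →
      ∀ (R : ℝ) (v : V d) (l : List (Step d)), R1 ≤ R → 2 * R0 ≤ R →
        7 / 8 * R ≤ nrm v → nrm v ≤ R + B →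
        (∀ l1 l2, l = l1 ++ l2 → 3 / 4 * R ≤ nrm (endp v l1) →
          UB h η α Ku (wt (tau α E) (endp v l1) l2) (endp v l1)) →
        wt (tau α E) v l ≤ (1 + ε) * (m1 / (α - 1)) * R ^ (1 - α) →
        ∀ l1 l2, l = l1 ++ l2 → 3 / 4 * R ≤ nrm (endp v l1) ∧
          (nrm (endp v l1 - v) ≤ K / (α - 1) * R ∨
            ∃ y, ¬ Dir y ∧ nrm (endp v l1 - y) ≤ K / (α - 1) * nrm (endp v l1)) := by
  have hMpos : 0 < M1 := hm.trans hmM
  set ε := (M1 - m1) / (2 * (M1 + 5 * m1)) with hεdef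
  have hden : 0 < 2 * (M1 + 5 * m1) := by linarith
  have hε : 0 < ε := div_pos (by linarith) hden
  have hε1 : ε < 1 := by
    rw [hεdef, div_lt_one hden]; linarith
  have hεeq : ε * (M1 + 5 * m1) = (M1 - m1) / 2 := by
    rw [hεdef]; field_simp
  have hkey : (1 + 3 * ε) * m1 < (1 - ε) * M1 := by
    have h1 : 0 < ε * m1 := mul_pos hε hm
    have h2 : ε * (M1 + 5 * m1) = ε * M1 + 5 * (ε * m1) := by ring
    have h3 : (1 + 3 * ε) * m1 = m1 + 3 * (ε * m1) := by ring
    have h4 : (1 - ε) * M1 = M1 - ε * M1 := by ring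
    rw [h3, h4]
    linarith
  obtain ⟨α1, K2, hα1, hK2, hlow⟩ := low_bound hh hη hη1 hMpos hε hε1
  obtain ⟨Ki, hKi, hinw⟩ := inward hh hη hη1
  refine ⟨ε, 3 * K2, max α1 (max (1 + 7 * Ki) (1 + 2 * K2)), hε, by positivity,
    hα1.trans (le_max_left _ _), ?_⟩
  intro α hα C1 Ku B hKu
  have hαa : α1 < α := (le_max_left _ _).trans_lt hα
  have hαb : 1 + 7 * Ki < α := ((le_max_left _ _).trans (le_max_right _ _)).trans_lt hα
  have hαc : 1 + 2 * K2 < α := ((le_max_right _ _).trans (le_max_right _ _)).trans_lt hα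
  have hα2 : 2 < α := lt_of_le_of_lt hα1 hαa
  have hα1' : 1 < α := by linarith
  have hβ : 0 < α - 1 := by linarith
  obtain ⟨Ra, hRa⟩ := hlow α hαa C1
  obtain ⟨Rb, hRb⟩ := hinw α hα2.le
  obtain ⟨Rc, hRc⟩ := ub_crude hh hη hη1 hα1' hKu
  have hεm : 0 < ε * (m1 / (α - 1)) := mul_pos hε (div_pos hm hβ)
  obtain ⟨Rd, hRd⟩ := energy_mono hh hη hη1 hα1' hKu hεm
  obtain ⟨Re, hRe⟩ := C3_ratio (B := B) (β := α - 1) (show 1 < (1 + 2 * ε) / (1 + ε) by
    rw [lt_div_iff₀ (by linarith)]; linarith)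
  refine ⟨max (max (max (2 * Ra) (2 * Rb)) (max (2 * Rc) (2 * Rd)))
    (max (max Re (|B| + 1)) (4 * (α - 1) / K2)), ?_⟩
  intro E R0 hE hCC Dir hDir R v l hR hR0 hv1 hv2 hUB hwt l1 l2 h12
  have hR_a : 2 * Ra ≤ R :=
    (le_max_left _ _).trans ((le_max_left _ _).trans ((le_max_left _ _).trans hR))
  have hR_b : 2 * Rb ≤ R :=
    (le_max_right _ _).trans ((le_max_left _ _).trans ((le_max_left _ _).trans hR))
  have hR_c : 2 * Rc ≤ R :=
    (le_max_left _ _).trans ((le_max_right _ _).trans ((le_max_left _ _).trans hR))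
  have hR_d : 2 * Rd ≤ R :=
    (le_max_right _ _).trans ((le_max_right _ _).trans ((le_max_left _ _).trans hR))
  have hR_e : Re ≤ R :=
    (le_max_left _ _).trans ((le_max_left _ _).trans ((le_max_right _ _).trans hR))
  have hR_B : |B| + 1 ≤ R :=
    (le_max_right _ _).trans ((le_max_left _ _).trans ((le_max_right _ _).trans hR))
  have hR_K : 4 * (α - 1) / K2 ≤ R := (le_max_right _ _).trans ((le_max_right _ _).trans hR)
  have hB0 := abs_nonneg B
  have hBle := le_abs_self B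
  have hRpos : 0 < R := by linarith
  have hτ : ∀ e, 0 ≤ tau α E e := fun e => tau_nonneg hE e
  have hvpos : 0 < nrm v := by linarith
  -- all vertices have norm at least `3 R / 4`
  have hfar : ∀ l1 l2, l = l1 ++ l2 → 3 / 4 * R ≤ nrm (endp v l1) := by
    intro m1 m2 h
    have h1 := hRb E R0 hE hCC v l (by linarith) (by linarith) (fun a b hab hva =>
      hRc _ _ (by linarith) (hUB a b hab (by linarith))) m1 m2 h
    have h2 : Ki / (α - 1) ≤ 1 / 7 := by
      rw [div_le_iff₀ hβ]; linarith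
    have h3 : (1 - 1 / 7) * nrm v ≤ (1 - Ki / (α - 1)) * nrm v :=
      mul_le_mul_of_nonneg_right (by linarith) hvpos.le
    linarith
  -- energies
  have hPv : Phi α E v l ≤ (1 + 2 * ε) * (m1 / (α - 1)) := by
    unfold Phi
    have h1 : nrm v ^ (α - 1) ≤ (R + B) ^ (α - 1) :=
      Real.rpow_le_rpow hvpos.le hv2 hβ.le
    have h2 := hRe R hR_e
    have h3 : nrm v ^ (α - 1) ≤ (1 + 2 * ε) / (1 + ε) * R ^ (α - 1) := h1.trans h2
    have h4 : 0 ≤ wt (tau α E) v l := wt_nonneg hτ v l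
    have h5 : 0 < R ^ (α - 1) := Real.rpow_pos_of_pos hRpos _
    have h6 : R ^ (α - 1) * R ^ (1 - α) = 1 := by
      rw [← Real.rpow_add hRpos]; simp
    have h7 : 0 ≤ (1 + 2 * ε) / (1 + ε) * R ^ (α - 1) := by positivity
    calc nrm v ^ (α - 1) * wt (tau α E) v l
        ≤ ((1 + 2 * ε) / (1 + ε) * R ^ (α - 1)) *
            ((1 + ε) * (m1 / (α - 1)) * R ^ (1 - α)) := mul_le_mul h3 hwt h4 h7
      _ = ((1 + 2 * ε) / (1 + ε) * (1 + ε)) * (m1 / (α - 1)) *
            (R ^ (α - 1) * R ^ (1 - α)) := by ring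
      _ = (1 + 2 * ε) * (m1 / (α - 1)) := by
          rw [h6, mul_one, div_mul_cancel₀ _ (by linarith : (1 + ε) ≠ 0)]
  have hPy : ∀ l1 l2, l = l1 ++ l2 →
      wt (tau α E) (endp v l1) l2 ≤ (1 + 3 * ε) * (m1 / (α - 1)) * nrm (endp v l1) ^ (1 - α) := by
    intro m1' m2' h
    have h1 := hRd E R0 hE hCC v l (fun a b hab => ⟨by linarith [hfar a b hab],
      by linarith [hfar a b hab], hUB a b hab (hfar a b hab)⟩) m1' m2' h
    have h2 : Phi α E (endp v m1') m2' ≤ (1 + 3 * ε) * (m1 / (α - 1)) := by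
      have : (1 + 3 * ε) * (m1 / (α - 1)) =
        (1 + 2 * ε) * (m1 / (α - 1)) + ε * (m1 / (α - 1)) := by ring
      linarith
    have hy : 0 < nrm (endp v m1') := by
      have := hfar m1' m2' h
      linarith
    unfold Phi at h2
    have h5 : 0 < nrm (endp v m1') ^ (1 - α) := Real.rpow_pos_of_pos hy _
    have h6 : nrm (endp v m1') ^ (α - 1) * nrm (endp v m1') ^ (1 - α) = 1 := by
      rw [← Real.rpow_add hy]; simp
    have h7 := mul_le_mul_of_nonneg_right h2 h5.le
    calc wt (tau α E) (endp v m1') m2'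
        = (nrm (endp v m1') ^ (α - 1) * nrm (endp v m1') ^ (1 - α)) *
            wt (tau α E) (endp v m1') m2' := by rw [h6, one_mul]
      _ = nrm (endp v m1') ^ (α - 1) * wt (tau α E) (endp v m1') m2' *
            nrm (endp v m1') ^ (1 - α) := by ring
      _ ≤ _ := h7
  refine ⟨hfar l1 l2 h12, ?_⟩
  by_cases hz : nrm (endp v l1 - v) ≤ 3 * K2 / (α - 1) * R
  · exact Or.inl hz
  right
  push Not at hz
  have hKβ : 0 < K2 / (α - 1) := div_pos hK2 hβ
  have hK12 : K2 / (α - 1) ≤ 1 / 2 := by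
    rw [div_le_iff₀ hβ]; linarith
  obtain ⟨p1, p2, hp12, hpP, hpl⟩ := C3_last
    (fun m => K2 / (α - 1) * nrm (endp v m) ≤ nrm (endp v l1 - endp v m)) (by
      show K2 / (α - 1) * nrm (endp v []) ≤ nrm (endp v l1 - endp v [])
      rw [endp_nil]
      have h1 : nrm v ≤ 3 * R := by linarith
      have h2 : K2 / (α - 1) * nrm v ≤ K2 / (α - 1) * (3 * R) :=
        mul_le_mul_of_nonneg_left h1 hKβ.le
      have h3 : K2 / (α - 1) * (3 * R) = 3 * K2 / (α - 1) * R := by ring
      linarith) l1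
  have hpP' : K2 / (α - 1) * nrm (endp v p1) ≤ nrm (endp v l1 - endp v p1) := hpP
  have hend : endp (endp v p1) p2 = endp v l1 := by rw [hp12, endp_append]
  have hyfar := hfar p1 (p2 ++ l2) (by rw [h12, hp12, List.append_assoc])
  have hzfar := hfar l1 l2 h12
  have hypos : 0 < nrm (endp v p1) := by linarith
  have hzpos : 0 < nrm (endp v l1) := by linarith
  refine ⟨endp v p1, ?_, ?_⟩
  · intro hD
    have h1 := hRa E R0 hE hCC (endp v p1) p2 (by linarith) (by linarith) (hDir _ hD)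
      (by rw [hend]; exact hpP')
    have h2 := hPy p1 (p2 ++ l2) (by rw [h12, hp12, List.append_assoc])
    rw [wt_append] at h2
    have h3 := wt_nonneg hτ (endp (endp v p1) p2) l2
    have h5 : 0 < nrm (endp v p1) ^ (1 - α) := Real.rpow_pos_of_pos hypos _
    have h6 : (1 + 3 * ε) * (m1 / (α - 1)) * nrm (endp v p1) ^ (1 - α) <
        (1 - ε) * (M1 / (α - 1)) * nrm (endp v p1) ^ (1 - α) := by
      apply mul_lt_mul_of_pos_right _ h5
      have e1 : (1 + 3 * ε) * (m1 / (α - 1)) = ((1 + 3 * ε) * m1) / (α - 1) :=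
        (mul_div_assoc _ _ _).symm
      have e2 : (1 - ε) * (M1 / (α - 1)) = ((1 - ε) * M1) / (α - 1) :=
        (mul_div_assoc _ _ _).symm
      rw [e1, e2]
      exact div_lt_div_of_pos_right hkey hβ
    linarith
  · rcases p2 with _ | ⟨s, t⟩
    · rw [endp_nil] at hend
      rw [← hend, sub_self, nrm_zero]
      positivity
    · have h1 := hpl s [] t rfl
      have h1' : nrm (endp v l1 - endp v (p1 ++ [s])) <
          K2 / (α - 1) * nrm (endp v (p1 ++ [s])) := not_le.mp h1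
      rw [endp_append, endp_cons, endp_nil] at h1'
      set y := endp v p1 with hydef
      set z := endp v l1 with hzdef
      set y' := y + vec s with hy'def
      have h2 : nrm (z - y) ≤ nrm (z - y') + 1 := by
        have h3 := nrm_triangle z y' y
        have h4 : y' - y = vec s := by rw [hy'def, add_sub_cancel_left]
        rw [h4, nrm_vec] at h3
        exact h3
      have h3 : nrm y' ≤ nrm z + nrm (z - y') := by
        have := nrm_le_add y' z
        rwa [nrm_sub_comm y' z] at this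
      have hy'0 : 0 ≤ nrm y' := nrm_nonneg _
      have h4 : K2 / (α - 1) * nrm y' ≤ 1 / 2 * nrm y' := mul_le_mul_of_nonneg_right hK12 hy'0
      have h5 : nrm y' ≤ 2 * nrm z := by linarith
      have h6 : K2 / (α - 1) * nrm y' ≤ K2 / (α - 1) * (2 * nrm z) :=
        mul_le_mul_of_nonneg_left h5 hKβ.le
      have h7 : 1 ≤ K2 / (α - 1) * nrm z := by
        rw [div_le_iff₀ hK2] at hR_K
        have h8 : K2 / (α - 1) * (1 / 4 * R) ≤ K2 / (α - 1) * nrm z :=
          mul_le_mul_of_nonneg_left (by linarith) hKβ.le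
        have h9 : 1 ≤ K2 / (α - 1) * (1 / 4 * R) := by
          rw [div_mul_eq_mul_div, le_div_iff₀ hβ]
          linarith
        linarith
      have h8 : 3 * K2 / (α - 1) * nrm z = 3 * (K2 / (α - 1) * nrm z) := by ring
      rw [h8]
      linarith

private theorem C4_mid (e : Edge d) : mid e ≤ nrm e.1 + 1 / 2 ∧ mid e ≤ nrm (e.1 + ev e.2) + 1 / 2 := by
  have h1 : edg e.1 (e.2, true) = e := by simp [edg]
  have h2 : edg (e.1 + ev e.2) (e.2, false) = e := by simp [edg]
  have h3 := mid_edg_le e.1 (e.2, true)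
  have h4 := mid_edg_le (e.1 + ev e.2) (e.2, false)
  rw [h1] at h3
  rw [h2] at h4
  exact ⟨h3, h4⟩

/-- MODULE C4.  The barrier theorem. -/
theorem barrier {h : V d → ℝ} {a b C : ℝ} (hh : HF h a b C) {η : ℝ} (hη : 0 < η) (hη1 : η ≤ 1)
    {m1 M1 : ℝ} (hm : 0 < m1) (hmM : m1 < M1) :
    ∃ ε K α0 : ℝ, 0 < ε ∧ 0 < K ∧ 2 ≤ α0 ∧ ∀ α, α0 < α → ∀ C1 B : ℝ, ∃ R1 : ℝ,
      ∀ (E : Edge d → ℝ) (R0 R : ℝ) (pw : List (Step d)) (τ' : Edge d → ℝ),
        R1 ≤ R → 2 * R0 ≤ R → Bar h η α R R0 B E τ' pw →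
        wt τ' 0 pw + S τ' (endp 0 pw) ≤ (1 + ε) * (m1 / (α - 1)) * R ^ (1 - α) →
      ∀ (Dir : V d → Prop), (∀ y, Dir y → ∀ z, M1 * pr z y - C1 ≤ h z) →
      ∀ x ∈ Ainf τ', nrm x ≤ max R (R + B) ∨
        ∃ p1 p2 l : List (Step d), pw = p1 ++ p2 ∧ 7 / 8 * R ≤ nrm (endp 0 p1) ∧
          endp (endp 0 p1) l = x ∧
          ∀ l1 l2, l = l1 ++ l2 → 3 / 4 * R ≤ nrm (endp (endp 0 p1) l1) ∧
            (nrm (endp (endp 0 p1) l1 - endp 0 p1) ≤ K / (α - 1) * R ∨
              ∃ y, ¬ Dir y ∧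
                nrm (endp (endp 0 p1) l1 - y) ≤ K / (α - 1) * nrm (endp (endp 0 p1) l1)) := by
  obtain ⟨ε, K, α1, hε, hK, hα1, hfar⟩ := case_far hh hη hη1 hm hmM
  have hc1 : 0 < (1 + ε) * m1 := by positivity
  obtain ⟨α2, hα2, hmid⟩ := case_mid hh hη hη1 hc1
  refine ⟨ε, K, max α1 α2, hε, hK, hα1.trans (le_max_left _ _), ?_⟩
  intro α hα C1 B
  have hαa : α1 < α := (le_max_left _ _).trans_lt hα
  have hαb : α2 < α := (le_max_right _ _).trans_lt hα
  have hα1' : 1 < α := by linarith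
  have hβ : 0 < α - 1 := by linarith
  obtain ⟨Ku, Ru, hKu, hsup⟩ := sup_ball hh hη hη1 hα1'
  obtain ⟨Rf, hRf⟩ := hfar α hαa C1 Ku B hKu
  obtain ⟨Rm, hRm⟩ := hmid α hαb
  -- the total time is less than `1`
  obtain ⟨Rs, hRs⟩ : ∃ Rs : ℝ, ∀ R, Rs ≤ R → (1 + ε) * (m1 / (α - 1)) * R ^ (1 - α) < 1 := by
    have h1 : Filter.Tendsto (fun R : ℝ => (1 + ε) * (m1 / (α - 1)) * R ^ (1 - α))
        Filter.atTop (nhds ((1 + ε) * (m1 / (α - 1)) * 0)) := by
      have h2 : Filter.Tendsto (fun R : ℝ => R ^ (-(α - 1))) Filter.atTop (nhds 0) :=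
        tendsto_rpow_neg_atTop hβ
      rw [neg_sub] at h2
      exact h2.const_mul _
    rw [mul_zero] at h1
    obtain ⟨Rs, hRs⟩ := Filter.eventually_atTop.mp (h1.eventually (gt_mem_nhds one_pos))
    exact ⟨Rs, hRs⟩
  refine ⟨max (max (max Rf Rm) (max Rs (2 * Ru))) 12, ?_⟩
  intro E R0 R pw τ' hR hR0 hb hS Dir hDir x hx
  have hR_f : Rf ≤ R :=
    (le_max_left _ _).trans ((le_max_left _ _).trans ((le_max_left _ _).trans hR))
  have hR_m : Rm ≤ R :=
    (le_max_right _ _).trans ((le_max_left _ _).trans ((le_max_left _ _).trans hR))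
  have hR_s : Rs ≤ R :=
    (le_max_left _ _).trans ((le_max_right _ _).trans ((le_max_left _ _).trans hR))
  have hR_u : 2 * Ru ≤ R :=
    (le_max_right _ _).trans ((le_max_right _ _).trans ((le_max_left _ _).trans hR))
  have hR_12 : 12 ≤ R := (le_max_right _ _).trans hR
  have hlt1 := hRs R hR_s
  obtain ⟨l0, hl0, hw0⟩ := hx
  obtain ⟨p1, p2, l1, l2, hp, hl, h3, h4⟩ := last_on pw l0
  have hgood := good_of_lt hb.nn hb.ex hw0
  have hgr : Good τ' (endp 0 p1) l2 := by
    rw [hl] at hgood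
    have := hgood.right
    rwa [h3] at this
  have hendx : endp (endp 0 p1) l2 = x := by
    rw [← hl0, hl, endp_append, h3]
  have hS0 := S_le_wt_add_S hb.nn hb.ex 0 pw
  have hSv := S_le_wt_add_S hb.nn hb.ex (endp 0 p1) p2
  have hpe : endp (endp 0 p1) p2 = endp 0 pw := by rw [hp, endp_append]
  have hpw : wt τ' 0 pw = wt τ' 0 p1 + wt τ' (endp 0 p1) p2 := by rw [hp, wt_append]
  have hp1n := wt_nonneg hb.nn 0 p1
  rw [hpe] at hSv
  have hwl : wt τ' (endp 0 p1) l2 < (1 + ε) * (m1 / (α - 1)) * R ^ (1 - α) := by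
    have := hgr.wt_lt
    linarith
  obtain ⟨heq, hnn⟩ := no_block hb h4 (hwl.trans hlt1)
  have heq0 : wt τ' (endp 0 p1) l2 = wt (tau α E) (endp 0 p1) l2 := heq [] l2 rfl
  by_cases hnil : l2 = []
  · left
    rw [hnil, endp_nil] at hendx
    rw [← hendx]
    exact (hb.pwR p1 p2 hp).trans (le_max_right _ _)
  by_cases hcase : nrm (endp 0 p1) ≤ 7 / 8 * R
  · left
    rw [← hendx]
    refine le_trans ?_ (le_max_left _ _)
    refine hRm E R0 hb.Enn hb.cc R (endp 0 p1) l2 hR_m (by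
      by_cases h0 : 0 ≤ R0
      · linarith
      · linarith) hcase ?_
    rw [← heq0]
    refine hwl.trans_le (le_of_eq ?_)
    ring
  · right
    push Not at hcase
    refine ⟨p1, p2, l2, hp, hcase.le, hendx, ?_⟩
    refine hRf E R0 hb.Enn hb.cc Dir hDir R (endp 0 p1) l2 hR_f hR0 hcase.le (hb.pwR p1 p2 hp)
      ?_ (by rw [← heq0]; exact hwl.le)
    intro m1' m2' h12 hnr
    intro w hw1 hw2
    have hinf := hsup E R0 hb.Enn hb.cc R τ' hb.nn (by
      intro e he
      by_cases hmem : e ∈ edges 0 pw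
      · exact hb.onp e hmem
      · have hni : ¬ Inner R e := by
          intro hin
          unfold Inner at hin
          have h5 := C4_mid e
          rcases hin with hin | hin
          · linarith [h5.1]
          · linarith [h5.2]
        exact (hb.off e hmem hni).le) (endp (endp 0 p1) m1') w (by linarith) (by linarith) hnr hw1 hw2
    have h6 := S_le_of_infinite hb.nn hinf
    have h7 := (hgr m1' m2' h12)
    rw [heq m1' m2' h12] at h7
    linarith

end ConeD
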