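import Pool.Agent.ConeD.Birth
import Pool.Agent.ConeD.Conc

/-!
# Crossing many levels (section 5 (c) of the text)
-/

set_option autoImplicit false

namespace ConeD

variable {d : ℕ}

open MeasureTheory

/-- walks from the origin to the level `N` which use only edges below this level -/
def Below (i0 : Fin d) (N : ℕ) (l : List (Step d)) : Prop :=
  endp 0 l i0 = (N : ℤ) ∧ ∀ e ∈ edges 0 l, e.1 i0 < (N : ℤ)

/-- the passage time from the origin to the level `N` by edges below this level -/
noncomputable def Yl (i0 : Fin d) (N : ℕ) (E : Edge d → ℝ) : ℝ :=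
  ⨅ l : {l : List (Step d) // Below i0 N l}, wt E 0 l.1

/-- MODULE MG.  Independent copies on an arbitrary set `s` of coordinates (the case of a finite
set is `measurePreserving_merge`; same proof with `prod_eq_PE`). -/
theorem merge_set (s : Set (Edge d)) [DecidablePred (· ∈ s)] :
    MeasurePreserving (fun q : (Edge d → ℝ) × (Edge d → ℝ) => fun e => if e ∈ s then q.2 e else q.1 e)
      ((PE d).prod (PE d)) (PE d) := by
  have hm : Measurable (fun q : (Edge d → ℝ) × (Edge d → ℝ) => fun e =>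
      if e ∈ s then q.2 e else q.1 e) := by
    rw [measurable_pi_iff]
    intro i
    by_cases hi : i ∈ s
    · simp only [hi, if_true]
      exact (measurable_pi_apply i).comp measurable_snd
    · simp only [hi, if_false]
      exact (measurable_pi_apply i).comp measurable_fst
  refine ⟨hm, prod_eq_PE (fun F t ht => ?_)⟩
  have hbox : MeasurableSet (Set.pi (F : Set (Edge d)) t) :=
    MeasurableSet.pi F.countable_toSet (fun i _ => ht i)
  rw [Measure.map_apply hm hbox]
  have hpre : (fun q : (Edge d → ℝ) × (Edge d → ℝ) => fun e =>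
      if e ∈ s then q.2 e else q.1 e) ⁻¹' (Set.pi (F : Set (Edge d)) t)
      = (Set.pi ((F.filter (fun e => ¬ e ∈ s) : Finset (Edge d)) : Set (Edge d)) t) ×ˢ
        (Set.pi ((F.filter (fun e => e ∈ s) : Finset (Edge d)) : Set (Edge d)) t) := by
    ext q
    simp only [Set.mem_preimage, Set.mem_pi, Finset.mem_coe, Set.mem_prod, Finset.mem_filter]
    constructor
    · intro h
      refine ⟨fun i hi => ?_, fun i hi => ?_⟩
      · have := h i hi.1
        rwa [if_neg hi.2] at this
      · have := h i hi.1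
        rwa [if_pos hi.2] at this
    · rintro ⟨h1, h2⟩ i hi
      by_cases hiF : i ∈ s
      · rw [if_pos hiF]
        exact h2 i ⟨hi, hiF⟩
      · rw [if_neg hiF]
        exact h1 i ⟨hi, hiF⟩
  rw [hpre, Measure.prod_prod, prod_box ht, prod_box ht, mul_comm,
    Finset.prod_filter_mul_prod_filter_not]

private theorem CR1_lat {i0 : Fin d} (w : V d) (m : List (Step d)) (h : Lat i0 m) :
    endp w m i0 = w i0 ∧ ∀ e ∈ edges w m, e.1 i0 = w i0 := by
  induction m generalizing w with
  | nil => exact ⟨rfl, fun e he => by simp [edges] at he⟩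
  | cons s m ih =>
    have hs : s.1 ≠ i0 := h s (List.mem_cons_self)
    have hv : vec s i0 = 0 := by
      unfold vec ev
      split
      · exact Pi.single_eq_of_ne (Ne.symm hs) _
      · simp only [Pi.neg_apply, neg_eq_zero]
        exact Pi.single_eq_of_ne (Ne.symm hs) _
    obtain ⟨h1, h2⟩ := ih (w + vec s) (fun s' hs' => h s' (List.mem_cons_of_mem _ hs'))
    have hw : (w + vec s) i0 = w i0 := by rw [Pi.add_apply, hv, add_zero]
    rw [hw] at h1 h2
    refine ⟨by rw [endp_cons]; exact h1, fun e he => ?_⟩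
    simp only [edges, List.mem_cons] at he
    rcases he with rfl | he
    · unfold edg
      split
      · rfl
      · simp only [Pi.sub_apply, ev]
        rw [Pi.single_eq_of_ne (Ne.symm hs), sub_zero]
    · exact h2 e he

private theorem CR1_wt_congr {τ τ' : Edge d → ℝ} (x : V d) (l : List (Step d))
    (h : ∀ e ∈ edges x l, τ e = τ' e) : wt τ x l = wt τ' x l :=
  le_antisymm (wt_mono x l fun e he => (h e he).le) (wt_mono x l fun e he => (h e he).ge)

private theorem CR1_Yl_le {i0 : Fin d} {N : ℕ} {E : Edge d → ℝ} (hE : ∀ e, 0 ≤ E e)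
    {l : List (Step d)} (hl : Below i0 N l) : Yl i0 N E ≤ wt E 0 l := by
  unfold Yl
  refine ciInf_le (f := fun l : {l : List (Step d) // Below i0 N l} => wt E 0 l.1) ⟨0, ?_⟩ ⟨l, hl⟩
  rintro _ ⟨m, rfl⟩
  exact wt_nonneg hE _ _

private theorem CR1_straight (i0 : Fin d) (N : ℕ) (x : V d) :
    endp x (List.replicate N (i0, true)) i0 = x i0 + N ∧
      ∀ e ∈ edges x (List.replicate N (i0, true)), e.1 i0 < x i0 + N := by
  induction N generalizing x with
  | zero => simp [endp, edges]
  | succ N ih =>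
    obtain ⟨h1, h2⟩ := ih (x + vec (i0, true))
    have hv : (x + vec (i0, true)) i0 = x i0 + 1 := by
      simp [vec, ev]
    rw [hv] at h1 h2
    rw [List.replicate_succ, endp_cons]
    constructor
    · rw [h1]; push_cast; ring
    · intro e he
      simp only [edges, List.mem_cons] at he
      rcases he with rfl | he
      · simp only [edg, if_true]
        push_cast
        have : (0 : ℤ) ≤ N := Int.natCast_nonneg N
        linarith
      · have := h2 e he
        push_cast
        linarith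

private theorem CR1_nonempty (i0 : Fin d) (N : ℕ) :
    Nonempty {l : List (Step d) // Below i0 N l} := by
  obtain ⟨h1, h2⟩ := CR1_straight i0 N 0
  simp only [Pi.zero_apply, zero_add] at h1 h2
  exact ⟨⟨_, h1, h2⟩⟩

private theorem CR1_Yl_nonneg {i0 : Fin d} {N : ℕ} {E : Edge d → ℝ} (hE : ∀ e, 0 ≤ E e) :
    0 ≤ Yl i0 N E := Real.iInf_nonneg fun l => wt_nonneg hE _ _

private theorem CR1_meas (i0 : Fin d) (N : ℕ) :
    Measurable (fun E : Edge d → ℝ => Yl i0 N E) := by
  unfold Yl
  exact Measurable.iInf fun l => measurable_wt _ _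

/-- one more level for a fixed configuration -/
private theorem CR1_det {i0 : Fin d} {N : ℕ} {F E1 E2 : Edge d → ℝ} (hF : ∀ e, 0 ≤ F e)
    (h1 : ∀ e : Edge d, e.1 i0 < (N : ℤ) → F e = E1 e)
    (h2 : ∀ e : Edge d, e.1 i0 = (N : ℤ) → F e = E2 e) {l : List (Step d)} (hl : Below i0 N l) :
    Yl i0 (N + 1) F ≤ wt E1 0 l + Cr i0 {endp 0 l} E2 := by
  set w := endp 0 l with hw
  have hwN : w i0 = (N : ℤ) := hl.1
  have : Nonempty {q : V d × List (Step d) // q.1 ∈ ({w} : Finset (V d)) ∧ Lat i0 q.2} :=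
    ⟨⟨(w, []), Finset.mem_singleton_self w, fun s hs => absurd hs (List.not_mem_nil)⟩⟩
  have key : Yl i0 (N + 1) F - wt E1 0 l ≤ Cr i0 {w} E2 := by
    unfold Cr
    refine le_ciInf fun q => ?_
    obtain ⟨⟨x, m⟩, hx, hm⟩ := q
    simp only [Finset.mem_singleton] at hx
    subst hx
    obtain ⟨g1, g2⟩ := CR1_lat w m hm
    have hB : Below i0 (N + 1) (l ++ (m ++ [(i0, true)])) := by
      constructor
      · rw [endp_append, endp_append, ← hw]
        simp only [endp, vec, if_true, ev, Pi.add_apply, Pi.single_eq_same]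
        rw [g1, hwN]
        push_cast
        ring
      · intro e he
        rw [edges_append, edges_append, List.mem_append, List.mem_append, ← hw] at he
        push_cast
        rcases he with he | he | he
        · have := hl.2 e he
          linarith
        · rw [g2 e he, hwN]
          linarith
        · simp only [edges, List.mem_singleton, edg, if_true] at he
          rw [he]
          simp only
          rw [g1, hwN]
          linarith
    have h3 := CR1_Yl_le hF hB
    rw [wt_append, wt_append, ← hw] at h3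
    have e1 : wt F 0 l = wt E1 0 l := CR1_wt_congr 0 l fun e he => h1 e (hl.2 e he)
    have e2 : wt F w m = wt E2 w m := CR1_wt_congr w m fun e he => h2 e (by rw [g2 e he, hwN])
    have e3 : wt F (endp w m) [(i0, true)] = E2 (endp w m, i0) := by
      simp only [wt, edg, if_true, add_zero]
      exact h2 _ (by simp only; rw [g1, hwN])
    rw [e1, e2, e3] at h3
    simp only
    linarith
  linarith

/-- MODULE CR1.  One more level: for fixed values below the level `N` and each walk `l` below the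
level `N` the expectation over the other values of `wt E 0 l + Cr i0 {endp 0 l} E` is at most
`wt E 0 l + U`; `Cr i0 {w}` uses only edges `e` with `e.1 i0 = N` if `w i0 = N`. -/
theorem Yl_succ {i0 : Fin d} {U : ℝ} (hU0 : 0 ≤ U)
    (hU : ∀ w : V d, ∫⁻ E, ENNReal.ofReal (Cr i0 {w} E) ∂(PE d) ≤ ENNReal.ofReal U) (N : ℕ) :
    ∫⁻ E, ENNReal.ofReal (Yl i0 (N + 1) E) ∂(PE d) ≤
      ∫⁻ E, ENNReal.ofReal (Yl i0 N E) ∂(PE d) + ENNReal.ofReal U := by
  classical
  set s : Set (Edge d) := {e | e.1 i0 = (N : ℤ)} with hs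
  have hmp := merge_set s
  have hf : Measurable (fun E : Edge d → ℝ => ENNReal.ofReal (Yl i0 (N + 1) E)) :=
    ENNReal.measurable_ofReal.comp (CR1_meas i0 (N + 1))
  rw [← hmp.lintegral_comp hf, lintegral_prod
    (fun q : (Edge d → ℝ) × (Edge d → ℝ) => ENNReal.ofReal (Yl i0 (N + 1)
      fun e => if e ∈ s then q.2 e else q.1 e)) (hf.comp hmp.measurable).aemeasurable]
  have hone : ∫⁻ _ : Edge d → ℝ, ENNReal.ofReal U ∂(PE d) = ENNReal.ofReal U := by
    rw [lintegral_const, measure_univ, mul_one]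
  rw [← hone, ← lintegral_add_right _ measurable_const]
  refine lintegral_mono_ae ?_
  filter_upwards [ae_pos (d := d)] with E1 hE1
  have hle : ∀ l : List (Step d), Below i0 N l →
      ∫⁻ E2, ENNReal.ofReal (Yl i0 (N + 1) fun e => if e ∈ s then E2 e else E1 e) ∂(PE d) ≤
        ENNReal.ofReal (wt E1 0 l) + ENNReal.ofReal U := by
    intro l hl
    have h1 : ∫⁻ E2, ENNReal.ofReal (Yl i0 (N + 1) fun e => if e ∈ s then E2 e else E1 e) ∂(PE d) ≤
        ∫⁻ E2, (ENNReal.ofReal (wt E1 0 l) + ENNReal.ofReal (Cr i0 {endp 0 l} E2)) ∂(PE d) := by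
      refine lintegral_mono_ae ?_
      filter_upwards [ae_pos (d := d)] with E2 hE2
      have h2 : Yl i0 (N + 1) (fun e => if e ∈ s then E2 e else E1 e) ≤
          wt E1 0 l + Cr i0 {endp 0 l} E2 := by
        refine CR1_det (fun e => ?_) (fun e he => ?_) (fun e he => ?_) hl
        · split
          · exact (hE2 e).le
          · exact (hE1 e).le
        · have : e ∉ s := fun h => by
            have h' : e.1 i0 = (N : ℤ) := h
            rw [h'] at he
            exact lt_irrefl _ he
          rw [if_neg this]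
        · have : e ∈ s := he
          rw [if_pos this]
      exact (ENNReal.ofReal_le_ofReal h2).trans ENNReal.ofReal_add_le
    refine h1.trans ?_
    rw [lintegral_add_left measurable_const, lintegral_const, measure_univ, mul_one]
    exact add_le_add le_rfl (hU _)
  have hX : ∀ δ : ℝ, 0 < δ →
      ∫⁻ E2, ENNReal.ofReal (Yl i0 (N + 1) fun e => if e ∈ s then E2 e else E1 e) ∂(PE d) ≤
        ENNReal.ofReal (Yl i0 N E1) + ENNReal.ofReal U + ENNReal.ofReal δ := by
    intro δ hδ
    have := CR1_nonempty i0 N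
    obtain ⟨l, hl⟩ := exists_lt_of_ciInf_lt (f := fun l : {l : List (Step d) // Below i0 N l} =>
      wt E1 0 l.1) (lt_add_of_pos_right (Yl i0 N E1) hδ)
    refine (hle l.1 l.2).trans ?_
    have h3 : ENNReal.ofReal (wt E1 0 l.1) ≤ ENNReal.ofReal (Yl i0 N E1) + ENNReal.ofReal δ :=
      (ENNReal.ofReal_le_ofReal hl.le).trans ENNReal.ofReal_add_le
    calc ENNReal.ofReal (wt E1 0 l.1) + ENNReal.ofReal U ≤
        (ENNReal.ofReal (Yl i0 N E1) + ENNReal.ofReal δ) + ENNReal.ofReal U := add_le_add h3 le_rfl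
      _ = _ := by ring
  refine ENNReal.le_of_forall_pos_le_add fun δ hδ _ => ?_
  have := hX δ (by exact_mod_cast hδ)
  rwa [ENNReal.ofReal_coe_nnreal] at this

private theorem CR2_lint {i0 : Fin d} {U : ℝ} (hU0 : 0 ≤ U)
    (hU : ∀ w : V d, ∫⁻ E, ENNReal.ofReal (Cr i0 {w} E) ∂(PE d) ≤ ENNReal.ofReal U) (N : ℕ) :
    ∫⁻ E, ENNReal.ofReal (Yl i0 N E) ∂(PE d) ≤ ENNReal.ofReal (N * U) := by
  induction N with
  | zero =>
    have h0 : ∀ᵐ E ∂(PE d), ENNReal.ofReal (Yl i0 0 E) = 0 := by
      filter_upwards [ae_pos (d := d)] with E hE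
      have hB : Below i0 0 ([] : List (Step d)) := by
        constructor
        · simp [endp]
        · intro e he
          simp [edges] at he
      have := CR1_Yl_le (fun e => (hE e).le) hB
      rw [wt_nil] at this
      exact ENNReal.ofReal_eq_zero.2 this
    rw [lintegral_congr_ae h0]
    simp
  | succ N ih =>
    refine (Yl_succ hU0 hU N).trans ?_
    refine (add_le_add ih le_rfl).trans ?_
    rw [← ENNReal.ofReal_add (by positivity) hU0]
    refine ENNReal.ofReal_le_ofReal ?_
    push_cast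
    linarith

/-- a configuration which is good for the crossing time and for the concentration -/
private theorem CR2_exists {i0 : Fin d} {U : ℝ} (hU0 : 0 < U)
    (hU : ∀ w : V d, ∫⁻ E, ENNReal.ofReal (Cr i0 {w} E) ∂(PE d) ≤ ENNReal.ofReal U)
    {ε : ℝ} (hε : 0 < ε) :
    ∃ N0 : ℕ, ∀ N : ℕ, N0 ≤ N → 0 < N → ∃ E : Edge d → ℝ, (∀ e, 0 < E e) ∧
      CC (hm (d := d)) (eta d) E N ∧ Yl i0 N E < (1 + ε) * (N * U) := by
  -- probability of the concentration
  set A : ℕ → Set (Edge d → ℝ) := fun n => {E | CC (hm (d := d)) (eta d) E n} with hA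
  have hmono : Monotone A := by
    intro n m hnm E hE R hR x y hx hy
    exact hE R ((Nat.cast_le.2 hnm).trans hR) x y hx hy
  have hun : (PE d) (⋃ n, A n) = 1 := by
    have : ∀ᵐ E ∂(PE d), E ∈ ⋃ n, A n := by
      filter_upwards [conc d] with E hE
      obtain ⟨R0, hR0⟩ := hE
      obtain ⟨n, hn⟩ := exists_nat_ge R0
      refine Set.mem_iUnion.2 ⟨n, fun R hR x y hx hy => hR0 R (hn.trans hR) x y hx hy⟩
    rw [← prob_compl_eq_zero_iff₀ (NullMeasurableSet.of_compl ?_)]
    · exact this
    · exact NullMeasurableSet.of_null this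
  have hlim : Filter.Tendsto (fun n => (PE d) (A n)) Filter.atTop (nhds 1) := by
    rw [← hun, hmono.measure_iUnion]
    exact tendsto_atTop_iSup (fun n m h => measure_mono (hmono h))
  set p : ENNReal := ENNReal.ofReal (1 / (1 + ε)) with hp
  have hp1 : p < 1 := by
    rw [hp, ← ENNReal.ofReal_one]
    refine (ENNReal.ofReal_lt_ofReal_iff zero_lt_one).2 ?_
    rw [div_lt_one (by positivity)]
    linarith
  obtain ⟨N0, hN0⟩ := Filter.eventually_atTop.1 (hlim.eventually (lt_mem_nhds hp1))
  refine ⟨N0, fun N hN hNpos => ?_⟩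
  have hNr : (0 : ℝ) < N := Nat.cast_pos.2 hNpos
  -- Markov
  have hmk : (PE d) {E | ENNReal.ofReal ((1 + ε) * (N * U)) ≤ ENNReal.ofReal (Yl i0 N E)} ≤ p := by
    have hm0 : Measurable (fun E : Edge d → ℝ => ENNReal.ofReal (Yl i0 N E)) :=
      ENNReal.measurable_ofReal.comp (CR1_meas i0 N)
    have hpos : 0 < (1 + ε) * (N * U) := by positivity
    refine (meas_ge_le_lintegral_div hm0.aemeasurable (ENNReal.ofReal_pos.2 hpos).ne'
      ENNReal.ofReal_ne_top).trans ?_
    refine (ENNReal.div_le_div_right (CR2_lint hU0.le hU N) _).trans ?_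
    rw [← ENNReal.ofReal_div_of_pos hpos, hp]
    refine ENNReal.ofReal_le_ofReal (le_of_eq ?_)
    field_simp
  have hne : ((A N ∩ {E | ENNReal.ofReal ((1 + ε) * (N * U)) ≤ ENNReal.ofReal (Yl i0 N E)}ᶜ) ∩
      {E | ∀ e, 0 < E e}).Nonempty := by
    by_contra hcon
    rw [Set.not_nonempty_iff_eq_empty] at hcon
    have hsub : A N ⊆ {E | ENNReal.ofReal ((1 + ε) * (N * U)) ≤ ENNReal.ofReal (Yl i0 N E)} ∪
        {E | ∀ e, 0 < E e}ᶜ := by
      intro E hE
      by_cases h1 : ENNReal.ofReal ((1 + ε) * (N * U)) ≤ ENNReal.ofReal (Yl i0 N E)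
      · exact Or.inl h1
      · by_cases h2 : ∀ e, 0 < E e
        · exfalso
          have : E ∈ (A N ∩ {E | ENNReal.ofReal ((1 + ε) * (N * U)) ≤
            ENNReal.ofReal (Yl i0 N E)}ᶜ) ∩ {E | ∀ e, 0 < E e} := ⟨⟨hE, h1⟩, h2⟩
          rw [hcon] at this
          exact this
        · exact Or.inr h2
    have h3 : (PE d) (A N) ≤ p + 0 := by
      refine (measure_mono hsub).trans ((measure_union_le _ _).trans (add_le_add hmk ?_))
      exact le_of_eq (ae_pos (d := d))
    rw [add_zero] at h3
    exact absurd (hN0 N hN) (not_lt.2 h3)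
  obtain ⟨E, ⟨h1, h2⟩, h3⟩ := hne
  refine ⟨E, h3, h1, ?_⟩
  have h4 : ¬ ENNReal.ofReal ((1 + ε) * (N * U)) ≤ ENNReal.ofReal (Yl i0 N E) := h2
  by_contra h5
  push Not at h5
  exact h4 (ENNReal.ofReal_le_ofReal h5)

/-- the first vertex of a walk with a given property -/
private theorem CR2_first (P : V d → Prop) (x : V d) (l : List (Step d)) (hx : ¬ P x)
    (hl : P (endp x l)) : ∃ (l1 l2 : List (Step d)) (s : Step d), l = l1 ++ s :: l2 ∧
      ¬ P (endp x l1) ∧ P (endp x l1 + vec s) := by
  induction l generalizing x with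
  | nil => exact absurd hl hx
  | cons s l ih =>
    rw [endp_cons] at hl
    by_cases h : P (x + vec s)
    · exact ⟨[], l, s, rfl, hx, h⟩
    · obtain ⟨l1, l2, s', h1, h2, h3⟩ := ih (x + vec s) h hl
      exact ⟨s :: l1, l2, s', by rw [h1]; rfl, h2, h3⟩

/-- MODULE CR2.  By Markov's inequality and `conc`, for `N` large some `E` satisfies
`Yl i0 N E < (1 + ε / 4) N U`, all coordinates are positive and `CC hm (eta d) E N` holds; the walk
with this weight ends at `w` with `nrm w ≤ K N` (first vertex of norm more than `K N`, `hm_low`)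
and `hm w ≤ T E 0 w + (K N) ^ (1 - eta d)`. -/
theorem exists_far {i0 : Fin d} {U : ℝ} (hU0 : 0 < U)
    (hU : ∀ w : V d, ∫⁻ E, ENNReal.ofReal (Cr i0 {w} E) ∂(PE d) ≤ ENNReal.ofReal U)
    {ε : ℝ} (hε : 0 < ε) :
    ∃ N0 : ℕ, ∀ N : ℕ, N0 ≤ N → ∃ w : V d, w i0 = (N : ℤ) ∧ hm w ≤ (1 + ε) * U * N := by
  obtain ⟨N1, hN1⟩ := CR2_exists (i0 := i0) hU0 hU (half_pos hε)
  obtain ⟨a, C, ha, hC, hlow⟩ := hm_low d
  have hη : 0 < eta d := by unfold eta; positivity
  have hη1 : eta d ≤ 1 := by
    unfold eta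
    rw [div_le_one (by positivity)]
    have : (0 : ℝ) ≤ d := Nat.cast_nonneg d
    linarith
  set K : ℝ := (1 + ε / 2) * U / a * 2 + 1 with hK
  have hK1 : 1 ≤ K := by
    have : 0 ≤ (1 + ε / 2) * U / a * 2 := by positivity
    linarith
  have hKa : 2 * ((1 + ε / 2) * U) < K * a := by
    have h0 : ((1 + ε / 2) * U / a * 2 + 1) * a = 2 * ((1 + ε / 2) * U) + a := by field_simp
    rw [hK, h0]
    linarith
  -- powers are small
  have hpw : Filter.Tendsto (fun x : ℝ => (K * x + 1) ^ (1 - eta d) / x) Filter.atTop (nhds 0) := by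
    have h1 : Filter.Tendsto (fun x : ℝ => (2 * K) ^ (1 - eta d) * x ^ (-(eta d))) Filter.atTop
        (nhds 0) := by
      have := (tendsto_rpow_neg_atTop hη).const_mul ((2 * K) ^ (1 - eta d))
      simpa using this
    refine squeeze_zero' ?_ ?_ h1
    · filter_upwards [Filter.eventually_gt_atTop (0 : ℝ)] with x hx
      have : 0 ≤ K * x + 1 := by positivity
      positivity
    · filter_upwards [Filter.eventually_ge_atTop (1 : ℝ)] with x hx
      have hx0 : 0 < x := by linarith
      rw [div_le_iff₀ hx0]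
      have h2 : K * x + 1 ≤ 2 * K * x := by nlinarith
      have h3 : (K * x + 1) ^ (1 - eta d) ≤ (2 * K * x) ^ (1 - eta d) :=
        Real.rpow_le_rpow (by positivity) h2 (by linarith)
      refine h3.trans (le_of_eq ?_)
      rw [Real.mul_rpow (by positivity) hx0.le, mul_assoc]
      congr 1
      rw [show (1 : ℝ) - eta d = -(eta d) + 1 by ring, Real.rpow_add_one hx0.ne']
  have hδ : 0 < min ((1 + ε / 2) * U / 2) (ε / 2 * U) := by positivity
  obtain ⟨x0, hx0⟩ := Filter.eventually_atTop.1 (hpw.eventually (gt_mem_nhds hδ))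
  obtain ⟨N2, hN2⟩ := exists_nat_ge (max x0 (2 * C / ((1 + ε / 2) * U) + 1))
  refine ⟨max (max N1 N2) 1, fun N hN => ?_⟩
  have g1 : N1 ≤ N := (le_max_left N1 N2).trans ((le_max_left _ _).trans hN)
  have g2 : N2 ≤ N := (le_max_right N1 N2).trans ((le_max_left _ _).trans hN)
  have g3 : 0 < N := lt_of_lt_of_le one_pos ((le_max_right _ _).trans hN)
  have hNr : (0 : ℝ) < N := Nat.cast_pos.2 g3
  have hN1r : (1 : ℝ) ≤ N := by exact_mod_cast g3
  have g4 : x0 ≤ N := (le_max_left _ _).trans (hN2.trans (Nat.cast_le.2 g2))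
  have g5 : 2 * C / ((1 + ε / 2) * U) + 1 ≤ N :=
    (le_max_right _ _).trans (hN2.trans (Nat.cast_le.2 g2))
  have hpN := hx0 N g4
  rw [div_lt_iff₀ hNr] at hpN
  have hp1 : (K * N + 1) ^ (1 - eta d) < (1 + ε / 2) * U / 2 * N :=
    lt_of_lt_of_le hpN (mul_le_mul_of_nonneg_right (min_le_left _ _) hNr.le)
  have hp2 : (K * N + 1) ^ (1 - eta d) < ε / 2 * U * N :=
    lt_of_lt_of_le hpN (mul_le_mul_of_nonneg_right (min_le_right _ _) hNr.le)
  have hCN : C < (1 + ε / 2) * U / 2 * N := by
    have h1 : 2 * C / ((1 + ε / 2) * U) < N := by linarith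
    rw [div_lt_iff₀ (by positivity)] at h1
    linarith
  obtain ⟨E, hE, hCC, hY⟩ := hN1 N g1 g3
  have := CR1_nonempty i0 N
  obtain ⟨l, hl⟩ := exists_lt_of_ciInf_lt (f := fun l : {l : List (Step d) // Below i0 N l} =>
      wt E 0 l.1) hY
  have hEn : ∀ e, 0 ≤ E e := fun e => (hE e).le
  have hKN : (N : ℝ) ≤ K * N + 1 := by nlinarith
  -- all vertices of the walk have norm at most `K N`
  have hbd : nrm (endp 0 l.1) ≤ K * N := by
    by_contra hcon
    push Not at hcon
    obtain ⟨l1, l2, s, h1, h2, h3⟩ := CR2_first (fun z => K * N < nrm z) 0 l.1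
      (by simp only [nrm_zero]; exact not_lt.2 (by positivity)) hcon
    push Not at h2
    set z := endp 0 l1 + vec s with hz
    have hz1 : nrm z ≤ K * N + 1 := by
      refine (nrm_add_le _ _).trans ?_
      rw [nrm_vec]
      linarith
    have hzT : T E 0 z ≤ wt E 0 l.1 := by
      have h4 : endp 0 (l1 ++ [s]) = z := by rw [endp_append]; rfl
      refine (T_le_wt hEn h4).trans ?_
      rw [h1, show l1 ++ s :: l2 = (l1 ++ [s]) ++ l2 by simp, wt_append E 0 (l1 ++ [s]) l2]
      exact le_add_of_nonneg_right (wt_nonneg hEn _ _)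
    have hcc := hCC (K * N + 1) hKN 0 z (by rw [nrm_zero]; positivity) hz1
    rw [sub_zero] at hcc
    have h5 := (abs_le.1 hcc).1
    have h6 := hlow z
    have h7 : a * (K * N) < a * nrm z := mul_lt_mul_of_pos_left h3 ha
    have h8 : wt E 0 l.1 < (1 + ε / 2) * (N * U) := hl
    have h9 : 2 * ((1 + ε / 2) * U) * N < K * a * N := mul_lt_mul_of_pos_right hKa hNr
    nlinarith
  refine ⟨endp 0 l.1, l.2.1, ?_⟩
  have hT : T E 0 (endp 0 l.1) ≤ wt E 0 l.1 := T_le_wt hEn rfl
  have hcc := hCC (K * N + 1) hKN 0 (endp 0 l.1) (by rw [nrm_zero]; positivity) (by linarith)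
  rw [sub_zero] at hcc
  have h5 := (abs_le.1 hcc).1
  have h8 : wt E 0 l.1 < (1 + ε / 2) * (N * U) := hl
  nlinarith

end ConeD
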