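import Pool.Agent.ConeE.ExpLaw

/-!
# First passage percolation on `ℤ ^ d` with weights `|m_e| ^ α`

Definitions shared by all the files of this folder (problem MP_b9fb85_pr, dimensions `d ≥ 3`).
-/

set_option autoImplicit false

namespace ConeD

open MeasureTheory ProbabilityTheory

variable {d : ℕ}

/-- vertices of the cubic lattice -/
abbrev V (d : ℕ) := Fin d → ℤ

/-- edges: `(v, j)` joins `v` and `v + ev j` -/
abbrev Edge (d : ℕ) := V d × Fin d

/-- a unit step: direction and sign -/
abbrev Step (d : ℕ) := Fin d × Bool

/-- the unit vectors -/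
def ev (j : Fin d) : V d := Pi.single j 1

/-- displacement of a step -/
def vec (s : Step d) : V d := if s.2 then ev s.1 else -ev s.1

/-- the edge used by the step `s` from `x` -/
def edg (x : V d) (s : Step d) : Edge d := if s.2 then (x, s.1) else (x - ev s.1, s.1)

/-- end point of the walk with steps `l` from `x` -/
def endp : V d → List (Step d) → V d
  | x, [] => x
  | x, s :: l => endp (x + vec s) l

/-- total weight of the walk with steps `l` from `x` -/
def wt (τ : Edge d → ℝ) : V d → List (Step d) → ℝ
  | _, [] => 0
  | x, s :: l => τ (edg x s) + wt τ (x + vec s) l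

/-- list of the edges used by the walk with steps `l` from `x` -/
def edges : V d → List (Step d) → List (Edge d)
  | _, [] => []
  | x, s :: l => edg x s :: edges (x + vec s) l

/-- passage time from `x` to `y` -/
noncomputable def T (τ : Edge d → ℝ) (x y : V d) : ℝ :=
  ⨅ l : {l : List (Step d) // endp x l = y}, wt τ x l.1

/-- explosion time from `x`: infimum of the times at which the ball of centre `x` is infinite -/
noncomputable def S (τ : Edge d → ℝ) (x : V d) : ℝ :=
  sInf {t : ℝ | {y : V d | T τ x y ≤ t}.Infinite}

/-- from every vertex some ball of finite radius is infinite -/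
def Explodes (τ : Edge d → ℝ) : Prop := ∀ x : V d, ∃ t : ℝ, {y : V d | T τ x y ≤ t}.Infinite

/-- Euclidean norm of a vertex -/
noncomputable def nrm (x : V d) : ℝ := Real.sqrt (∑ j : Fin d, ((x j : ℝ)) ^ 2)

/-- scalar product of two vertices -/
noncomputable def ip (x y : V d) : ℝ := ∑ j : Fin d, (x j : ℝ) * (y j : ℝ)

/-- component of `w` in the direction of `y` -/
noncomputable def pr (w y : V d) : ℝ := ip w y / nrm y

/-- Euclidean norm of the midpoint of an edge -/
noncomputable def mid (e : Edge d) : ℝ :=
  Real.sqrt (∑ j : Fin d, ((e.1 j : ℝ) + (if j = e.2 then (1 / 2 : ℝ) else 0)) ^ 2)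

/-- the weighted passage times `E_e / |m_e| ^ α` -/
noncomputable def tau (α : ℝ) (E : Edge d → ℝ) (e : Edge d) : ℝ := E e / mid e ^ α

/-- every final piece of the walk `l` from `x` is shorter than the explosion time of its start -/
def Good (τ : Edge d → ℝ) (x : V d) (l : List (Step d)) : Prop :=
  ∀ l1 l2 : List (Step d), l = l1 ++ l2 → wt τ (endp x l1) l2 < S τ (endp x l1)

/-- vertices reached before the explosion time -/
def Ainf (τ : Edge d → ℝ) : Set (V d) := {x | ∃ l : List (Step d), endp 0 l = x ∧ wt τ 0 l < S τ 0}

/-- the law of a family of independent exponential variables indexed by the edges -/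
noncomputable def PE (d : ℕ) : Measure (Edge d → ℝ) :=
  Measure.infinitePi (fun _ : Edge d => ConeE.mE)

instance : IsProbabilityMeasure (PE d) := by unfold PE; infer_instance

/-- expected passage time from the origin -/
noncomputable def hm (z : V d) : ℝ := ∫ E, T E 0 z ∂(PE d)

/-- exponent of the random fluctuations -/
noncomputable def eta (d : ℕ) : ℝ := 1 / (2 * d + 5)

/-- a nonnegative symmetric subadditive function comparable to the Euclidean norm -/
structure HF (h : V d → ℝ) (a b C : ℝ) : Prop where
  pos : 0 < a
  Cnn : 0 ≤ C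
  nonneg : ∀ z, 0 ≤ h z
  neg : ∀ z, h (-z) = h z
  sub : ∀ z w, h (z + w) ≤ h z + h w
  low : ∀ z, a * nrm z - C ≤ h z
  up : ∀ z, h z ≤ b * nrm z

/-- from the radius `R0` on, passage times are close to `h` -/
def CC (h : V d → ℝ) (η : ℝ) (E : Edge d → ℝ) (R0 : ℝ) : Prop :=
  ∀ R, R0 ≤ R → ∀ x y : V d, nrm x ≤ R → nrm y ≤ R → |T E x y - h (y - x)| ≤ R ^ (1 - η)

end ConeD
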