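import Pool.Agent.ConeD.Sup

/-!
# Directions of vertices and the support constant of `h` in a direction
-/

set_option autoImplicit false

namespace ConeD

variable {d : ℕ}

/-- subadditivity removes the additive constant of the lower bound -/
theorem HF.low' {h : V d → ℝ} {a b C : ℝ} (hh : HF h a b C) (z : V d) : a * nrm z ≤ h z := by
  by_contra hcon
  push Not at hcon
  obtain ⟨n, hn⟩ := exists_nat_gt (C / (a * nrm z - h z))
  rw [div_lt_iff₀ (by linarith)] at hn
  have h1 := hh.low (n • z)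
  have h2 := hh.nsmul n z
  rw [nrm_nsmul] at h1
  nlinarith

/-- the unit vector of a vertex -/
noncomputable def uv (y : V d) : EuclideanSpace ℝ (Fin d) := (nrm y)⁻¹ • toE y

/-- the distance of the directions of two vertices -/
noncomputable def dd (y z : V d) : ℝ := ‖uv y - uv z‖

theorem dd_nonneg (y z : V d) : 0 ≤ dd y z := norm_nonneg _

theorem dd_self (y : V d) : dd y y = 0 := by simp [dd]

theorem dd_comm (y z : V d) : dd y z = dd z y := norm_sub_rev _ _

theorem dd_triangle (x y z : V d) : dd x z ≤ dd x y + dd y z := by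
  unfold dd
  have : uv x - uv z = (uv x - uv y) + (uv y - uv z) := by abel
  rw [this]
  exact norm_add_le _ _

theorem norm_uv {y : V d} (hy : y ≠ 0) : ‖uv y‖ = 1 := by
  have h1 : 0 < nrm y := by linarith [one_le_nrm hy]
  rw [uv, norm_smul, ← nrm_eq, Real.norm_of_nonneg (inv_nonneg.2 h1.le)]
  field_simp

private theorem DD_nsmul (n : ℕ) (p : V d) : toE (n • p) = (n : ℝ) • toE p := by
  ext j
  show ((n • p) j : ℤ) = (n : ℝ) * ((p j : ℤ) : ℝ)
  simp

private theorem DD_inner (x y : V d) : inner ℝ (toE x) (toE y) = ip x y := by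
  rw [PiLp.inner_apply, ip]
  refine Finset.sum_congr rfl fun j _ => ?_
  rw [toE_apply, toE_apply]
  simp [mul_comm]

private theorem DD_pr (w y : V d) : pr w y = inner ℝ (toE w) (uv y) := by
  rw [uv, real_inner_smul_right, DD_inner, pr, div_eq_inv_mul]

/-- MODULE DD.  Elementary facts on directions. -/
theorem dd_facts :
    (∀ (p : V d) (n : ℕ), 0 < n → dd (n • p) p = 0) ∧
    (∀ y z : V d, y ≠ 0 → z ≠ 0 → dd y z ≤ 2 * nrm (y - z) / nrm z) ∧
    (∀ y z w : V d, |pr w y - pr w z| ≤ dd y z * nrm w) ∧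
    (∀ y z : V d, y ≠ 0 → z ≠ 0 → pr z y = nrm z * (1 - dd y z ^ 2 / 2)) := by
  refine ⟨?_, ?_, ?_, ?_⟩
  · intro p n hn
    have hn' : (n : ℝ) ≠ 0 := by exact_mod_cast hn.ne'
    have : uv (n • p) = uv p := by
      rw [uv, uv, nrm_nsmul, DD_nsmul, smul_smul]
      congr 1
      rw [mul_inv]
      field_simp
    rw [dd, this, sub_self, norm_zero]
  · intro y z hy hz
    have h1 : 0 < nrm y := by linarith [one_le_nrm hy]
    have h2 : 0 < nrm z := by linarith [one_le_nrm hz]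
    have e : uv y - uv z = (nrm z)⁻¹ • toE (y - z) + ((nrm y)⁻¹ - (nrm z)⁻¹) • toE y := by
      rw [uv, uv, toE_sub, smul_sub, sub_smul]
      abel
    rw [dd, e]
    refine (norm_add_le _ _).trans ?_
    rw [norm_smul, norm_smul, ← nrm_eq, ← nrm_eq, Real.norm_of_nonneg (inv_nonneg.2 h2.le), Real.norm_eq_abs]
    have h3 : |(nrm y)⁻¹ - (nrm z)⁻¹| * nrm y = |nrm z - nrm y| / nrm z := by
      have : (nrm y)⁻¹ - (nrm z)⁻¹ = (nrm z - nrm y) / (nrm z * nrm y) := by field_simp
      rw [this, abs_div, abs_of_pos (mul_pos h2 h1)]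
      field_simp
    rw [h3]
    have h4 : |nrm z - nrm y| ≤ nrm (y - z) := by
      rw [abs_le]
      constructor
      · have := nrm_le_add y z
        linarith
      · have := nrm_le_add z y
        rw [nrm_sub_comm z y] at this
        linarith
    have h5 : |nrm z - nrm y| / nrm z ≤ nrm (y - z) / nrm z := div_le_div_of_nonneg_right h4 h2.le
    calc (nrm z)⁻¹ * nrm (y - z) + |nrm z - nrm y| / nrm z
        ≤ (nrm z)⁻¹ * nrm (y - z) + nrm (y - z) / nrm z := by linarith
      _ = 2 * nrm (y - z) / nrm z := by field_simp; ring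
  · intro y z w
    rw [DD_pr, DD_pr, ← inner_sub_right, dd, mul_comm, nrm_eq]
    exact abs_real_inner_le_norm _ _
  · intro y z hy hz
    have h2 : 0 < nrm z := by linarith [one_le_nrm hz]
    have hz' : toE z = nrm z • uv z := by
      rw [uv, smul_smul, mul_inv_cancel₀ h2.ne', one_smul]
    have h3 : dd y z ^ 2 = 2 - 2 * inner ℝ (uv z) (uv y) := by
      rw [dd, norm_sub_sq_real, norm_uv hy, norm_uv hz, real_inner_comm]
      ring
    rw [DD_pr, hz', real_inner_smul_left, h3]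
    ring

/-- the support constant of `h` in the direction of `p` -/
noncomputable def gl (h : V d → ℝ) (p : V d) : ℝ := ⨅ z : {z : V d // 0 < pr z p}, h z / pr z p

/-- MODULE DI1.  `a ≤ gl h p ≤ b`; `gl h p` is the best constant in `s pr z p ≤ h z`; a vertex
`z0` with `h z0 ≤ (1 + ε / 2) gl h p pr z0 p` and its multiples. -/
theorem gl_facts {h : V d → ℝ} {a b C : ℝ} (hh : HF h a b C) {p : V d} (hp : p ≠ 0) :
    a ≤ gl h p ∧ gl h p ≤ b ∧ (∀ z, gl h p * pr z p ≤ h z) ∧
    ∀ ε : ℝ, 0 < ε → ∃ N0 : ℝ, ∀ N : ℝ, N0 ≤ N → ∃ w : V d, N ≤ pr w p ∧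
      h w ≤ (1 + ε) * gl h p * N := by
  have hp0 : 0 < nrm p := by linarith [one_le_nrm hp]
  have hpp : pr p p = nrm p := pr_self hp0
  have ha : ∀ z : {z : V d // 0 < pr z p}, a ≤ h z / pr z p := by
    intro z
    rw [le_div_iff₀ z.2]
    have h1 := hh.low' z.1
    have h2 := mul_le_mul_of_nonneg_left (pr_le z.1 p) hh.pos.le
    linarith
  have hne : Nonempty {z : V d // 0 < pr z p} := ⟨⟨p, by rw [hpp]; exact hp0⟩⟩
  have hbdd : BddBelow (Set.range fun z : {z : V d // 0 < pr z p} => h z / pr z p) :=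
    ⟨a, by rintro _ ⟨z, rfl⟩; exact ha z⟩
  have h1 : a ≤ gl h p := le_ciInf ha
  have hg0 : 0 < gl h p := lt_of_lt_of_le hh.pos h1
  have hle : ∀ z, gl h p * pr z p ≤ h z := by
    intro z
    by_cases hz : 0 < pr z p
    · have := ciInf_le hbdd ⟨z, hz⟩
      have h3 : gl h p ≤ h z / pr z p := this
      rwa [le_div_iff₀ hz] at h3
    · push Not at hz
      exact (mul_nonpos_of_nonneg_of_nonpos hg0.le hz).trans (hh.nonneg z)
  refine ⟨h1, ?_, hle, ?_⟩
  · have h2 := hle p
    rw [hpp] at h2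
    have h3 := hh.up p
    exact le_of_mul_le_mul_right (h2.trans h3) hp0
  · intro ε hε
    have h4 : gl h p < gl h p * (1 + ε / 2) := by nlinarith
    obtain ⟨z0, hz0⟩ := exists_lt_of_ciInf_lt h4
    have hz0p := z0.2
    rw [div_lt_iff₀ hz0p] at hz0
    refine ⟨(1 + ε / 2) * pr z0 p * (2 / ε), fun N hN => ?_⟩
    have hN0 : 0 ≤ N := le_trans (by positivity) hN
    refine ⟨⌈N / pr z0 p⌉₊ • z0.1, ?_, ?_⟩
    · rw [pr_nsmul]
      have := Nat.le_ceil (N / pr z0 p)
      rwa [div_le_iff₀ hz0p] at this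
    · have h5 := hh.nsmul ⌈N / pr z0 p⌉₊ z0.1
      have h6 : (⌈N / pr z0 p⌉₊ : ℝ) < N / pr z0 p + 1 := Nat.ceil_lt_add_one (by positivity)
      have h7 : (⌈N / pr z0 p⌉₊ : ℝ) * pr z0 p ≤ N + pr z0 p := by
        have := mul_le_mul_of_nonneg_right h6.le hz0p.le
        rw [add_mul, div_mul_cancel₀ _ hz0p.ne', one_mul] at this
        exact this
      have h8 : (⌈N / pr z0 p⌉₊ : ℝ) * h z0 ≤ ⌈N / pr z0 p⌉₊ * (gl h p * (1 + ε / 2) * pr z0 p) :=
        mul_le_mul_of_nonneg_left hz0.le (Nat.cast_nonneg _)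
      have h9 : (⌈N / pr z0 p⌉₊ : ℝ) * (gl h p * (1 + ε / 2) * pr z0 p)
          ≤ (gl h p * (1 + ε / 2)) * (N + pr z0 p) := by
        have := mul_le_mul_of_nonneg_left h7 (by positivity : 0 ≤ gl h p * (1 + ε / 2))
        linarith
      have h10 : (1 + ε / 2) * pr z0 p ≤ ε / 2 * N := by
        have := mul_le_mul_of_nonneg_left hN (by positivity : 0 ≤ ε / 2)
        have e : ε / 2 * ((1 + ε / 2) * pr z0 p * (2 / ε)) = (1 + ε / 2) * pr z0 p := by field_simp
        rwa [e] at this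
      have h11 := mul_le_mul_of_nonneg_left h10 hg0.le
      calc h (⌈N / pr z0 p⌉₊ • z0.1) ≤ (gl h p * (1 + ε / 2)) * (N + pr z0 p) := h5.trans (h8.trans h9)
        _ = gl h p * (1 + ε / 2) * N + gl h p * ((1 + ε / 2) * pr z0 p) := by ring
        _ ≤ gl h p * (1 + ε / 2) * N + gl h p * (ε / 2 * N) := by linarith
        _ = (1 + ε) * gl h p * N := by ring

/-- MODULE DI2.  `M1 pr z y ≤ M1 pr z q + M1 ρ |z| ≤ (M1 / gl h q + M1 ρ / a) h z`. -/
theorem gl_near {h : V d → ℝ} {a b C : ℝ} (hh : HF h a b C) {q : V d} (hq : q ≠ 0) {M1 : ℝ}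
    (hM : 0 < M1) (hM1 : M1 < gl h q) :
    ∃ ρ : ℝ, 0 < ρ ∧ ∀ y : V d, y ≠ 0 → dd y q ≤ ρ → ∀ z, M1 * pr z y ≤ h z := by
  obtain ⟨h1, _, h3, _⟩ := gl_facts hh hq
  have hg : 0 < gl h q := hM.trans hM1
  have ha := hh.pos
  refine ⟨a * (gl h q - M1) / (gl h q * M1), by
    have : 0 < gl h q - M1 := by linarith
    positivity, fun y _ hyq z => ?_⟩
  have h4 := (abs_le.mp (dd_facts.2.2.1 y q z)).2
  have h5 := h3 z
  have h6 := hh.low' z
  have hz := nrm_nonneg z
  have h7 : dd y q * nrm z ≤ a * (gl h q - M1) / (gl h q * M1) * nrm z := mul_le_mul_of_nonneg_right hyq hz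
  have h8 : M1 * pr z y ≤ M1 * pr z q + M1 * (a * (gl h q - M1) / (gl h q * M1) * nrm z) := by
    have := mul_le_mul_of_nonneg_left (show pr z y ≤ pr z q + a * (gl h q - M1) / (gl h q * M1) * nrm z by linarith) hM.le
    linarith
  have e1 : M1 * pr z q = M1 / gl h q * (gl h q * pr z q) := by field_simp
  have e2 : M1 * (a * (gl h q - M1) / (gl h q * M1) * nrm z) = (1 - M1 / gl h q) * (a * nrm z) := by field_simp
  have h9 : M1 / gl h q * (gl h q * pr z q) ≤ M1 / gl h q * h z := mul_le_mul_of_nonneg_left h5 (by positivity)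
  have h10 : 0 ≤ 1 - M1 / gl h q := by
    rw [sub_nonneg, div_le_one hg]; exact hM1.le
  have h11 : (1 - M1 / gl h q) * (a * nrm z) ≤ (1 - M1 / gl h q) * h z := mul_le_mul_of_nonneg_left h6 h10
  rw [e1, e2] at h8
  linarith

end ConeD
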