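import Pool.Agent.ConeD.Core
import Pool.Agent.ConeD.Dirs

/-!
# The direction of good walks when the limit shape is a ball (section 6, case 2 of the text)

`c |z| ≤ h z` for all `z` and, for every vertex `y ≠ 0` and every large `N`, there is `w` with
`N ≤ pr w y` and `h w ≤ c N + K N ^ (1 - η)` (hypothesis `hr`, see `rate`).
For a walk `l` with start `y` put `W = wt (tau α E) y l`, `X = c / (α - 1) - Phi α E y l`.
-/

set_option autoImplicit false

namespace ConeD

variable {d : ℕ}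

private theorem EU_small {η : ℝ} (hη : 0 < η) {q0 : ℝ} (hq : 0 < q0) :
    ∃ r1 : ℝ, 1 ≤ r1 ∧ ∀ r, r1 ≤ r → r ^ (-(η / 16)) ≤ q0 := by
  have h1 : Filter.Tendsto (fun R : ℝ => R ^ (-(η / 16))) Filter.atTop (nhds 0) :=
    tendsto_rpow_neg_atTop (by positivity)
  obtain ⟨R1, hR1⟩ := Filter.eventually_atTop.mp (h1.eventually (gt_mem_nhds hq))
  exact ⟨max 1 R1, le_max_left _ _, fun R hR => (hR1 R ((le_max_right _ _).trans hR)).le⟩

private theorem EU_q {η r : ℝ} (hr : 1 ≤ r) :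
    0 < r ^ (-(η / 16)) ∧ r ^ (-(η / 8)) = (r ^ (-(η / 16))) ^ 2 ∧
      r ^ (-(η / 4)) = (r ^ (-(η / 16))) ^ 4 := by
  have hr0 : 0 < r := by linarith
  refine ⟨Real.rpow_pos_of_pos hr0 _, ?_, ?_⟩
  · rw [← Real.rpow_natCast, ← Real.rpow_mul hr0.le]
    congr 1
    push_cast
    ring
  · rw [← Real.rpow_natCast, ← Real.rpow_mul hr0.le]
    congr 1
    push_cast
    ring

/-- `W ^ κ` in terms of `q` -/
private theorem EU_W {η β r Y : ℝ} (hβ : 1 ≤ β) (hr : 1 ≤ r) (hY : 0 ≤ Y) :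
    (r ^ (-β) * Y) ^ (η / (16 * β)) = r ^ (-(η / 16)) * Y ^ (η / (16 * β)) := by
  have hr0 : 0 < r := by linarith
  rw [Real.mul_rpow (Real.rpow_nonneg hr0.le _) hY, ← Real.rpow_mul hr0.le]
  congr 2
  field_simp

/-- the core of phase 1: `P = W ^ (κ/2)` -/
private theorem EU3_core {c β a K k q A B X X' P P' u y1 : ℝ} (hc : 0 < c) (hβ : 1 ≤ β) (ha : 0 < a) (hK : 0 < K)
    (hk : 0 < k) (hq : 0 < q) (hA : q ^ 2 ≤ A) (hA2 : A ≤ 2 * q ^ 2) (hB : 0 ≤ B)
    (hP' : 0 < P') (hP'P : P' ≤ P) (hu : 0 ≤ u) (hP1 : P' ≤ P * (1 - k * u))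
    (hP2 : 1 / P' ≤ 1 / P * (1 + 2 * k * u)) (hku : 2 * k * u ≤ 1)
    (hX : -K * q ^ 2 ≤ X) (hX8 : β * X ≤ c / 8)
    (hstep : c * B + β * (A - B) * X - K * q ^ 4 ≤ X' - X)
    (huA : a * β * A / (8 * c) ≤ u) (hPq : q * y1 ≤ P ^ 2)
    (h1 : 8 * K * q ≤ y1) (h2 : 64 * (2 * β + 1) * K * c * q ≤ k * a * β * y1) :
    c / 2 * B / P + k / 2 * u * P ≤ (X' / P' - P') - (X / P - P) := by
  have hP : 0 < P := hP'.trans_le hP'P
  have hiP : 0 < 1 / P := by positivity
  have hiP' : 0 < 1 / P' := by positivity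
  have hle : 1 / P ≤ 1 / P' := one_div_le_one_div_of_le hP' hP'P
  have h2P : 1 / P' ≤ 2 * (1 / P) := by
    have : 1 / P * (1 + 2 * k * u) ≤ 1 / P * 2 := mul_le_mul_of_nonneg_left (by linarith) hiP.le
    linarith
  -- the difference
  have e : (X' / P' - P') - (X / P - P) = (X' - X) * (1 / P') + X * (1 / P' - 1 / P) + (P - P') := by
    field_simp
    ring
  have hPP : k * u * P ≤ P - P' := by linarith
  -- lower bound for X' - X and the middle term
  have hmain : 7 / 8 * c * B * (1 / P) - 2 * (2 * β + 1) * K * q ^ 4 * (1 / P) - 2 * k * K * q ^ 2 * u * (1 / P)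
      ≤ (X' - X) * (1 / P') + X * (1 / P' - 1 / P) := by
    have hq4 : 0 < q ^ 4 := by positivity
    have hq2 : 0 < q ^ 2 := by positivity
    have hku0 : 0 ≤ 2 * k * K * q ^ 2 * u * (1 / P) := by positivity
    rcases le_or_gt 0 X with hX0 | hX0
    · have s1 : 7 / 8 * c * B - K * q ^ 4 ≤ X' - X := by
        have : β * (A - B) * X = β * A * X - (β * X) * B := by ring
        have t1 : 0 ≤ β * A * X := by
          have : 0 ≤ A := hq2.le.trans hA
          positivity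
        have t2 : (β * X) * B ≤ c / 8 * B := mul_le_mul_of_nonneg_right hX8 hB
        linarith
      have s2 : 0 ≤ X * (1 / P' - 1 / P) := mul_nonneg hX0 (by linarith)
      have s3 : (7 / 8 * c * B - K * q ^ 4) * (1 / P') ≤ (X' - X) * (1 / P') :=
        mul_le_mul_of_nonneg_right s1 hiP'.le
      have s4 : 7 / 8 * c * B * (1 / P) ≤ 7 / 8 * c * B * (1 / P') :=
        mul_le_mul_of_nonneg_left hle (by positivity)
      have s5 : K * q ^ 4 * (1 / P') ≤ K * q ^ 4 * (2 * (1 / P)) :=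
        mul_le_mul_of_nonneg_left h2P (by positivity)
      have s6 : K * q ^ 4 * (2 * (1 / P)) ≤ 2 * (2 * β + 1) * K * q ^ 4 * (1 / P) := by
        have t1 : 0 ≤ K * q ^ 4 * (1 / P) := by positivity
        have t2 : 1 * (K * q ^ 4 * (1 / P)) ≤ (2 * β + 1) * (K * q ^ 4 * (1 / P)) :=
          mul_le_mul_of_nonneg_right (by linarith) t1
        linarith
      linarith
    · have s1 : c * B - (2 * β + 1) * K * q ^ 4 ≤ X' - X := by
        have t1 : -(A * (K * q ^ 2)) ≤ (A - B) * X := by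
          have hA0 : 0 ≤ A := hq2.le.trans hA
          rcases le_or_gt 0 (A - B) with t | t
          · have t2 : (A - B) * (-K * q ^ 2) ≤ (A - B) * X := mul_le_mul_of_nonneg_left hX t
            have t3 : (A - B) * (K * q ^ 2) ≤ A * (K * q ^ 2) :=
              mul_le_mul_of_nonneg_right (by linarith) (by positivity)
            linarith
          · have t2 : 0 ≤ (A - B) * X := mul_nonneg_of_nonpos_of_nonpos t.le hX0.le
            have t3 : 0 ≤ A * (K * q ^ 2) := by positivity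
            linarith
        have t4 : A * (K * q ^ 2) ≤ 2 * q ^ 2 * (K * q ^ 2) := mul_le_mul_of_nonneg_right hA2 (by positivity)
        have t5 : β * (-(2 * q ^ 2 * (K * q ^ 2))) ≤ β * ((A - B) * X) :=
          mul_le_mul_of_nonneg_left (by linarith) (by linarith)
        have t6 : β * (-(2 * q ^ 2 * (K * q ^ 2))) = -(2 * β * K * q ^ 4) := by ring
        have t7 : β * ((A - B) * X) = β * (A - B) * X := by ring
        rw [t6, t7] at t5
        linarith
      have s2 : -(2 * k * K * q ^ 2 * u * (1 / P)) ≤ X * (1 / P' - 1 / P) := by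
        have t1 : 1 / P' - 1 / P ≤ 2 * k * u * (1 / P) := by linarith
        have t2 : 0 ≤ 1 / P' - 1 / P := by linarith
        have t3 : -K * q ^ 2 * (1 / P' - 1 / P) ≤ X * (1 / P' - 1 / P) := mul_le_mul_of_nonneg_right hX t2
        have t4 : K * q ^ 2 * (1 / P' - 1 / P) ≤ K * q ^ 2 * (2 * k * u * (1 / P)) :=
          mul_le_mul_of_nonneg_left t1 (by positivity)
        linarith
      have s3 : (c * B - (2 * β + 1) * K * q ^ 4) * (1 / P') ≤ (X' - X) * (1 / P') :=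
        mul_le_mul_of_nonneg_right s1 hiP'.le
      have s4 : c * B * (1 / P) ≤ c * B * (1 / P') := mul_le_mul_of_nonneg_left hle (by positivity)
      have s5 : (2 * β + 1) * K * q ^ 4 * (1 / P') ≤ (2 * β + 1) * K * q ^ 4 * (2 * (1 / P)) :=
        mul_le_mul_of_nonneg_left h2P (by positivity)
      have s6 : 0 ≤ c * B * (1 / P) := by positivity
      linarith
  -- the errors
  have herr1 : 2 * k * K * q ^ 2 * u * (1 / P) ≤ k / 4 * u * P := by
    rw [mul_one_div, div_le_iff₀ hP]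
    have t1 : 8 * K * q * q ≤ y1 * q := mul_le_mul_of_nonneg_right h1 hq.le
    have t2 : k / 4 * u * (8 * K * q ^ 2) ≤ k / 4 * u * P ^ 2 := by
      refine mul_le_mul_of_nonneg_left ?_ (by positivity)
      calc 8 * K * q ^ 2 = 8 * K * q * q := by ring
        _ ≤ y1 * q := t1
        _ = q * y1 := mul_comm _ _
        _ ≤ P ^ 2 := hPq
    calc 2 * k * K * q ^ 2 * u = k / 4 * u * (8 * K * q ^ 2) := by ring
      _ ≤ k / 4 * u * P ^ 2 := t2
      _ = k / 4 * u * P * P := by ring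
  have herr2 : 2 * (2 * β + 1) * K * q ^ 4 * (1 / P) ≤ k / 4 * u * P := by
    rw [mul_one_div, div_le_iff₀ hP]
    have t0 : a * β * q ^ 2 / (8 * c) ≤ u := by
      refine le_trans ?_ huA
      gcongr
    have t1 : q * y1 * (a * β * q ^ 2 / (8 * c)) ≤ P ^ 2 * u := by
      have hy1 : 0 < q * y1 := by
        have : 0 < y1 := lt_of_lt_of_le (by positivity) h1
        positivity
      exact mul_le_mul hPq t0 (by positivity) (by positivity)
    have t2 : 2 * (2 * β + 1) * K * q ^ 4 ≤ k / 4 * (q * y1 * (a * β * q ^ 2 / (8 * c))) := by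
      have t3 : k / 4 * (q * y1 * (a * β * q ^ 2 / (8 * c))) = (k * a * β * y1) * q ^ 3 / (32 * c) := by
        field_simp
        ring
      rw [t3, le_div_iff₀ (by positivity)]
      have t4 : 64 * (2 * β + 1) * K * c * q * q ^ 3 ≤ k * a * β * y1 * q ^ 3 :=
        mul_le_mul_of_nonneg_right h2 (by positivity)
      calc 2 * (2 * β + 1) * K * q ^ 4 * (32 * c) = 64 * (2 * β + 1) * K * c * q * q ^ 3 := by ring
        _ ≤ _ := t4
    have t5 : k / 4 * (q * y1 * (a * β * q ^ 2 / (8 * c))) ≤ k / 4 * (P ^ 2 * u) :=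
      mul_le_mul_of_nonneg_left t1 (by positivity)
    calc 2 * (2 * β + 1) * K * q ^ 4 ≤ _ := t2
      _ ≤ _ := t5
      _ = k / 4 * u * P * P := by ring
  have hB8 : c / 2 * B / P ≤ 7 / 8 * c * B * (1 / P) := by
    rw [mul_one_div]
    gcongr
    linarith
  rw [e]
  linarith

private theorem EU_exp {x β : ℝ} (hx : 0 ≤ x) (hβ : 0 ≤ β) : 1 - β * x ≤ (1 + x) ^ (-β) := by
  have h1 : Real.log (1 + x) ≤ x := by
    have := Real.log_le_sub_one_of_pos (show 0 < 1 + x by linarith)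
    linarith
  have h2 : (1 + x) ^ (-β) = Real.exp (Real.log (1 + x) * (-β)) := by
    rw [Real.rpow_def_of_pos (by linarith)]
  rw [h2]
  have h3 := Real.add_one_le_exp (Real.log (1 + x) * (-β))
  have h4 : β * Real.log (1 + x) ≤ β * x := mul_le_mul_of_nonneg_left h1 hβ
  linarith

/-- MODULE EU1.  (U) with the `w` of the hypothesis for `N = |y| ^ (1 - η/8)` (then
`|w| ≤ h w / c ≤ 2 N`). -/
theorem euc_ub {h : V d → ℝ} {η : ℝ} (hη : 0 < η) (hη1 : η < 1)
    {α : ℝ} (hα : 1 < α) {c : ℝ} (hc0 : 0 < c) (hc : ∀ z, c * nrm z ≤ h z) {Kr N1 : ℝ}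
    (hKr : 0 < Kr) (hr : ∀ y : V d, y ≠ 0 → ∀ N : ℝ, N1 ≤ N → ∃ w : V d, N ≤ pr w y ∧
      h w ≤ c * N + Kr * N ^ (1 - η)) {Ku : ℝ} (hKu : 0 < Ku) :
    ∃ K R1 : ℝ, 0 < K ∧ ∀ (s : ℝ) (y : V d), R1 ≤ nrm y → UB h η α Ku s y →
      s ≤ (1 + K * nrm y ^ (-(η / 8))) * (c / (α - 1)) * nrm y ^ (1 - α) := by
  -- the error `(Kr / c) N ^ (-η)` is at most one from some radius on
  obtain ⟨q0, hq0⟩ : ∃ q0, q0 = min 1 (c / Kr) := ⟨_, rfl⟩
  have hq0p : 0 < q0 := by rw [hq0]; positivity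
  obtain ⟨r1, hr1, hsm⟩ := EU_small hη hq0p
  -- `N ≥ N1`
  have hbig : ∃ r2 : ℝ, ∀ r, r2 ≤ r → N1 ≤ r ^ (1 - η / 8) := by
    have h1 : Filter.Tendsto (fun r : ℝ => r ^ (1 - η / 8)) Filter.atTop Filter.atTop :=
      tendsto_rpow_atTop (by linarith)
    exact Filter.eventually_atTop.mp (h1.eventually_ge_atTop N1)
  obtain ⟨r2, hr2⟩ := hbig
  refine ⟨Ku + Kr / c + Ku * (Kr / c), max r1 r2, by positivity, ?_⟩
  intro s y hR hUB
  obtain ⟨r, hrr⟩ : ∃ r, r = nrm y := ⟨_, rfl⟩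
  rw [← hrr] at hR
  have hra : r1 ≤ r := (le_max_left _ _).trans hR
  have hrb : r2 ≤ r := (le_max_right _ _).trans hR
  have hr1' : 1 ≤ r := hr1.trans hra
  have hr0 : 0 < r := by linarith
  have hy0 : y ≠ 0 := by
    rintro rfl
    rw [nrm_zero] at hrr
    linarith
  obtain ⟨e1, e2, -⟩ := EU_q (η := η) hr1'
  obtain ⟨N, hN⟩ : ∃ N, N = r ^ (1 - η / 8) := ⟨_, rfl⟩
  have hN1 : N1 ≤ N := hN ▸ hr2 r hrb
  have hN0 : 0 < N := by rw [hN]; exact Real.rpow_pos_of_pos hr0 _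
  obtain ⟨w, hw1, hw2⟩ := hr y hy0 N hN1
  have hprw : 0 < pr w y := hN0.trans_le hw1
  -- the small quantity
  have hNη : N ^ (-η) ≤ r ^ (-(η / 8)) := by
    rw [hN, ← Real.rpow_mul hr0.le]
    exact Real.rpow_le_rpow_of_exponent_le hr1' (by nlinarith)
  have hN1η : N ^ (1 - η) = N * N ^ (-η) := by
    rw [sub_eq_add_neg, Real.rpow_add hN0, Real.rpow_one]
  have hδ1 : r ^ (-(η / 8)) ≤ 1 := Real.rpow_le_one_of_one_le_of_nonpos hr1' (by linarith)
  have hδc : Kr * r ^ (-(η / 8)) ≤ c := by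
    have h1 := hsm r hra
    rw [hq0] at h1
    have h2 : r ^ (-(η / 16)) ≤ 1 := h1.trans (min_le_left _ _)
    have h3 : r ^ (-(η / 16)) ≤ c / Kr := h1.trans (min_le_right _ _)
    rw [le_div_iff₀ hKr] at h3
    rw [e2]
    have h4 : (r ^ (-(η / 16))) ^ 2 ≤ r ^ (-(η / 16)) := by
      rw [sq]
      exact mul_le_of_le_one_right e1.le h2
    have h5 : Kr * (r ^ (-(η / 16))) ^ 2 ≤ Kr * r ^ (-(η / 16)) := mul_le_mul_of_nonneg_left h4 hKr.le
    linarith
  have hδ0 : 0 < r ^ (-(η / 8)) := Real.rpow_pos_of_pos hr0 _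
  have hhw : h w ≤ (c + Kr * r ^ (-(η / 8))) * N := by
    rw [hN1η] at hw2
    have : Kr * (N * N ^ (-η)) ≤ Kr * (N * r ^ (-(η / 8))) :=
      mul_le_mul_of_nonneg_left (mul_le_mul_of_nonneg_left hNη hN0.le) hKr.le
    linarith
  have hnw : nrm w ≤ 2 * N := by
    have h1 := hc w
    have h2 : (c + Kr * r ^ (-(η / 8))) * N ≤ (c + c) * N :=
      mul_le_mul_of_nonneg_right (by linarith) hN0.le
    have h3 : c * nrm w ≤ c * (2 * N) := by linarith
    exact le_of_mul_le_mul_left h3 hc0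
  have hUBw := hUB w (by rw [← hrr, ← hN]; exact hnw) (by
    refine le_trans ?_ hw1
    rw [← hrr, hN]
    have h1 : r ^ (1 - η / 4) ≤ r ^ (1 - η / 8) := Real.rpow_le_rpow_of_exponent_le hr1' (by linarith)
    have h2 : 0 < r ^ (1 - η / 4) := Real.rpow_pos_of_pos hr0 _
    linarith)
  rw [← hrr] at hUBw
  rw [← hrr]
  refine hUBw.trans ?_
  refine mul_le_mul_of_nonneg_right ?_ (Real.rpow_nonneg hr0.le _)
  have hα1 : 0 < α - 1 := by linarith
  obtain ⟨δ, hδ⟩ : ∃ δ, δ = r ^ (-(η / 8)) := ⟨_, rfl⟩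
  rw [← hδ] at hδ0 hδ1 hhw ⊢
  have h1 : h w / ((α - 1) * pr w y) ≤ (c + Kr * δ) / (α - 1) := by
    rw [div_le_div_iff₀ (mul_pos hα1 hprw) hα1]
    have h2 : (c + Kr * δ) * N ≤ (c + Kr * δ) * pr w y := mul_le_mul_of_nonneg_left hw1 (by positivity)
    have h3 : h w * (α - 1) ≤ ((c + Kr * δ) * pr w y) * (α - 1) :=
      mul_le_mul_of_nonneg_right (by linarith) hα1.le
    linarith
  have h2 : (1 + Ku * δ) * (h w / ((α - 1) * pr w y)) ≤ (1 + Ku * δ) * ((c + Kr * δ) / (α - 1)) :=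
    mul_le_mul_of_nonneg_left h1 (by positivity)
  refine h2.trans ?_
  have h3 : (1 + Ku * δ) * ((c + Kr * δ) / (α - 1))
      = (1 + Ku * δ) * (1 + Kr / c * δ) * (c / (α - 1)) := by
    field_simp
  rw [h3]
  refine mul_le_mul_of_nonneg_right ?_ (by positivity)
  have h4 : Ku * (Kr / c) * (δ * δ) ≤ Ku * (Kr / c) * (δ * 1) :=
    mul_le_mul_of_nonneg_left (mul_le_mul_of_nonneg_left hδ1 hδ0.le) (by positivity)
  have h5 : (1 + Ku * δ) * (1 + Kr / c * δ) = 1 + Ku * δ + Kr / c * δ + Ku * (Kr / c) * (δ * δ) := by ring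
  rw [h5]
  linarith

/-- the change of direction in one step -/
private theorem EU2_dd {y w : V d} {A B : ℝ} (hr : 0 < nrm y) (hA : nrm w = A * nrm y) (hA4 : A ≤ 1 / 4)
    (hB : nrm w - pr w y = B * nrm y) (hB0 : 0 ≤ B) : dd y (y + w) ≤ 3 * Real.sqrt (A * B) := by
  have hy0 : y ≠ 0 := by
    rintro rfl
    rw [nrm_zero] at hr
    exact lt_irrefl _ hr
  have hA0 : 0 ≤ A := by
    by_contra hcon
    push Not at hcon
    have h1 : A * nrm y < 0 := mul_neg_of_neg_of_pos hcon hr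
    have h2 := nrm_nonneg w
    linarith
  have hp : pr (y + w) y = nrm y + pr w y := by rw [pr_add, pr_self hr]
  have hpw := abs_pr_le w y
  have hpl : -nrm w ≤ pr w y := (abs_le.mp hpw).1
  have hpu : pr w y ≤ nrm w := (abs_le.mp hpw).2
  have hp34 : 3 / 4 * nrm y ≤ pr (y + w) y := by
    rw [hp]
    have : A * nrm y ≤ 1 / 4 * nrm y := mul_le_mul_of_nonneg_right hA4 hr.le
    linarith
  have hn : pr (y + w) y ≤ nrm (y + w) := pr_le _ _
  have hn0 : 0 < nrm (y + w) := by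
    have : 0 < 3 / 4 * nrm y := by positivity
    linarith
  have hz0 : y + w ≠ 0 := by
    intro h
    rw [h, nrm_zero] at hn0
    exact lt_irrefl _ hn0
  have hip : ip y w = nrm y * pr w y := by
    unfold pr
    rw [ip_comm y w]
    field_simp
  have hsq : nrm (y + w) ^ 2 - pr (y + w) y ^ 2 = (nrm w - pr w y) * (nrm w + pr w y) := by
    rw [nrm_add_sq, hip, hp]
    ring
  have hsq2 : nrm (y + w) ^ 2 - pr (y + w) y ^ 2 ≤ 2 * (A * B) * nrm y ^ 2 := by
    rw [hsq, hB]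
    have h1 : nrm w + pr w y ≤ 2 * (A * nrm y) := by linarith
    have h2 : B * nrm y * (nrm w + pr w y) ≤ B * nrm y * (2 * (A * nrm y)) :=
      mul_le_mul_of_nonneg_left h1 (by positivity)
    linarith
  have hdd := (dd_facts (d := d)).2.2.2 y (y + w) hy0 hz0
  have hd0 := dd_nonneg y (y + w)
  obtain ⟨t, ht⟩ : ∃ t, t = dd y (y + w) := ⟨_, rfl⟩
  obtain ⟨n, hnn⟩ : ∃ n, n = nrm (y + w) := ⟨_, rfl⟩
  obtain ⟨p, hpp⟩ : ∃ p, p = pr (y + w) y := ⟨_, rfl⟩
  obtain ⟨r, hrr⟩ : ∃ r, r = nrm y := ⟨_, rfl⟩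
  rw [← ht] at hdd hd0 ⊢
  rw [← hnn] at hdd hn hn0 hsq2
  rw [← hpp] at hdd hn hsq2 hp34
  rw [← hrr] at hsq2 hp34 hr
  have h1 : n * (n + p) * t ^ 2 = 2 * (n ^ 2 - p ^ 2) := by
    rw [hdd]
    ring
  have h2 : 9 / 8 * r ^ 2 * t ^ 2 ≤ n * (n + p) * t ^ 2 := by
    refine mul_le_mul_of_nonneg_right ?_ (sq_nonneg t)
    have h3 : 3 / 4 * r * (3 / 4 * r + 3 / 4 * r) ≤ n * (n + p) :=
      mul_le_mul (by linarith) (by linarith) (by positivity) hn0.le
    have e : 3 / 4 * r * (3 / 4 * r + 3 / 4 * r) = 9 / 8 * r ^ 2 := by ring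
    linarith
  have h3 : r ^ 2 * (9 / 8 * t ^ 2) ≤ r ^ 2 * (4 * (A * B)) := by linarith
  have h4 : 9 / 8 * t ^ 2 ≤ 4 * (A * B) := le_of_mul_le_mul_left h3 (by positivity)
  have hAB : 0 ≤ A * B := by positivity
  refine abs_le_of_sq_le_sq' ?_ (by positivity) |>.2
  rw [mul_pow, Real.sq_sqrt hAB]
  linarith

/-- MODULE EU2.  One step of length about `δ r`, `r = |y|`, `δ = r ^ (-η/8)`, in terms of
`A = |z - y| / r`, `B = (|z - y| - pr (z - y) y) / r`, `X` (at `y`), `X'` (at `z`): from `step`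
and `euc_ub`; `h (z - y) ≥ c |z - y|`; `dd y z ≤ 3 √(A B)` because the component of `z - y`
orthogonal to `y` has square `r² (A² - (A - B)²) ≤ 2 r² A B`. -/
theorem euc_step {h : V d → ℝ} {a b C : ℝ} (hh : HF h a b C) {η : ℝ} (hη : 0 < η) (hη1 : η < 1)
    {α : ℝ} (hα : 1 < α) {c : ℝ} (hc0 : 0 < c) (hc : ∀ z, c * nrm z ≤ h z) {Kr N1 : ℝ}
    (hKr : 0 < Kr) (hr : ∀ y : V d, y ≠ 0 → ∀ N : ℝ, N1 ≤ N → ∃ w : V d, N ≤ pr w y ∧
      h w ≤ c * N + Kr * N ^ (1 - η)) {Ku : ℝ} (hKu : 0 < Ku) :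
    ∃ K1 R1 : ℝ, 0 < K1 ∧ ∀ (E : Edge d → ℝ) (R0 : ℝ), (∀ e, 0 ≤ E e) → CC h η E R0 →
      ∀ (y : V d) (l1 l2 : List (Step d)), R1 ≤ nrm y → R0 ≤ nrm y →
        (∀ m1 s m2, l1 = m1 ++ s :: m2 → nrm (endp y m1 - y) ≤ nrm y ^ (1 - η / 8)) →
        nrm y ^ (1 - η / 8) ≤ nrm (endp y l1 - y) →
        UB h η α Ku (wt (tau α E) y (l1 ++ l2)) y →
        ∃ A B : ℝ, nrm y ^ (-(η / 8)) ≤ A ∧ A ≤ 2 * nrm y ^ (-(η / 8)) ∧ 0 ≤ B ∧ B ≤ 2 * A ∧
          c * B + (α - 1) * (A - B) * (c / (α - 1) - Phi α E y (l1 ++ l2))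
            - K1 * nrm y ^ (-(η / 4)) ≤ Phi α E y (l1 ++ l2) - Phi α E (endp y l1) l2 ∧
          - K1 * nrm y ^ (-(η / 8)) ≤ c / (α - 1) - Phi α E y (l1 ++ l2) ∧
          a / 2 * nrm y ^ (-(η / 8)) * nrm y ^ (1 - α) ≤
            wt (tau α E) y (l1 ++ l2) - wt (tau α E) (endp y l1) l2 ∧
          nrm (endp y l1) ≤ (1 + 3 * nrm y ^ (-(η / 8))) * nrm y ∧
          dd y (endp y l1) ≤ 3 * Real.sqrt (A * B) := by
  obtain ⟨K0, R1a, hK0, hst⟩ := step hh hη hη1.le hα hKu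
  obtain ⟨Kb, R1b, hKb, hub⟩ := euc_ub hη hη1 hα hc0 hc hKr hr hKu
  obtain ⟨r1, hr1, hsm⟩ := EU_small hη (q0 := 1 / 8) (by norm_num)
  have hα1 : 0 < α - 1 := by linarith
  refine ⟨K0 + Kb * (c / (α - 1)), max r1 (max R1a R1b), by positivity, ?_⟩
  intro E R0 hE hCC y l1 l2 hR hR0 hpre hfar hUB
  have hra : r1 ≤ nrm y := (le_max_left _ _).trans hR
  have hrb : R1a ≤ nrm y := ((le_max_left _ _).trans (le_max_right _ _)).trans hR
  have hrc : R1b ≤ nrm y := ((le_max_right _ _).trans (le_max_right _ _)).trans hR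
  obtain ⟨s1, -, s3⟩ := hst E R0 hE hCC y l1 l2 hrb hR0 hpre hfar hUB
  have u1 := hub _ y hrc hUB
  obtain ⟨r, hrr⟩ : ∃ r, r = nrm y := ⟨_, rfl⟩
  obtain ⟨w, hw⟩ : ∃ w, w = endp y l1 - y := ⟨_, rfl⟩
  have hz : endp y l1 = y + w := by rw [hw]; abel
  have hr1' : 1 ≤ r := by rw [hrr]; exact hr1.trans hra
  have hr0 : 0 < r := by linarith
  obtain ⟨e1, e2, e3⟩ := EU_q (η := η) hr1'
  have hq := hsm (nrm y) hra
  rw [← hrr] at hq
  obtain ⟨δ, hδ⟩ : ∃ δ, δ = r ^ (-(η / 8)) := ⟨_, rfl⟩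
  have hδ0 : 0 < δ := by rw [hδ]; exact Real.rpow_pos_of_pos hr0 _
  have hδ8 : δ ≤ 1 / 8 := by
    rw [hδ, e2]
    have : (r ^ (-(η / 16))) ^ 2 ≤ r ^ (-(η / 16)) * (1 / 8) := by
      rw [sq]
      exact mul_le_mul_of_nonneg_left hq e1.le
    linarith
  have hδ4 : r ^ (-(η / 4)) = δ ^ 2 := by
    rw [hδ, e3, e2]
    ring
  have hrδ : r ^ (1 - η / 8) = r * δ := by
    rw [hδ, sub_eq_add_neg, Real.rpow_add hr0, Real.rpow_one]
  have hrδ1 : 1 ≤ r * δ := by
    rw [← hrδ]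
    exact Real.one_le_rpow hr1' (by linarith)
  rw [← hw, ← hrr, hδ4] at s1
  rw [← hrr, ← hδ] at s3
  rw [← hrr, ← hδ] at u1
  rw [← hw, ← hrr, hrδ] at hfar
  rw [← hrr, ← hδ, hδ4]
  -- the length of `w`
  have hwu : nrm w ≤ 2 * (r * δ) := by
    have hne : l1 ≠ [] := by
      rintro rfl
      rw [endp_nil, sub_self] at hw
      rw [hw, nrm_zero] at hfar
      linarith
    obtain ⟨m1, s, hm⟩ : ∃ m1 s, l1 = m1 ++ [s] := by
      rcases List.eq_nil_or_concat l1 with h5 | ⟨m1, s, h5⟩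
      · exact absurd h5 hne
      · exact ⟨m1, s, by rw [h5, List.concat_eq_append]⟩
    have h1 := hpre m1 s [] hm
    rw [← hrr, hrδ] at h1
    have h2 : w = (endp y m1 - y) + vec s := by
      rw [hw, hm, endp_append, endp_cons, endp_nil]
      abel
    rw [h2]
    have h3 := nrm_add_le (endp y m1 - y) (vec s)
    rw [nrm_vec] at h3
    linarith
  obtain ⟨A, hA⟩ : ∃ A, A = nrm w / r := ⟨_, rfl⟩
  obtain ⟨B, hB⟩ : ∃ B, B = (nrm w - pr w y) / r := ⟨_, rfl⟩
  have hAr : nrm w = A * r := by rw [hA]; field_simp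
  have hBr : nrm w - pr w y = B * r := by rw [hB]; field_simp
  have hpw := abs_le.mp (abs_pr_le w y)
  have hA1 : δ ≤ A := by
    rw [hA, le_div_iff₀ hr0]
    linarith
  have hA2 : A ≤ 2 * δ := by
    rw [hA, div_le_iff₀ hr0]
    linarith
  have hB0 : 0 ≤ B := by
    rw [hB]
    exact div_nonneg (by linarith [hpw.2]) hr0.le
  have hB2 : B ≤ 2 * A := by
    rw [hB, hA, ← mul_div_assoc]
    exact div_le_div_of_nonneg_right (by linarith [hpw.1]) hr0.le
  have hABr : pr w y / r = A - B := by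
    rw [hA, hB]
    ring
  refine ⟨A, B, hA1, hA2, hB0, hB2, ?_, ?_, s3, ?_, ?_⟩
  · have h1 : c * A ≤ h w / r := by
      rw [le_div_iff₀ hr0]
      have h2 := hc w
      rw [hAr] at h2
      linarith
    rw [hABr] at s1
    have h2 : (α - 1) * (A - B) * (c / (α - 1) - Phi α E y (l1 ++ l2))
        = c * (A - B) - (α - 1) * (A - B) * Phi α E y (l1 ++ l2) := by
      field_simp
    have h3 : 0 ≤ Kb * (c / (α - 1)) * δ ^ 2 := by positivity
    rw [h2]
    linarith
  · have h1 : Phi α E y (l1 ++ l2) ≤ (1 + Kb * δ) * (c / (α - 1)) := by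
      unfold Phi
      rw [← hrr]
      have h2 : r ^ (α - 1) * r ^ (1 - α) = 1 := by
        rw [← Real.rpow_add hr0]
        simp
      have h3 : r ^ (α - 1) * wt (tau α E) y (l1 ++ l2)
          ≤ r ^ (α - 1) * ((1 + Kb * δ) * (c / (α - 1)) * r ^ (1 - α)) :=
        mul_le_mul_of_nonneg_left u1 (Real.rpow_nonneg hr0.le _)
      have h4 : r ^ (α - 1) * ((1 + Kb * δ) * (c / (α - 1)) * r ^ (1 - α))
          = (1 + Kb * δ) * (c / (α - 1)) * (r ^ (α - 1) * r ^ (1 - α)) := by ring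
      rw [h4, h2, mul_one] at h3
      exact h3
    have h2 : 0 ≤ K0 * δ := by positivity
    linarith
  · rw [hz]
    have h1 := nrm_add_le y w
    rw [← hrr] at h1
    have h2 : 0 < r * δ := by positivity
    linarith
  · rw [hz]
    exact EU2_dd (by rw [← hrr]; exact hr0) (by rw [← hrr]; exact hAr) (by linarith)
      (by rw [← hrr]; exact hBr) hB0

/-- MODULE EU3.  Phase 1 (real numbers only), `β = α - 1`, `κ = η / (16 β)`: as long as
`X ≤ 3 W ^ κ`, the function `G = X W ^ (-κ/2) - W ^ (κ/2)` increases by at least `√(η a) / 16`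
times `√(A B)`.  With `u = (W - W') / W ≥ a β A / (8 c)`, `W' ≥ W / 2`, `δ` much smaller than
`W ^ κ`: `G' - G ≥ (c/2) B W ^ (-κ/2) + (κ/4) u W ^ (κ/2)`, then the inequality between the
arithmetic and the geometric mean. -/
theorem euc_phase1 {η c β a K : ℝ} (hη : 0 < η) (hη1 : η < 1) (hc : 0 < c) (hβ : 1 ≤ β)
    (ha : 0 < a) (hK : 0 < K) :
    ∃ r1 : ℝ, 1 ≤ r1 ∧ ∀ r s A B X X' W W' : ℝ, r1 ≤ r → 0 < s → s ≤ (1 + 3 * r ^ (-(η / 8))) * r →
      r ^ (-(η / 8)) ≤ A → A ≤ 2 * r ^ (-(η / 8)) → 0 ≤ B → B ≤ 2 * A →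
      W = r ^ (-β) * (c / β - X) → W' = s ^ (-β) * (c / β - X') → 0 ≤ W' →
      - K * r ^ (-(η / 8)) ≤ X → X ≤ 3 * W ^ (η / (16 * β)) → X' ≤ 3 * W' ^ (η / (16 * β)) →
      c * B + β * (A - B) * X - K * r ^ (-(η / 4)) ≤ X' - X →
      a / 2 * r ^ (-(η / 8)) * r ^ (-β) ≤ W - W' →
      3 * Real.sqrt (A * B) ≤ 48 / Real.sqrt (η * a) *
        ((X' * W' ^ (-(η / (32 * β))) - W' ^ (η / (32 * β))) -
          (X * W ^ (-(η / (32 * β))) - W ^ (η / (32 * β)))) := by
  have hβ0 : 0 < β := by linarith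
  set k : ℝ := η / (32 * β) with hk
  have hk0 : 0 < k := by positivity
  have hk1 : k ≤ 1 / 32 := by
    rw [hk, div_le_div_iff₀ (by positivity) (by norm_num)]
    nlinarith
  set y1 : ℝ := (c / (2 * β)) ^ (η / (16 * β)) with hy1
  set y2 : ℝ := (2 * c / β) ^ (η / (16 * β)) with hy2
  have hy10 : 0 < y1 := Real.rpow_pos_of_pos (by positivity) _
  have hy20 : 0 < y2 := Real.rpow_pos_of_pos (by positivity) _
  obtain ⟨q0, hq0, g1, g2, g3, g4, g5, g6⟩ : ∃ q0 : ℝ, 0 < q0 ∧ q0 ≤ 1 ∧ q0 ≤ c / (8 * β * K) ∧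
      q0 ≤ c / (24 * β * y2) ∧ q0 ≤ 1 / (24 * β) ∧ q0 ≤ y1 / (8 * K) ∧
      q0 ≤ k * a * β * y1 / (64 * (2 * β + 1) * K * c) := by
    refine ⟨min 1 (min (c / (8 * β * K)) (min (c / (24 * β * y2)) (min (1 / (24 * β)) (min (y1 / (8 * K))
      (k * a * β * y1 / (64 * (2 * β + 1) * K * c)))))), by positivity, ?_⟩
    simp only [min_le_iff, le_refl, true_or, or_true, and_true]
  obtain ⟨r1, hr1, hr⟩ := EU_small hη hq0
  refine ⟨r1, hr1, ?_⟩
  intro r s A B X X' W W' hrr hs hsr hA hA2 hB hB2 hW hW' hW'0 hX hX3 hX'3 hstep hWW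
  have hr1' : 1 ≤ r := hr1.trans hrr
  have hr0 : 0 < r := by linarith
  obtain ⟨e1, e2, e3⟩ := EU_q (η := η) hr1'
  have hqle := hr r hrr
  rw [e2] at hsr hA hA2 hX hWW
  rw [e3] at hstep
  obtain ⟨q, hq⟩ : ∃ q, q = r ^ (-(η / 16)) := ⟨_, rfl⟩
  rw [← hq] at e1 e2 e3 hqle hsr hA hA2 hX hWW hstep
  have hq1 : q ≤ 1 := hqle.trans g1
  have hqq : q ^ 2 ≤ q := by nlinarith
  have c2 : K * q ≤ c / (8 * β) := by
    have := hqle.trans g2
    rw [le_div_iff₀ (by positivity)] at this ⊢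
    linarith
  have c3 : 3 * q * y2 ≤ c / (8 * β) := by
    have := hqle.trans g3
    rw [le_div_iff₀ (by positivity)] at this ⊢
    linarith
  have c4 : 3 * β * q ≤ 1 / 8 := by
    have := hqle.trans g4
    rw [le_div_iff₀ (by positivity)] at this
    linarith
  have c5 : 8 * K * q ≤ y1 := by
    have := hqle.trans g5
    rw [le_div_iff₀ (by positivity)] at this
    linarith
  have c6 : 64 * (2 * β + 1) * K * c * q ≤ k * a * β * y1 := by
    have := hqle.trans g6
    rw [le_div_iff₀ (by positivity)] at this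
    linarith
  have hKq : K * q ^ 2 ≤ c / (8 * β) := (mul_le_mul_of_nonneg_left hqq hK.le).trans c2
  have hcβ : c / β = 8 * (c / (8 * β)) := by
    field_simp
  have hcβ0 : 0 < c / (8 * β) := by positivity
  have hrβ : 0 < r ^ (-β) := Real.rpow_pos_of_pos hr0 _
  have hWpos : 0 < W := by
    have : 0 < a / 2 * q ^ 2 * r ^ (-β) := by positivity
    linarith
  have hY0 : 0 < c / β - X := by
    rw [hW] at hWpos
    exact (pos_iff_pos_of_mul_pos hWpos).1 hrβ
  have hYu : c / β - X ≤ 2 * c / β := by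
    have : 2 * c / β = 2 * (c / β) := by ring
    rw [this, hcβ]
    linarith
  have hWk : W ^ (η / (16 * β)) = q * (c / β - X) ^ (η / (16 * β)) := by
    rw [hW, EU_W hβ hr1' hY0.le, hq]
  have hκ0 : 0 < η / (16 * β) := by positivity
  have hWk2 : W ^ (η / (16 * β)) ≤ q * y2 := by
    rw [hWk]
    exact mul_le_mul_of_nonneg_left (Real.rpow_le_rpow hY0.le hYu hκ0.le) e1.le
  have hXs : X ≤ c / (8 * β) := by linarith
  have hYl : c / (2 * β) ≤ c / β - X := by
    have : c / (2 * β) = 4 * (c / (8 * β)) := by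
      field_simp
      norm_num
    rw [this, hcβ]
    linarith
  have hWk1 : q * y1 ≤ W ^ (η / (16 * β)) := by
    rw [hWk]
    exact mul_le_mul_of_nonneg_left (Real.rpow_le_rpow (by positivity) hYl hκ0.le) e1.le
  have hWle : W' ≤ W := by
    have : 0 < a / 2 * q ^ 2 * r ^ (-β) := by positivity
    linarith
  have hX's : X' ≤ c / (8 * β) := by
    have : W' ^ (η / (16 * β)) ≤ W ^ (η / (16 * β)) := Real.rpow_le_rpow hW'0 hWle hκ0.le
    linarith
  have hsβ : 7 / 8 * r ^ (-β) ≤ s ^ (-β) := by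
    have h1 : ((1 + 3 * q ^ 2) * r) ^ (-β) ≤ s ^ (-β) :=
      Real.rpow_le_rpow_of_nonpos hs hsr (by linarith)
    rw [Real.mul_rpow (by positivity) hr0.le] at h1
    have h2 := EU_exp (x := 3 * q ^ 2) (β := β) (by positivity) hβ0.le
    have h3 : β * (3 * q ^ 2) ≤ 1 / 8 := by
      have : 3 * β * q ^ 2 ≤ 3 * β * q := mul_le_mul_of_nonneg_left hqq (by positivity)
      linarith
    have h4 : 7 / 8 * r ^ (-β) ≤ (1 + 3 * q ^ 2) ^ (-β) * r ^ (-β) :=
      mul_le_mul_of_nonneg_right (by linarith) hrβ.le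
    linarith
  have hW'pos : 0 < W' := by
    rw [hW']
    have : 0 < c / β - X' := by rw [hcβ]; linarith
    exact mul_pos (Real.rpow_pos_of_pos hs _) this
  have hhalf : W / 2 ≤ W' := by
    have h1 : W ≤ r ^ (-β) * (9 * (c / (8 * β))) := by
      rw [hW]
      refine mul_le_mul_of_nonneg_left ?_ hrβ.le
      rw [hcβ]
      linarith
    have h2 : 7 / 8 * r ^ (-β) * (7 * (c / (8 * β))) ≤ W' := by
      rw [hW']
      refine mul_le_mul hsβ ?_ (by positivity) (Real.rpow_nonneg hs.le _)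
      rw [hcβ]
      linarith
    have h3 : 0 < r ^ (-β) * (c / (8 * β)) := by positivity
    linarith
  obtain ⟨u, hu⟩ : ∃ u, u = (W - W') / W := ⟨_, rfl⟩
  have hu0 : 0 ≤ u := by
    rw [hu]
    exact div_nonneg (by linarith) hWpos.le
  have huh : u ≤ 1 / 2 := by
    rw [hu, div_le_iff₀ hWpos]
    linarith
  have hW'u : W' = W * (1 + -u) := by
    rw [hu]
    field_simp
    ring
  have hW'k : W' ^ k = W ^ k * (1 + -u) ^ k := by
    rw [hW'u, Real.mul_rpow hWpos.le (by linarith)]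
  have hP : 0 < W ^ k := Real.rpow_pos_of_pos hWpos _
  have hP' : 0 < W' ^ k := Real.rpow_pos_of_pos hW'pos _
  have hPP : W' ^ k ≤ W ^ k := Real.rpow_le_rpow hW'0 hWle hk0.le
  have hb1 : (1 + -u) ^ k ≤ 1 + k * -u := rpow_one_add_le_one_add_mul_self (by linarith) hk0.le (by linarith)
  have hP1 : W' ^ k ≤ W ^ k * (1 - k * u) := by
    rw [hW'k]
    exact mul_le_mul_of_nonneg_left (by linarith) hP.le
  have hP2 : 1 / W' ^ k ≤ 1 / W ^ k * (1 + 2 * k * u) := by
    have h1 : (1 + 2 * u) ^ k ≤ 1 + k * (2 * u) :=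
      rpow_one_add_le_one_add_mul_self (by linarith) hk0.le (by linarith)
    have h2 : 1 ≤ (1 + -u) * (1 + 2 * u) := by
      have h21 : u * u ≤ u * (1 / 2) := mul_le_mul_of_nonneg_left huh hu0
      have h22 : (1 + -u) * (1 + 2 * u) = 1 + u - 2 * (u * u) := by ring
      rw [h22]
      linarith
    have h3 : 1 ≤ (1 + -u) ^ k * (1 + 2 * u) ^ k := by
      rw [← Real.mul_rpow (by linarith) (by linarith)]
      exact Real.one_le_rpow h2 hk0.le
    have h4 : 0 < (1 + -u) ^ k := Real.rpow_pos_of_pos (by linarith) _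
    have h6 : 1 / W' ^ k = 1 / W ^ k * (1 / (1 + -u) ^ k) := by
      rw [hW'k]
      field_simp
    rw [h6]
    refine mul_le_mul_of_nonneg_left ?_ (by positivity)
    rw [div_le_iff₀ h4]
    have h5 : (1 + -u) ^ k * (1 + 2 * u) ^ k ≤ (1 + -u) ^ k * (1 + k * (2 * u)) :=
      mul_le_mul_of_nonneg_left h1 h4.le
    linarith
  have hku : 2 * k * u ≤ 1 := by
    have : k * u ≤ 1 / 32 * (1 / 2) := mul_le_mul hk1 huh hu0 (by norm_num)
    linarith
  have hX8 : β * X ≤ c / 8 := by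
    have h1 : β * X ≤ β * (c / (8 * β)) := mul_le_mul_of_nonneg_left hXs hβ0.le
    have h2 : β * (c / (8 * β)) = c / 8 := by
      field_simp
    linarith
  have hA0 : 0 < A := lt_of_lt_of_le (by positivity) hA
  have huA : a * β * A / (8 * c) ≤ u := by
    rw [hu, le_div_iff₀ hWpos]
    have h1 : W ≤ r ^ (-β) * (2 * c / β) := by
      rw [hW]
      exact mul_le_mul_of_nonneg_left hYu hrβ.le
    have h2 : a * β * A / (8 * c) * W ≤ a * β * A / (8 * c) * (r ^ (-β) * (2 * c / β)) :=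
      mul_le_mul_of_nonneg_left h1 (by positivity)
    have h3 : a * β * A / (8 * c) * (r ^ (-β) * (2 * c / β)) = a * A / 4 * r ^ (-β) := by
      field_simp
      ring
    have h4 : a * A / 4 * r ^ (-β) ≤ a / 2 * q ^ 2 * r ^ (-β) := by
      refine mul_le_mul_of_nonneg_right ?_ hrβ.le
      have : a * A ≤ a * (2 * q ^ 2) := mul_le_mul_of_nonneg_left hA2 ha.le
      linarith
    linarith
  have hPq : q * y1 ≤ (W ^ k) ^ 2 := by
    have : (W ^ k) ^ 2 = W ^ (η / (16 * β)) := by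
      rw [← Real.rpow_natCast, ← Real.rpow_mul hWpos.le]
      congr 1
      rw [hk]
      push_cast
      field_simp
      norm_num
    rw [this]
    exact hWk1
  have core := EU3_core hc hβ ha hK hk0 e1 hA hA2 hB hP' hPP hu0 hP1 hP2 hku hX hX8 hstep huA hPq c5 c6
  have hneg : ∀ x : ℝ, 0 < x → ∀ Z : ℝ, Z * x ^ (-k) = Z / x ^ k := fun x hx Z => by
    rw [Real.rpow_neg hx.le, div_eq_mul_inv]
  rw [hneg W' hW'pos, hneg W hWpos]
  refine le_trans ?_ (mul_le_mul_of_nonneg_left core (by positivity))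
  -- the inequality between the means
  have hηa : 0 < η * a := by positivity
  have hsq : 0 < Real.sqrt (η * a) := Real.sqrt_pos.mpr hηa
  have hL : Real.sqrt (η * a) * Real.sqrt (A * B) / 16 ≤ c / 2 * B / W ^ k + k / 2 * u * W ^ k := by
    refine abs_le_of_sq_le_sq' ?_ (by positivity) |>.2
    have h1 : (Real.sqrt (η * a) * Real.sqrt (A * B) / 16) ^ 2 = η * a * (A * B) / 256 := by
      rw [div_pow, mul_pow, Real.sq_sqrt hηa.le, Real.sq_sqrt (by positivity)]
      norm_num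
    rw [h1]
    have h2 : 4 * ((c / 2 * B / W ^ k) * (k / 2 * u * W ^ k)) ≤ (c / 2 * B / W ^ k + k / 2 * u * W ^ k) ^ 2 := by
      have := sq_nonneg (c / 2 * B / W ^ k - k / 2 * u * W ^ k)
      have e1 : (c / 2 * B / W ^ k + k / 2 * u * W ^ k) ^ 2 = 4 * ((c / 2 * B / W ^ k) * (k / 2 * u * W ^ k))
          + (c / 2 * B / W ^ k - k / 2 * u * W ^ k) ^ 2 := by ring
      linarith
    have h3 : 4 * ((c / 2 * B / W ^ k) * (k / 2 * u * W ^ k)) = c * k * B * u := by
      field_simp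
      ring
    have h4 : c * k * B * (a * β * A / (8 * c)) ≤ c * k * B * u := mul_le_mul_of_nonneg_left huA (by positivity)
    have h5 : c * k * B * (a * β * A / (8 * c)) = η * a * (A * B) / 256 := by
      rw [hk]
      field_simp
      ring
    linarith
  have h6 : 48 / Real.sqrt (η * a) * (Real.sqrt (η * a) * Real.sqrt (A * B) / 16) = 3 * Real.sqrt (A * B) := by
    field_simp
    ring
  rw [← h6]
  exact mul_le_mul_of_nonneg_left hL (by positivity)

/-- MODULE EU4.  Phase 2 (real numbers only): if `3 W ^ κ < X ≤ c / (2 β)` then `X` and `√X`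
increase: `X' - X ≥ (c/2) B + (3/4) β A X`; if `X' ≤ 4 X` divide by `√X' + √X ≤ 3 √X` and use the
inequality between the arithmetic and the geometric mean, if `X' > 4 X` use
`√X' - √X ≥ √X` which is much larger than `A`. -/
theorem euc_phase2 {η c β K : ℝ} (hη : 0 < η) (hη1 : η < 1) (hc : 0 < c) (hβ : 1 ≤ β)
    (hK : 0 < K) :
    ∃ r1 : ℝ, 1 ≤ r1 ∧ ∀ r A B X X' W : ℝ, r1 ≤ r →
      r ^ (-(η / 8)) ≤ A → A ≤ 2 * r ^ (-(η / 8)) → 0 ≤ B → B ≤ 2 * A →
      W = r ^ (-β) * (c / β - X) → 3 * W ^ (η / (16 * β)) < X → X ≤ c / (2 * β) →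
      c * B + β * (A - B) * X - K * r ^ (-(η / 4)) ≤ X' - X →
      X ≤ X' ∧ 3 * Real.sqrt (A * B) ≤ 8 / Real.sqrt (c * β) * (Real.sqrt X' - Real.sqrt X) := by
  have hβ0 : 0 < β := by linarith
  set y1 : ℝ := (c / (2 * β)) ^ (η / (16 * β)) with hy1
  have hy10 : 0 < y1 := Real.rpow_pos_of_pos (by positivity) _
  obtain ⟨q0, hq0, g1, g2, g3⟩ : ∃ q0 : ℝ, 0 < q0 ∧ q0 ≤ 1 ∧ q0 ≤ β * y1 / (4 * K) ∧
      q0 ≤ y1 / (8 * c * β) := by
    refine ⟨min 1 (min (β * y1 / (4 * K)) (y1 / (8 * c * β))), by positivity, ?_⟩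
    simp only [min_le_iff, le_refl, true_or, or_true, and_true]
  obtain ⟨r1, hr1, hr⟩ := EU_small hη hq0
  refine ⟨r1, hr1, ?_⟩
  intro r A B X X' W hrr hA hA2 hB hB2 hW hX3 hX2 hstep
  have hr1' : 1 ≤ r := hr1.trans hrr
  have hr0 : 0 < r := by linarith
  obtain ⟨e1, e2, e3⟩ := EU_q (η := η) hr1'
  have hqle := hr r hrr
  rw [e2] at hA hA2
  rw [e3] at hstep
  obtain ⟨q, hq⟩ : ∃ q, q = r ^ (-(η / 16)) := ⟨_, rfl⟩
  rw [← hq] at e1 e2 e3 hqle hA hA2 hstep
  have hq1 : q ≤ 1 := hqle.trans g1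
  have c2 : K * q ≤ β * y1 / 4 := by
    have := hqle.trans g2
    rw [le_div_iff₀ (by positivity)] at this
    linarith
  have c3 : 8 * c * β * q ≤ y1 := by
    have := hqle.trans g3
    rw [le_div_iff₀ (by positivity)] at this
    linarith
  have hYl : c / (2 * β) ≤ c / β - X := by
    have : c / β = 2 * (c / (2 * β)) := by
      field_simp
    rw [this]
    linarith
  have hc2 : 0 < c / (2 * β) := by positivity
  have hκ0 : 0 < η / (16 * β) := by positivity
  have hWk1 : q * y1 ≤ W ^ (η / (16 * β)) := by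
    rw [hW, EU_W hβ hr1' (hc2.le.trans hYl), ← hq]
    exact mul_le_mul_of_nonneg_left (Real.rpow_le_rpow (by positivity) hYl hκ0.le) e1.le
  have hXq : 3 * (q * y1) ≤ X := by linarith
  have hX0 : 0 < X := lt_of_lt_of_le (by positivity) hXq
  have hA0 : 0 < A := lt_of_lt_of_le (by positivity) hA
  -- the main inequality
  have hmain : c / 2 * B + 3 / 4 * β * A * X ≤ X' - X := by
    have t1 : β * X * B ≤ c / 2 * B := by
      refine mul_le_mul_of_nonneg_right ?_ hB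
      have h1 : β * X ≤ β * (c / (2 * β)) := mul_le_mul_of_nonneg_left hX2 hβ0.le
      have h2 : β * (c / (2 * β)) = c / 2 := by field_simp
      linarith
    have t2 : K * q ^ 4 ≤ 1 / 4 * β * A * X := by
      have h1 : K * q * q ^ 3 ≤ β * y1 / 4 * q ^ 3 := mul_le_mul_of_nonneg_right c2 (by positivity)
      have h2 : q ^ 2 * (3 * (q * y1)) ≤ A * X := mul_le_mul hA hXq (by positivity) hA0.le
      have h3 : 1 / 4 * β * (q ^ 2 * (3 * (q * y1))) ≤ 1 / 4 * β * (A * X) :=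
        mul_le_mul_of_nonneg_left h2 (by positivity)
      have h4 : K * q ^ 4 = K * q * q ^ 3 := by ring
      have h5 : 0 < β * y1 * q ^ 3 := by positivity
      rw [h4]
      linarith
    have e : β * (A - B) * X = β * A * X - β * X * B := by ring
    rw [e] at hstep
    linarith
  have hpos : 0 ≤ c / 2 * B + 3 / 4 * β * A * X := by positivity
  have hXX : X ≤ X' := by linarith
  refine ⟨hXX, ?_⟩
  have hX'0 : 0 < X' := by linarith
  have hcβ : 0 < c * β := by positivity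
  have hscβ : 0 < Real.sqrt (c * β) := Real.sqrt_pos.mpr hcβ
  have hsX : 0 < Real.sqrt X := Real.sqrt_pos.mpr hX0
  have hsX2 : Real.sqrt X ^ 2 = X := Real.sq_sqrt hX0.le
  have hsX'2 : Real.sqrt X' ^ 2 = X' := Real.sq_sqrt hX'0.le
  have hsX' : Real.sqrt X ≤ Real.sqrt X' := Real.sqrt_le_sqrt hXX
  have hAB : 0 ≤ A * B := by positivity
  -- the claim without the factor
  have hclaim : 3 / 8 * Real.sqrt (c * β) * Real.sqrt (A * B) ≤ Real.sqrt X' - Real.sqrt X := by
    rcases le_or_gt X' (4 * X) with h4 | h4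
    · have hs : Real.sqrt X' ≤ 2 * Real.sqrt X := by
        rw [Real.sqrt_le_left (by positivity)]
        rw [mul_pow, hsX2]
        linarith
      -- `D := c/2 B + 3/4 β A X ≥ 2 √(3/8 c β A B X)`
      have h1 : 9 / 8 * (Real.sqrt (c * β) * Real.sqrt (A * B) * Real.sqrt X) ≤ c / 2 * B + 3 / 4 * β * A * X := by
        refine abs_le_of_sq_le_sq' ?_ hpos |>.2
        have e : (9 / 8 * (Real.sqrt (c * β) * Real.sqrt (A * B) * Real.sqrt X)) ^ 2
            = 81 / 64 * (c * β * (A * B) * X) := by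
          rw [mul_pow, mul_pow, mul_pow, Real.sq_sqrt hcβ.le, Real.sq_sqrt hAB, hsX2]
          norm_num
        rw [e]
        have h2 : 0 ≤ c * β * (A * B) * X := by positivity
        have h3 := sq_nonneg (c / 2 * B - 3 / 4 * β * A * X)
        have e2 : (c / 2 * B + 3 / 4 * β * A * X) ^ 2
            = (c / 2 * B - 3 / 4 * β * A * X) ^ 2 + 3 / 2 * (c * β * (A * B) * X) := by ring
        rw [e2]
        linarith
      have h2 : (Real.sqrt X' - Real.sqrt X) * (Real.sqrt X' + Real.sqrt X) = X' - X := by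
        rw [← hsX'2, ← hsX2]
        rw [hsX'2, hsX2]
        have : (Real.sqrt X' - Real.sqrt X) * (Real.sqrt X' + Real.sqrt X)
            = Real.sqrt X' ^ 2 - Real.sqrt X ^ 2 := by ring
        rw [this, hsX'2, hsX2]
      have h3 : (Real.sqrt X' - Real.sqrt X) * (Real.sqrt X' + Real.sqrt X)
          ≤ (Real.sqrt X' - Real.sqrt X) * (3 * Real.sqrt X) :=
        mul_le_mul_of_nonneg_left (by linarith) (by linarith)
      have h4' : 3 / 8 * Real.sqrt (c * β) * Real.sqrt (A * B) * (3 * Real.sqrt X)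
          ≤ (Real.sqrt X' - Real.sqrt X) * (3 * Real.sqrt X) := by
        have : 3 / 8 * Real.sqrt (c * β) * Real.sqrt (A * B) * (3 * Real.sqrt X)
            = 9 / 8 * (Real.sqrt (c * β) * Real.sqrt (A * B) * Real.sqrt X) := by ring
        rw [this]
        linarith
      exact le_of_mul_le_mul_right h4' (by positivity)
    · have hs : 2 * Real.sqrt X ≤ Real.sqrt X' := by
        refine Real.le_sqrt_of_sq_le ?_
        rw [mul_pow, hsX2]
        linarith
      have h1 : 3 / 8 * Real.sqrt (c * β) * Real.sqrt (A * B) ≤ Real.sqrt X := by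
        refine Real.le_sqrt_of_sq_le ?_
        rw [mul_pow, mul_pow, Real.sq_sqrt hcβ.le, Real.sq_sqrt hAB]
        have h2 : A * B ≤ 8 * q ^ 4 := by
          have h3 : A * B ≤ A * (2 * A) := mul_le_mul_of_nonneg_left hB2 hA0.le
          have h5 : A * A ≤ (2 * q ^ 2) * (2 * q ^ 2) := mul_le_mul hA2 hA2 hA0.le (by positivity)
          calc A * B ≤ 2 * (A * A) := by linarith
            _ ≤ 2 * ((2 * q ^ 2) * (2 * q ^ 2)) := by linarith
            _ = 8 * q ^ 4 := by ring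
        have h3 : (3 / 8) ^ 2 * (c * β) * (A * B) ≤ (3 / 8) ^ 2 * (c * β) * (8 * q ^ 4) :=
          mul_le_mul_of_nonneg_left h2 (by positivity)
        have h5 : q ^ 4 ≤ q * q := by
          have : q ^ 4 = q * q * (q ^ 2) := by ring
          rw [this]
          exact mul_le_of_le_one_right (by positivity) (pow_le_one₀ e1.le hq1)
        have h6 : 8 * c * β * q * q ≤ y1 * q := mul_le_mul_of_nonneg_right c3 e1.le
        have h7 : (3 / 8) ^ 2 * (c * β) * (8 * q ^ 4) ≤ (3 / 8) ^ 2 * (c * β) * (8 * (q * q)) :=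
          mul_le_mul_of_nonneg_left (by linarith) (by positivity)
        have h8 : 0 < q * y1 := by positivity
        linarith
      linarith
  have h9 : 8 / Real.sqrt (c * β) * (3 / 8 * Real.sqrt (c * β) * Real.sqrt (A * B)) = 3 * Real.sqrt (A * B) := by
    field_simp
  rw [← h9]
  exact mul_le_mul_of_nonneg_left hclaim (by positivity)

/-- MODULE EU5.  Phase 3: if the energy at `y` is less than `c / (2 (α - 1))` the rest of the walk
stays near `y` (`low_bound` with `M1 = c`, `ε = 1/4`). -/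
theorem euc_phase3 {h : V d → ℝ} {a b C : ℝ} (hh : HF h a b C) {η : ℝ} (hη : 0 < η) (hη1 : η < 1)
    {c : ℝ} (hc0 : 0 < c) (hc : ∀ z, c * nrm z ≤ h z) :
    ∃ α0 K3 : ℝ, 2 ≤ α0 ∧ 0 < K3 ∧ ∀ α, α0 < α → ∃ R1 : ℝ,
      ∀ (E : Edge d → ℝ) (R0 : ℝ), (∀ e, 0 ≤ E e) → CC h η E R0 →
      ∀ (y : V d) (l : List (Step d)), R1 ≤ nrm y → R0 ≤ nrm y →
        Phi α E y l < c / (2 * (α - 1)) →
        ∀ l1 l2, l = l1 ++ l2 → nrm (endp y l1 - y) ≤ K3 / (α - 1) * nrm y := by
  obtain ⟨α0, K2, h1, h2, h3⟩ := low_bound hh hη hη1.le hc0 (ε := 1 / 4) (by norm_num) (by norm_num)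
  refine ⟨α0, K2, h1, h2, fun α hα => ?_⟩
  obtain ⟨R1, hR1⟩ := h3 α hα 0
  refine ⟨max 1 R1, fun E R0 hE hCC y l hr hr0 hPhi l1 l2 hl => ?_⟩
  by_contra hcon
  push Not at hcon
  have hy1 : 1 ≤ nrm y := (le_max_left _ _).trans hr
  have hy0 : 0 < nrm y := by linarith
  have hα1 : 0 < α - 1 := by linarith
  have h4 := hR1 E R0 hE hCC y l1 ((le_max_right _ _).trans hr) hr0 (fun z => by
    have h5 := hc z
    have h6 : c * pr z y ≤ c * nrm z := mul_le_mul_of_nonneg_left (pr_le z y) hc0.le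
    linarith) hcon.le
  have h5 : wt (tau α E) y l1 ≤ wt (tau α E) y l := by
    rw [hl, wt_append]
    have := wt_nonneg (tau_nonneg (α := α) hE) (endp y l1) l2
    linarith
  unfold Phi at hPhi
  have h6 : nrm y ^ (α - 1) * (nrm y ^ (1 - α)) = 1 := by
    rw [← Real.rpow_add hy0]
    simp
  have h7 : 0 < nrm y ^ (α - 1) := Real.rpow_pos_of_pos hy0 _
  have h8 : nrm y ^ (α - 1) * ((1 - 1 / 4) * (c / (α - 1)) * nrm y ^ (1 - α)) ≤ nrm y ^ (α - 1) * wt (tau α E) y l :=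
    mul_le_mul_of_nonneg_left (h4.trans h5) h7.le
  have h9 : nrm y ^ (α - 1) * ((1 - 1 / 4) * (c / (α - 1)) * nrm y ^ (1 - α)) = 3 / 4 * (c / (α - 1)) := by
    calc _ = (1 - 1 / 4) * (c / (α - 1)) * (nrm y ^ (α - 1) * nrm y ^ (1 - α)) := by ring
      _ = 3 / 4 * (c / (α - 1)) := by rw [h6]; ring
  have h10 : c / (2 * (α - 1)) = 1 / 2 * (c / (α - 1)) := by
    field_simp
  have h11 : 0 < c / (α - 1) := by positivity
  rw [h10] at hPhi
  linarith

/-- the bound for the change of direction -/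
private noncomputable def EUB (η c β a K3 X W : ℝ) : ℝ :=
  if c / (2 * β) < X then 2 * K3 / β
  else if 3 * W ^ (η / (16 * β)) < X then
    8 / Real.sqrt (c * β) * (Real.sqrt (c / (2 * β)) - Real.sqrt X) + (2 * K3 + 1) / β
  else 8 / Real.sqrt (c * β) * Real.sqrt (c / (2 * β)) + (2 * K3 + 1) / β + 48 / Real.sqrt (η * a) *
    (5 * W ^ (η / (32 * β)) - (X * W ^ (-(η / (32 * β))) - W ^ (η / (32 * β))))

private theorem EU6_sq {η β W : ℝ} (hW : 0 < W) :
    (W ^ (η / (32 * β))) ^ 2 = W ^ (η / (16 * β)) := by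
  rw [← Real.rpow_natCast, ← Real.rpow_mul hW.le]
  congr 1
  push_cast
  ring

/-- in phase 1 the last term is at least `3 W ^ (κ/2)` -/
private theorem EU6_G {η β X W : ℝ} (hW : 0 < W) (hX : X ≤ 3 * W ^ (η / (16 * β))) :
    3 * W ^ (η / (32 * β)) ≤
      5 * W ^ (η / (32 * β)) - (X * W ^ (-(η / (32 * β))) - W ^ (η / (32 * β))) := by
  have hP : 0 < W ^ (η / (32 * β)) := Real.rpow_pos_of_pos hW _
  have h1 : X * W ^ (-(η / (32 * β))) ≤ 3 * W ^ (η / (32 * β)) := by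
    rw [Real.rpow_neg hW.le, ← div_eq_mul_inv, div_le_iff₀ hP]
    rw [← EU6_sq hW] at hX
    calc X ≤ 3 * (W ^ (η / (32 * β))) ^ 2 := hX
      _ = 3 * W ^ (η / (32 * β)) * W ^ (η / (32 * β)) := by ring
  linarith

private theorem EU6_pos {η c β a K3 X W : ℝ} (hη : 0 < η) (hc : 0 < c) (hβ : 1 ≤ β) (ha : 0 < a)
    (hW : 0 < W) (hX : X ≤ c / (2 * β)) : (2 * K3 + 1) / β ≤ EUB η c β a K3 X W := by
  have hβ0 : 0 < β := by linarith
  have hA2 : 0 < 8 / Real.sqrt (c * β) := by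
    have : 0 < Real.sqrt (c * β) := Real.sqrt_pos.mpr (by positivity)
    positivity
  have hA1 : 0 < 48 / Real.sqrt (η * a) := by
    have : 0 < Real.sqrt (η * a) := Real.sqrt_pos.mpr (by positivity)
    positivity
  unfold EUB
  rw [if_neg (not_lt.mpr hX)]
  split_ifs with h
  · have h1 : Real.sqrt X ≤ Real.sqrt (c / (2 * β)) := Real.sqrt_le_sqrt hX
    have h2 : 0 ≤ 8 / Real.sqrt (c * β) * (Real.sqrt (c / (2 * β)) - Real.sqrt X) :=
      mul_nonneg hA2.le (by linarith)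
    linarith
  · have h1 := EU6_G hW (not_lt.mp h)
    have hP : 0 < W ^ (η / (32 * β)) := Real.rpow_pos_of_pos hW _
    have h2 := mul_nonneg hA1.le (show 0 ≤ 5 * W ^ (η / (32 * β))
      - (X * W ^ (-(η / (32 * β))) - W ^ (η / (32 * β))) by linarith)
    have h3 : 0 ≤ 8 / Real.sqrt (c * β) * Real.sqrt (c / (2 * β)) := by positivity
    linarith

/-- one step -/
private theorem EU6_key {η c β a K K3 : ℝ} (hη : 0 < η) (hη1 : η < 1) (hc : 0 < c) (hβ : 1 ≤ β)
    (ha : 0 < a) (hK : 0 < K) :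
    ∃ r1 : ℝ, 1 ≤ r1 ∧ ∀ r s A B X X' W W' : ℝ, r1 ≤ r → 0 < s → s ≤ (1 + 3 * r ^ (-(η / 8))) * r →
      r ^ (-(η / 8)) ≤ A → A ≤ 2 * r ^ (-(η / 8)) → 0 ≤ B → B ≤ 2 * A →
      W = r ^ (-β) * (c / β - X) → W' = s ^ (-β) * (c / β - X') → 0 ≤ W' →
      - K * r ^ (-(η / 8)) ≤ X → X ≤ c / (2 * β) →
      c * B + β * (A - B) * X - K * r ^ (-(η / 4)) ≤ X' - X →
      a / 2 * r ^ (-(η / 8)) * r ^ (-β) ≤ W - W' →
      3 * Real.sqrt (A * B) + EUB η c β a K3 X' W' ≤ EUB η c β a K3 X W := by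
  have hβ0 : 0 < β := by linarith
  obtain ⟨ra, hra, hp1⟩ := euc_phase1 hη hη1 hc hβ ha hK
  obtain ⟨rb, hrb, hp2⟩ := euc_phase2 hη hη1 hc hβ hK
  have hsA1 : 0 < Real.sqrt (η * a) := Real.sqrt_pos.mpr (by positivity)
  have hsA2 : 0 < Real.sqrt (c * β) := Real.sqrt_pos.mpr (by positivity)
  obtain ⟨A1, hA1⟩ : ∃ A1, A1 = 48 / Real.sqrt (η * a) := ⟨_, rfl⟩
  obtain ⟨A2, hA2⟩ : ∃ A2, A2 = 8 / Real.sqrt (c * β) := ⟨_, rfl⟩
  have hA1p : 0 < A1 := by rw [hA1]; positivity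
  have hA2p : 0 < A2 := by rw [hA2]; positivity
  obtain ⟨y1, hy1⟩ : ∃ y1, y1 = (c / (2 * β)) ^ (η / (16 * β)) := ⟨_, rfl⟩
  have hy10 : 0 < y1 := by rw [hy1]; exact Real.rpow_pos_of_pos (by positivity) _
  obtain ⟨q0, hq0, g1, g2, g3⟩ : ∃ q0 : ℝ, 0 < q0 ∧ q0 ≤ 1 ∧ q0 ≤ A1 ^ 2 * y1 / 9 ∧
      q0 ≤ 1 / (9 * β) := by
    refine ⟨min 1 (min (A1 ^ 2 * y1 / 9) (1 / (9 * β))), by positivity, ?_⟩
    simp only [min_le_iff, le_refl, true_or, or_true, and_true]
  obtain ⟨rc, hrc, hr⟩ := EU_small hη hq0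
  refine ⟨max ra (max rb rc), hra.trans (le_max_left _ _), ?_⟩
  intro r s A B X X' W W' hrr hs hsr hA hAu hB hB2 hW hW' hW'0 hX hXc hstep hWW
  have hr1 : ra ≤ r := (le_max_left _ _).trans hrr
  have hr2 : rb ≤ r := ((le_max_left _ _).trans (le_max_right _ _)).trans hrr
  have hr3 : rc ≤ r := ((le_max_right _ _).trans (le_max_right _ _)).trans hrr
  have hr1' : 1 ≤ r := hra.trans hr1
  have hr0 : 0 < r := by linarith
  obtain ⟨e1, e2, -⟩ := EU_q (η := η) hr1'
  have hqle := hr r hr3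
  obtain ⟨q, hq⟩ : ∃ q, q = r ^ (-(η / 16)) := ⟨_, rfl⟩
  have hδ : r ^ (-(η / 8)) = q ^ 2 := by rw [e2, hq]
  rw [← hq] at e1 hqle
  have hq1 : q ≤ 1 := hqle.trans g1
  have hrβ : 0 < r ^ (-β) := Real.rpow_pos_of_pos hr0 _
  have hYl : c / (2 * β) ≤ c / β - X := by
    have : c / β = 2 * (c / (2 * β)) := by field_simp
    rw [this]
    linarith
  have hcβ : 0 < c / (2 * β) := by positivity
  have hWpos : 0 < W := by
    rw [hW]
    exact mul_pos hrβ (by linarith)
  have hκ0 : 0 < η / (16 * β) := by positivity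
  have hk0 : 0 < η / (32 * β) := by positivity
  have hWk1 : q * y1 ≤ W ^ (η / (16 * β)) := by
    rw [hW, EU_W hβ hr1' (by linarith), ← hq, hy1]
    exact mul_le_mul_of_nonneg_left (Real.rpow_le_rpow (by positivity) hYl hκ0.le) e1.le
  have hδ0 : 0 < r ^ (-(η / 8)) := Real.rpow_pos_of_pos hr0 _
  have hWle : W' ≤ W := by
    have : 0 < a / 2 * r ^ (-(η / 8)) * r ^ (-β) := by positivity
    linarith
  have hA0 : 0 < A := lt_of_lt_of_le hδ0 hA
  -- `√(A B) ≤ 3 q²`
  have hAB : Real.sqrt (A * B) ≤ 3 * q ^ 2 := by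
    rw [Real.sqrt_le_left (by positivity)]
    rw [hδ] at hAu
    have h1 : A * B ≤ A * (2 * A) := mul_le_mul_of_nonneg_left hB2 hA0.le
    have h2 : A * A ≤ (2 * q ^ 2) * (2 * q ^ 2) := mul_le_mul hAu hAu hA0.le (by positivity)
    have h3 : 0 ≤ q ^ 4 := by positivity
    have e : (3 * q ^ 2) ^ 2 = 9 * q ^ 4 := by ring
    have e' : (2 * q ^ 2) * (2 * q ^ 2) = 4 * q ^ 4 := by ring
    rw [e]
    rw [e'] at h2
    linarith
  have hqq : q ^ 2 ≤ q := by
    rw [sq]
    exact mul_le_of_le_one_left e1.le hq1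
  have hABβ : 3 * Real.sqrt (A * B) ≤ 1 / β := by
    have h1 : q ≤ 1 / (9 * β) := hqle.trans g3
    have h2 : 1 / β = 9 * (1 / (9 * β)) := by field_simp
    rw [h2]
    linarith
  have hBud := EU6_pos (K3 := K3) hη hc hβ ha hWpos hXc
  have hsplit : (2 * K3 + 1) / β = 2 * K3 / β + 1 / β := by ring
  rcases lt_or_ge (c / (2 * β)) X' with hX'c | hX'c
  · -- the new vertex is in phase 3
    have h1 : EUB η c β a K3 X' W' = 2 * K3 / β := by
      unfold EUB
      rw [if_pos hX'c]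
    rw [h1]
    rw [hsplit] at hBud
    linarith
  · rcases lt_or_ge (3 * W ^ (η / (16 * β))) X with hX3 | hX3
    · -- phase 2 to phase 2
      obtain ⟨hXX, h2⟩ := hp2 r A B X X' W hr2 hA hAu hB hB2 hW hX3 hXc hstep
      have h3 : W' ^ (η / (16 * β)) ≤ W ^ (η / (16 * β)) := Real.rpow_le_rpow hW'0 hWle hκ0.le
      have h4 : 3 * W' ^ (η / (16 * β)) < X' := by linarith
      unfold EUB
      rw [if_neg (not_lt.mpr hX'c), if_pos h4, if_neg (not_lt.mpr hXc), if_pos hX3, ← hA2]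
      rw [← hA2] at h2
      linarith
    · rcases lt_or_ge (3 * W' ^ (η / (16 * β))) X' with hX'3 | hX'3
      · -- phase 1 to phase 2
        have h1 := EU6_G hWpos hX3
        have h2 : Real.sqrt (A * B) ≤ A1 * W ^ (η / (32 * β)) := by
          refine hAB.trans ?_
          have hP : 0 < W ^ (η / (32 * β)) := Real.rpow_pos_of_pos hWpos _
          refine abs_le_of_sq_le_sq' ?_ (by positivity) |>.2
          rw [mul_pow, mul_pow, EU6_sq hWpos]
          have h3 : A1 ^ 2 * (q * y1) ≤ A1 ^ 2 * W ^ (η / (16 * β)) :=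
            mul_le_mul_of_nonneg_left hWk1 (by positivity)
          have h4 : 9 * q ≤ A1 ^ 2 * y1 := by
            have := hqle.trans g2
            linarith
          have h5 : 9 * q * q ≤ A1 ^ 2 * y1 * q := mul_le_mul_of_nonneg_right h4 e1.le
          have h6 : (q ^ 2) ^ 2 ≤ q * q := by
            have : (q ^ 2) ^ 2 = q ^ 2 * q ^ 2 := by ring
            rw [this]
            exact mul_le_mul hqq hqq (by positivity) e1.le
          have h7 : (3 : ℝ) ^ 2 * (q ^ 2) ^ 2 ≤ 9 * q * q := by linarith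
          linarith
        have h3 : A1 * (3 * W ^ (η / (32 * β))) ≤ A1 * (5 * W ^ (η / (32 * β))
            - (X * W ^ (-(η / (32 * β))) - W ^ (η / (32 * β)))) := mul_le_mul_of_nonneg_left h1 hA1p.le
        have h4 : 0 ≤ A2 * Real.sqrt X' := by positivity
        unfold EUB
        rw [if_neg (not_lt.mpr hX'c), if_pos hX'3, if_neg (not_lt.mpr hXc), if_neg (not_lt.mpr hX3), ← hA2, ← hA1]
        linarith
      · -- phase 1 to phase 1
        have h1 := hp1 r s A B X X' W W' hr1 hs hsr hA hAu hB hB2 hW hW' hW'0 hX hX3 hX'3 hstep hWW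
        have h2 : W' ^ (η / (32 * β)) ≤ W ^ (η / (32 * β)) := Real.rpow_le_rpow hW'0 hWle hk0.le
        have h3 : A1 * (5 * W' ^ (η / (32 * β))) ≤ A1 * (5 * W ^ (η / (32 * β))) :=
          mul_le_mul_of_nonneg_left (by linarith) hA1p.le
        unfold EUB
        rw [if_neg (not_lt.mpr hX'c), if_neg (not_lt.mpr hX'3), if_neg (not_lt.mpr hXc), if_neg (not_lt.mpr hX3),
          ← hA2, ← hA1]
        rw [← hA1] at h1
        linarith

/-- the upper bound at the start -/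
private theorem EU6_up {η c β a K K3 : ℝ} (hη : 0 < η) (hη1 : η < 1) (hc : 0 < c) (hβ : 1 ≤ β)
    (ha : 0 < a) (hK : 0 < K) (hK3 : 0 < K3) :
    ∃ r1 : ℝ, 1 ≤ r1 ∧ ∀ r X W : ℝ, r1 ≤ r → W = r ^ (-β) * (c / β - X) →
      - K * r ^ (-(η / 8)) ≤ X → EUB η c β a K3 X W ≤ (2 * K3 + 8) / β := by
  have hβ0 : 0 < β := by linarith
  have hsA1 : 0 < Real.sqrt (η * a) := Real.sqrt_pos.mpr (by positivity)
  have hsA2 : 0 < Real.sqrt (c * β) := Real.sqrt_pos.mpr (by positivity)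
  obtain ⟨A1, hA1⟩ : ∃ A1, A1 = 48 / Real.sqrt (η * a) := ⟨_, rfl⟩
  have hA1p : 0 < A1 := by rw [hA1]; positivity
  obtain ⟨y1, hy1⟩ : ∃ y1, y1 = (c / (2 * β)) ^ (η / (16 * β)) := ⟨_, rfl⟩
  have hy10 : 0 < y1 := by rw [hy1]; exact Real.rpow_pos_of_pos (by positivity) _
  obtain ⟨y2, hy2⟩ : ∃ y2, y2 = (2 * c / β) ^ (η / (16 * β)) := ⟨_, rfl⟩
  have hy20 : 0 < y2 := by rw [hy2]; exact Real.rpow_pos_of_pos (by positivity) _
  obtain ⟨q0, hq0, g1, g2, g3, g4⟩ : ∃ q0 : ℝ, 0 < q0 ∧ q0 ≤ 1 ∧ q0 ≤ c / (β * K) ∧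
      q0 ≤ 1 / (144 * A1 ^ 2 * β ^ 2 * y2) ∧ q0 ≤ y1 / (4 * A1 ^ 2 * K ^ 2 * β ^ 2) := by
    refine ⟨min 1 (min (c / (β * K)) (min (1 / (144 * A1 ^ 2 * β ^ 2 * y2)) (y1 / (4 * A1 ^ 2 * K ^ 2 * β ^ 2)))),
      by positivity, ?_⟩
    simp only [min_le_iff, le_refl, true_or, or_true, and_true]
  obtain ⟨rc, hrc, hr⟩ := EU_small hη hq0
  refine ⟨rc, hrc, ?_⟩
  intro r X W hrr hW hX
  have hr1' : 1 ≤ r := hrc.trans hrr
  have hr0 : 0 < r := by linarith
  obtain ⟨e1, e2, -⟩ := EU_q (η := η) hr1'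
  have hqle := hr r hrr
  obtain ⟨q, hq⟩ : ∃ q, q = r ^ (-(η / 16)) := ⟨_, rfl⟩
  rw [e2, ← hq] at hX
  rw [← hq] at e1 hqle
  have hq1 : q ≤ 1 := hqle.trans g1
  have hqq : q ^ 2 ≤ q := by
    rw [sq]
    exact mul_le_of_le_one_left e1.le hq1
  have hrβ : 0 < r ^ (-β) := Real.rpow_pos_of_pos hr0 _
  have hA2 : 8 / Real.sqrt (c * β) * Real.sqrt (c / (2 * β)) ≤ 6 / β := by
    have h1 : Real.sqrt (c / (2 * β)) ≤ 3 / 4 * (1 / β) * Real.sqrt (c * β) := by
      rw [Real.sqrt_le_left (by positivity), mul_pow, Real.sq_sqrt (by positivity)]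
      have h2 : (3 / 4 * (1 / β)) ^ 2 * (c * β) = 9 / 8 * (c / (2 * β)) := by
        field_simp
        ring
      rw [h2]
      have : 0 < c / (2 * β) := by positivity
      linarith
    have h2 : 8 / Real.sqrt (c * β) * Real.sqrt (c / (2 * β))
        ≤ 8 / Real.sqrt (c * β) * (3 / 4 * (1 / β) * Real.sqrt (c * β)) :=
      mul_le_mul_of_nonneg_left h1 (by positivity)
    have h3 : 8 / Real.sqrt (c * β) * (3 / 4 * (1 / β) * Real.sqrt (c * β)) = 6 / β := by
      field_simp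
      ring
    linarith
  have hsplit : (2 * K3 + 8) / β = 2 * K3 / β + 8 / β := by ring
  have hsplit1 : (2 * K3 + 1) / β = 2 * K3 / β + 1 / β := by ring
  have h6β : 6 / β = 6 * (1 / β) := by ring
  have h8β : 8 / β = 8 * (1 / β) := by ring
  have hβi : 0 < 1 / β := by positivity
  unfold EUB
  split_ifs with h1 h2
  · rw [hsplit, h8β]
    linarith
  · have h3 : 0 ≤ 8 / Real.sqrt (c * β) * Real.sqrt X := by positivity
    rw [hsplit, hsplit1, h8β]
    rw [h6β] at hA2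
    have e : 8 / Real.sqrt (c * β) * (Real.sqrt (c / (2 * β)) - Real.sqrt X)
        = 8 / Real.sqrt (c * β) * Real.sqrt (c / (2 * β)) - 8 / Real.sqrt (c * β) * Real.sqrt X := by ring
    rw [e]
    linarith
  · have hXc := not_lt.mp h1
    have hYl : c / (2 * β) ≤ c / β - X := by
      have : c / β = 2 * (c / (2 * β)) := by field_simp
      rw [this]
      linarith
    have hcβ : 0 < c / (2 * β) := by positivity
    have hYu : c / β - X ≤ 2 * c / β := by
      have h3 : K * q ≤ c / β := by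
        have := hqle.trans g2
        rw [le_div_iff₀ (by positivity)] at this ⊢
        linarith
      have h4 : K * q ^ 2 ≤ K * q := mul_le_mul_of_nonneg_left hqq hK.le
      have h5 : 2 * c / β = 2 * (c / β) := by ring
      rw [h5]
      linarith
    have hWpos : 0 < W := by
      rw [hW]
      exact mul_pos hrβ (by linarith)
    have hκ0 : 0 < η / (16 * β) := by positivity
    have hWk1 : q * y1 ≤ W ^ (η / (16 * β)) := by
      rw [hW, EU_W hβ hr1' (by linarith), ← hq, hy1]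
      exact mul_le_mul_of_nonneg_left (Real.rpow_le_rpow (by positivity) hYl hκ0.le) e1.le
    have hWk2 : W ^ (η / (16 * β)) ≤ q * y2 := by
      rw [hW, EU_W hβ hr1' (by linarith), ← hq, hy2]
      exact mul_le_mul_of_nonneg_left (Real.rpow_le_rpow (by linarith) hYu hκ0.le) e1.le
    rw [← EU6_sq hWpos] at hWk1 hWk2
    have hP : 0 < W ^ (η / (32 * β)) := Real.rpow_pos_of_pos hWpos _
    have hneg : X * W ^ (-(η / (32 * β))) = X / W ^ (η / (32 * β)) := by
      rw [Real.rpow_neg hWpos.le]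
      exact (div_eq_mul_inv _ _).symm
    rw [hneg, ← hA1]
    generalize W ^ (η / (32 * β)) = P at hWk1 hWk2 hP hneg ⊢
    have t1 : A1 * (6 * P) ≤ 1 / 2 * (1 / β) := by
      refine abs_le_of_sq_le_sq' ?_ (by positivity) |>.2
      have h3 := hqle.trans g3
      rw [le_div_iff₀ (by positivity)] at h3
      have h4 : (A1 * (6 * P)) ^ 2 ≤ 36 * A1 ^ 2 * (q * y2) := by
        have : (A1 * (6 * P)) ^ 2 = 36 * A1 ^ 2 * P ^ 2 := by ring
        rw [this]
        exact mul_le_mul_of_nonneg_left hWk2 (by positivity)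
      refine h4.trans ?_
      have h5 : (1 / 2 * (1 / β)) ^ 2 = 1 / (4 * β ^ 2) := by
        field_simp
        ring
      rw [h5, le_div_iff₀ (by positivity)]
      linarith
    have t2 : A1 * (K * q ^ 2 / P) ≤ 1 / 2 * (1 / β) := by
      rw [← mul_div_assoc, div_le_iff₀ hP]
      have h3 := hqle.trans g4
      rw [le_div_iff₀ (by positivity)] at h3
      have h4 : A1 * (K * q ^ 2) * (2 * β) ≤ P := by
        refine abs_le_of_sq_le_sq' ?_ hP.le |>.2
        have h5 : (A1 * (K * q ^ 2) * (2 * β)) ^ 2 = q * (4 * A1 ^ 2 * K ^ 2 * β ^ 2) * q ^ 3 := by ring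
        rw [h5]
        have h6 : q * (4 * A1 ^ 2 * K ^ 2 * β ^ 2) * q ^ 3 ≤ y1 * q ^ 3 :=
          mul_le_mul_of_nonneg_right h3 (by positivity)
        have h7 : y1 * q ^ 3 ≤ y1 * q := by
          refine mul_le_mul_of_nonneg_left ?_ hy10.le
          have : q ^ 3 = q ^ 2 * q := by ring
          rw [this]
          exact mul_le_of_le_one_left e1.le (hqq.trans hq1)
        linarith
      have h5 : A1 * (K * q ^ 2) = 1 / 2 * (1 / β) * (A1 * (K * q ^ 2) * (2 * β)) := by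
        field_simp
      rw [h5]
      exact mul_le_mul_of_nonneg_left h4 (by positivity)
    have t3 : -(K * q ^ 2 / P) ≤ X / P := by
      rw [← neg_div]
      exact div_le_div_of_nonneg_right (by linarith) hP.le
    have t4 : A1 * (5 * P - (X / P - P)) ≤ A1 * (6 * P + K * q ^ 2 / P) :=
      mul_le_mul_of_nonneg_left (by linarith) hA1p.le
    rw [hsplit, hsplit1, h8β]
    rw [h6β] at hA2
    linarith

/-- shortest prefix with a property -/
private theorem EU6_short (P : List (Step d) → Prop) (l1 l2 : List (Step d)) (h : P l1) :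
    ∃ m1 m2, l1 ++ l2 = m1 ++ m2 ∧ P m1 ∧ ∀ n1 s n2, m1 = n1 ++ s :: n2 → ¬ P n1 := by
  obtain ⟨n, hn⟩ : ∃ n, n = l1.length := ⟨_, rfl⟩
  induction n using Nat.strong_induction_on generalizing l1 l2 with
  | _ n ih =>
    by_cases hmin : ∀ n1 s n2, l1 = n1 ++ s :: n2 → ¬ P n1
    · exact ⟨l1, l2, rfl, h, hmin⟩
    · push Not at hmin
      obtain ⟨n1, s, n2, h1, h2⟩ := hmin
      have h3 : n1.length < n := by
        rw [hn, h1, List.length_append, List.length_cons]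
        omega
      obtain ⟨m1, m2, h4, h5, h6⟩ := ih n1.length h3 n1 (s :: n2 ++ l2) h2 rfl
      refine ⟨m1, m2, ?_, h5, h6⟩
      rw [h1, ← h4]
      simp

/-- MODULE EU6.  Strong induction on the length of `l` with `euc_step` for the shortest prefix
leaving the ball of radius `|v| ^ (1 - η/8)` about `v` (before it the directions change by at most
`3 |v| ^ (-η/8)`).  Bound for the change of direction, with `β = α - 1`, `κ = η / (16 β)`,
`A1 = 48 / √(η a)`, `A2 = 8 / √(c β)`: `K3' / β` if `X > c / (2 β)`;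
`A2 (√(c / (2 β)) - √X) + (K3' + 1) / β` if `3 W ^ κ < X ≤ c / (2 β)`;
`A2 √(c / (2 β)) + (K3' + 1) / β + A1 (5 W ^ (κ/2) - G)`, `G = X W ^ (-κ/2) - W ^ (κ/2)`, if
`X ≤ 3 W ^ κ`.  It decreases by at least `3 √(A B)` in each step (in the transitions to another
phase because `3 √(A B) ≤ 9 |v| ^ (-η/8)` is small), and at the start it is at most
`K4 / β`. -/
theorem euc_dir {h : V d → ℝ} {a b C : ℝ} (hh : HF h a b C) {η : ℝ} (hη : 0 < η) (hη1 : η < 1)
    {c : ℝ} (hc0 : 0 < c) (hc : ∀ z, c * nrm z ≤ h z) {Kr N1 : ℝ}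
    (hKr : 0 < Kr) (hr : ∀ y : V d, y ≠ 0 → ∀ N : ℝ, N1 ≤ N → ∃ w : V d, N ≤ pr w y ∧
      h w ≤ c * N + Kr * N ^ (1 - η)) :
    ∃ α0 K4 : ℝ, 2 ≤ α0 ∧ 0 < K4 ∧ ∀ α, α0 < α → ∀ Ku : ℝ, 0 < Ku → ∃ R1 : ℝ,
      ∀ (E : Edge d → ℝ) (R0 : ℝ), (∀ e, 0 ≤ E e) → CC h η E R0 →
      ∀ (v : V d) (l : List (Step d)),
        (∀ l1 l2, l = l1 ++ l2 → R1 ≤ nrm (endp v l1) ∧ R0 ≤ nrm (endp v l1) ∧
          UB h η α Ku (wt (tau α E) (endp v l1) l2) (endp v l1)) →
        ∀ l1 l2, l = l1 ++ l2 → dd v (endp v l1) ≤ K4 / (α - 1) := by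
  obtain ⟨α0, K3, hα0, hK3, hph3⟩ := euc_phase3 hh hη hη1 hc0 hc
  refine ⟨α0, 2 * K3 + 8, hα0, by positivity, ?_⟩
  intro α hα Ku hKu
  obtain ⟨β, hβd⟩ : ∃ β, β = α - 1 := ⟨_, rfl⟩
  have hβ : 1 ≤ β := by rw [hβd]; linarith
  have hβ0 : 0 < β := by linarith
  have hα1 : 1 < α := by linarith
  obtain ⟨R1a, ha⟩ := hph3 α hα
  obtain ⟨K1, R1b, hK1, hst⟩ := euc_step hh hη hη1 hα1 hc0 hc hKr hr hKu
  obtain ⟨Kb, R1c, hKb, hub⟩ := euc_ub hη hη1 hα1 hc0 hc hKr hr hKu
  obtain ⟨r1, hr1, hkey⟩ := EU6_key (K3 := K3) hη hη1 hc0 hβ hh.pos hK1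
  obtain ⟨r2, hr2, hup⟩ := EU6_up (a := a) (K := Kb * (c / β)) hη hη1 hc0 hβ hh.pos (by positivity) hK3
  obtain ⟨r3, hr3, hsm⟩ := EU_small hη (q0 := min 1 (1 / (2 * β))) (by positivity)
  refine ⟨max R1a (max R1b (max R1c (max r1 (max r2 r3)))), ?_⟩
  intro E R0 hE hCC
  obtain ⟨RR, hRR⟩ : ∃ RR, RR = max R1a (max R1b (max R1c (max r1 (max r2 r3)))) := ⟨_, rfl⟩
  rw [← hRR]
  have hRa : R1a ≤ RR := by rw [hRR]; exact le_max_left _ _
  have hRb : R1b ≤ RR := by rw [hRR]; exact (le_max_left _ _).trans (le_max_right _ _)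
  have hRc : R1c ≤ RR := by
    rw [hRR]; exact ((le_max_left _ _).trans (le_max_right _ _)).trans (le_max_right _ _)
  have hR1 : r1 ≤ RR := by
    rw [hRR]
    exact (((le_max_left _ _).trans (le_max_right _ _)).trans (le_max_right _ _)).trans (le_max_right _ _)
  have hR2 : r2 ≤ RR := by
    rw [hRR]
    exact ((((le_max_left _ _).trans (le_max_right _ _)).trans (le_max_right _ _)).trans (le_max_right _ _)).trans
      (le_max_right _ _)
  have hR3 : r3 ≤ RR := by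
    rw [hRR]
    exact ((((le_max_right _ _).trans (le_max_right _ _)).trans (le_max_right _ _)).trans (le_max_right _ _)).trans
      (le_max_right _ _)
  -- the weight in terms of the energy
  have hWt : ∀ (y : V d) (l : List (Step d)), 0 < nrm y →
      wt (tau α E) y l = nrm y ^ (-β) * (c / β - (c / β - Phi α E y l)) := by
    intro y l hy
    have h1 : nrm y ^ (-β) * nrm y ^ (α - 1) = 1 := by
      rw [← Real.rpow_add hy, hβd]
      simp
    unfold Phi
    calc wt (tau α E) y l = (nrm y ^ (-β) * nrm y ^ (α - 1)) * wt (tau α E) y l := by rw [h1, one_mul]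
      _ = _ := by ring
  -- the claim for the induction
  have claim : ∀ (n : ℕ) (v : V d) (l : List (Step d)), l.length = n →
      (∀ l1 l2, l = l1 ++ l2 → RR ≤ nrm (endp v l1) ∧ R0 ≤ nrm (endp v l1) ∧
        UB h η α Ku (wt (tau α E) (endp v l1) l2) (endp v l1)) →
      ∀ l1 l2, l = l1 ++ l2 →
        dd v (endp v l1) ≤ EUB η c β a K3 (c / β - Phi α E v l) (wt (tau α E) v l) := by
    intro n
    induction n using Nat.strong_induction_on with
    | _ n ih =>
      intro v l hn hyp l1 l2 hl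
      obtain ⟨hv1, hv2, hv3⟩ := hyp [] l rfl
      rw [endp_nil] at hv1 hv2 hv3
      have hv1' : 1 ≤ nrm v := hr1.trans (hR1.trans hv1)
      have hvp : 0 < nrm v := by linarith
      have hne : ∀ m1 m2, l = m1 ++ m2 → endp v m1 ≠ 0 := by
        intro m1 m2 hm h0
        have h1 := (hyp m1 m2 hm).1
        rw [h0, nrm_zero] at h1
        linarith [hr1.trans hR1]
      have hv0 : v ≠ 0 := by
        rintro rfl
        rw [nrm_zero] at hvp
        exact lt_irrefl _ hvp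
      have hdd : ∀ m1 m2, l = m1 ++ m2 → dd v (endp v m1) ≤ 2 * nrm (endp v m1 - v) / nrm v := by
        intro m1 m2 hm
        rw [dd_comm]
        exact (dd_facts (d := d)).2.1 _ _ (hne m1 m2 hm) hv0
      rcases lt_or_ge (c / (2 * β)) (c / β - Phi α E v l) with hX | hX
      · -- phase 3
        have h1 : Phi α E v l < c / (2 * (α - 1)) := by
          rw [← hβd]
          have : c / β = 2 * (c / (2 * β)) := by field_simp
          rw [this] at hX
          linarith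
        have h2 := ha E R0 hE hCC v l (hRa.trans hv1) hv2 h1 l1 l2 hl
        rw [← hβd] at h2
        unfold EUB
        rw [if_pos hX]
        refine (hdd l1 l2 hl).trans ?_
        rw [div_le_iff₀ hvp]
        have : 2 * K3 / β * nrm v = 2 * (K3 / β * nrm v) := by ring
        rw [this]
        linarith
      · -- phases 1 and 2
        have hWpos : 0 < wt (tau α E) v l := by
          rw [hWt v l hvp]
          refine mul_pos (Real.rpow_pos_of_pos hvp _) ?_
          have h2 : c / β = 2 * (c / (2 * β)) := by field_simp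
          have h3 : 0 < c / (2 * β) := by positivity
          rw [h2]
          rw [h2] at hX
          linarith
        have hpos := EU6_pos (K3 := K3) hη hc0 hβ hh.pos hWpos hX
        have hsmall : ∀ m1 m2, l = m1 ++ m2 → nrm (endp v m1 - v) ≤ nrm v ^ (1 - η / 8) →
            dd v (endp v m1) ≤ EUB η c β a K3 (c / β - Phi α E v l) (wt (tau α E) v l) := by
          intro m1 m2 hm hle
          refine (hdd m1 m2 hm).trans (le_trans ?_ hpos)
          have h1 : 2 * nrm (endp v m1 - v) / nrm v ≤ 2 * nrm v ^ (-(η / 8)) := by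
            rw [div_le_iff₀ hvp]
            have : nrm v ^ (1 - η / 8) = nrm v ^ (-(η / 8)) * nrm v := by
              rw [show 1 - η / 8 = -(η / 8) + 1 by ring, Real.rpow_add hvp, Real.rpow_one]
            rw [this] at hle
            linarith
          have h2 : nrm v ^ (-(η / 8)) ≤ 1 / (2 * β) := by
            obtain ⟨e1, e2, -⟩ := EU_q (η := η) hv1'
            have h3 := hsm (nrm v) (hR3.trans hv1)
            have h4 := h3.trans (min_le_left _ _)
            have h5 := h3.trans (min_le_right _ _)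
            rw [e2, sq]
            exact (mul_le_of_le_one_left e1.le h4).trans h5
          have h3 : (2 * K3 + 1) / β = 2 * K3 / β + 2 * (1 / (2 * β)) := by
            field_simp
          have h4 : 0 ≤ 2 * K3 / β := by positivity
          rw [h3]
          linarith
        by_cases hex : ∃ m1 m2, l = m1 ++ m2 ∧ nrm v ^ (1 - η / 8) ≤ nrm (endp v m1 - v)
        · obtain ⟨m1, m2, hm, hfar⟩ := hex
          obtain ⟨p1, p2, hp, hP, hPmin⟩ :=
            EU6_short (fun m => nrm v ^ (1 - η / 8) ≤ nrm (endp v m - v)) m1 m2 hfar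
          rw [← hm] at hp
          have hpre : ∀ n1 s n2, p1 = n1 ++ s :: n2 → nrm (endp v n1 - v) ≤ nrm v ^ (1 - η / 8) :=
            fun n1 s n2 hn1 => (not_le.mp (hPmin n1 s n2 hn1)).le
          obtain ⟨A, B, t1, t2, t3, t4, t5, t6, t7, t8, t9⟩ := hst E R0 hE hCC v p1 p2 (hRb.trans hv1) hv2 hpre hP
            (by rw [← hp]; exact hv3)
          obtain ⟨hz1, hz2, hz3⟩ := hyp p1 p2 hp
          have hzp : 0 < nrm (endp v p1) := by linarith [hr1.trans hR1]
          have hk := hkey (nrm v) (nrm (endp v p1)) A B (c / β - Phi α E v l) (c / β - Phi α E (endp v p1) p2)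
            (wt (tau α E) v l) (wt (tau α E) (endp v p1) p2) (hR1.trans hv1) hzp t8 t1 t2 t3 t4
            (hWt v l hvp) (hWt _ _ hzp) (wt_nonneg (tau_nonneg hE) _ _)
            (by rw [← hp, ← hβd] at t6; exact t6) hX
            (by
              rw [← hp, ← hβd] at t5
              linarith)
            (by
              rw [← hp] at t7
              have : 1 - α = -β := by rw [hβd]; ring
              rw [this] at t7
              exact t7)
          have hp1ne : p1 ≠ [] := by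
            rintro rfl
            rw [endp_nil, sub_self, nrm_zero] at hP
            have := Real.rpow_pos_of_pos hvp (1 - η / 8)
            linarith
          have hlen : p2.length < n := by
            have h1 : 0 < p1.length := List.length_pos_iff.mpr hp1ne
            have h2 : l.length = p1.length + p2.length := by rw [hp, List.length_append]
            omega
          have hih := ih p2.length hlen (endp v p1) p2 rfl (fun q1 q2 hq => by
            have := hyp (p1 ++ q1) q2 (by rw [hp, hq, List.append_assoc])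
            rw [endp_append] at this
            exact this)
          rcases List.append_eq_append_iff.mp (hp.symm.trans hl) with ⟨a', h1, h2⟩ | ⟨c', h1, h2⟩
          · -- `l1 = p1 ++ a'`
            have h3 := hih a' l2 h2
            rw [h1, endp_append]
            have h4 := dd_triangle v (endp v p1) (endp (endp v p1) a')
            linarith
          · rcases c' with _ | ⟨s, t⟩
            · rw [List.append_nil] at h1
              have h3 := hih [] p2 rfl
              rw [endp_nil, dd_self] at h3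
              rw [← h1]
              linarith
            · exact hsmall l1 l2 hl (hpre l1 s t h1)
        · push Not at hex
          exact hsmall l1 l2 hl (hex l1 l2 hl).le
  intro v l hyp l1 l2 hl
  refine (claim l.length v l rfl hyp l1 l2 hl).trans ?_
  rw [← hβd]
  obtain ⟨hv1, hv2, hv3⟩ := hyp [] l rfl
  rw [endp_nil] at hv1 hv2 hv3
  have hvp : 0 < nrm v := by linarith [hr1.trans (hR1.trans hv1)]
  refine hup (nrm v) _ _ (hR2.trans hv1) (hWt v l hvp) ?_
  have h1 := hub _ v (hRc.trans hv1) hv3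
  unfold Phi
  have h2 : nrm v ^ (α - 1) * nrm v ^ (1 - α) = 1 := by
    rw [← Real.rpow_add hvp]
    simp
  have h3 : nrm v ^ (α - 1) * wt (tau α E) v l
      ≤ nrm v ^ (α - 1) * ((1 + Kb * nrm v ^ (-(η / 8))) * (c / (α - 1)) * nrm v ^ (1 - α)) :=
    mul_le_mul_of_nonneg_left h1 (Real.rpow_nonneg hvp.le _)
  have h4 : nrm v ^ (α - 1) * ((1 + Kb * nrm v ^ (-(η / 8))) * (c / (α - 1)) * nrm v ^ (1 - α))
      = (1 + Kb * nrm v ^ (-(η / 8))) * (c / (α - 1)) * (nrm v ^ (α - 1) * nrm v ^ (1 - α)) := by ring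
  rw [h4, h2, mul_one, ← hβd] at h3
  rw [← hβd]
  linarith

end ConeD
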