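import Pool.Agent.ConeD.Dirs

/-!
# The rate of convergence when the limit shape is a ball (section 6 (R) of the text)
-/

set_option autoImplicit false

namespace ConeD

variable {d : ℕ}

/-- the smallest value of `h` beyond the distance `N` in the direction of `y` -/
noncomputable def mn (h : V d → ℝ) (y : V d) (N : ℝ) : ℝ := sInf {t : ℝ | ∃ w, N ≤ pr w y ∧ h w = t}

/-- the integer part of `x • y` -/
private noncomputable def RT_w (x : ℝ) (y : V d) : V d := fun j => ⌊x * (y j : ℝ)⌋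

private theorem RT_err (x : ℝ) (y : V d) : ‖toE (RT_w x y) - x • toE y‖ ≤ Real.sqrt d := by
  rw [EuclideanSpace.norm_eq]
  apply Real.sqrt_le_sqrt
  have h1 : ∀ j : Fin d, ‖(toE (RT_w x y) - x • toE y) j‖ ^ 2 ≤ 1 := by
    intro j
    have h2 : (toE (RT_w x y) - x • toE y) j = (⌊x * (y j : ℝ)⌋ : ℝ) - x * (y j : ℝ) := rfl
    rw [h2, Real.norm_eq_abs, sq_abs]
    have h3 := Int.floor_le (x * (y j : ℝ))
    have h4 := Int.lt_floor_add_one (x * (y j : ℝ))
    nlinarith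
  refine (Finset.sum_le_sum fun j _ => h1 j).trans ?_
  simp

private theorem RT_nrm {x : ℝ} (hx : 0 ≤ x) (y : V d) :
    nrm (RT_w x y) ≤ x * nrm y + Real.sqrt d := by
  rw [nrm_eq, nrm_eq]
  have h1 := RT_err x y
  have h2 : toE (RT_w x y) = x • toE y + (toE (RT_w x y) - x • toE y) := by abel
  rw [h2]
  refine (norm_add_le _ _).trans ?_
  rw [norm_smul, Real.norm_eq_abs, abs_of_nonneg hx]
  linarith

private theorem RT_ip (x y : V d) : ip x y = inner ℝ (toE x) (toE y) := by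
  rw [PiLp.inner_apply, ip]
  refine Finset.sum_congr rfl fun j _ => ?_
  rw [toE_apply, toE_apply]
  simp [mul_comm]

private theorem RT_pr (x : ℝ) {y : V d} (hy : 0 < nrm y) :
    x * nrm y - Real.sqrt d ≤ pr (RT_w x y) y := by
  unfold pr
  rw [le_div_iff₀ hy, RT_ip]
  have h2 : toE (RT_w x y) = x • toE y + (toE (RT_w x y) - x • toE y) := by abel
  rw [h2, inner_add_left, real_inner_smul_left, real_inner_self_eq_norm_sq, ← nrm_eq]
  have h3 := abs_real_inner_le_norm (toE (RT_w x y) - x • toE y) (toE y)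
  rw [← nrm_eq] at h3
  have h4 := (abs_le.mp h3).1
  have h5 := mul_le_mul_of_nonneg_right (RT_err x y) hy.le
  nlinarith

/-- a vertex with a prescribed component -/
private theorem RT_vertex {y : V d} (hy : y ≠ 0) {N : ℝ} (hN : 0 ≤ N) :
    ∃ w : V d, N ≤ pr w y ∧ nrm w ≤ N + 2 * Real.sqrt d := by
  have h1 : 0 < nrm y := by linarith [one_le_nrm hy]
  have h2 : 0 ≤ Real.sqrt d := Real.sqrt_nonneg _
  refine ⟨RT_w ((N + Real.sqrt d) / nrm y) y, ?_, ?_⟩
  · have := RT_pr ((N + Real.sqrt d) / nrm y) h1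
    rw [div_mul_cancel₀ _ h1.ne'] at this
    linarith
  · have := RT_nrm (x := (N + Real.sqrt d) / nrm y) (by positivity) y
    rw [div_mul_cancel₀ _ h1.ne'] at this
    linarith

/-- first visit of a walk to a set -/
private theorem RT_first (P : V d → Prop) (x : V d) (l : List (Step d)) (h0 : ¬ P x) (h1 : P (endp x l)) :
    ∃ l1 s l2, l = l1 ++ s :: l2 ∧ ¬ P (endp x l1) ∧ P (endp x l1 + vec s) := by
  classical
  induction l generalizing x with
  | nil => exact absurd h1 h0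
  | cons s l ih =>
    by_cases h : P (x + vec s)
    · exact ⟨[], s, l, rfl, h0, h⟩
    · obtain ⟨l1, s', l2, h2, h3, h4⟩ := ih (x + vec s) h h1
      exact ⟨s :: l1, s', l2, by rw [h2]; rfl, h3, h4⟩

/-- a power `r ^ (1 - η)` is negligible, from some `r` on -/
private theorem RT_neg {η c : ℝ} (hη : 0 < η) (hc : 0 < c) :
    ∃ X : ℝ, 1 ≤ X ∧ ∀ r : ℝ, X ≤ r → r ^ (1 - η) ≤ c * r := by
  have h := (tendsto_rpow_neg_atTop hη).eventually (eventually_le_nhds hc)
  obtain ⟨X, hX⟩ := (Filter.eventually_atTop.1 h)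
  refine ⟨max X 1, le_max_right _ _, fun r hr => ?_⟩
  have h1 : 1 ≤ r := (le_max_right _ _).trans hr
  have h2 := hX r ((le_max_left _ _).trans hr)
  have h3 : 0 < r := by linarith
  have h4 : r ^ (1 - η) = r ^ (-η) * r := by
    rw [show (1 - η) = (-η) + 1 by ring, Real.rpow_add h3, Real.rpow_one]
  rw [h4]
  exact mul_le_mul_of_nonneg_right h2 h3.le

private theorem RT_bdd {h : V d → ℝ} {a b C : ℝ} (hh : HF h a b C) (y : V d) (N : ℝ) :
    BddBelow {t : ℝ | ∃ w, N ≤ pr w y ∧ h w = t} :=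
  ⟨0, by rintro _ ⟨w, _, rfl⟩; exact hh.nonneg w⟩

private theorem RT_le {h : V d → ℝ} {a b C : ℝ} (hh : HF h a b C) {y w : V d} {N : ℝ} (hw : N ≤ pr w y) :
    mn h y N ≤ h w := csInf_le (RT_bdd hh y N) ⟨w, hw, rfl⟩

private theorem RT_ex {h : V d → ℝ} {a b C : ℝ} (_ : HF h a b C) {y : V d} (hy : y ≠ 0) {N : ℝ} (hN : 0 ≤ N)
    {ε : ℝ} (hε : 0 < ε) : ∃ w : V d, N ≤ pr w y ∧ h w ≤ mn h y N + ε := by
  obtain ⟨w0, hw0, _⟩ := RT_vertex hy hN
  have hne : {t : ℝ | ∃ w, N ≤ pr w y ∧ h w = t}.Nonempty := ⟨h w0, w0, hw0, rfl⟩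
  obtain ⟨t, ⟨w, hw, rfl⟩, ht⟩ := exists_lt_of_csInf_lt hne (show mn h y N < mn h y N + ε by linarith)
  exact ⟨w, hw, ht.le⟩

/-- MODULE RT1.  Superadditivity up to `K N ^ (1 - η)`, uniformly in `y`: take `w` with
`2 N ≤ pr w y` and `h w ≤ mn (2 N) + 1 ≤ K N`, a walk from `0` to `w` with weight at most
`T E 0 w + 1`, its first vertex `x` with `N ≤ pr x y` (so `pr x y ≤ N + 1`):
`T E 0 x + T E x w ≤ T E 0 w + 1`, `CC` at a radius `K N`, `h x ≥ mn N`,
`h (w - x) ≥ mn (N - 1) ≥ mn N - 2 b` (add a vertex `e` with `pr e y ≥ 1`, `nrm e ≤ 2 + d`). -/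
theorem mn_super {h : V d → ℝ} {a b C : ℝ} (hh : HF h a b C) {η : ℝ} (hη : 0 < η) (hη1 : η < 1)
    {E : Edge d → ℝ} {R0 : ℝ} (hE : ∀ e, 0 ≤ E e) (hCC : CC h η E R0) :
    ∃ K N1 : ℝ, 0 < K ∧ 1 ≤ N1 ∧ ∀ y : V d, y ≠ 0 → ∀ N : ℝ, N1 ≤ N →
      2 * mn h y N - K * N ^ (1 - η) ≤ mn h y (2 * N) := by
  have ha := hh.pos
  set B : ℝ := |b| + 1 with hB
  have hB0 : 0 < B := by have := abs_nonneg b; linarith
  have hup : ∀ z, h z ≤ B * nrm z := fun z =>
    (hh.up z).trans (mul_le_mul_of_nonneg_right (by linarith [le_abs_self b]) (nrm_nonneg z))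
  set q : ℝ := Real.sqrt d with hq
  have hq0 : 0 ≤ q := Real.sqrt_nonneg _
  obtain ⟨X, hX1, hX⟩ := RT_neg hη (show 0 < a / 4 by positivity)
  -- constants: `h w ≤ K1 N`, radius `K3 N`
  set K1 : ℝ := B * (2 + 2 * q) + 1 with hK1
  have hK1p : 1 ≤ K1 := by
    have : 0 ≤ B * (2 + 2 * q) := by positivity
    linarith
  -- `K3 ≥ K1 / a`, and `a K3 / 2 ≥ K1 + a K3 / 4 + 1`
  set K3 : ℝ := 4 * (K1 + 1) / a + 1 with hK3
  have hK3a : a * K3 = 4 * (K1 + 1) + a := by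
    rw [hK3]; field_simp
  have hK3p : 1 ≤ K3 := by
    have : 0 ≤ 4 * (K1 + 1) / a := by positivity
    linarith
  have hK3' : 0 < K3 := by linarith
  refine ⟨2 + 3 * K3 ^ (1 - η) + B * (1 + 2 * q), max (max 1 R0) X, by positivity,
    (le_max_left _ _).trans (le_max_left _ _), fun y hy N hN => ?_⟩
  have hN1 : 1 ≤ N := ((le_max_left _ _).trans (le_max_left _ _)).trans hN
  have hNR : R0 ≤ N := ((le_max_right _ _).trans (le_max_left _ _)).trans hN
  have hNX : X ≤ N := (le_max_right _ _).trans hN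
  have hN0 : 0 ≤ N := by linarith
  set R : ℝ := K3 * N with hR
  have hRN : N ≤ R := by rw [hR]; nlinarith
  have hR0 : R0 ≤ R := hNR.trans hRN
  have hRX : X ≤ R := hNX.trans hRN
  have hRp : 0 < R := by linarith
  obtain ⟨w, hw, hw2⟩ := RT_ex hh hy (show 0 ≤ 2 * N by linarith) one_pos
  have hwK : h w ≤ K1 * N := by
    obtain ⟨v, hv1, hv2⟩ := RT_vertex hy (show 0 ≤ 2 * N by linarith)
    have h1 := RT_le hh hv1
    have h2 := hup v
    have h3 : B * nrm v ≤ B * (2 * N + 2 * q) := mul_le_mul_of_nonneg_left hv2 hB0.le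
    have h4 : B * (2 * N + 2 * q) + 1 ≤ K1 * N := by
      rw [hK1]
      have : B * (2 * q) ≤ B * (2 * q) * N := by
        have : 0 ≤ B * (2 * q) := by positivity
        nlinarith
      nlinarith
    linarith
  have hwn : nrm w ≤ R := by
    have h1 := hh.low' w
    have h2 : a * nrm w ≤ a * R := by
      rw [hR]
      have : a * (K3 * N) = (4 * (K1 + 1) + a) * N := by rw [← mul_assoc, hK3a]
      rw [this]
      nlinarith
    exact le_of_mul_le_mul_left h2 ha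
  have h0n : nrm (0 : V d) ≤ R := by rw [nrm_zero]; exact hRp.le
  have hTw := (abs_le.mp (hCC R hR0 0 w h0n hwn)).2
  rw [sub_zero] at hTw
  -- the walk
  obtain ⟨l, hl, hlt⟩ := exists_wt_lt (show T E 0 w < T E 0 w + 1 by linarith)
  have hnP : ¬ N ≤ pr (0 : V d) y := by
    have : pr (0 : V d) y = 0 := by unfold pr; rw [ip_zero, zero_div]
    rw [this]; linarith
  have hPw : N ≤ pr (endp 0 l) y := by rw [hl]; linarith
  obtain ⟨l1, s, l2, h12, hx1, hx2⟩ := RT_first (fun v => N ≤ pr v y) 0 l hnP hPw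
  set x : V d := endp 0 l1 + vec s with hx
  have hl' : l = (l1 ++ [s]) ++ l2 := by rw [h12]; simp
  have hex : endp 0 (l1 ++ [s]) = x := by rw [endp_append, endp_cons, endp_nil]
  have hex2 : endp x l2 = w := by
    rw [← hl, hl', endp_append, hex]
  have hwt : wt E 0 l = wt E 0 (l1 ++ [s]) + wt E x l2 := by
    rw [hl', wt_append, hex]
  have hT1 : T E 0 x ≤ wt E 0 (l1 ++ [s]) := T_le_wt hE hex
  have hT2 : T E x w ≤ wt E x l2 := T_le_wt hE hex2
  have hT : T E 0 x + T E x w ≤ T E 0 w + 1 := by linarith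
  have hxpr : pr x y ≤ N + 1 := by
    rw [hx, pr_add]
    have h1 : pr (endp 0 l1) y < N := not_le.mp hx1
    have h2 := pr_le (vec s) y
    rw [nrm_vec] at h2
    linarith
  -- the vertex `x` has norm at most `R`
  have hRη : R ^ (1 - η) ≤ a / 4 * R := hX R hRX
  have hxn : nrm x ≤ R := by
    by_contra hcon
    push Not at hcon
    have h1 := (abs_le.mp (hCC (nrm x) (hR0.trans hcon.le) 0 x (by rw [nrm_zero]; exact nrm_nonneg _) le_rfl)).1
    rw [sub_zero] at h1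
    have h2 := hX (nrm x) (hRX.trans hcon.le)
    have h3 := hh.low' x
    have h4 := T_nonneg hE x w
    have h5 : a * nrm x ≤ T E 0 w + 1 + a / 4 * nrm x := by linarith
    have h6 : T E 0 w ≤ K1 * N + a / 4 * R := by linarith
    have h7 : a * R = (4 * (K1 + 1) + a) * N := by rw [hR, ← mul_assoc, hK3a]
    have h8 : a * R < a * nrm x := mul_lt_mul_of_pos_left hcon ha
    have h9 : 0 ≤ K1 * N := by positivity
    have h10 : 0 ≤ a * N := by positivity
    have h11 : (4 * (K1 + 1) + a) * N = 4 * (K1 * N) + 4 * N + a * N := by ring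
    rw [h11] at h7
    linarith
  have hC1 := (abs_le.mp (hCC R hR0 0 x h0n hxn)).1
  have hC2 := (abs_le.mp (hCC R hR0 x w hxn hwn)).1
  rw [sub_zero] at hC1
  have hm1 : mn h y N ≤ h x := RT_le hh hx2
  obtain ⟨e, he1, he2⟩ := RT_vertex hy (show (0 : ℝ) ≤ 1 by norm_num)
  have hm2 : mn h y N ≤ h (w - x) + B * (1 + 2 * q) := by
    have h1 : N ≤ pr (w - x + e) y := by
      rw [pr_add, pr_sub]; linarith
    have h2 := RT_le hh h1
    have h3 := hh.sub (w - x) e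
    have h4 := hup e
    have h5 : B * nrm e ≤ B * (1 + 2 * q) := mul_le_mul_of_nonneg_left he2 hB0.le
    linarith
  have hpow : R ^ (1 - η) = K3 ^ (1 - η) * N ^ (1 - η) := by
    rw [hR, Real.mul_rpow hK3'.le hN0]
  have hN1η : 1 ≤ N ^ (1 - η) := Real.one_le_rpow hN1 (by linarith)
  have hfin : 2 * mn h y N ≤ mn h y (2 * N) + 2 + 3 * R ^ (1 - η) + B * (1 + 2 * q) := by linarith
  rw [hpow] at hfin
  have h9 : (2 + B * (1 + 2 * q)) * 1 ≤ (2 + B * (1 + 2 * q)) * N ^ (1 - η) :=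
    mul_le_mul_of_nonneg_left hN1η (by positivity)
  have h10 : (2 + 3 * K3 ^ (1 - η) + B * (1 + 2 * q)) * N ^ (1 - η)
      = (2 + B * (1 + 2 * q)) * N ^ (1 - η) + 3 * (K3 ^ (1 - η) * N ^ (1 - η)) := by ring
  rw [h10]
  linarith

/-- MODULE RT2.  `mn h y N / N ≤ mn h y (2 ^ k N) / (2 ^ k N) + K N ^ (-η) ∑ 2 ^ (-j η)`, and the
first term on the right is at most `(1 + ε) c` for `k` large. -/
theorem rate {h : V d → ℝ} {a b C : ℝ} (hh : HF h a b C) {η : ℝ} (hη : 0 < η) (hη1 : η < 1)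
    {E : Edge d → ℝ} {R0 : ℝ} (hE : ∀ e, 0 ≤ E e) (hCC : CC h η E R0) {c : ℝ} (hc : 0 < c)
    (hu : ∀ y : V d, y ≠ 0 → ∀ ε : ℝ, 0 < ε → ∃ N0 : ℝ, ∀ N : ℝ, N0 ≤ N → ∃ w : V d, N ≤ pr w y ∧
      h w ≤ (1 + ε) * c * N) :
    ∃ K N1 : ℝ, 0 < K ∧ 1 ≤ N1 ∧ ∀ y : V d, y ≠ 0 → ∀ N : ℝ, N1 ≤ N →
      ∃ w : V d, N ≤ pr w y ∧ h w ≤ c * N + K * N ^ (1 - η) := by
  obtain ⟨K, N1, hK, hN1, hsup⟩ := mn_super hh hη hη1 hE hCC
  set q : ℝ := (2 : ℝ) ^ (-η) with hq
  have hq0 : 0 < q := by positivity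
  have hq1 : q < 1 := Real.rpow_lt_one_of_one_lt_of_neg (by norm_num) (by linarith)
  have h1q : 0 < 1 - q := by linarith
  refine ⟨K / (1 - q) + 1, N1, by positivity, hN1, fun y hy N hN => ?_⟩
  have hN0 : 0 < N := by linarith
  -- iteration: `mn N ≤ mn (2^k N) / 2^k + K N^(1-η) (1 - q^k) / (1 - q)`
  have hit : ∀ k : ℕ, mn h y N ≤ mn h y (2 ^ k * N) / 2 ^ k + K * N ^ (1 - η) * ((1 - q ^ k) / (1 - q)) := by
    intro k
    induction k with
    | zero => simp
    | succ k ih =>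
      have h1 : N1 ≤ 2 ^ k * N := by
        have : (1 : ℝ) ≤ 2 ^ k := one_le_pow₀ (by norm_num)
        nlinarith
      have h2 := hsup y hy (2 ^ k * N) h1
      have e1 : (2 : ℝ) * (2 ^ k * N) = 2 ^ (k + 1) * N := by ring
      rw [e1, Real.mul_rpow (by positivity) hN0.le] at h2
      have e2 : ((2 : ℝ) ^ k) ^ (1 - η) = 2 ^ k * q ^ k := by
        rw [← Real.rpow_natCast, ← Real.rpow_mul (by norm_num), hq, ← Real.rpow_natCast ((2 : ℝ) ^ (-η)),
          ← Real.rpow_mul (by norm_num), ← Real.rpow_add (by norm_num)]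
        congr 1
        ring
      rw [e2] at h2
      have hp : (0 : ℝ) < 2 ^ k := by positivity
      have h3 : mn h y (2 ^ k * N) / 2 ^ k ≤ mn h y (2 ^ (k + 1) * N) / 2 ^ (k + 1) + K * N ^ (1 - η) * q ^ k := by
        have h4 : 2 * mn h y (2 ^ k * N) ≤ mn h y (2 ^ (k + 1) * N) + K * (2 ^ k * q ^ k * N ^ (1 - η)) := by linarith
        rw [div_le_iff₀ hp]
        have e3 : (mn h y (2 ^ (k + 1) * N) / 2 ^ (k + 1) + K * N ^ (1 - η) * q ^ k) * 2 ^ k
            = mn h y (2 ^ (k + 1) * N) / 2 + K * (2 ^ k * q ^ k * N ^ (1 - η)) := by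
          rw [pow_succ]
          field_simp
        rw [e3]
        have h5 : 0 ≤ K * (2 ^ k * q ^ k * N ^ (1 - η)) := by positivity
        linarith
      have e4 : (1 - q ^ (k + 1)) / (1 - q) = (1 - q ^ k) / (1 - q) + q ^ k := by
        rw [pow_succ]
        field_simp
        ring
      rw [e4]
      calc mn h y N ≤ mn h y (2 ^ k * N) / 2 ^ k + K * N ^ (1 - η) * ((1 - q ^ k) / (1 - q)) := ih
        _ ≤ (mn h y (2 ^ (k + 1) * N) / 2 ^ (k + 1) + K * N ^ (1 - η) * q ^ k)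
            + K * N ^ (1 - η) * ((1 - q ^ k) / (1 - q)) := by linarith
        _ = _ := by ring
  have hle : mn h y N ≤ c * N + K / (1 - q) * N ^ (1 - η) := by
    refine le_of_forall_pos_le_add fun ε hε => ?_
    obtain ⟨N0, hN0'⟩ := hu y hy (ε / (c * N)) (by positivity)
    obtain ⟨k, hk⟩ := pow_unbounded_of_one_lt N0 (show (1 : ℝ) < 2 by norm_num)
    have h1 : N0 ≤ 2 ^ k * N := by
      have : (0 : ℝ) < 2 ^ k := by positivity
      nlinarith
    obtain ⟨w, hw1, hw2⟩ := hN0' _ h1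
    have h2 := (RT_le hh hw1).trans hw2
    have hp : (0 : ℝ) < 2 ^ k := by positivity
    have h3 : mn h y (2 ^ k * N) / 2 ^ k ≤ c * N + ε := by
      rw [div_le_iff₀ hp]
      refine h2.trans (le_of_eq ?_)
      field_simp
    have h4 : (1 - q ^ k) / (1 - q) ≤ 1 / (1 - q) :=
      div_le_div_of_nonneg_right (by have := pow_pos hq0 k; linarith) h1q.le
    have h5 : K * N ^ (1 - η) * ((1 - q ^ k) / (1 - q)) ≤ K * N ^ (1 - η) * (1 / (1 - q)) :=
      mul_le_mul_of_nonneg_left h4 (by positivity)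
    have e : K * N ^ (1 - η) * (1 / (1 - q)) = K / (1 - q) * N ^ (1 - η) := by ring
    have := hit k
    linarith
  obtain ⟨w, hw1, hw2⟩ := RT_ex hh hy hN0.le one_pos
  refine ⟨w, hw1, ?_⟩
  have hN1η : 1 ≤ N ^ (1 - η) := Real.one_le_rpow (hN1.trans hN) (by linarith)
  have : (K / (1 - q) + 1) * N ^ (1 - η) = K / (1 - q) * N ^ (1 - η) + N ^ (1 - η) := by ring
  linarith

end ConeD
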