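import Pool.Agent.ConeD.Ray
import Pool.Agent.ConeD.Rate
import Pool.Agent.ConeD.Euc

/-!
# Cone avoidance with positive probability in every dimension (section 6 of the text)
-/

set_option autoImplicit false

namespace ConeD

variable {d : ℕ}

open MeasureTheory

private theorem NE1_near {p x v : V d} {n k : ℕ} {B R δ : ℝ} (hR : 0 < R)
    (hv : 7 / 8 * R ≤ nrm v) (hk : nrm (v - k • p) ≤ B) (hB : 8 * |B| ≤ R)
    (hx : nrm (x - v) ≤ δ * R) (hxx : 3 / 4 * R ≤ nrm x) :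
    dd x p ≤ 4 * δ + 4 * |B| / R := by
  have hBa := le_abs_self B
  have hB0 := abs_nonneg B
  have h1 : R / 2 ≤ nrm (k • p) := by
    have := nrm_le_add v (k • p)
    linarith
  have h2 : k • p ≠ 0 := by
    intro h
    rw [h, nrm_zero] at h1
    linarith
  have h3 : 0 < k := by
    rcases Nat.eq_zero_or_pos k with h | h
    · rw [h, zero_smul] at h2
      exact absurd rfl h2
    · exact h
  have h4 : x ≠ 0 := by
    intro h
    rw [h, nrm_zero] at hxx
    linarith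
  have h5 : dd x (k • p) ≤ 2 * nrm (x - k • p) / nrm (k • p) := dd_facts.2.1 x (k • p) h4 h2
  have h6 : dd (k • p) p = 0 := dd_facts.1 p k h3
  have h7 : nrm (x - k • p) ≤ δ * R + |B| := by
    have := nrm_triangle x v (k • p)
    linarith
  have h8 : 0 < nrm (k • p) := by linarith
  have h9 : 2 * nrm (x - k • p) / nrm (k • p) ≤ 2 * (δ * R + |B|) / (R / 2) := by
    have h10 : 0 ≤ 2 * (δ * R + |B|) := by
      have := nrm_nonneg (x - k • p)
      linarith
    exact div_le_div₀ h10 (by linarith) (by linarith) h1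
  have h10 : 2 * (δ * R + |B|) / (R / 2) = 4 * δ + 4 * |B| / R := by
    field_simp
    ring
  have h11 := dd_triangle x (k • p) p
  linarith

/-- MODULE NE1.  Deterministic part of case 1: if the support constant `g` in the direction of `p`
is smaller than the one in the direction of `q`, a barrier in the direction of `p` keeps
everything away from the direction of `q`.  `gl_near` with `g < M1 < gl h q` gives `ρ`, which we
may take less than `dd p q / 2` (`dd p q > 0` since `gl` depends only on the direction: if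
`dd p q = 0` then `pr z p = pr z q`); `barrier` with `Dir y := y ≠ 0 ∧ dd y q ≤ ρ`, `C1 = 0`; only
the case `l1 = l` of its conclusion is used. -/
theorem non_bar {h : V d → ℝ} {a b C : ℝ} (hh : HF h a b C) {η : ℝ} (hη : 0 < η) (hη1 : η ≤ 1)
    {p q : V d} (hp : p ≠ 0) (hq : q ≠ 0) (hpq : gl h p < gl h q) :
    ∃ ε ρ α0 : ℝ, 0 < ε ∧ 0 < ρ ∧ ρ ≤ 1 ∧ 2 ≤ α0 ∧ ∀ α, α0 < α → ∀ B : ℝ, ∃ n0 : ℕ,
      ∀ (n : ℕ) (τ' : Edge d → ℝ), n0 ≤ n → HasBar h η α ε (gl h p) B p n τ' →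
      ∀ x ∈ Ainf τ', nrm x ≤ max (n * nrm p) (n * nrm p + B) ∨ (x ≠ 0 ∧ ρ ≤ dd x q) := by
  have hg := gl_facts hh hp
  have hg0 : 0 < gl h p := hh.pos.trans_le hg.1
  obtain ⟨M1, hM1a, hM1b⟩ := exists_between hpq
  obtain ⟨ρ0, hρ0, hnear⟩ := gl_near hh hq (hg0.trans hM1a) hM1b
  have hδ : 0 < dd p q := by
    rcases (dd_nonneg p q).eq_or_lt with h0 | h0
    · exfalso
      have key : ∀ z : V d, pr z p = pr z q := by
        intro z
        have h1 := dd_facts.2.2.1 p q z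
        rw [← h0, zero_mul] at h1
        have h2 := abs_nonpos_iff.1 h1
        linarith
      have hF : ∀ f g : V d → ℝ, (∀ z, f z = g z) → (⨅ z : {z : V d // 0 < f z}, h z / f z) =
          ⨅ z : {z : V d // 0 < g z}, h z / g z := by
        intro f g hfg
        have : f = g := funext hfg
        subst this
        rfl
      have h1 : gl h p = gl h q := hF _ _ key
      exact absurd h1 hpq.ne
    · exact h0
  obtain ⟨ε, K, α1, hε, hK, hα1, hbar⟩ := barrier hh hη hη1 hg0 hM1a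
  set δ := dd p q with hδd
  set ρ := min 1 (min (ρ0 / 2) (δ / 4)) with hρ
  have hρ1 : ρ ≤ 1 := min_le_left _ _
  have hρ2 : ρ ≤ ρ0 / 2 := (min_le_right _ _).trans (min_le_left _ _)
  have hρ3 : ρ ≤ δ / 4 := (min_le_right _ _).trans (min_le_right _ _)
  have hρpos : 0 < ρ := lt_min one_pos (lt_min (by positivity) (by positivity))
  refine ⟨ε, ρ, max (max α1 (1 + K)) (max (1 + 4 * K / ρ0) (1 + 16 * K / δ)), hε, hρpos, hρ1,
    hα1.trans ((le_max_left _ _).trans (le_max_left _ _)), ?_⟩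
  intro α hα B
  have hαa : α1 < α := ((le_max_left _ _).trans (le_max_left _ _)).trans_lt hα
  have hαb : 1 + K < α := ((le_max_right _ _).trans (le_max_left _ _)).trans_lt hα
  have hαc : 1 + 4 * K / ρ0 < α := ((le_max_left _ _).trans (le_max_right _ _)).trans_lt hα
  have hαd : 1 + 16 * K / δ < α := ((le_max_right _ _).trans (le_max_right _ _)).trans_lt hα
  have hβ : 0 < α - 1 := by linarith
  have hK1 : K / (α - 1) < 1 := by
    rw [div_lt_one hβ]
    linarith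
  have hK2 : 4 * (K / (α - 1)) ≤ ρ0 := by
    have : 4 * K / ρ0 < α - 1 := by linarith
    rw [div_lt_iff₀ hρ0] at this
    rw [← mul_div_assoc, div_le_iff₀ hβ]
    linarith
  have hK3 : 16 * (K / (α - 1)) ≤ δ := by
    have : 16 * K / δ < α - 1 := by linarith
    rw [div_lt_iff₀ hδ] at this
    rw [← mul_div_assoc, div_le_iff₀ hβ]
    linarith
  obtain ⟨R1, hR1⟩ := hbar α hαa 0 B
  obtain ⟨n0, hn0⟩ := exists_nat_ge (max R1 (max (8 * |B| + 1) (16 * |B| / δ)))
  refine ⟨n0, ?_⟩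
  intro n τ' hn hb x hx
  obtain ⟨E, R0, pw, hR0, hBar, hpw, hk, hS⟩ := hb
  have hp1 : 1 ≤ nrm p := one_le_nrm hp
  have hnR : (n0 : ℝ) ≤ n * nrm p := by
    have h1 : (n0 : ℝ) ≤ n := by exact_mod_cast hn
    have h2 : (0 : ℝ) ≤ n := Nat.cast_nonneg n
    nlinarith
  have hRR := hn0.trans hnR
  have hRa : R1 ≤ n * nrm p := (le_max_left _ _).trans hRR
  have hRb : 8 * |B| + 1 ≤ n * nrm p := ((le_max_left _ _).trans (le_max_right _ _)).trans hRR
  have hRc : 16 * |B| / δ ≤ n * nrm p := ((le_max_right _ _).trans (le_max_right _ _)).trans hRR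
  have hB0 := abs_nonneg B
  have hRpos : 0 < n * nrm p := by linarith
  have main := hR1 E R0 (n * nrm p) pw τ' hRa hR0 hBar hS (fun y => y ≠ 0 ∧ dd y q ≤ ρ0)
    (fun y hy z => by rw [sub_zero]; exact hnear y hy.1 hy.2 z) x hx
  rcases main with main | ⟨p1, p2, l, h1, h2, h3, h4⟩
  · exact Or.inl main
  right
  obtain ⟨h5, h6⟩ := h4 l [] (by simp)
  rw [h3] at h5 h6
  have hx0 : x ≠ 0 := by
    intro h
    rw [h, nrm_zero] at h5
    linarith
  refine ⟨hx0, ?_⟩
  rcases h6 with h6 | ⟨y, hy, h6⟩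
  · obtain ⟨k, -, hk1⟩ := hk p1 p2 h1
    have h7 := NE1_near (n := n) hRpos h2 hk1 (by linarith) h6 h5
    have h8 := dd_triangle p x q
    rw [dd_comm p x] at h8
    have h9 : 4 * |B| / (n * nrm p) ≤ δ / 4 := by
      rw [div_le_iff₀ hδ] at hRc
      rw [div_le_iff₀ hRpos]
      linarith
    linarith
  · have hxpos : 0 < nrm x := by linarith
    have hy0 : y ≠ 0 := by
      intro h
      rw [h, sub_zero] at h6
      have : K / (α - 1) * nrm x < 1 * nrm x := mul_lt_mul_of_pos_right hK1 hxpos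
      linarith
    have hyq : ρ0 < dd y q := by
      by_contra hcon
      exact hy ⟨hy0, not_lt.1 hcon⟩
    have h7 : dd y x ≤ 2 * nrm (y - x) / nrm x := dd_facts.2.1 y x hy0 hx0
    have h8 : 2 * nrm (y - x) / nrm x ≤ 2 * (K / (α - 1)) := by
      rw [div_le_iff₀ hxpos, nrm_sub_comm y x]
      linarith
    have h9 := dd_triangle y x q
    linarith

private theorem EB_mid (e : Edge d) :
    mid e ≤ nrm e.1 + 1 / 2 ∧ mid e ≤ nrm (e.1 + ev e.2) + 1 / 2 := by
  have h1 : edg e.1 (e.2, true) = e := by simp [edg]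
  have h2 : edg (e.1 + ev e.2) (e.2, false) = e := by simp [edg]
  have h3 := mid_edg_le e.1 (e.2, true)
  have h4 := mid_edg_le (e.1 + ev e.2) (e.2, false)
  rw [h1] at h3
  rw [h2] at h4
  exact ⟨h3, h4⟩

/-- MODULE EB.  Deterministic part of case 2: as in the proof of `barrier` (`last_on`, `no_block`,
`case_mid`, `inward`, `sup_ball`), with `euc_dir` instead of `case_far`. -/
theorem euc_bar {h : V d → ℝ} {a b C : ℝ} (hh : HF h a b C) {η : ℝ} (hη : 0 < η) (hη1 : η < 1)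
    {c : ℝ} (hc0 : 0 < c) (hc : ∀ z, c * nrm z ≤ h z) {Kr N1 : ℝ}
    (hKr : 0 < Kr) (hr : ∀ y : V d, y ≠ 0 → ∀ N : ℝ, N1 ≤ N → ∃ w : V d, N ≤ pr w y ∧
      h w ≤ c * N + Kr * N ^ (1 - η)) {p : V d} (hp : p ≠ 0) :
    ∃ K α0 : ℝ, 0 < K ∧ 2 ≤ α0 ∧ ∀ α, α0 < α → ∀ B : ℝ, ∃ n0 : ℕ,
      ∀ (n : ℕ) (τ' : Edge d → ℝ), n0 ≤ n → HasBar h η α 1 c B p n τ' →
      ∀ x ∈ Ainf τ', nrm x ≤ max (n * nrm p) (n * nrm p + B) ∨ (x ≠ 0 ∧ dd x p ≤ K / (α - 1)) := by
  obtain ⟨α1, K4, hα1, hK4, hdir⟩ := euc_dir hh hη hη1 hc0 hc hKr hr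
  have hc1 : 0 < 2 * c := by positivity
  obtain ⟨α2, hα2, hmid⟩ := case_mid hh hη hη1.le hc1
  obtain ⟨Ki, hKi, hinw⟩ := inward hh hη hη1.le
  refine ⟨K4 + 1, max (max α1 α2) (1 + 7 * Ki), by positivity,
    hα1.trans ((le_max_left _ _).trans (le_max_left _ _)), ?_⟩
  intro α hα B
  have hαa : α1 < α := ((le_max_left _ _).trans (le_max_left _ _)).trans_lt hα
  have hαb : α2 < α := ((le_max_right _ _).trans (le_max_left _ _)).trans_lt hα
  have hαc : 1 + 7 * Ki < α := (le_max_right _ _).trans_lt hα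
  have hα1' : 1 < α := by linarith
  have hβ : 0 < α - 1 := by linarith
  obtain ⟨Ku, Ru, hKu, hsup⟩ := sup_ball hh hη hη1.le hα1'
  obtain ⟨Rd, hRd⟩ := hdir α hαa Ku hKu
  obtain ⟨Rb, hRb⟩ := hinw α (by linarith)
  obtain ⟨Rc, hRc⟩ := ub_crude hh hη hη1.le hα1' hKu
  obtain ⟨Rm, hRm⟩ := hmid α hαb
  obtain ⟨Rs, hRs⟩ : ∃ Rs : ℝ, ∀ R, Rs ≤ R → (1 + 1) * (c / (α - 1)) * R ^ (1 - α) < 1 := by
    have h1 : Filter.Tendsto (fun R : ℝ => (1 + 1) * (c / (α - 1)) * R ^ (1 - α))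
        Filter.atTop (nhds ((1 + 1) * (c / (α - 1)) * 0)) := by
      have h2 : Filter.Tendsto (fun R : ℝ => R ^ (-(α - 1))) Filter.atTop (nhds 0) :=
        tendsto_rpow_neg_atTop hβ
      rw [neg_sub] at h2
      exact h2.const_mul _
    rw [mul_zero] at h1
    obtain ⟨Rs, hRs⟩ := Filter.eventually_atTop.mp (h1.eventually (gt_mem_nhds one_pos))
    exact ⟨Rs, hRs⟩
  obtain ⟨n0, hn0⟩ := exists_nat_ge (max (max (max (2 * Rd) (2 * Rb)) (max (2 * Rc) Rm))
    (max (max Rs (2 * Ru)) (max (8 * |B| + 12) (4 * |B| * (α - 1)))))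
  refine ⟨n0, ?_⟩
  intro n τ' hn hbb x hx
  obtain ⟨E, R0, pw, hR0, hb, hpw, hk, hS⟩ := hbb
  have hp1 : 1 ≤ nrm p := one_le_nrm hp
  have hnR : (n0 : ℝ) ≤ n * nrm p := by
    have h1 : (n0 : ℝ) ≤ n := by exact_mod_cast hn
    have h2 : (0 : ℝ) ≤ n := Nat.cast_nonneg n
    nlinarith
  have hRR := hn0.trans hnR
  set R := n * nrm p with hRdef
  have hR_d : 2 * Rd ≤ R :=
    ((le_max_left _ _).trans ((le_max_left _ _).trans (le_max_left _ _))).trans hRR
  have hR_b : 2 * Rb ≤ R :=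
    ((le_max_right _ _).trans ((le_max_left _ _).trans (le_max_left _ _))).trans hRR
  have hR_c : 2 * Rc ≤ R :=
    ((le_max_left _ _).trans ((le_max_right _ _).trans (le_max_left _ _))).trans hRR
  have hR_m : Rm ≤ R :=
    ((le_max_right _ _).trans ((le_max_right _ _).trans (le_max_left _ _))).trans hRR
  have hR_s : Rs ≤ R :=
    ((le_max_left _ _).trans ((le_max_left _ _).trans (le_max_right _ _))).trans hRR
  have hR_u : 2 * Ru ≤ R :=
    ((le_max_right _ _).trans ((le_max_left _ _).trans (le_max_right _ _))).trans hRR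
  have hR_B : 8 * |B| + 12 ≤ R :=
    ((le_max_left _ _).trans ((le_max_right _ _).trans (le_max_right _ _))).trans hRR
  have hR_A : 4 * |B| * (α - 1) ≤ R :=
    ((le_max_right _ _).trans ((le_max_right _ _).trans (le_max_right _ _))).trans hRR
  have hB0 := abs_nonneg B
  have hRpos : 0 < R := by linarith
  have hlt1 := hRs R hR_s
  obtain ⟨l0, hl0, hw0⟩ := hx
  obtain ⟨p1, p2, l1, l2, hpp, hl, h3, h4⟩ := last_on pw l0
  have hgood := good_of_lt hb.nn hb.ex hw0
  have hgr : Good τ' (endp 0 p1) l2 := by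
    rw [hl] at hgood
    have := hgood.right
    rwa [h3] at this
  have hendx : endp (endp 0 p1) l2 = x := by
    rw [← hl0, hl, endp_append, h3]
  have hSv := S_le_wt_add_S hb.nn hb.ex (endp 0 p1) p2
  have hpe : endp (endp 0 p1) p2 = endp 0 pw := by rw [hpp, endp_append]
  have hpwt : wt τ' 0 pw = wt τ' 0 p1 + wt τ' (endp 0 p1) p2 := by rw [hpp, wt_append]
  have hp1n := wt_nonneg hb.nn 0 p1
  rw [hpe] at hSv
  have hwl : wt τ' (endp 0 p1) l2 < (1 + 1) * (c / (α - 1)) * R ^ (1 - α) := by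
    have := hgr.wt_lt
    linarith
  obtain ⟨heq, hnn⟩ := no_block hb h4 (hwl.trans hlt1)
  have heq0 : wt τ' (endp 0 p1) l2 = wt (tau α E) (endp 0 p1) l2 := heq [] l2 rfl
  by_cases hnil : l2 = []
  · left
    rw [hnil, endp_nil] at hendx
    rw [← hendx]
    exact (hb.pwR p1 p2 hpp).trans (le_max_right _ _)
  by_cases hcase : nrm (endp 0 p1) ≤ 7 / 8 * R
  · left
    rw [← hendx]
    refine le_trans ?_ (le_max_left _ _)
    refine hRm E R0 hb.Enn hb.cc R (endp 0 p1) l2 hR_m (by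
      by_cases h0 : 0 ≤ R0
      · linarith
      · linarith) hcase ?_
    rw [← heq0]
    refine hwl.trans_le (le_of_eq ?_)
    ring
  · right
    push Not at hcase
    set v := endp 0 p1 with hv
    have hvpos : 0 < nrm v := by linarith
    -- upper bounds
    have hUB : ∀ m1 m2, l2 = m1 ++ m2 → 3 / 4 * R ≤ nrm (endp v m1) →
        UB h η α Ku (wt (tau α E) (endp v m1) m2) (endp v m1) := by
      intro m1' m2' h12 hnr
      intro w hw1 hw2
      have hinf := hsup E R0 hb.Enn hb.cc R τ' hb.nn (by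
        intro e he
        by_cases hmem : e ∈ edges 0 pw
        · exact hb.onp e hmem
        · have hni : ¬ Inner R e := by
            intro hin
            unfold Inner at hin
            have h5 := EB_mid e
            rcases hin with hin | hin
            · linarith [h5.1]
            · linarith [h5.2]
          exact (hb.off e hmem hni).le) (endp v m1') w (by linarith) (by linarith) hnr hw1 hw2
      have h6 := S_le_of_infinite hb.nn hinf
      have h7 := (hgr m1' m2' h12)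
      rw [heq m1' m2' h12] at h7
      linarith
    have hfar : ∀ m1 m2, l2 = m1 ++ m2 → 3 / 4 * R ≤ nrm (endp v m1) := by
      intro m1 m2 h
      have h1 := hRb E R0 hb.Enn hb.cc v l2 (by linarith) (by linarith) (fun a b hab hva =>
        hRc _ _ (by linarith) (hUB a b hab (by linarith))) m1 m2 h
      have h2 : Ki / (α - 1) ≤ 1 / 7 := by
        rw [div_le_iff₀ hβ]; linarith
      have h3 : (1 - 1 / 7) * nrm v ≤ (1 - Ki / (α - 1)) * nrm v :=
        mul_le_mul_of_nonneg_right (by linarith) hvpos.le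
      linarith
    have hmain := hRd E R0 hb.Enn hb.cc v l2 (fun m1 m2 h => ⟨by linarith [hfar m1 m2 h],
      by linarith [hfar m1 m2 h], hUB m1 m2 h (hfar m1 m2 h)⟩) l2 [] (by simp)
    rw [hendx] at hmain
    have hxx : 3 / 4 * R ≤ nrm x := by
      have := hfar l2 [] (by simp)
      rwa [hendx] at this
    refine ⟨?_, ?_⟩
    · intro h
      rw [h, nrm_zero] at hxx
      linarith
    · obtain ⟨k, -, hk1⟩ := hk p1 p2 hpp
      have h5 := NE1_near (p := p) (x := v) (v := v) (n := n) (k := k) (B := B) (δ := 0) hRpos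
        hcase.le hk1 (by linarith) (by rw [sub_self, nrm_zero, zero_mul]) (by linarith)
      have h6 := dd_triangle x v p
      rw [dd_comm x v] at h6
      have h7 : 4 * |B| / R ≤ 1 / (α - 1) := by
        rw [div_le_div_iff₀ hRpos hβ]
        linarith
      rw [add_div]
      linarith

private theorem EV1_eta (d : ℕ) : 0 < eta d ∧ eta d < 1 := by
  unfold eta
  have h : (0 : ℝ) ≤ d := Nat.cast_nonneg d
  constructor
  · positivity
  · rw [div_lt_one (by positivity)]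
    linarith

private theorem EV1_sq {q : V d} (hq : q ≠ 0) : ∑ j, ((q j : ℝ) / nrm q) ^ 2 = 1 := by
  have h1 : 0 < nrm q := by linarith [one_le_nrm hq]
  have h2 := nrm_sq q
  simp only [div_pow]
  rw [← Finset.sum_div, ← h2, div_self (by positivity)]

private theorem EV1_pr (x q : V d) : ∑ j, (x j : ℝ) * ((q j : ℝ) / nrm q) = pr x q := by
  unfold pr ip
  rw [Finset.sum_div]
  refine Finset.sum_congr rfl fun j _ => ?_
  ring

/-- MODULE EV1.  Case 1: the support constant is not the same in all directions.  `u` is the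
opposite of the direction of `q`, `κ = -(1 - ρ ^ 2 / 2)`. -/
theorem every_non {p q : V d} (hp : p ≠ 0) (hq : q ≠ 0)
    (hpq : gl (hm (d := d)) p < gl (hm (d := d)) q) :
    ∃ α0 : ℝ, 1 ≤ α0 ∧ ∀ α : ℝ, α0 < α → ∃ (κ M : ℝ) (u : Fin d → ℝ), |κ| < 1 ∧ 0 ≤ M ∧
      ∑ j, u j ^ 2 = 1 ∧
      (PE d) {E | (∀ e, 0 < E e) ∧ Explodes (tau α E) ∧ ∀ x ∈ Ainf (tau α E),
        κ * nrm x - M ≤ ∑ j, (x j : ℝ) * u j} ≠ 0 := by
  obtain ⟨a, C, hh⟩ := hf_hm d
  obtain ⟨he0, he1⟩ := EV1_eta d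
  obtain ⟨hg1, -, -, hU⟩ := gl_facts hh hp
  have hg0 : 0 < gl (hm (d := d)) p := hh.pos.trans_le hg1
  obtain ⟨ε, ρ, α0, hε, hρ, hρ1, hα0, hbar⟩ := non_bar hh he0 he1.le hp hq hpq
  obtain ⟨B, hB, hforce⟩ := force_ray hp hg0 hU
  refine ⟨α0, by linarith, ?_⟩
  intro α hα
  obtain ⟨n0, hn0⟩ := hbar α hα B
  obtain ⟨n, hn, hP⟩ := hforce α (by linarith) ε hε n0
  set M0 := max (n * nrm p) (n * nrm p + B) with hM0
  have hM00 : 0 ≤ M0 := (mul_nonneg (Nat.cast_nonneg n) (nrm_nonneg p)).trans (le_max_left _ _)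
  refine ⟨-(1 - ρ ^ 2 / 2), 2 * M0, fun j => -((q j : ℝ) / nrm q), ?_, by positivity, ?_, ?_⟩
  · rw [abs_neg, abs_lt]
    constructor
    · nlinarith
    · nlinarith [pow_pos hρ 2]
  · simp only [neg_sq]
    exact EV1_sq hq
  · refine fun h0 => hP (measure_mono_null ?_ h0)
    rintro E ⟨h1, h2, h3⟩
    refine ⟨h1, h2, ?_⟩
    intro x hx
    have h4 : ∑ j, (x j : ℝ) * (-((q j : ℝ) / nrm q)) = -pr x q := by
      rw [← EV1_pr, ← Finset.sum_neg_distrib]
      refine Finset.sum_congr rfl fun j _ => ?_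
      ring
    rw [h4]
    have hxn := nrm_nonneg x
    rcases hn0 n (tau α E) hn h3 x hx with h5 | ⟨h5, h6⟩
    · have h6 := pr_le x q
      have h7 : -(1 - ρ ^ 2 / 2) * nrm x ≤ 1 * nrm x :=
        mul_le_mul_of_nonneg_right (by nlinarith) hxn
      linarith
    · have h7 := dd_facts.2.2.2 q x hq h5
      rw [h7]
      rw [dd_comm] at h6
      have h8 : ρ ^ 2 ≤ dd q x ^ 2 := pow_le_pow_left₀ hρ.le h6 2
      have h9 : nrm x * (1 - dd q x ^ 2 / 2) ≤ nrm x * (1 - ρ ^ 2 / 2) :=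
        mul_le_mul_of_nonneg_left (by linarith) hxn
      linarith

/-- MODULE EV2.  Case 2: the support constant is `c` in all directions (so `c |z| ≤ hm z`, and
`rate` applies with an `E` given by `conc`).  `u` is the direction of `p`, `κ = 1/2`. -/
theorem every_euc (hd : 0 < d) (hall : ∀ p q : V d, p ≠ 0 → q ≠ 0 →
    gl (hm (d := d)) p = gl (hm (d := d)) q) :
    ∃ α0 : ℝ, 1 ≤ α0 ∧ ∀ α : ℝ, α0 < α → ∃ (κ M : ℝ) (u : Fin d → ℝ), |κ| < 1 ∧ 0 ≤ M ∧
      ∑ j, u j ^ 2 = 1 ∧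
      (PE d) {E | (∀ e, 0 < E e) ∧ Explodes (tau α E) ∧ ∀ x ∈ Ainf (tau α E),
        κ * nrm x - M ≤ ∑ j, (x j : ℝ) * u j} ≠ 0 := by
  obtain ⟨a, C, hh⟩ := hf_hm d
  obtain ⟨he0, he1⟩ := EV1_eta d
  set i0 : Fin d := ⟨0, hd⟩
  set p : V d := ev i0 with hpd
  have hp : p ≠ 0 := by
    intro h
    have h1 := nrm_ev i0
    rw [← hpd, h, nrm_zero] at h1
    norm_num at h1
  obtain ⟨hg1, -, -, hU⟩ := gl_facts hh hp
  set c := gl (hm (d := d)) p with hcd
  have hc0 : 0 < c := hh.pos.trans_le hg1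
  have hc : ∀ z : V d, c * nrm z ≤ hm z := by
    intro z
    by_cases hz : z = 0
    · rw [hz, nrm_zero, mul_zero]
      exact hm_nonneg 0
    · have h1 := (gl_facts hh hz).2.2.1 z
      rw [hall z p hz hp, pr_self (by linarith [one_le_nrm hz])] at h1
      exact h1
  have hu : ∀ y : V d, y ≠ 0 → ∀ ε : ℝ, 0 < ε → ∃ N0 : ℝ, ∀ N : ℝ, N0 ≤ N → ∃ w : V d,
      N ≤ pr w y ∧ hm w ≤ (1 + ε) * c * N := by
    intro y hy ε hε
    obtain ⟨N0, h1⟩ := (gl_facts hh hy).2.2.2 ε hε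
    rw [hall y p hy hp] at h1
    exact ⟨N0, h1⟩
  obtain ⟨E0, hE0, R0, hCC⟩ := ((ae_pos (d := d)).and (conc d)).exists
  obtain ⟨Kr, N1, hKr, -, hr⟩ := rate hh he0 he1 (fun e => (hE0 e).le) hCC hc0 hu
  obtain ⟨K, α0, hK, hα0, hbar⟩ := euc_bar hh he0 he1 hc0 hc hKr hr hp
  obtain ⟨B, hB, hforce⟩ := force_ray hp hc0 hU
  refine ⟨max α0 (1 + K), (by linarith : 1 ≤ α0).trans (le_max_left _ _), ?_⟩
  intro α hα
  have hαa : α0 < α := (le_max_left _ _).trans_lt hα
  have hαb : 1 + K < α := (le_max_right _ _).trans_lt hα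
  have hβ : 0 < α - 1 := by linarith
  have hK1 : K / (α - 1) ≤ 1 := by
    rw [div_le_one hβ]
    linarith
  obtain ⟨n0, hn0⟩ := hbar α hαa B
  obtain ⟨n, hn, hP⟩ := hforce α (by linarith) 1 one_pos n0
  set M0 := max (n * nrm p) (n * nrm p + B) with hM0
  have hM00 : 0 ≤ M0 := (mul_nonneg (Nat.cast_nonneg n) (nrm_nonneg p)).trans (le_max_left _ _)
  refine ⟨1 / 2, 2 * M0, fun j => (p j : ℝ) / nrm p, ?_, by positivity, EV1_sq hp, ?_⟩
  · rw [abs_of_pos (by norm_num)]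
    norm_num
  · refine fun h0 => hP (measure_mono_null ?_ h0)
    rintro E ⟨h1, h2, h3⟩
    refine ⟨h1, h2, ?_⟩
    intro x hx
    rw [EV1_pr]
    have hxn := nrm_nonneg x
    rcases hn0 n (tau α E) hn h3 x hx with h5 | ⟨h5, h6⟩
    · have h6 := (abs_le.1 (abs_pr_le x p)).1
      linarith
    · have h7 := dd_facts.2.2.2 p x hp h5
      rw [h7]
      rw [dd_comm] at h6
      have h8 : dd p x ^ 2 ≤ 1 ^ 2 := pow_le_pow_left₀ (dd_nonneg _ _) (h6.trans hK1) 2
      have h9 : nrm x * (1 - 1 ^ 2 / 2) ≤ nrm x * (1 - dd p x ^ 2 / 2) :=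
        mul_le_mul_of_nonneg_left (by linarith) hxn
      linarith

/-- cone avoidance with positive probability in every dimension -/
theorem every_conf (hd : 0 < d) :
    ∃ α0 : ℝ, 1 ≤ α0 ∧ ∀ α : ℝ, α0 < α → ∃ (κ M : ℝ) (u : Fin d → ℝ), |κ| < 1 ∧ 0 ≤ M ∧
      ∑ j, u j ^ 2 = 1 ∧
      (PE d) {E | (∀ e, 0 < E e) ∧ Explodes (tau α E) ∧ ∀ x ∈ Ainf (tau α E),
        κ * nrm x - M ≤ ∑ j, (x j : ℝ) * u j} ≠ 0 := by
  by_cases hall : ∀ p q : V d, p ≠ 0 → q ≠ 0 → gl (hm (d := d)) p = gl (hm (d := d)) q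
  · exact every_euc hd hall
  · push Not at hall
    obtain ⟨p, q, hp, hq, hne⟩ := hall
    rcases lt_or_gt_of_ne hne with h | h
    · exact every_non hp hq h
    · exact every_non hq hp h

end ConeD
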