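import Pool.Agent.ConeD.Defs

/-!
Exploration of the edges in the order of their infection.  Lists of explored edges have the
newest edge first.
-/

set_option autoImplicit false

namespace ConeD

variable {d : ℕ}

/-- the two ends of an edge -/
def ends (e : Edge d) : Finset (V d) := {e.1, e.1 + ev e.2}

/-- the origin and the ends of the explored edges -/
def vs : List (Edge d) → Finset (V d)
  | [] => {0}
  | s :: σ => vs σ ∪ ends s

/-- unexplored edges touching the explored vertices -/
def bd (σ : List (Edge d)) : Finset (Edge d) :=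
  ((vs σ ×ˢ (Finset.univ : Finset (Fin d))) ∪
    (vs σ ×ˢ (Finset.univ : Finset (Fin d))).image (fun q => (q.1 - ev q.2, q.2))).filter
      (fun f => f ∉ σ)

/-- smallest arrival time at the explored ends of `f` -/
noncomputable def accs (W : Finset (V d)) (θ : V d → ℝ) (f : Edge d) : ℝ :=
  if f.1 ∈ W then (if f.1 + ev f.2 ∈ W then min (θ f.1) (θ (f.1 + ev f.2)) else θ f.1)
  else θ (f.1 + ev f.2)

/-- time of the last explored edge, and arrival times at the vertices -/
noncomputable def st (τ : Edge d → ℝ) : List (Edge d) → ℝ × ((V d) → ℝ)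
  | [] => (0, fun _ => 0)
  | s :: σ => (accs (vs σ) (st τ σ).2 s + τ s,
      fun v => if v ∈ vs σ then (st τ σ).2 v else accs (vs σ) (st τ σ).2 s + τ s)

/-- time at which the last edge is explored -/
noncomputable def tm (τ : Edge d → ℝ) (σ : List (Edge d)) : ℝ := (st τ σ).1

/-- arrival times -/
noncomputable def th (τ : Edge d → ℝ) (σ : List (Edge d)) (v : V d) : ℝ := (st τ σ).2 v

/-- time at which the edge `f` becomes accessible -/
noncomputable def ac (τ : Edge d → ℝ) (σ : List (Edge d)) (f : Edge d) : ℝ := accs (vs σ) (th τ σ) f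

/-- the exploration starts with the edges of `σ` -/
def G (τ : Edge d → ℝ) : List (Edge d) → Prop
  | [] => True
  | s :: σ => G τ σ ∧ s ∈ bd σ ∧ ∀ f ∈ bd σ, f ≠ s → ac τ σ s + τ s < ac τ σ f + τ f

/-- the part of the event `G` which depends on the explored edges -/
def D (τ : Edge d → ℝ) : List (Edge d) → Prop
  | [] => True
  | s :: σ => D τ σ ∧ s ∈ bd σ ∧ tm τ σ < ac τ σ s + τ s

end ConeD
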