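import Pool.Agent.ConeD.Prod

/-! Forcing the values of finitely many coordinates (end of section 4 of the text). -/

set_option autoImplicit false

namespace ConeD

variable {d : ℕ}

open MeasureTheory

/-- one coordinate -/
private theorem fp_one (e : Edge d) (I : Set ℝ) (hI : ConeE.mE I ≠ 0)
    (A B : Set (Edge d → ℝ)) (hA : (PE d) A ≠ 0)
    (h : ∀ E ∈ A, ∀ t ∈ I, Function.update E e t ∈ B) : (PE d) B ≠ 0 := by
  intro hB
  have hBm : MeasurableSet (toMeasurable (PE d) B) := measurableSet_toMeasurable _ _
  have hB00 : (PE d) (toMeasurable (PE d) B) = 0 := by rw [measure_toMeasurable, hB]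
  have hU := measurePreserving_update (d := d) e
  have h1 : ((PE d).prod ConeE.mE)
      ((fun q : (Edge d → ℝ) × ℝ => Function.update q.1 e q.2) ⁻¹'
        (toMeasurable (PE d) B)) = 0 := by
    rw [hU.measure_preimage hBm.nullMeasurableSet, hB00]
  have h2 := (Measure.measure_prod_null (hU.measurable hBm)).mp h1
  apply hA
  refine measure_mono_null ?_ (ae_iff.mp h2)
  intro E hE hc
  apply hI
  refine measure_mono_null ?_ hc
  intro t ht
  exact subset_toMeasurable _ _ (h E hE t ht)

/-- MODULE FP.  `A`, `B` need not be measurable.  One coordinate: if `PE B = 0` take a measurable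
null set `B0 ⊇ B`; by `measurePreserving_update` for a.e. `E` the set of `t` with
`Function.update E e t ∈ B0` is null.  Then induction over `F`. -/
theorem force (F : Finset (Edge d)) (I : Edge d → Set ℝ) (hI : ∀ e ∈ F, ConeE.mE (I e) ≠ 0)
    (A B : Set (Edge d → ℝ)) (hA : (PE d) A ≠ 0)
    (h : ∀ E ∈ A, ∀ E' : Edge d → ℝ, (∀ e, e ∉ F → E' e = E e) → (∀ e ∈ F, E' e ∈ I e) →
      E' ∈ B) : (PE d) B ≠ 0 := by
  induction F using Finset.induction_on generalizing A with
  | empty =>
    intro hB
    apply hA
    refine measure_mono_null (fun E hE => ?_) hB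
    exact h E hE E (fun _ _ => rfl) (fun e he => absurd he (Finset.notMem_empty e))
  | insert e F he ih =>
    refine ih (fun e' he' => hI e' (Finset.mem_insert_of_mem he'))
      {E' | ∃ E ∈ A, ∃ t ∈ I e, E' = Function.update E e t} ?_ ?_
    · refine fp_one e (I e) (hI e (Finset.mem_insert_self e F)) A _ hA ?_
      intro E hE t ht
      exact ⟨E, hE, t, ht, rfl⟩
    · rintro E1 ⟨E, hE, t, ht, rfl⟩ E2 h1 h2
      refine h E hE E2 ?_ ?_
      · intro e' he'
        rw [Finset.mem_insert, not_or] at he'
        rw [h1 e' he'.2, Function.update_of_ne he'.1]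
      · intro e' he'
        rw [Finset.mem_insert] at he'
        rcases he' with rfl | he'
        · rw [h1 e' he, Function.update_self]
          exact ht
        · exact h2 e' he'

end ConeD
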