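import Pool.Agent.ConeD.Ray
import Pool.Agent.ConeD.Cross
import Pool.Agent.ConeD.Asym

/-!
# Confinement with positive probability in high dimension (section 5 (d) of the text)
-/

set_option autoImplicit false

namespace ConeD

variable {d : ℕ}

open MeasureTheory

private theorem FI1_switch {i0 j : Fin d} {z : V d} {s : Step d}
    (h1 : 18 / 25 * nrm z ≤ (z i0 : ℝ)) (h2 : 82 ≤ nrm z)
    (hj : 18 / 25 * nrm (z + vec s) ≤ |((z + vec s) j : ℝ)|) :
    18 / 25 * nrm (z + vec s) ≤ ((z + vec s) i0 : ℝ) := by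
  have hc : ∀ i : Fin d, |(((z + vec s) i : ℤ) : ℝ) - (z i : ℝ)| ≤ 1 := by
    intro i
    have h3 := abs_coord_le (vec s) i
    rw [nrm_vec] at h3
    rw [Pi.add_apply]
    push_cast
    rw [add_sub_cancel_left]
    exact h3
  have hn : nrm z ≤ nrm (z + vec s) + 1 := by
    have h3 := nrm_sub_le (z + vec s) (vec s)
    rw [add_sub_cancel_right, nrm_vec] at h3
    exact h3
  by_cases hji : j = i0
  · rw [hji] at hj
    have h3 := (abs_le.1 (hc i0)).1
    rw [abs_of_nonneg (by linarith)] at hj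
    exact hj
  · exfalso
    have h3 : 18 / 25 * nrm z - 2 ≤ |(z j : ℝ)| := by
      have h4 := abs_sub_abs_le_abs_sub ((((z + vec s) j : ℤ) : ℝ)) (z j : ℝ)
      have h5 := hc j
      linarith
    have h4 : (z j : ℝ) ^ 2 + (z i0 : ℝ) ^ 2 ≤ nrm z ^ 2 := by
      rw [nrm_sq]
      have h5 : ∑ i ∈ ({j, i0} : Finset (Fin d)), ((z i : ℝ)) ^ 2 ≤
          ∑ i : Fin d, ((z i : ℝ)) ^ 2 :=
        Finset.sum_le_sum_of_subset_of_nonneg (Finset.subset_univ _)
          (fun i _ _ => sq_nonneg _)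
      rw [Finset.sum_pair hji] at h5
      exact h5
    have h5 : (18 / 25 * nrm z - 2) ^ 2 ≤ (z j : ℝ) ^ 2 := by
      rw [← sq_abs (z j : ℝ)]
      exact pow_le_pow_left₀ (by linarith) h3 2
    have h6 : (18 / 25 * nrm z) ^ 2 ≤ (z i0 : ℝ) ^ 2 := pow_le_pow_left₀ (by linarith) h1 2
    nlinarith

/-- MODULE FI1.  Geometry: a walk from `v` near the positive axis, all of whose vertices `z` are
near `v` or near a vertex which is not flat, has `z i0 ≥ 18/25 |z|` at its end (and at all its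
vertices): one coordinate has absolute value at least `18/25 |z|`, it cannot change in one step
because `2 (18/25)² > 1`. -/
theorem stay_near (i0 : Fin d) {K : ℝ} (hK : 0 < K) :
    ∃ α0 : ℝ, 2 ≤ α0 ∧ ∀ B : ℝ, ∃ R1 : ℝ, 0 < R1 ∧ ∀ α, α0 < α →
      ∀ (R : ℝ) (k : ℕ) (v : V d) (l : List (Step d)), R1 ≤ R → nrm (v - k • ev i0) ≤ B →
      7 / 8 * R ≤ nrm v → nrm v ≤ R + B →
      (∀ l1 l2, l = l1 ++ l2 → 3 / 4 * R ≤ nrm (endp v l1) ∧
        (nrm (endp v l1 - v) ≤ K / (α - 1) * R ∨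
          ∃ y, ¬ Flat y ∧ nrm (endp v l1 - y) ≤ K / (α - 1) * nrm (endp v l1))) →
      18 / 25 * nrm (endp v l) ≤ (endp v l i0 : ℝ) := by
  refine ⟨max 2 (1 + 100 * K), le_max_left _ _, ?_⟩
  intro B
  refine ⟨110 + 30 * |B|, by positivity, ?_⟩
  intro α hα R k v l hR hv h78 hvR hl
  have hα2 : 1 + 100 * K < α := (le_max_right _ _).trans_lt hα
  have hκ : K / (α - 1) ≤ 1 / 100 := by
    rw [div_le_iff₀ (by linarith)]
    linarith
  have hκ0 : 0 ≤ K / (α - 1) := div_nonneg hK.le (by linarith)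
  obtain ⟨κ, hκdef⟩ : ∃ κ, K / (α - 1) = κ := ⟨_, rfl⟩
  rw [hκdef] at hl hκ hκ0
  have hB0 : 0 ≤ B := (nrm_nonneg _).trans hv
  have hB : |B| = B := abs_of_nonneg hB0
  rw [hB] at hR
  have hR0 : 0 < R := by linarith
  -- the start
  have hvi : nrm v - 2 * B ≤ (v i0 : ℝ) := by
    have h1 := abs_coord_le (v - k • ev i0) i0
    have h2 : ((v - k • ev i0) i0 : ℤ) = v i0 - k := by
      rw [Pi.sub_apply, Pi.smul_apply, ev, Pi.single_eq_same]
      simp
    rw [h2] at h1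
    push_cast at h1
    have h3 := (abs_le.1 (h1.trans hv)).1
    have h4 := nrm_le_add v (k • ev i0)
    rw [nrm_nsmul, nrm_ev, mul_one] at h4
    linarith
  have hdom : ∀ l1 l2, l = l1 ++ l2 → ∃ j, 18 / 25 * nrm (endp v l1) ≤ |(endp v l1 j : ℝ)| := by
    intro l1 l2 h
    obtain ⟨h1, h2⟩ := hl l1 l2 h
    obtain ⟨z, hz⟩ : ∃ z, endp v l1 = z := ⟨_, rfl⟩
    rw [hz] at h1 h2 ⊢
    rcases h2 with h2 | ⟨y, hy, h2⟩
    · refine ⟨i0, ?_⟩
      have h3 : κ * R ≤ 1 / 100 * R := mul_le_mul_of_nonneg_right hκ hR0.le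
      have h4 := abs_coord_le (z - v) i0
      rw [Pi.sub_apply] at h4
      push_cast at h4
      have h5 := (abs_le.1 h4).1
      have h6 := nrm_le_add z v
      have h7 := le_abs_self (z i0 : ℝ)
      linarith
    · have h3 : κ * nrm z ≤ 1 / 100 * nrm z := mul_le_mul_of_nonneg_right hκ (nrm_nonneg _)
      have h4 : nrm z ≤ nrm y + nrm (z - y) := nrm_le_add z y
      have hy0 : 0 < nrm y := by linarith
      have h5 : ∃ j, 3 / 4 * nrm y < |(y j : ℝ)| := by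
        by_contra hcon
        push Not at hcon
        exact hy ⟨hy0, hcon⟩
      obtain ⟨j, hj⟩ := h5
      refine ⟨j, ?_⟩
      have h6 := abs_coord_le (z - y) j
      rw [Pi.sub_apply] at h6
      push_cast at h6
      have h7 : |(y j : ℝ)| ≤ |(z j : ℝ)| + |(z j : ℝ) - (y j : ℝ)| := by
        have := abs_sub_abs_le_abs_sub (y j : ℝ) (z j : ℝ)
        rw [abs_sub_comm] at this
        linarith
      linarith
  have key : ∀ l1 l2, l = l1 ++ l2 → 18 / 25 * nrm (endp v l1) ≤ (endp v l1 i0 : ℝ) := by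
    intro l1
    induction l1 using List.reverseRecOn with
    | nil =>
      intro l2 _
      rw [endp_nil]
      linarith
    | append_singleton l1 s ih =>
      intro l2 h
      have h1 := ih (s :: l2) (by rw [h, List.append_assoc]; rfl)
      have h2 := (hl l1 (s :: l2) (by rw [h, List.append_assoc]; rfl)).1
      have h3 := (hl _ _ h).1
      obtain ⟨j, hj⟩ := hdom _ _ h
      have h4 : endp v (l1 ++ [s]) = endp v l1 + vec s := by
        rw [endp_append, endp_cons, endp_nil]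
      rw [h4] at hj h3 ⊢
      exact FI1_switch h1 (by linarith) hj
  exact key l [] (by rw [List.append_nil])

/-- MODULE FI4.  Confinement in high dimension for first passage percolation: `force_ray` with
`p = ev i0`, `g = Ud d` (`exists_far`, `Cr_single`; `pr w (ev i0) = w i0`), `barrier` with
`Dir = Flat`, `M1 = Md d`, `C1 = 1` (`flat_low`, `Ud_lt_Md`), and `stay_near`. -/
theorem high_conf : ∃ d0 : ℕ, 2 ≤ d0 ∧ ∀ d : ℕ, d0 ≤ d → ∃ α0 : ℝ, 1 ≤ α0 ∧ ∀ α : ℝ, α0 < α →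
    ∃ (i0 : Fin d) (M : ℝ), 0 ≤ M ∧
      (PE d) {E | (∀ e, 0 < E e) ∧ Explodes (tau α E) ∧ ∀ x ∈ Ainf (tau α E),
        18 / 25 * nrm x - M ≤ (x i0 : ℝ)} ≠ 0 := by
  obtain ⟨d1, hd1⟩ := Filter.eventually_atTop.1 Ud_lt_Md
  refine ⟨max d1 2, le_max_right _ _, ?_⟩
  intro d hd
  obtain ⟨hd2, hD, hU0, hUM⟩ := hd1 d ((le_max_left _ _).trans hd)
  obtain ⟨i0, -⟩ : ∃ i0 : Fin d, i0 = ⟨0, by omega⟩ := ⟨_, rfl⟩
  obtain ⟨a, C, hh⟩ := hf_hm d
  have hη : 0 < eta d := by unfold eta; positivity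
  have hη1 : eta d ≤ 1 := by
    unfold eta
    rw [div_le_one (by positivity)]
    have : (0 : ℝ) ≤ d := Nat.cast_nonneg d
    linarith
  obtain ⟨ε, K, α1, hε, hK, hα1, hbar⟩ := barrier hh hη hη1 hU0
    (show Ud d < Md d by linarith)
  obtain ⟨α2, hα2, hstay⟩ := stay_near i0 hK
  have hpr : ∀ w : V d, pr w (ev i0) = (w i0 : ℝ) := by
    intro w
    rw [pr, nrm_ev, div_one, ip, Finset.sum_eq_single i0]
    · rw [ev, Pi.single_eq_same]
      simp
    · intro j _ hj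
      rw [ev, Pi.single_eq_of_ne hj]
      simp
    · intro h
      exact absurd (Finset.mem_univ _) h
  have hU : ∀ ε : ℝ, 0 < ε → ∃ N0 : ℝ, ∀ N : ℝ, N0 ≤ N → ∃ w : V d, N ≤ pr w (ev i0) ∧
      hm w ≤ (1 + ε) * Ud d * N := by
    intro δ hδ
    obtain ⟨N1, hN1⟩ := exists_far (i0 := i0) hU0 (Cr_single hd2 hD) (half_pos hδ)
    refine ⟨max N1 ((1 + δ / 2) / (δ / 2)), ?_⟩
    intro N hN
    have h1 : (N1 : ℝ) ≤ N := (le_max_left _ _).trans hN
    have h2 : (1 + δ / 2) / (δ / 2) ≤ N := (le_max_right _ _).trans hN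
    rw [div_le_iff₀ (by positivity)] at h2
    have hN0 : 0 ≤ N := (Nat.cast_nonneg N1).trans h1
    have h3 : N ≤ (⌈N⌉₊ : ℝ) := Nat.le_ceil N
    have h4 : (⌈N⌉₊ : ℝ) < N + 1 := Nat.ceil_lt_add_one hN0
    obtain ⟨w, hw1, hw2⟩ := hN1 ⌈N⌉₊ (by exact_mod_cast h1.trans h3)
    refine ⟨w, ?_, hw2.trans ?_⟩
    · rw [hpr, hw1]
      push_cast
      exact h3
    · have h5 : (1 + δ / 2) * (⌈N⌉₊ : ℝ) ≤ (1 + δ) * N := by
        have h6 : (1 + δ / 2) * (⌈N⌉₊ : ℝ) ≤ (1 + δ / 2) * (N + 1) :=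
          mul_le_mul_of_nonneg_left h4.le (by positivity)
        linarith
      have h7 := mul_le_mul_of_nonneg_left h5 hU0.le
      linarith
  have hev : (ev i0 : V d) ≠ 0 := by
    intro h
    have h1 := nrm_ev i0
    rw [h, nrm_zero] at h1
    exact zero_ne_one h1
  obtain ⟨B, hB, hforce⟩ := force_ray hev hU0 hU
  refine ⟨max α1 α2, by linarith [le_max_left α1 α2], ?_⟩
  intro α hα
  have hαa : α1 < α := (le_max_left _ _).trans_lt hα
  have hαb : α2 < α := (le_max_right _ _).trans_lt hα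
  obtain ⟨R1, hR1⟩ := hbar α hαa 1 B
  obtain ⟨R2, hR20, hR2⟩ := hstay B
  obtain ⟨n0, hn0⟩ := exists_nat_ge (max R1 R2)
  obtain ⟨n, hn, hne⟩ := hforce α (by linarith) ε hε n0
  have hnn : (n0 : ℝ) ≤ n := by exact_mod_cast hn
  have hnR1 : R1 ≤ n := ((le_max_left _ _).trans hn0).trans hnn
  have hnR2 : R2 ≤ n := ((le_max_right _ _).trans hn0).trans hnn
  have hnpos : (0 : ℝ) ≤ n := Nat.cast_nonneg n
  refine ⟨i0, 2 * (n + B), by positivity, ?_⟩
  intro h0
  apply hne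
  refine measure_mono_null ?_ h0
  rintro E' ⟨hE', hex, E, R0, pw, h2R, hb, hend, hpw, htime⟩
  refine ⟨hE', hex, ?_⟩
  rw [nrm_ev, mul_one] at h2R hb htime
  intro x hx
  rcases hR1 E R0 n pw (tau α E') hnR1 h2R hb htime Flat (fun y hy z => flat_low hd2 hy z) x hx
    with h1 | ⟨p1, p2, l, h1, h2, h3, h4⟩
  · have h2 : nrm x ≤ n + B := h1.trans (max_le (by linarith) le_rfl)
    have h3 := (abs_le.1 (abs_coord_le x i0)).1
    linarith
  · obtain ⟨k, hk, hk'⟩ := hpw p1 p2 h1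
    have h5 := hR2 α hαb n k (endp 0 p1) l hnR2 hk' h2 (hb.pwR p1 p2 h1) h4
    rw [h3] at h5
    have : 0 ≤ 2 * ((n : ℝ) + B) := by positivity
    linarith

end ConeD
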