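import Pool.Agent.ConeD.Prod

/-! Memorylessness for a finite family of exponential variables (module MEM). -/

set_option autoImplicit false

namespace ConeD

open ConeE (mE lintegral_mE mE_ae_pos mE_Ioi lintegral_exp_mE integrable_sq_mE memLp_mE integrable_mE
  integral_mE integral_sq_mE)

variable {d : ℕ}

open MeasureTheory

namespace MEMAux

theorem pi_Ioi (F : Finset (Edge d)) (c : Edge d → ℝ) (hc : ∀ f ∈ F, 0 ≤ c f) :
    (PE d) {E | ∀ f ∈ F, c f < E f} = ENNReal.ofReal (Real.exp (-∑ f ∈ F, c f)) := by
  have h : {E : Edge d → ℝ | ∀ f ∈ F, c f < E f} =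
      Set.pi (F : Set (Edge d)) (fun f => Set.Ioi (c f)) := by
    ext E; simp [Set.mem_pi]
  have h2 : (PE d) (Set.pi (F : Set (Edge d)) (fun f => Set.Ioi (c f))) =
      ∏ f ∈ F, mE (Set.Ioi (c f)) :=
    Measure.infinitePi_pi (μ := fun _ : (Edge d) => mE) (s := F) (t := fun f => Set.Ioi (c f))
      (fun i hi => measurableSet_Ioi)
  rw [h, h2, Finset.prod_congr rfl (fun f hf => mE_Ioi (hc f hf)),
    ← ENNReal.ofReal_prod_of_nonneg (fun f hf => Real.exp_nonneg _), ← Real.exp_sum,
    Finset.sum_neg_distrib]

theorem meas (w : Edge d → ℝ) (F : Finset (Edge d)) (s : Edge d) (a : Edge d → ℝ) :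
    MeasurableSet {E : Edge d → ℝ | (∀ f ∈ F, a f < E f / w f) ∧
        ∀ f ∈ F, f ≠ s → E s / w s - a s < E f / w f - a f} := by
  have h : {E : Edge d → ℝ | (∀ f ∈ F, a f < E f / w f) ∧
        ∀ f ∈ F, f ≠ s → E s / w s - a s < E f / w f - a f} =
      (⋂ f ∈ F, {E : Edge d → ℝ | a f < E f / w f}) ∩
      (⋂ f ∈ F, ⋂ (_ : f ≠ s), {E : Edge d → ℝ | E s / w s - a s < E f / w f - a f}) := by
    ext E; simp
  rw [h]
  refine MeasurableSet.inter (Finset.measurableSet_biInter _ fun f _ => ?_)
    (Finset.measurableSet_biInter _ fun f _ => MeasurableSet.iInter fun _ => ?_)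
  · exact measurableSet_lt measurable_const ((measurable_pi_apply f).div_const _)
  · exact measurableSet_lt (((measurable_pi_apply s).div_const _).sub_const _)
      (((measurable_pi_apply f).div_const _).sub_const _)

theorem exp_int (κ B c : ℝ) (hκ : 0 < κ) :
    ∫⁻ x in Set.Ioi c, ENNReal.ofReal (Real.exp (-(B + κ * x))) =
      ENNReal.ofReal (Real.exp (-(B + κ * c)) / κ) := by
  have hi : IntegrableOn (fun x : ℝ => Real.exp (-(B + κ * x))) (Set.Ioi c) := by
    have := (integrableOn_exp_mul_Ioi (a := -κ) (by linarith) c).const_mul (Real.exp (-B))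
    refine this.congr ?_
    filter_upwards with x
    rw [← Real.exp_add]
    congr 1
    ring
  rw [← ofReal_integral_eq_lintegral_ofReal hi
    (Filter.Eventually.of_forall fun x => Real.exp_nonneg _)]
  congr 1
  have h1 : (fun x : ℝ => Real.exp (-(B + κ * x))) =
      fun x => Real.exp (-B) * Real.exp (-κ * x) := by
    funext x
    rw [← Real.exp_add]
    congr 1
    ring
  rw [h1, integral_const_mul, integral_exp_mul_Ioi (by linarith)]
  have h2 : Real.exp (-(B + κ * c)) = Real.exp (-B) * Real.exp (-κ * c) := by
    rw [← Real.exp_add]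
    congr 1
    ring
  rw [h2]
  field_simp

end MEMAux

open MEMAux in
theorem memoryless (w : Edge d → ℝ) (hw : ∀ e, 0 < w e) (F : Finset (Edge d)) {s : (Edge d)}
    (hs : s ∈ F) (a : Edge d → ℝ) (ha : ∀ f ∈ F, 0 ≤ a f) :
    (PE d) {E | (∀ f ∈ F, a f < E f / w f) ∧
        ∀ f ∈ F, f ≠ s → E s / w s - a s < E f / w f - a f} =
      ENNReal.ofReal (w s / ∑ f ∈ F, w f) * (PE d) {E | ∀ f ∈ F, a f < E f / w f} := by
  classical
  have hWpos : 0 < ∑ f ∈ F, w f := Finset.sum_pos (fun f _ => hw f) ⟨s, hs⟩
  have hws := hw s
  -- right hand side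
  have hR : (PE d) {E | ∀ f ∈ F, a f < E f / w f} =
      ENNReal.ofReal (Real.exp (-∑ f ∈ F, w f * a f)) := by
    have h : {E : Edge d → ℝ | ∀ f ∈ F, a f < E f / w f} = {E | ∀ f ∈ F, w f * a f < E f} := by
      ext E
      simp only [Set.mem_ofPred_eq]
      refine forall₂_congr fun f _ => ?_
      rw [lt_div_iff₀ (hw f), mul_comm]
    rw [h, pi_Ioi F _ (fun f hf => mul_nonneg (hw f).le (ha f hf))]
  set A : Set (Edge d → ℝ) := {E | (∀ f ∈ F, a f < E f / w f) ∧
        ∀ f ∈ F, f ≠ s → E s / w s - a s < E f / w f - a f} with hA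
  have hAm : MeasurableSet A := meas w F s a
  have h1 : (PE d) A = ∫⁻ t, (PE d) {E | Function.update E s t ∈ A} ∂mE := by
    rw [← (measurePreserving_update s).measure_preimage hAm.nullMeasurableSet,
      Measure.prod_apply_symm ((measurePreserving_update s).measurable hAm)]
    rfl
  have h2 : ∀ t, (PE d) {E | Function.update E s t ∈ A} =
      Set.indicator (Set.Ioi (w s * a s)) (fun t => ENNReal.ofReal
        (Real.exp (-(∑ f ∈ F.erase s, w f * (a f + (t / w s - a s)))))) t := by
    intro t
    by_cases ht : w s * a s < t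
    · rw [Set.indicator_of_mem (show t ∈ Set.Ioi (w s * a s) from ht)]
      have ht' : a s < t / w s := by rw [lt_div_iff₀ hws, mul_comm]; exact ht
      have hset : {E : Edge d → ℝ | Function.update E s t ∈ A} =
          {E | ∀ f ∈ F.erase s, w f * (a f + (t / w s - a s)) < E f} := by
        ext E
        simp only [hA, Set.mem_ofPred_eq, Finset.mem_erase, Function.update_self]
        constructor
        · rintro ⟨_, h2⟩ f ⟨hfs, hf⟩
          have h3 := h2 f hf hfs
          rw [Function.update_of_ne hfs] at h3
          rw [mul_comm, ← lt_div_iff₀ (hw f)]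
          linarith
        · intro h
          have h' : ∀ f ∈ F, f ≠ s → a f + (t / w s - a s) < E f / w f := by
            intro f hf hfs
            rw [lt_div_iff₀ (hw f), mul_comm]
            exact h f ⟨hfs, hf⟩
          refine ⟨fun f hf => ?_, fun f hf hfs => ?_⟩
          · by_cases hfs : f = s
            · subst hfs
              rw [Function.update_self]
              exact ht'
            · rw [Function.update_of_ne hfs]
              have := h' f hf hfs
              linarith
          · rw [Function.update_of_ne hfs]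
            have := h' f hf hfs
            linarith
      rw [hset, pi_Ioi]
      intro f hf
      have hf' := Finset.mem_of_mem_erase hf
      have := ha f hf'
      have := (hw f).le
      apply mul_nonneg this
      linarith
    · rw [Set.indicator_of_notMem (show t ∉ Set.Ioi (w s * a s) from ht)]
      have hset : {E : Edge d → ℝ | Function.update E s t ∈ A} = ∅ := by
        ext E
        simp only [hA, Set.mem_ofPred_eq, Set.mem_empty_iff_false, iff_false, not_and]
        intro h
        exfalso
        have h3 := h s hs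
        rw [Function.update_self, lt_div_iff₀ hws, mul_comm] at h3
        exact ht h3
      rw [hset, measure_empty]
  have h3 : (PE d) A = ∫⁻ x in Set.Ioi (w s * a s), ENNReal.ofReal (Real.exp
      (-((∑ f ∈ F.erase s, w f * (a f - a s)) + ((∑ f ∈ F, w f) / w s) * x))) := by
    rw [h1]
    simp_rw [h2]
    rw [lintegral_mE]
    · have hsub : Set.Ioi (w s * a s) ⊆ Set.Ioi 0 := by
        apply Set.Ioi_subset_Ioi
        exact mul_nonneg hws.le (ha s hs)
      have hind : ∀ x : ℝ, (Set.Ioi (w s * a s)).indicator (fun t => ENNReal.ofReal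
          (Real.exp (-(∑ f ∈ F.erase s, w f * (a f + (t / w s - a s)))))) x *
            ENNReal.ofReal (Real.exp (-x)) =
          (Set.Ioi (w s * a s)).indicator (fun x => ENNReal.ofReal (Real.exp
      (-((∑ f ∈ F.erase s, w f * (a f - a s)) + ((∑ f ∈ F, w f) / w s) * x)))) x := by
        intro x
        by_cases hx : x ∈ Set.Ioi (w s * a s)
        · rw [Set.indicator_of_mem hx, Set.indicator_of_mem hx,
            ← ENNReal.ofReal_mul (Real.exp_nonneg _), ← Real.exp_add]
          congr 2
          have hsum : ∑ f ∈ F, w f = w s + ∑ f ∈ F.erase s, w f :=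
            (Finset.add_sum_erase F w hs).symm
          rw [hsum]
          have e1 : ∑ f ∈ F.erase s, w f * (a f + (x / w s - a s)) =
              ∑ f ∈ F.erase s, w f * (a f - a s) + (∑ f ∈ F.erase s, w f) * (x / w s) := by
            rw [Finset.sum_mul, ← Finset.sum_add_distrib]
            apply Finset.sum_congr rfl
            intro f _
            ring
          rw [e1]
          field_simp
          ring
        · rw [Set.indicator_of_notMem hx, Set.indicator_of_notMem hx, zero_mul]
      simp_rw [hind]
      rw [lintegral_indicator measurableSet_Ioi, Measure.restrict_restrict measurableSet_Ioi,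
        Set.inter_eq_left.mpr hsub]
    · refine Measurable.indicator ?_ measurableSet_Ioi
      refine ENNReal.measurable_ofReal.comp (Real.measurable_exp.comp (Measurable.neg ?_))
      refine Finset.measurable_sum _ fun f _ => ?_
      exact ((measurable_id.div_const _).sub_const _).const_add _ |>.const_mul _
  rw [h3, exp_int _ _ _ (div_pos hWpos hws), hR, ← ENNReal.ofReal_mul (by positivity)]
  congr 1
  have hexp : (∑ f ∈ F.erase s, w f * (a f - a s)) + (∑ f ∈ F, w f) / w s * (w s * a s) =
      ∑ f ∈ F, w f * a f := by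
    rw [← Finset.add_sum_erase F (fun f => w f * a f) hs, ← Finset.add_sum_erase F w hs]
    have e1 : ∑ f ∈ F.erase s, w f * (a f - a s) =
        ∑ f ∈ F.erase s, w f * a f - (∑ f ∈ F.erase s, w f) * a s := by
      rw [Finset.sum_mul, ← Finset.sum_sub_distrib]
      apply Finset.sum_congr rfl
      intro f _
      ring
    rw [e1]
    field_simp
    ring
  rw [hexp]
  field_simp

end ConeD
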