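import Pool.Agent.ConeD.Sup

/-!
# Energy monotonicity (section 2 of the text)

`l` is a walk, `W(y)` the weight of the rest of `l` from its vertex `y` (for `tau α E`), which
satisfies the upper bound (U) at every `y`.  The energy `|y| ^ (α - 1) W(y)` is non-increasing up
to a small error.
-/

set_option autoImplicit false

namespace ConeD

variable {d : ℕ}

/-- the energy of the walk `l` at its start `y` -/
noncomputable def Phi (α : ℝ) (E : Edge d → ℝ) (y : V d) (l : List (Step d)) : ℝ :=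
  nrm y ^ (α - 1) * wt (tau α E) y l

/-- the powers of the radius used below: `D = r ^ (-η/8)` -/
private theorem ST_pow {r η : ℝ} (hη : 0 < η) (hη1 : η ≤ 1) (hr : 1 ≤ r) :
    0 < r ^ (-(η / 8)) ∧ r ^ (-(η / 4)) = (r ^ (-(η / 8))) ^ 2 ∧
      r ^ (1 - η / 8) = r ^ (-(η / 8)) * r ∧ r ^ (1 - η / 4) = (r ^ (-(η / 8))) ^ 2 * r ∧
      (2 * r) ^ (1 - η) ≤ 2 * r * (r ^ (-(η / 8))) ^ 2 ∧ 1 / r ≤ (r ^ (-(η / 8))) ^ 2 ∧
      r ^ (-(η / 8)) ≤ 1 := by
  have hr0 : 0 < r := lt_of_lt_of_le one_pos hr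
  have e1 : r ^ (-(η / 4)) = (r ^ (-(η / 8))) ^ 2 := by
    rw [← Real.rpow_natCast, ← Real.rpow_mul hr0.le]
    congr 1
    push_cast
    ring
  refine ⟨Real.rpow_pos_of_pos hr0 _, e1, ?_, ?_, ?_, ?_, ?_⟩
  · rw [show 1 - η / 8 = -(η / 8) + 1 by ring, Real.rpow_add_one hr0.ne']
  · rw [← e1, show 1 - η / 4 = -(η / 4) + 1 by ring, Real.rpow_add_one hr0.ne']
  · have h2 : 0 < 2 * r := by linarith
    rw [show 1 - η = -η + 1 by ring, Real.rpow_add_one h2.ne', mul_comm, ← e1]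
    refine mul_le_mul_of_nonneg_left ?_ h2.le
    calc (2 * r) ^ (-η) ≤ r ^ (-η) :=
          Real.rpow_le_rpow_of_nonpos hr0 (by linarith) (by linarith)
      _ ≤ r ^ (-(η / 4)) := Real.rpow_le_rpow_of_exponent_le hr (by linarith)
  · rw [← e1, one_div, ← Real.rpow_neg_one]
    exact Real.rpow_le_rpow_of_exponent_le hr (by linarith)
  · exact Real.rpow_le_one_of_one_le_of_nonpos hr (by linarith)

private theorem ST_F {α D : ℝ} (hα0 : 0 < α) (hD : 0 < D) :
    1 - 2 * α * D ≤ (1 + 2 * D) ^ (-α) := by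
  have h1 : Real.exp (-(α * (2 * D))) ≤ (1 + 2 * D) ^ (-α) := by
    rw [Real.rpow_neg (by positivity), Real.exp_neg]
    refine inv_anti₀ (Real.rpow_pos_of_pos (by positivity) _) ?_
    rw [mul_comm α, Real.exp_mul]
    refine Real.rpow_le_rpow (by positivity) ?_ hα0.le
    have := Real.add_one_le_exp (2 * D)
    linarith
  have h2 := Real.add_one_le_exp (-(α * (2 * D)))
  linarith

private theorem ST_norm {y w : V d} {D : ℝ} (hr : 0 < nrm y)
    (hw : nrm w ≤ 2 * (D * nrm y)) (hu : 0 ≤ 1 + (pr w y / nrm y + 2 * D ^ 2)) :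
    nrm (y + w) ≤ nrm y * (1 + (pr w y / nrm y + 2 * D ^ 2)) := by
  have h2 : nrm (y + w) ^ 2 = nrm y ^ 2 + 2 * (pr w y * nrm y) + nrm w ^ 2 := by
    rw [nrm_add_sq, ip_comm y w]
    have h3 : ip w y = pr w y * nrm y := by
      rw [pr, div_mul_cancel₀ _ hr.ne']
    rw [h3]
  have h4 : nrm w ^ 2 ≤ (2 * (D * nrm y)) ^ 2 := pow_le_pow_left₀ (nrm_nonneg _) hw 2
  have h7 : nrm y * (pr w y / nrm y + 2 * D ^ 2) = pr w y + 2 * D ^ 2 * nrm y := by
    rw [mul_add, mul_div_cancel₀ _ hr.ne']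
    ring
  have h5 : nrm (y + w) ^ 2 ≤ (nrm y * (1 + (pr w y / nrm y + 2 * D ^ 2))) ^ 2 := by
    rw [h2, mul_add, mul_one, h7]
    have h8 := sq_nonneg (pr w y + 2 * D ^ 2 * nrm y)
    linarith
  exact (pow_le_pow_iff_left₀ (nrm_nonneg _) (mul_nonneg hr.le hu) (by norm_num)).1 h5

private theorem ST_exp {be x D : ℝ} (hbe : 0 < be) (hu0 : 0 ≤ 1 + (x + 2 * D ^ 2))
    (hu4 : |x + 2 * D ^ 2| ≤ 4 * D) (hb : 4 * be * D ≤ 1) :
    (1 + (x + 2 * D ^ 2)) ^ be ≤ 1 + (be * x + (2 * be + 16 * be ^ 2) * D ^ 2) := by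
  have h2 : (1 + (x + 2 * D ^ 2)) ^ be ≤ Real.exp ((x + 2 * D ^ 2) * be) := by
    rw [Real.exp_mul]
    refine Real.rpow_le_rpow hu0 ?_ hbe.le
    have := Real.add_one_le_exp (x + 2 * D ^ 2)
    linarith
  have h3 : |(x + 2 * D ^ 2) * be| ≤ 1 := by
    rw [abs_mul, abs_of_pos hbe]
    calc |x + 2 * D ^ 2| * be ≤ 4 * D * be := mul_le_mul_of_nonneg_right hu4 hbe.le
      _ ≤ 1 := by linarith
  have h4 := Real.abs_exp_sub_one_sub_id_le h3
  have h5 := (abs_le.1 h4).2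
  have h6 : ((x + 2 * D ^ 2) * be) ^ 2 ≤ 16 * be ^ 2 * D ^ 2 := by
    have h7 : (x + 2 * D ^ 2) ^ 2 ≤ (4 * D) ^ 2 := by
      rw [← sq_abs (x + 2 * D ^ 2)]
      exact pow_le_pow_left₀ (abs_nonneg _) hu4 2
    calc ((x + 2 * D ^ 2) * be) ^ 2 = be ^ 2 * (x + 2 * D ^ 2) ^ 2 := by ring
      _ ≤ be ^ 2 * (4 * D) ^ 2 := mul_le_mul_of_nonneg_left h7 (sq_nonneg _)
      _ = _ := by ring
  linarith

/-- algebra of the first inequality: `H = h(w)/r`, `X = be p / r`, `P = Phi y`, `Q = Phi z` -/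
private theorem ST_alg {H X P Q q' D c1 c2 c3 M B : ℝ} (hD : 0 < D) (hD1 : D ≤ 1)
    (hc1 : 0 < c1) (hc2 : 0 < c2) (hc3 : 0 < c3)
    (hq' : H - c1 * D ^ 2 ≤ q') (hH0 : 0 ≤ H) (hH : H ≤ B * (2 * D)) (hP : P ≤ M)
    (hA : |X + c2 * D ^ 2| ≤ c3 * D) (hA1 : 0 ≤ 1 + (X + c2 * D ^ 2))
    (hQ : Q ≤ (1 + (X + c2 * D ^ 2)) * (P - q')) :
    H - X * P - (c2 * M + 2 * B * c3 + (1 + c3) * c1) * D ^ 2 ≤ P - Q := by
  have h1 : (1 + (X + c2 * D ^ 2)) * (H - c1 * D ^ 2) ≤ (1 + (X + c2 * D ^ 2)) * q' :=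
    mul_le_mul_of_nonneg_left hq' hA1
  have h3 : c2 * D ^ 2 * P ≤ c2 * D ^ 2 * M :=
    mul_le_mul_of_nonneg_left hP (by positivity)
  have h5 : -(c3 * D * (B * (2 * D))) ≤ (X + c2 * D ^ 2) * H := by
    have h6 : -(c3 * D) * H ≤ (X + c2 * D ^ 2) * H :=
      mul_le_mul_of_nonneg_right (abs_le.1 hA).1 hH0
    have h7 : c3 * D * H ≤ c3 * D * (B * (2 * D)) :=
      mul_le_mul_of_nonneg_left hH (by positivity)
    linarith
  have h8 : (X + c2 * D ^ 2) * (c1 * D ^ 2) ≤ c3 * (c1 * D ^ 2) := by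
    refine mul_le_mul_of_nonneg_right ?_ (by positivity)
    refine (abs_le.1 hA).2.trans ?_
    calc c3 * D ≤ c3 * 1 := mul_le_mul_of_nonneg_left hD1 hc3.le
      _ = c3 := mul_one _
  linarith

private theorem ST_q {r D H F X q' c : ℝ} (hr : 0 < r) (hF0 : 0 < F) (hF1 : F ≤ 1)
    {α B : ℝ} (hα : 0 < α) (hD : 0 < D)
    (hF2 : 1 - 2 * α * D ≤ F) (hH0 : 0 ≤ H) (hH : H ≤ B * (2 * (D * r)))
    (hX : H - 2 * r * D ^ 2 ≤ X) (hq : 1 / r * (F * X) ≤ q') (hc : 4 * α * B + 2 = c) :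
    H / r - c * D ^ 2 ≤ q' := by
  have h4 : (1 - 2 * α * D) * H - 2 * r * D ^ 2 ≤ F * X := by
    have h5 : F * (H - 2 * r * D ^ 2) ≤ F * X := mul_le_mul_of_nonneg_left hX hF0.le
    have h6 : (1 - 2 * α * D) * H ≤ F * H := mul_le_mul_of_nonneg_right hF2 hH0
    have h7 : F * (2 * r * D ^ 2) ≤ 1 * (2 * r * D ^ 2) :=
      mul_le_mul_of_nonneg_right hF1 (by positivity)
    linarith
  have h8 : 1 / r * ((1 - 2 * α * D) * H - 2 * r * D ^ 2) ≤ q' :=
    (mul_le_mul_of_nonneg_left h4 (by positivity)).trans hq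
  refine le_trans ?_ h8
  have h9 : 1 / r * ((1 - 2 * α * D) * H - 2 * r * D ^ 2) =
      H / r - 2 * α * D * (H / r) - 2 * D ^ 2 := by
    field_simp
  have h10 : H / r ≤ B * (2 * D) := by
    rw [div_le_iff₀ hr]
    linarith
  have h11 : 2 * α * D * (H / r) ≤ 2 * α * D * (B * (2 * D)) :=
    mul_le_mul_of_nonneg_left h10 (by positivity)
  rw [h9, ← hc]
  linarith

/-- MODULE ST.  One step: `z = endp y l1` is the first vertex with `|z - y| ≥ r ^ (1 - η/8)`,
`r = |y|`, `δ = r ^ (-η/8)`, `w = z - y`, `q = r ^ (α - 1) wt (tau α E) y l1`.  By `CC` at the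
radius `2 r` and `le_wt_tau`, `q ≥ h(w) / r - K δ ^ 2`; `|z| ≤ r (1 + pr w y / r + 2 δ ^ 2)`;
`Phi z ≤ (1 + (α - 1) pr w y / r + K δ ^ 2) (Phi y - q)`; this gives the first inequality.
Second: if `pr w y ≥ δ ^ 2 r / 2` use (U) for `s = W(y)` (it says
`h(w) / r ≥ (1 - K δ) (α - 1) (pr w y / r) Phi y`), otherwise it is trivial.
`Phi y ≤ 2 b / (α - 1)` by `ub_crude`.  Here `δ ^ 2 = r ^ (-η/4)`. -/
theorem step {h : V d → ℝ} {a b C : ℝ} (hh : HF h a b C) {η : ℝ} (hη : 0 < η) (hη1 : η ≤ 1)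
    {α : ℝ} (hα : 1 < α) {K : ℝ} (hK : 0 < K) :
    ∃ K1 R1 : ℝ, 0 < K1 ∧ ∀ (E : Edge d → ℝ) (R0 : ℝ), (∀ e, 0 ≤ E e) → CC h η E R0 →
      ∀ (y : V d) (l1 l2 : List (Step d)), R1 ≤ nrm y → R0 ≤ nrm y →
        (∀ m1 s m2, l1 = m1 ++ s :: m2 → nrm (endp y m1 - y) ≤ nrm y ^ (1 - η / 8)) →
        nrm y ^ (1 - η / 8) ≤ nrm (endp y l1 - y) →
        UB h η α K (wt (tau α E) y (l1 ++ l2)) y →
        h (endp y l1 - y) / nrm y
            - (α - 1) * (pr (endp y l1 - y) y / nrm y) * Phi α E y (l1 ++ l2)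
            - K1 * nrm y ^ (-(η / 4)) ≤ Phi α E y (l1 ++ l2) - Phi α E (endp y l1) l2 ∧
        - K1 * nrm y ^ (-(η / 4)) ≤ Phi α E y (l1 ++ l2) - Phi α E (endp y l1) l2 ∧
        a / 2 * nrm y ^ (-(η / 8)) * nrm y ^ (1 - α) ≤
          wt (tau α E) y (l1 ++ l2) - wt (tau α E) (endp y l1) l2 := by
  obtain ⟨R2, hR2⟩ := ub_crude hh hη hη1 hα hK
  set be : ℝ := α - 1 with hbe
  have hbe0 : 0 < be := by rw [hbe]; linarith
  set B : ℝ := |b| + 1 with hB
  have hB0 : 0 < B := by positivity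
  have hbB : b ≤ B := by rw [hB]; linarith [le_abs_self b]
  have hup : ∀ z, h z ≤ B * nrm z := fun z =>
    (hh.up z).trans (mul_le_mul_of_nonneg_right hbB (nrm_nonneg z))
  have ha := hh.pos
  have hC := hh.Cnn
  have hα0 : 0 < α := by linarith
  obtain ⟨c1, hc1⟩ : ∃ c1, 4 * α * B + 2 = c1 := ⟨_, rfl⟩
  obtain ⟨c2, hc2⟩ : ∃ c2, 2 * be + 16 * be ^ 2 = c2 := ⟨_, rfl⟩
  obtain ⟨c3, hc3⟩ : ∃ c3, 2 * be + c2 = c3 := ⟨_, rfl⟩
  have hc1p : 0 < c1 := by rw [← hc1]; positivity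
  have hc2p : 0 < c2 := by rw [← hc2]; positivity
  have hc3p : 0 < c3 := by rw [← hc3]; positivity
  obtain ⟨M, hM⟩ : ∃ M, 2 * B / be = M := ⟨_, rfl⟩
  have hM0 : 0 < M := by rw [← hM]; positivity
  obtain ⟨K0, hK0⟩ : ∃ K0, c2 * M + 2 * B * c3 + (1 + c3) * c1 = K0 := ⟨_, rfl⟩
  have hK0p : 0 < K0 := by rw [← hK0]; positivity
  obtain ⟨K1, hK1⟩ : ∃ K1, K0 + (B + 2 * B * K) = K1 := ⟨_, rfl⟩
  have hK1p : 0 < K1 := by rw [← hK1]; positivity
  obtain ⟨d0, hd0⟩ : ∃ d0, min (1 / 8) (min (1 / (4 * be)) (min (1 / c3)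
      (a / (2 * (C + c1))))) = d0 := ⟨_, rfl⟩
  have hd0p : 0 < d0 := by rw [← hd0]; positivity
  have hlim := (tendsto_rpow_neg_atTop (y := η / 8) (by positivity)).eventually (gt_mem_nhds hd0p)
  obtain ⟨R3, hR3⟩ := Filter.eventually_atTop.1 hlim
  refine ⟨K1, max 1 (max R2 R3), hK1p, ?_⟩
  intro E R0 hE hCC y l1 l2 hy1 hy2 hin hout hUB
  have hr1 : 1 ≤ nrm y := (le_max_left _ _).trans hy1
  have hrR2 : R2 ≤ nrm y := (le_max_left _ _).trans ((le_max_right _ _).trans hy1)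
  have hrR3 : R3 ≤ nrm y := (le_max_right _ _).trans ((le_max_right _ _).trans hy1)
  have hPyR := hR2 _ y hrR2 hUB
  obtain ⟨r, hr⟩ : ∃ r, nrm y = r := ⟨_, rfl⟩
  have hUB' : ∀ w : V d, nrm w ≤ 2 * nrm y ^ (1 - η / 8) → nrm y ^ (1 - η / 4) / 2 ≤ pr w y →
      wt (tau α E) y (l1 ++ l2) ≤
        (1 + K * nrm y ^ (-(η / 8))) * (h w / (be * pr w y)) * nrm y ^ (1 - α) := hUB
  rw [hr] at hy1 hy2 hin hout hr1 hrR2 hrR3 hPyR hUB' ⊢
  clear hUB
  have hr0 : 0 < r := by linarith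
  obtain ⟨hD, e4, e8, e41, eT, e1r, hD1⟩ := ST_pow hη hη1 hr1
  have hDd : r ^ (-(η / 8)) < d0 := hR3 r hrR3
  rw [e4]
  rw [e8] at hin hout hUB'
  rw [e41] at hUB'
  have hT := hCC (2 * r) (by linarith) y
  obtain ⟨D, hDdef⟩ : ∃ D, r ^ (-(η / 8)) = D := ⟨_, rfl⟩
  rw [hDdef] at hin hout hUB' hD eT e1r hD1 hDd ⊢
  have hD8 : D ≤ 1 / 8 := by
    rw [← hd0] at hDd
    exact hDd.le.trans (min_le_left _ _)
  have hDb : 4 * be * D ≤ 1 := by
    rw [← hd0] at hDd
    have h1 : D ≤ 1 / (4 * be) := hDd.le.trans ((min_le_right _ _).trans (min_le_left _ _))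
    rw [le_div_iff₀ (by positivity)] at h1
    linarith
  have hDc : c3 * D ≤ 1 := by
    rw [← hd0] at hDd
    have h1 : D ≤ 1 / c3 := hDd.le.trans ((min_le_right _ _).trans ((min_le_right _ _).trans
      (min_le_left _ _)))
    rw [le_div_iff₀ (by positivity)] at h1
    linarith
  have hDa : (C + c1) * D ≤ a / 2 := by
    rw [← hd0] at hDd
    have h1 : D ≤ a / (2 * (C + c1)) := hDd.le.trans ((min_le_right _ _).trans
      ((min_le_right _ _).trans (min_le_right _ _)))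
    rw [le_div_iff₀ (by positivity)] at h1
    linarith
  clear hDd hd0p hlim hR3 hd0 e4 e8 e41
  have hDr0 : 0 < D * r := by positivity
  have hD2 : D ^ 2 ≤ D / 8 := by
    rw [pow_two]
    calc D * D ≤ D * (1 / 8) := mul_le_mul_of_nonneg_left hD8 hD.le
      _ = D / 8 := by ring
  have hD2r1 : 1 ≤ D ^ 2 * r := by
    rw [div_le_iff₀ hr0] at e1r
    exact e1r
  have hD2r : D ^ 2 * r ≤ D * r := mul_le_mul_of_nonneg_right (by linarith) hr0.le
  obtain ⟨z, hz⟩ : ∃ z : V d, endp y l1 = z := ⟨_, rfl⟩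
  rw [hz] at hout ⊢
  obtain ⟨w, hw⟩ : ∃ w : V d, z - y = w := ⟨_, rfl⟩
  rw [hw] at hout ⊢
  have hzw : z = y + w := by rw [← hw]; abel
  -- the last step
  have hne : l1 ≠ [] := by
    intro h0
    have h1 : w = 0 := by rw [← hw, ← hz, h0, endp_nil, sub_self]
    rw [h1, nrm_zero] at hout
    linarith
  have hwle : nrm w ≤ 2 * (D * r) := by
    obtain ⟨m, s, hms⟩ : ∃ m s, l1 = m ++ [s] := by
      refine ⟨l1.dropLast, l1.getLast hne, (List.dropLast_append_getLast hne).symm⟩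
    have h1 := hin m s [] hms
    have h2 : w = (endp y m - y) + vec s := by
      rw [← hw, ← hz, hms, endp_append]
      change endp y m + vec s - y = _
      abel
    rw [h2]
    refine (nrm_add_le _ _).trans ?_
    rw [nrm_vec]
    linarith
  have hhw : h w ≤ B * (2 * (D * r)) :=
    (hup w).trans (mul_le_mul_of_nonneg_left hwle hB0.le)
  have hhw0 : 0 ≤ h w := hh.nonneg w
  -- weight of the first piece
  have hτ : ∀ e, 0 ≤ tau α E e := tau_nonneg hE
  have hWy : wt (tau α E) y (l1 ++ l2) = wt (tau α E) y l1 + wt (tau α E) z l2 := by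
    rw [wt_append, hz]
  have hW2 : 0 ≤ wt (tau α E) z l2 := wt_nonneg hτ _ _
  have hWy0 : 0 ≤ wt (tau α E) y (l1 ++ l2) := wt_nonneg hτ _ _
  have hzle : nrm z ≤ 2 * r := by
    rw [hzw]
    refine (nrm_add_le _ _).trans ?_
    rw [hr]
    have : D * r ≤ 1 / 8 * r := mul_le_mul_of_nonneg_right hD8 hr0.le
    linarith
  have hX : h w - 2 * r * D ^ 2 ≤ wt E y l1 := by
    have h1 := hT z (by rw [hr]; linarith) hzle
    have h2 := (abs_le.1 h1).1
    have h3 : T E y z ≤ wt E y l1 := T_le_wt hE hz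
    rw [hw] at h2
    linarith
  have hmid : ∀ m1 s m2, l1 = m1 ++ s :: m2 → mid (edg (endp y m1) s) ≤ r * (1 + 2 * D) := by
    intro m1 s m2 hm
    refine (mid_edg_le _ _).trans ?_
    have h1 := hin m1 s m2 hm
    have h2 : nrm (endp y m1) ≤ r + D * r := by
      have := nrm_le_add (endp y m1) y
      rw [hr] at this
      linarith
    have h5 : r * (1 + 2 * D) = r + 2 * (D * r) := by ring
    linarith
  have hq1 : (r * (1 + 2 * D)) ^ (-α) * wt E y l1 ≤ wt (tau α E) y l1 :=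
    le_wt_tau hα0.le (by positivity) hE y l1 hmid
  have hq0 : 0 ≤ wt (tau α E) y l1 := wt_nonneg hτ _ _
  rw [hWy] at hPyR hUB' hWy0
  have hPhiy : Phi α E y (l1 ++ l2) = r ^ be * (wt (tau α E) y l1 + wt (tau α E) z l2) := by
    rw [Phi, hr, hWy]
  have hPhiz : Phi α E z l2 = nrm z ^ be * wt (tau α E) z l2 := rfl
  rw [hWy]
  obtain ⟨q, hq⟩ : ∃ q, wt (tau α E) y l1 = q := ⟨_, rfl⟩
  obtain ⟨W, hW⟩ : ∃ W, wt (tau α E) z l2 = W := ⟨_, rfl⟩
  obtain ⟨P, hP⟩ : ∃ P, Phi α E y (l1 ++ l2) = P := ⟨_, rfl⟩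
  obtain ⟨Q, hQ⟩ : ∃ Q, Phi α E z l2 = Q := ⟨_, rfl⟩
  obtain ⟨X, hXd⟩ : ∃ X, wt E y l1 = X := ⟨_, rfl⟩
  rw [hq, hW] at hPyR hUB' hWy0 hPhiy
  rw [hq] at hq0 hq1
  rw [hW] at hW2 hPhiz
  rw [hP] at hPhiy
  rw [hQ] at hPhiz
  rw [hXd] at hX hq1
  rw [hq, hW, hP, hQ]
  have hrb : 0 < r ^ be := Real.rpow_pos_of_pos hr0 _
  have hrr : r ^ be * r ^ (1 - α) = 1 := by
    rw [← Real.rpow_add hr0, show be + (1 - α) = 0 by rw [hbe]; ring, Real.rpow_zero]
  have hq'1 : h w / r - c1 * D ^ 2 ≤ r ^ be * q := by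
    refine ST_q (α := α) (B := B) hr0 (Real.rpow_pos_of_pos (by positivity : (0:ℝ) < 1 + 2 * D)
      (-α)) (Real.rpow_le_one_of_one_le_of_nonpos (by linarith) (by linarith)) hα0 hD
      (ST_F hα0 hD) hhw0 hhw hX ?_ hc1
    have h1 : (r * (1 + 2 * D)) ^ (-α) = r ^ (-α) * (1 + 2 * D) ^ (-α) :=
      Real.mul_rpow hr0.le (by positivity)
    have h2 : r ^ be * r ^ (-α) = 1 / r := by
      rw [← Real.rpow_add hr0, show be + -α = -1 by rw [hbe]; ring, Real.rpow_neg_one, one_div]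
    rw [← h2]
    rw [h1] at hq1
    calc r ^ be * r ^ (-α) * ((1 + 2 * D) ^ (-α) * X) =
        r ^ be * (r ^ (-α) * (1 + 2 * D) ^ (-α) * X) := by ring
      _ ≤ _ := mul_le_mul_of_nonneg_left hq1 hrb.le
  have hPy0 : 0 ≤ P := by
    rw [hPhiy]
    exact mul_nonneg hrb.le hWy0
  have hPyle : P ≤ M := by
    rw [hPhiy]
    have h2 : 2 * b / be ≤ M := by
      rw [← hM]
      exact div_le_div_of_nonneg_right (by linarith) hbe0.le
    calc r ^ be * (q + W) ≤ r ^ be * (2 * b / be * r ^ (1 - α)) :=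
          mul_le_mul_of_nonneg_left hPyR hrb.le
      _ = 2 * b / be * (r ^ be * r ^ (1 - α)) := by ring
      _ = 2 * b / be := by rw [hrr, mul_one]
      _ ≤ _ := h2
  have hpabs : |pr w y| ≤ 2 * (D * r) := (abs_pr_le w y).trans hwle
  have hznorm' : nrm w ≤ 2 * (D * nrm y) := by rw [hr]; exact hwle
  have hNz := ST_norm (y := y) (w := w) (D := D) (by rw [hr]; exact hr0) hznorm'
  rw [hr, ← hzw] at hNz
  obtain ⟨p, hp⟩ : ∃ p, pr w y = p := ⟨_, rfl⟩
  have hUBw := hUB' w hwle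
  rw [hp] at hpabs hNz hUBw ⊢
  clear hUB'
  have hpr : |p / r| ≤ 2 * D := by
    rw [abs_div, abs_of_pos hr0, div_le_iff₀ hr0]
    linarith
  have hprl := (abs_le.1 hpr).1
  have hpru := (abs_le.1 hpr).2
  have hD20 : 0 < D ^ 2 := by positivity
  have hu4 : |p / r + 2 * D ^ 2| ≤ 4 * D := by
    rw [abs_le]
    constructor <;> linarith
  have hu4l := (abs_le.1 hu4).1
  have hu0 : 0 ≤ 1 + (p / r + 2 * D ^ 2) := by linarith
  have hNz' := hNz hu0
  have hE1 := ST_exp hbe0 hu0 hu4 hDb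
  rw [hc2] at hE1
  have hpow : nrm z ^ be ≤ r ^ be * (1 + (be * (p / r) + c2 * D ^ 2)) := by
    have h1 : nrm z ^ be ≤ (r * (1 + (p / r + 2 * D ^ 2))) ^ be :=
      Real.rpow_le_rpow (nrm_nonneg _) hNz' hbe0.le
    rw [Real.mul_rpow hr0.le hu0] at h1
    exact h1.trans (mul_le_mul_of_nonneg_left hE1 hrb.le)
  have hAabs : |be * (p / r) + c2 * D ^ 2| ≤ c3 * D := by
    rw [abs_le, ← hc3]
    have h1 : be * (p / r) ≤ be * (2 * D) := mul_le_mul_of_nonneg_left hpru hbe0.le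
    have h2 : be * (-(2 * D)) ≤ be * (p / r) := mul_le_mul_of_nonneg_left hprl hbe0.le
    have h3 : c2 * D ^ 2 ≤ c2 * D := mul_le_mul_of_nonneg_left (by linarith) hc2p.le
    have h4 : 0 ≤ c2 * D ^ 2 := by positivity
    have h5 : 0 ≤ c2 * D := by positivity
    constructor <;> linarith
  have hA1 : 0 ≤ 1 + (be * (p / r) + c2 * D ^ 2) := by
    have := (abs_le.1 hAabs).1
    linarith
  have hPz : Q ≤ (1 + (be * (p / r) + c2 * D ^ 2)) * (P - r ^ be * q) := by
    rw [hPhiz, hPhiy]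
    calc nrm z ^ be * W ≤ (r ^ be * (1 + (be * (p / r) + c2 * D ^ 2))) * W :=
          mul_le_mul_of_nonneg_right hpow hW2
      _ = _ := by ring
  have h40 : 0 ≤ h w / r := div_nonneg hhw0 hr0.le
  have h41 : h w / r ≤ B * (2 * D) := by
    rw [div_le_iff₀ hr0]
    linarith
  have hfirst := ST_alg (M := M) hD hD1 hc1p hc2p hc3p hq'1 h40 h41 hPyle hAabs hA1 hPz
  rw [hK0] at hfirst
  have hBK : 0 ≤ B + 2 * B * K := by positivity
  have hK1D : K1 * D ^ 2 = K0 * D ^ 2 + (B + 2 * B * K) * D ^ 2 := by rw [← hK1]; ring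
  have hBKD : 0 ≤ (B + 2 * B * K) * D ^ 2 := mul_nonneg hBK hD20.le
  refine ⟨?_, ?_, ?_⟩
  · linarith
  · -- the second claim
    have hsec : -((B + 2 * B * K) * D ^ 2) ≤ h w / r - be * (p / r) * P := by
      rcases le_or_gt p 0 with hp0 | hp0
      · have h1 : p / r ≤ 0 := div_nonpos_of_nonpos_of_nonneg hp0 hr0.le
        have h2 : be * (p / r) * P ≤ 0 :=
          mul_nonpos_of_nonpos_of_nonneg (mul_nonpos_of_nonneg_of_nonpos hbe0.le h1) hPy0
        linarith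
      rcases le_or_gt (D ^ 2 * r / 2) p with hp1 | hp1
      · have h1 := hUBw hp1
        have h2 : P ≤ (1 + K * D) * (h w / (be * p)) := by
          rw [hPhiy]
          calc r ^ be * (q + W) ≤
              r ^ be * ((1 + K * D) * (h w / (be * p)) * r ^ (1 - α)) :=
                mul_le_mul_of_nonneg_left h1 hrb.le
            _ = (1 + K * D) * (h w / (be * p)) * (r ^ be * r ^ (1 - α)) := by ring
            _ = _ := by rw [hrr, mul_one]
        have h3 : be * (p / r) * P ≤ (1 + K * D) * (h w / r) := by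
          calc be * (p / r) * P ≤
              be * (p / r) * ((1 + K * D) * (h w / (be * p))) :=
                mul_le_mul_of_nonneg_left h2 (by positivity)
            _ = _ := by field_simp
        have h5 : K * D * (h w / r) ≤ K * D * (B * (2 * D)) :=
          mul_le_mul_of_nonneg_left h41 (by positivity)
        have h6 : 0 ≤ B * D ^ 2 := by positivity
        linarith
      · have h1 : be * (p / r) ≤ be * (D ^ 2 / 2) := by
          refine mul_le_mul_of_nonneg_left ?_ hbe0.le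
          rw [div_le_iff₀ hr0]
          linarith
        have h2 : be * (p / r) * P ≤ be * (D ^ 2 / 2) * M :=
          mul_le_mul h1 hPyle hPy0 (by positivity)
        have h3 : be * (D ^ 2 / 2) * M = B * D ^ 2 := by
          rw [← hM]
          field_simp
        have h6 : 0 ≤ 2 * B * K * D ^ 2 := by positivity
        linarith
    linarith
  · rw [add_sub_cancel_right]
    have h1 : a / 2 * D ≤ r ^ be * q := by
      refine le_trans ?_ hq'1
      have h2 : a * nrm w - C ≤ h w := hh.low w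
      have h3 : (a * (D * r) - C) / r ≤ h w / r := by
        refine div_le_div_of_nonneg_right ?_ hr0.le
        have := mul_le_mul_of_nonneg_left hout ha.le
        linarith
      have h4 : (a * (D * r) - C) / r = a * D - C * (1 / r) := by field_simp
      have h5 : C * (1 / r) ≤ C * D ^ 2 := mul_le_mul_of_nonneg_left e1r hC
      have h6 : (C + c1) * D * D ≤ a / 2 * D := mul_le_mul_of_nonneg_right hDa hD.le
      rw [h4] at h3
      have h7 : (C + c1) * D * D = C * D ^ 2 + c1 * D ^ 2 := by ring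
      linarith
    have h2 : q = r ^ (1 - α) * (r ^ be * q) := by
      rw [← mul_assoc, mul_comm (r ^ (1 - α)), hrr, one_mul]
    rw [h2, mul_comm (r ^ (1 - α))]
    exact mul_le_mul_of_nonneg_right h1 (Real.rpow_nonneg hr0.le _)

private theorem MO1_pow {s S t κ : ℝ} (hκ : 0 < κ) (hs : 0 ≤ s) (hS : 0 ≤ S) (ht : 0 ≤ t)
    (ht1 : t ≤ 1) (hκt : κ * t ≤ 1 / 2) (hsS : s ≤ S * (1 - t)) :
    s ^ κ ≤ S ^ κ * (1 - κ * t / 2) := by
  have h1 : s ^ κ ≤ (S * (1 - t)) ^ κ := Real.rpow_le_rpow hs hsS hκ.le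
  rw [Real.mul_rpow hS (by linarith)] at h1
  refine h1.trans (mul_le_mul_of_nonneg_left ?_ (Real.rpow_nonneg hS _))
  have h2 : (1 - t) ^ κ ≤ Real.exp (-t * κ) := by
    rw [Real.exp_mul]
    refine Real.rpow_le_rpow (by linarith) ?_ hκ.le
    have := Real.add_one_le_exp (-t)
    linarith
  have h0 : 0 ≤ κ * t := mul_nonneg hκ.le ht
  have h3 : |-t * κ| ≤ 1 := by
    rw [abs_le]
    constructor <;> linarith
  have h4 := (abs_le.1 (Real.abs_exp_sub_one_sub_id_le h3)).2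
  have h5 : (-t * κ) ^ 2 ≤ κ * t * (1 / 2) := by
    calc (-t * κ) ^ 2 = (κ * t) * (κ * t) := by ring
      _ ≤ κ * t * (1 / 2) := mul_le_mul_of_nonneg_left hκt h0
  linarith

private theorem MO1_A {H X P Q D K1 a C N be r ε : ℝ} (hr : 0 < r) (hD : 0 < D) (ha : 0 < a)
    (hC : 0 ≤ C) (hbe : 0 < be) (hN : D * r ≤ N) (hH : a * N - C ≤ H) (hX : |X| ≤ N)
    (hP0 : 0 ≤ P) (hP : P ≤ ε) (hε : be * ε = a / 8) (h1r : 1 / r ≤ D ^ 2)
    (hDs : (C + K1) * D ≤ a / 2)
    (h1 : H / r - be * (X / r) * P - K1 * D ^ 2 ≤ P - Q) : Q ≤ P := by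
  have hN0 : 0 < N := lt_of_lt_of_le (by positivity) hN
  have h2 : be * (X / r) * P ≤ be * (N / r) * ε := by
    have h3 : X / r ≤ N / r := div_le_div_of_nonneg_right ((le_abs_self X).trans hX) hr.le
    have h4 : be * (X / r) ≤ be * (N / r) := mul_le_mul_of_nonneg_left h3 hbe.le
    exact mul_le_mul h4 hP hP0 (by positivity)
  have h3 : be * (N / r) * ε = a / 8 * (N / r) := by
    rw [mul_comm be, mul_assoc, hε, mul_comm]
  have h4 : (a * N - C) / r ≤ H / r := div_le_div_of_nonneg_right hH hr.le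
  have h5 : (a * N - C) / r = a * (N / r) - C * (1 / r) := by field_simp
  have h6 : C * (1 / r) ≤ C * D ^ 2 := mul_le_mul_of_nonneg_left h1r hC
  have h7 : D ≤ N / r := by
    rw [le_div_iff₀ hr]
    exact hN
  have h8 : a * D ≤ a * (N / r) := mul_le_mul_of_nonneg_left h7 ha.le
  have h9 : (C + K1) * D * D ≤ a / 2 * D := mul_le_mul_of_nonneg_right hDs hD.le
  have h10 : (C + K1) * D * D = C * D ^ 2 + K1 * D ^ 2 := by ring
  have h11 : 0 < a * D := by positivity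
  linarith

/-- MODULE MO1.  `Phi + W ^ κ` does not increase in one step, `κ = η / (16 (α - 1))`
(concavity of `x ^ κ`, `W(y) ≤ 2 b / (α - 1) r ^ (1 - α)` by `ub_crude`, the third and the second
conclusion of `step`; `r ^ (-η/8) r ^ (-η/16)` is much larger than `r ^ (-η/4)`). -/
theorem pot_step {h : V d → ℝ} {a b C : ℝ} (hh : HF h a b C) {η : ℝ} (hη : 0 < η) (hη1 : η ≤ 1)
    {α : ℝ} (hα : 1 < α) {K : ℝ} (hK : 0 < K) :
    ∃ R1 : ℝ, ∀ (E : Edge d → ℝ) (R0 : ℝ), (∀ e, 0 ≤ E e) → CC h η E R0 →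
      ∀ (y : V d) (l1 l2 : List (Step d)), R1 ≤ nrm y → R0 ≤ nrm y →
        (∀ m1 s m2, l1 = m1 ++ s :: m2 → nrm (endp y m1 - y) ≤ nrm y ^ (1 - η / 8)) →
        nrm y ^ (1 - η / 8) ≤ nrm (endp y l1 - y) →
        UB h η α K (wt (tau α E) y (l1 ++ l2)) y →
        Phi α E (endp y l1) l2 + wt (tau α E) (endp y l1) l2 ^ (η / (16 * (α - 1))) ≤
          Phi α E y (l1 ++ l2) + wt (tau α E) y (l1 ++ l2) ^ (η / (16 * (α - 1))) := by
  obtain ⟨R2, hR2⟩ := ub_crude hh hη hη1 hα hK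
  obtain ⟨K1, R3, hK1, hst⟩ := step hh hη hη1 hα hK
  have ha := hh.pos
  have hC := hh.Cnn
  set be : ℝ := α - 1 with hbe
  have hbe0 : 0 < be := by rw [hbe]; linarith
  obtain ⟨κ, hκ⟩ : ∃ κ, η / (16 * be) = κ := ⟨_, rfl⟩
  have hκ0 : 0 < κ := by rw [← hκ]; positivity
  obtain ⟨M, hM⟩ : ∃ M, 2 * (|b| + 1) / be = M := ⟨_, rfl⟩
  have hM0 : 0 < M := by rw [← hM]; positivity
  have hbM : 2 * b / be ≤ M := by
    rw [← hM]
    refine div_le_div_of_nonneg_right ?_ hbe0.le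
    linarith [le_abs_self b]
  obtain ⟨c, hc⟩ : ∃ c, a / (2 * M) = c := ⟨_, rfl⟩
  have hc0 : 0 < c := by rw [← hc]; positivity
  obtain ⟨ε, hε⟩ : ∃ ε, a / (8 * be) = ε := ⟨_, rfl⟩
  have hε0 : 0 < ε := by rw [← hε]; positivity
  have hbε : be * ε = a / 8 := by
    rw [← hε]
    field_simp
  have hεκ : 0 < ε ^ κ := Real.rpow_pos_of_pos hε0 _
  obtain ⟨d0, hd0⟩ : ∃ d0, min 1 (min (1 / c) (min (1 / (2 * κ * c)) (min (a / (2 * (C + K1)))
      (ε ^ κ * κ * c / (2 * K1))))) = d0 := ⟨_, rfl⟩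
  have hd0p : 0 < d0 := by rw [← hd0]; positivity
  have hlim := (tendsto_rpow_neg_atTop (y := η / 16) (by positivity)).eventually
    (gt_mem_nhds hd0p)
  obtain ⟨R4, hR4⟩ := Filter.eventually_atTop.1 hlim
  refine ⟨max 1 (max R2 (max R3 R4)), ?_⟩
  intro E R0 hE hCC y l1 l2 hy1 hy2 hin hout hUB
  have hr1 : 1 ≤ nrm y := (le_max_left _ _).trans hy1
  have hrR2 : R2 ≤ nrm y := (le_max_left _ _).trans ((le_max_right _ _).trans hy1)
  have hrR3 : R3 ≤ nrm y := (le_max_left _ _).trans ((le_max_right _ _).trans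
    ((le_max_right _ _).trans hy1))
  have hrR4 : R4 ≤ nrm y := (le_max_right _ _).trans ((le_max_right _ _).trans
    ((le_max_right _ _).trans hy1))
  have hPyR := hR2 _ y hrR2 hUB
  obtain ⟨i1, i2, i3⟩ := hst E R0 hE hCC y l1 l2 hrR3 hy2 hin hout hUB
  have hτ : ∀ e, 0 ≤ tau α E e := tau_nonneg hE
  have hs0 : 0 ≤ wt (tau α E) (endp y l1) l2 := wt_nonneg hτ _ _
  have hPS : Phi α E y (l1 ++ l2) = nrm y ^ be * wt (tau α E) y (l1 ++ l2) := rfl
  have hS0 : 0 ≤ wt (tau α E) y (l1 ++ l2) := wt_nonneg hτ _ _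
  have hlow := hh.low (endp y l1 - y)
  have hprw := abs_pr_le (endp y l1 - y) y
  have hGd := hR4 _ hrR4
  rw [hκ]
  obtain ⟨r, hr⟩ : ∃ r, nrm y = r := ⟨_, rfl⟩
  obtain ⟨s, hs⟩ : ∃ s, wt (tau α E) (endp y l1) l2 = s := ⟨_, rfl⟩
  obtain ⟨S, hS⟩ : ∃ S, wt (tau α E) y (l1 ++ l2) = S := ⟨_, rfl⟩
  obtain ⟨P, hP⟩ : ∃ P, Phi α E y (l1 ++ l2) = P := ⟨_, rfl⟩
  obtain ⟨Q, hQ⟩ : ∃ Q, Phi α E (endp y l1) l2 = Q := ⟨_, rfl⟩
  obtain ⟨w, hw⟩ : ∃ w : V d, endp y l1 - y = w := ⟨_, rfl⟩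
  rw [hr] at hout hr1 hPyR i1 i2 i3 hPS hGd
  rw [hs] at hs0 i3
  rw [hS] at hS0 i3 hPS hPyR
  rw [hP] at i1 i2 hPS
  rw [hQ] at i1 i2
  rw [hw] at i1 hlow hprw hout
  rw [hP, hQ, hs, hS]
  obtain ⟨hD, e4, e8, e41, eT, e1r, hD1⟩ := ST_pow hη hη1 hr1
  have hr0 : 0 < r := by linarith
  obtain ⟨G, hG⟩ : ∃ G, r ^ (-(η / 16)) = G := ⟨_, rfl⟩
  have hG0 : 0 < G := by
    rw [← hG]
    exact Real.rpow_pos_of_pos hr0 _
  have hDG : r ^ (-(η / 8)) = G ^ 2 := by
    rw [← hG, ← Real.rpow_natCast, ← Real.rpow_mul hr0.le]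
    congr 1
    push_cast
    ring
  rw [hG, ← hd0] at hGd
  have hG1 : G ≤ 1 := hGd.le.trans (min_le_left _ _)
  have hG2 : c * G ≤ 1 := by
    have h1 : G ≤ 1 / c := hGd.le.trans ((min_le_right _ _).trans (min_le_left _ _))
    rw [le_div_iff₀ hc0] at h1
    linarith
  have hG3 : 2 * κ * c * G ≤ 1 := by
    have h1 : G ≤ 1 / (2 * κ * c) := hGd.le.trans ((min_le_right _ _).trans
      ((min_le_right _ _).trans (min_le_left _ _)))
    rw [le_div_iff₀ (by positivity)] at h1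
    linarith
  have hG4 : (C + K1) * G ≤ a / 2 := by
    have h1 : G ≤ a / (2 * (C + K1)) := hGd.le.trans ((min_le_right _ _).trans
      ((min_le_right _ _).trans ((min_le_right _ _).trans (min_le_left _ _))))
    rw [le_div_iff₀ (by positivity)] at h1
    linarith
  have hG5 : K1 * G ≤ ε ^ κ * κ * c / 2 := by
    have h1 : G ≤ ε ^ κ * κ * c / (2 * K1) := hGd.le.trans ((min_le_right _ _).trans
      ((min_le_right _ _).trans ((min_le_right _ _).trans (min_le_right _ _))))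
    rw [le_div_iff₀ (by positivity)] at h1
    linarith
  rw [e4] at i1 i2
  rw [e8] at hout
  obtain ⟨D, hDdef⟩ : ∃ D, r ^ (-(η / 8)) = D := ⟨_, rfl⟩
  rw [hDdef] at i1 i2 i3 hout e1r hDG hD
  have hDleG : D ≤ G := by
    rw [hDG, pow_two]
    calc G * G ≤ G * 1 := mul_le_mul_of_nonneg_left hG1 hG0.le
      _ = G := mul_one _
  have hrb : 0 < r ^ be := Real.rpow_pos_of_pos hr0 _
  have hra : 0 < r ^ (1 - α) := Real.rpow_pos_of_pos hr0 _
  have hrr : r ^ be * r ^ (1 - α) = 1 := by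
    rw [← Real.rpow_add hr0, show be + (1 - α) = 0 by rw [hbe]; ring, Real.rpow_zero]
  have hsS : s ≤ S := by
    have : 0 ≤ a / 2 * D * r ^ (1 - α) := by positivity
    linarith
  have hP0 : 0 ≤ P := by
    rw [hPS]
    positivity
  rcases le_or_gt P ε with hPε | hPε
  · have h1 : Q ≤ P := by
      refine MO1_A hr0 hD ha hC hbe0 hout hlow hprw hP0 hPε hbε e1r ?_ i1
      calc (C + K1) * D ≤ (C + K1) * G := mul_le_mul_of_nonneg_left hDleG (by positivity)
        _ ≤ a / 2 := hG4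
    have h2 : s ^ κ ≤ S ^ κ := Real.rpow_le_rpow hs0 hsS hκ0.le
    linarith
  · have hSM : S ≤ M * r ^ (1 - α) :=
      hPyR.trans (mul_le_mul_of_nonneg_right hbM hra.le)
    have h1 : s ≤ S * (1 - c * D) := by
      have h2 : c * D * S ≤ c * D * (M * r ^ (1 - α)) :=
        mul_le_mul_of_nonneg_left hSM (by positivity)
      have h3 : c * D * (M * r ^ (1 - α)) = a / 2 * D * r ^ (1 - α) := by
        rw [← hc]
        field_simp
      linarith
    have hcD : c * D ≤ c * G := mul_le_mul_of_nonneg_left hDleG hc0.le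
    have h2 : κ * (c * D) ≤ 1 / 2 := by
      have : κ * (c * D) ≤ κ * (c * G) := mul_le_mul_of_nonneg_left hcD hκ0.le
      linarith
    have h3 := MO1_pow hκ0 hs0 hS0 (by positivity : 0 ≤ c * D) (by linarith) h2 h1
    have h4 : ε ^ κ * G ≤ S ^ κ := by
      have h5 : ε * r ^ (1 - α) ≤ S := by
        have h6 : S = r ^ (1 - α) * P := by
          rw [hPS, ← mul_assoc, mul_comm (r ^ (1 - α)), hrr, one_mul]
        rw [h6, mul_comm]
        exact mul_le_mul_of_nonneg_left hPε.le hra.le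
      have h7 : (ε * r ^ (1 - α)) ^ κ ≤ S ^ κ := Real.rpow_le_rpow (by positivity) h5 hκ0.le
      rw [Real.mul_rpow hε0.le hra.le, ← Real.rpow_mul hr0.le] at h7
      have h8 : (1 - α) * κ = -(η / 16) := by
        rw [← hκ, hbe]
        have : α - 1 ≠ 0 := by linarith
        field_simp
        ring
      rw [h8, hG] at h7
      exact h7
    have h9 : K1 * D ^ 2 ≤ S ^ κ * (κ * (c * D) / 2) := by
      calc K1 * D ^ 2 = K1 * G * (G * D) := by rw [hDG]; ring
        _ ≤ ε ^ κ * κ * c / 2 * (G * D) := mul_le_mul_of_nonneg_right hG5 (by positivity)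
        _ = ε ^ κ * G * (κ * (c * D) / 2) := by ring
        _ ≤ _ := mul_le_mul_of_nonneg_right h4 (by positivity)
    linarith

private theorem MO2_first {β : Type*} (P : List β → Prop) (l : List β) :
    (¬ P l) ∨ ∃ m m', l = m ++ m' ∧ P m ∧ ∀ m1 s m2, m = m1 ++ s :: m2 → ¬ P m1 := by
  classical
  by_cases h : ∃ n, P (l.take n)
  · right
    refine ⟨l.take (Nat.find h), l.drop (Nat.find h), (List.take_append_drop _ _).symm,
      Nat.find_spec h, ?_⟩
    intro m1 s m2 hm hP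
    have h1 : (l.take (Nat.find h)).length ≤ Nat.find h := List.length_take_le _ _
    have h2 : m1.length < Nat.find h := by
      rw [hm, List.length_append, List.length_cons] at h1
      omega
    have h3 : l.take m1.length = m1 := by
      have h4 : (l.take (Nat.find h)).take m1.length = m1 := by
        rw [hm, List.take_left]
      rw [List.take_take, min_eq_left h2.le] at h4
      exact h4
    exact Nat.find_min h h2 (by rw [h3]; exact hP)
  · left
    intro hP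
    exact h ⟨l.length, by rw [List.take_length]; exact hP⟩

/-- MODULE MO2.  Energy monotonicity.  Strong induction on the length of `l`: if all the vertices
`z` of `l` have `|z - v| < |v| ^ (1 - η/8)` then `Phi z ≤ (1 + K |v| ^ (-η/8)) Phi v`; otherwise
apply `pot_step` to the shortest prefix `l1` leaving this ball.  The claim for the induction:
`Phi z ≤ (1 + ε1) (Phi v + W(v) ^ κ)`, and `W(v) ^ κ ≤ ε2`, `Phi v ≤ 2 b / (α - 1)`. -/
theorem energy_mono {h : V d → ℝ} {a b C : ℝ} (hh : HF h a b C) {η : ℝ} (hη : 0 < η)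
    (hη1 : η ≤ 1) {α : ℝ} (hα : 1 < α) {K : ℝ} (hK : 0 < K) {ε : ℝ} (hε : 0 < ε) :
    ∃ R1 : ℝ, ∀ (E : Edge d → ℝ) (R0 : ℝ), (∀ e, 0 ≤ E e) → CC h η E R0 →
      ∀ (v : V d) (l : List (Step d)),
        (∀ l1 l2, l = l1 ++ l2 → R1 ≤ nrm (endp v l1) ∧ R0 ≤ nrm (endp v l1) ∧
          UB h η α K (wt (tau α E) (endp v l1) l2) (endp v l1)) →
        ∀ l1 l2, l = l1 ++ l2 → Phi α E (endp v l1) l2 ≤ Phi α E v l + ε := by
  obtain ⟨R2, hR2⟩ := ub_crude hh hη hη1 hα hK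
  obtain ⟨R3, hst⟩ := pot_step hh hη hη1 hα hK
  set be : ℝ := α - 1 with hbe
  have hbe0 : 0 < be := by rw [hbe]; linarith
  obtain ⟨κ, hκ⟩ : ∃ κ, η / (16 * be) = κ := ⟨_, rfl⟩
  have hκ0 : 0 < κ := by rw [← hκ]; positivity
  obtain ⟨M, hM⟩ : ∃ M, 2 * (|b| + 1) / be = M := ⟨_, rfl⟩
  have hM0 : 0 < M := by rw [← hM]; positivity
  have hbM : 2 * b / be ≤ M := by
    rw [← hM]
    refine div_le_div_of_nonneg_right ?_ hbe0.le
    linarith [le_abs_self b]
  have hMκ : 0 < M ^ κ := Real.rpow_pos_of_pos hM0 _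
  obtain ⟨ε1, hε1⟩ : ∃ ε1, min 1 (ε / (2 * M)) = ε1 := ⟨_, rfl⟩
  have hε10 : 0 < ε1 := by rw [← hε1]; positivity
  have hε11 : ε1 ≤ 1 := by rw [← hε1]; exact min_le_left _ _
  have hε12 : ε1 * M ≤ ε / 2 := by
    have h1 : ε1 ≤ ε / (2 * M) := by rw [← hε1]; exact min_le_right _ _
    rw [le_div_iff₀ (by positivity)] at h1
    linarith
  have hlog : 0 < Real.log (1 + ε1) := Real.log_pos (by linarith)
  obtain ⟨d0, hd0⟩ : ∃ d0, min 1 (min (Real.log (1 + ε1) / be) (ε / (4 * M ^ κ))) = d0 :=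
    ⟨_, rfl⟩
  have hd0p : 0 < d0 := by rw [← hd0]; positivity
  have hlim := (tendsto_rpow_neg_atTop (y := η / 16) (by positivity)).eventually
    (gt_mem_nhds hd0p)
  obtain ⟨R4, hR4⟩ := Filter.eventually_atTop.1 hlim
  refine ⟨max 1 (max R2 (max R3 R4)), ?_⟩
  intro E R0 hE hCC
  have hτ : ∀ e, 0 ≤ tau α E e := tau_nonneg hE
  have hDb : ∀ r, R4 ≤ r → 1 ≤ r → (1 + r ^ (-(η / 8))) ^ be ≤ 1 + ε1 := by
    intro r hr hr1
    have hr0 : 0 < r := by linarith
    have h1 : r ^ (-(η / 8)) ≤ r ^ (-(η / 16)) :=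
      Real.rpow_le_rpow_of_exponent_le hr1 (by linarith)
    have h2 : r ^ (-(η / 16)) ≤ Real.log (1 + ε1) / be := by
      have := hR4 r hr
      rw [← hd0] at this
      exact this.le.trans ((min_le_right _ _).trans (min_le_left _ _))
    have h3 : r ^ (-(η / 8)) * be ≤ Real.log (1 + ε1) := by
      have := h1.trans h2
      rw [le_div_iff₀ hbe0] at this
      exact this
    have h4 : (1 + r ^ (-(η / 8))) ^ be ≤ Real.exp (r ^ (-(η / 8)) * be) := by
      rw [Real.exp_mul]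
      refine Real.rpow_le_rpow ?_ ?_ hbe0.le
      · have := Real.rpow_pos_of_pos hr0 (-(η / 8))
        linarith
      · have := Real.add_one_le_exp (r ^ (-(η / 8)))
        linarith
    refine h4.trans ((Real.exp_le_exp.2 h3).trans ?_)
    rw [Real.exp_log (by linarith)]
  have key : ∀ (n : ℕ) (v : V d) (l : List (Step d)), l.length ≤ n →
      (∀ l1 l2, l = l1 ++ l2 → max 1 (max R2 (max R3 R4)) ≤ nrm (endp v l1) ∧
        R0 ≤ nrm (endp v l1) ∧
          UB h η α K (wt (tau α E) (endp v l1) l2) (endp v l1)) →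
      ∀ l1 l2, l = l1 ++ l2 → Phi α E (endp v l1) l2 ≤
        (1 + ε1) * (Phi α E v l + wt (tau α E) v l ^ κ) := by
    intro n
    induction n using Nat.strong_induction_on with
    | _ n ih =>
      intro v l hn hl l1 l2 hll
      obtain ⟨hv1, hv2, hv3⟩ := hl [] l rfl
      rw [endp_nil] at hv1 hv2 hv3
      have hr1 : 1 ≤ nrm v := (le_max_left _ _).trans hv1
      have hr0 : 0 < nrm v := by linarith
      have hrR3 : R3 ≤ nrm v := (le_max_left _ _).trans ((le_max_right _ _).trans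
        ((le_max_right _ _).trans hv1))
      have hrR4 : R4 ≤ nrm v := (le_max_right _ _).trans ((le_max_right _ _).trans
        ((le_max_right _ _).trans hv1))
      have hWv : 0 ≤ wt (tau α E) v l := wt_nonneg hτ _ _
      have hWκ : 0 ≤ wt (tau α E) v l ^ κ := Real.rpow_nonneg hWv _
      have hPv : 0 ≤ Phi α E v l := mul_nonneg (Real.rpow_nonneg hr0.le _) hWv
      rcases MO2_first (fun m => nrm v ^ (1 - η / 8) ≤ nrm (endp v m - v)) l1 with h1 | h1
      · -- no exit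
        have h2 : nrm (endp v l1 - v) ≤ nrm v ^ (1 - η / 8) := (not_le.1 h1).le
        obtain ⟨hD, e4, e8, e41, eT, e1r, hD1⟩ := ST_pow hη hη1 hr1
        rw [e8] at h2
        have h3 : nrm (endp v l1) ≤ nrm v * (1 + nrm v ^ (-(η / 8))) := by
          have h4 := nrm_le_add (endp v l1) v
          have h5 : nrm v * (1 + nrm v ^ (-(η / 8))) = nrm v + nrm v ^ (-(η / 8)) * nrm v := by
            ring
          linarith
        have h4 : nrm (endp v l1) ^ be ≤ nrm v ^ be * (1 + ε1) := by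
          have h5 : nrm (endp v l1) ^ be ≤ (nrm v * (1 + nrm v ^ (-(η / 8)))) ^ be :=
            Real.rpow_le_rpow (nrm_nonneg _) h3 hbe0.le
          rw [Real.mul_rpow hr0.le (by linarith)] at h5
          exact h5.trans (mul_le_mul_of_nonneg_left (hDb _ hrR4 hr1)
            (Real.rpow_nonneg hr0.le _))
        have h6 : wt (tau α E) v l = wt (tau α E) v l1 + wt (tau α E) (endp v l1) l2 := by
          rw [hll, wt_append]
        have h7 : 0 ≤ wt (tau α E) v l1 := wt_nonneg hτ _ _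
        have h8 : 0 ≤ wt (tau α E) (endp v l1) l2 := wt_nonneg hτ _ _
        have h9 : Phi α E (endp v l1) l2 ≤ (1 + ε1) * Phi α E v l := by
          change nrm (endp v l1) ^ be * wt (tau α E) (endp v l1) l2 ≤
            (1 + ε1) * (nrm v ^ be * wt (tau α E) v l)
          calc nrm (endp v l1) ^ be * wt (tau α E) (endp v l1) l2 ≤
              nrm v ^ be * (1 + ε1) * wt (tau α E) v l :=
                mul_le_mul h4 (by linarith) h8 (by positivity)
            _ = _ := by ring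
        refine h9.trans (mul_le_mul_of_nonneg_left ?_ (by linarith))
        linarith
      · obtain ⟨m, m', hm, hPm, hmin⟩ := h1
        have hlm : l = m ++ (m' ++ l2) := by rw [hll, hm, List.append_assoc]
        have hm0 : m ≠ [] := by
          intro h0
          rw [h0, endp_nil, sub_self, nrm_zero] at hPm
          have := Real.rpow_pos_of_pos hr0 (1 - η / 8)
          linarith
        have h2 := hst E R0 hE hCC v m (m' ++ l2) hrR3 hv2
          (fun m1 s m2 h => (not_le.1 (hmin m1 s m2 h)).le) hPm (by rw [← hlm]; exact hv3)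
        rw [← hlm, hκ] at h2
        have hlen : (m' ++ l2).length < l.length := by
          have h4 := congrArg List.length hlm
          have : 0 < m.length := List.length_pos_iff.2 hm0
          simp only [List.length_append] at h4 ⊢
          omega
        have h3 := ih (m' ++ l2).length (by omega) (endp v m) (m' ++ l2) le_rfl
          (fun p1 p2 hp => by
            have h4 := hl (m ++ p1) p2 (by rw [hlm, hp, List.append_assoc])
            rw [endp_append] at h4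
            exact h4) m' l2 rfl
        have h5 : endp v l1 = endp (endp v m) m' := by rw [hm, endp_append]
        rw [h5]
        exact h3.trans (mul_le_mul_of_nonneg_left h2 (by linarith))
  intro v l hl l1 l2 hll
  have h1 := key l.length v l le_rfl hl l1 l2 hll
  obtain ⟨hv1, hv2, hv3⟩ := hl [] l rfl
  rw [endp_nil] at hv1 hv2 hv3
  have hr1 : 1 ≤ nrm v := (le_max_left _ _).trans hv1
  have hr0 : 0 < nrm v := by linarith
  have hrR2 : R2 ≤ nrm v := (le_max_left _ _).trans ((le_max_right _ _).trans hv1)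
  have hrR4 : R4 ≤ nrm v := (le_max_right _ _).trans ((le_max_right _ _).trans
    ((le_max_right _ _).trans hv1))
  have hWv : 0 ≤ wt (tau α E) v l := wt_nonneg hτ _ _
  have hra : 0 < nrm v ^ (1 - α) := Real.rpow_pos_of_pos hr0 _
  have hWM : wt (tau α E) v l ≤ M * nrm v ^ (1 - α) :=
    (hR2 _ v hrR2 hv3).trans (mul_le_mul_of_nonneg_right hbM hra.le)
  have hrr : nrm v ^ be * nrm v ^ (1 - α) = 1 := by
    rw [← Real.rpow_add hr0, show be + (1 - α) = 0 by rw [hbe]; ring, Real.rpow_zero]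
  have hPM : Phi α E v l ≤ M := by
    change nrm v ^ be * wt (tau α E) v l ≤ M
    calc nrm v ^ be * wt (tau α E) v l ≤ nrm v ^ be * (M * nrm v ^ (1 - α)) :=
          mul_le_mul_of_nonneg_left hWM (Real.rpow_nonneg hr0.le _)
      _ = M * (nrm v ^ be * nrm v ^ (1 - α)) := by ring
      _ = M := by rw [hrr, mul_one]
  have hWκ : wt (tau α E) v l ^ κ ≤ ε / 4 := by
    have h2 : wt (tau α E) v l ^ κ ≤ (M * nrm v ^ (1 - α)) ^ κ :=
      Real.rpow_le_rpow hWv hWM hκ0.le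
    rw [Real.mul_rpow hM0.le hra.le, ← Real.rpow_mul hr0.le] at h2
    have h8 : (1 - α) * κ = -(η / 16) := by
      rw [← hκ, hbe]
      have : α - 1 ≠ 0 := by linarith
      field_simp
      ring
    rw [h8] at h2
    have h3 : nrm v ^ (-(η / 16)) ≤ ε / (4 * M ^ κ) := by
      have := hR4 _ hrR4
      rw [← hd0] at this
      exact this.le.trans ((min_le_right _ _).trans (min_le_right _ _))
    rw [le_div_iff₀ (by positivity)] at h3
    linarith
  have h4 : ε1 * Phi α E v l ≤ ε1 * M := mul_le_mul_of_nonneg_left hPM hε10.le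
  have h5 : (1 + ε1) * wt (tau α E) v l ^ κ ≤ 2 * (ε / 4) :=
    mul_le_mul (by linarith) hWκ (Real.rpow_nonneg hWv _) (by norm_num)
  linarith

end ConeD
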