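import Pool.Agent.ConeD.TProp

/-! Lower bound for `hm` by counting paths (section 5 (a) of the text). -/

set_option autoImplicit false

namespace ConeD

variable {d : ℕ}

open MeasureTheory

/-- the sum of the hyperbolic cosines -/
noncomputable def Qc (q : Fin d → ℝ) : ℝ := ∑ j, Real.cosh (q j)

private theorem LQ1_endp (x : V d) (l : List (Step d)) : endp x l = x + (l.map vec).sum := by
  induction l generalizing x with
  | nil => simp [endp_nil]
  | cons s t ih =>
    rw [endp_cons, ih, List.map_cons, List.sum_cons, add_assoc]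

/-- the exponential weight of a vertex -/
private noncomputable def LQ1_w (q : Fin d → ℝ) (z : V d) : ℝ := Real.exp (∑ j, q j * (z j : ℝ))

private theorem LQ1_w_add (q : Fin d → ℝ) (z z' : V d) :
    LQ1_w q (z + z') = LQ1_w q z * LQ1_w q z' := by
  unfold LQ1_w
  rw [← Real.exp_add, ← Finset.sum_add_distrib]
  congr 1
  refine Finset.sum_congr rfl (fun j _ => ?_)
  rw [Pi.add_apply]
  push_cast
  ring

private theorem LQ1_w_list (q : Fin d → ℝ) (l : List (V d)) :
    LQ1_w q l.sum = (l.map (LQ1_w q)).prod := by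
  induction l with
  | nil => simp [LQ1_w]
  | cons a t ih => rw [List.sum_cons, LQ1_w_add, ih, List.map_cons, List.prod_cons]

private theorem LQ1_ev (q : Fin d → ℝ) (j : Fin d) :
    ∑ i, q i * ((ev j i : ℤ) : ℝ) = q j := by
  rw [Finset.sum_eq_single j]
  · simp [ev]
  · intro i _ hi
    simp [ev, Pi.single_eq_of_ne hi]
  · simp

private theorem LQ1_step (q : Fin d → ℝ) : ∑ s : Step d, LQ1_w q (vec s) = 2 * Qc q := by
  rw [Fintype.sum_prod_type]
  unfold Qc
  rw [Finset.mul_sum]
  refine Finset.sum_congr rfl (fun j _ => ?_)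
  rw [Fintype.sum_bool]
  have h1 : LQ1_w q (vec (j, true)) = Real.exp (q j) := by
    unfold LQ1_w vec
    simp only [if_true]
    rw [LQ1_ev]
  have h2 : LQ1_w q (vec (j, false)) = Real.exp (-q j) := by
    unfold LQ1_w vec
    simp only [Bool.false_eq_true, if_false]
    congr 1
    rw [← LQ1_ev q j, ← Finset.sum_neg_distrib]
    refine Finset.sum_congr rfl (fun i _ => ?_)
    rw [Pi.neg_apply]
    push_cast
    ring
  rw [h1, h2, Real.cosh_eq]
  ring

private theorem LQ1_ofFn (q : Fin d → ℝ) {n : ℕ} (f : Fin n → Step d) :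
    LQ1_w q (endp 0 (List.ofFn f)) = ∏ i, LQ1_w q (vec (f i)) := by
  rw [LQ1_endp, zero_add, LQ1_w_list, List.map_map, List.map_ofFn, List.prod_ofFn]
  rfl

private theorem LQ_Qc_nonneg (q : Fin d → ℝ) : 0 ≤ Qc q :=
  Finset.sum_nonneg fun j _ => (Real.cosh_pos (q j)).le

/-- MODULE LQ1.  There are at most `exp (-⟨q, z⟩) (2 Q) ^ n` words of length `n` from `0` to `z`:
the sum over all the words `f` of `exp ⟨q, endp 0 f⟩` is `(2 Q) ^ n`. -/
theorem count_words (q : Fin d → ℝ) (z : V d) (n : ℕ) :
    ((Finset.univ.filter (fun f : Fin n → Step d => endp 0 (List.ofFn f) = z)).card : ℝ) ≤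
      Real.exp (-∑ j, q j * (z j : ℝ)) * (2 * Qc q) ^ n := by
  have h1 : (2 * Qc q) ^ n = ∑ f : Fin n → Step d, LQ1_w q (endp 0 (List.ofFn f)) := by
    rw [← LQ1_step, Fintype.sum_pow]
    refine Finset.sum_congr rfl (fun f _ => ?_)
    rw [LQ1_ofFn]
  have h2 : ((Finset.univ.filter (fun f : Fin n → Step d => endp 0 (List.ofFn f) = z)).card : ℝ) *
      LQ1_w q z ≤ (2 * Qc q) ^ n := by
    rw [h1]
    calc ((Finset.univ.filter (fun f : Fin n → Step d =>
          endp 0 (List.ofFn f) = z)).card : ℝ) * LQ1_w q z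
        = ∑ f ∈ Finset.univ.filter (fun f : Fin n → Step d => endp 0 (List.ofFn f) = z),
            LQ1_w q (endp 0 (List.ofFn f)) := by
          rw [Finset.sum_congr rfl (fun f hf => by rw [(Finset.mem_filter.1 hf).2])]
          rw [Finset.sum_const, nsmul_eq_mul]
      _ ≤ _ := Finset.sum_le_sum_of_subset_of_nonneg (Finset.filter_subset _ _)
          (fun f _ _ => (Real.exp_pos _).le)
  have h3 : Real.exp (-∑ j, q j * (z j : ℝ)) * LQ1_w q z = 1 := by
    unfold LQ1_w
    rw [← Real.exp_add, neg_add_cancel, Real.exp_zero]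
  calc ((Finset.univ.filter (fun f : Fin n → Step d => endp 0 (List.ofFn f) = z)).card : ℝ)
      = Real.exp (-∑ j, q j * (z j : ℝ)) *
        (((Finset.univ.filter (fun f : Fin n → Step d =>
          endp 0 (List.ofFn f) = z)).card : ℝ) * LQ1_w q z) := by
        rw [mul_left_comm, h3, mul_one]
    _ ≤ _ := mul_le_mul_of_nonneg_left h2 (Real.exp_pos _).le

/-- the sum over the edge-simple words from `0` to `z` -/
private theorem LQ2_le (s : ℝ) (hs : 0 ≤ s) (z : V d) (E : Edge d → ℝ) (hE : ∀ e, 0 ≤ E e) :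
    ENNReal.ofReal (Real.exp (-s * T E 0 z)) ≤
      ∑' n : ℕ, ∑ f : Fin n → Step d,
        if endp 0 (List.ofFn f) = z ∧ (edges 0 (List.ofFn f)).Nodup then
          ENNReal.ofReal (Real.exp (-s * wt E 0 (List.ofFn f))) else 0 := by
  have key : ∀ l : List (Step d), endp 0 l = z →
      ENNReal.ofReal (Real.exp (-s * wt E 0 l)) ≤
      ∑' n : ℕ, ∑ f : Fin n → Step d,
        if endp 0 (List.ofFn f) = z ∧ (edges 0 (List.ofFn f)).Nodup then
          ENNReal.ofReal (Real.exp (-s * wt E 0 (List.ofFn f))) else 0 := by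
    intro l hl
    obtain ⟨l', h1, -, h3, h4⟩ := loop_erase 0 l
    have h5 : wt E 0 l' ≤ wt E 0 l := wt_le_of_sublist hE h3
    have h6 : ENNReal.ofReal (Real.exp (-s * wt E 0 l)) ≤
        ENNReal.ofReal (Real.exp (-s * wt E 0 l')) := by
      apply ENNReal.ofReal_le_ofReal
      apply Real.exp_le_exp.2
      nlinarith
    refine h6.trans ?_
    refine le_trans ?_ (ENNReal.le_tsum l'.length)
    have h7 : List.ofFn (fun i : Fin l'.length => l'[i]) = l' := List.ofFn_getElem
    refine le_trans (le_of_eq ?_) (Finset.single_le_sum (fun _ _ => zero_le)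
      (Finset.mem_univ (fun i : Fin l'.length => l'[i])))
    rw [h7, if_pos ⟨h1.trans hl, h4⟩]
  refine ENNReal.le_of_forall_pos_le_add ?_
  intro ε hε _
  -- choose a walk close to the infimum
  have hcont : Filter.Tendsto (fun δ : ℝ => ENNReal.ofReal (Real.exp (-s * (T E 0 z + δ))))
      (nhdsWithin 0 (Set.Ioi 0)) (nhds (ENNReal.ofReal (Real.exp (-s * (T E 0 z + 0))))) := by
    have hc : Continuous (fun δ : ℝ => ENNReal.ofReal (Real.exp (-s * (T E 0 z + δ)))) :=
      ENNReal.continuous_ofReal.comp (by fun_prop)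
    exact (hc.tendsto 0).mono_left nhdsWithin_le_nhds
  have hbound : ∀ᶠ δ : ℝ in nhdsWithin 0 (Set.Ioi 0),
      ENNReal.ofReal (Real.exp (-s * (T E 0 z + δ))) ≤
      ∑' n : ℕ, ∑ f : Fin n → Step d,
        if endp 0 (List.ofFn f) = z ∧ (edges 0 (List.ofFn f)).Nodup then
          ENNReal.ofReal (Real.exp (-s * wt E 0 (List.ofFn f))) else 0 := by
    filter_upwards [self_mem_nhdsWithin] with δ hδ
    obtain ⟨l, hl1, hl2⟩ := exists_wt_lt (show T E 0 z < T E 0 z + δ from
      lt_add_of_pos_right _ hδ)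
    refine le_trans ?_ (key l hl1)
    apply ENNReal.ofReal_le_ofReal
    apply Real.exp_le_exp.2
    nlinarith
  have := le_of_tendsto hcont hbound
  rw [add_zero] at this
  exact this.trans le_self_add

/-- MODULE LQ2.  The Laplace transform of the passage time: `exp (-s T)` is at most the sum over
the words `l` from `0` to `z` with distinct edges of `exp (-s wt)`, whose expectation is
`(1 + s) ^ (-length)` (`lintegral_exp_wt`); here `s = 2 Q`. -/
theorem laplace_T (hd : 0 < d) (q : Fin d → ℝ) (z : V d) :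
    ∫⁻ E, ENNReal.ofReal (Real.exp (-(2 * Qc q) * T E 0 z)) ∂(PE d) ≤
      ENNReal.ofReal (Real.exp (-∑ j, q j * (z j : ℝ)) * (1 + 2 * Qc q)) := by
  set s : ℝ := 2 * Qc q with hsd
  have hs : 0 ≤ s := mul_nonneg zero_le_two (LQ_Qc_nonneg q)
  have hs1 : 0 < 1 + s := by linarith
  have hae : ∀ᵐ E ∂(PE d), ENNReal.ofReal (Real.exp (-s * T E 0 z)) ≤
      ∑' n : ℕ, ∑ f : Fin n → Step d,
        if endp 0 (List.ofFn f) = z ∧ (edges 0 (List.ofFn f)).Nodup then
          ENNReal.ofReal (Real.exp (-s * wt E 0 (List.ofFn f))) else 0 := by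
    filter_upwards [ae_pos (d := d)] with E hE
    exact LQ2_le s hs z E (fun e => (hE e).le)
  refine (lintegral_mono_ae hae).trans ?_
  have hmeas : ∀ l : List (Step d),
      Measurable (fun E : Edge d → ℝ => ENNReal.ofReal (Real.exp (-s * wt E 0 l))) := by
    intro l
    have := measurable_wt (d := d) 0 l
    fun_prop
  rw [lintegral_tsum (fun n => by
    refine Measurable.aemeasurable ?_
    refine Finset.measurable_sum _ (fun f _ => ?_)
    split_ifs
    · exact hmeas _
    · exact measurable_const)]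
  have hterm : ∀ n : ℕ, ∫⁻ E, ∑ f : Fin n → Step d,
        (if endp 0 (List.ofFn f) = z ∧ (edges 0 (List.ofFn f)).Nodup then
          ENNReal.ofReal (Real.exp (-s * wt E 0 (List.ofFn f))) else 0) ∂(PE d) ≤
      ENNReal.ofReal (Real.exp (-∑ j, q j * (z j : ℝ)) * (s / (1 + s)) ^ n) := by
    intro n
    rw [lintegral_finsetSum _ (fun f _ => by
      split_ifs
      · exact hmeas _
      · exact measurable_const)]
    have h1 : ∀ f : Fin n → Step d, ∫⁻ E,
        (if endp 0 (List.ofFn f) = z ∧ (edges 0 (List.ofFn f)).Nodup then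
          ENNReal.ofReal (Real.exp (-s * wt E 0 (List.ofFn f))) else 0) ∂(PE d) ≤
        if endp 0 (List.ofFn f) = z then ENNReal.ofReal ((1 / (1 + s)) ^ n) else 0 := by
      intro f
      by_cases hf : endp 0 (List.ofFn f) = z ∧ (edges 0 (List.ofFn f)).Nodup
      · simp only [hf, if_true, and_self]
        rw [lintegral_exp_wt 0 _ hf.2 (show -s < 1 by linarith), List.length_ofFn,
          ENNReal.ofReal_pow (by positivity), sub_neg_eq_add]
      · simp only [hf, if_false, lintegral_zero]
        exact zero_le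
    refine (Finset.sum_le_sum (fun f _ => h1 f)).trans ?_
    rw [← Finset.sum_filter, Finset.sum_const, nsmul_eq_mul, ← ENNReal.ofReal_natCast,
      ← ENNReal.ofReal_mul (Nat.cast_nonneg _)]
    apply ENNReal.ofReal_le_ofReal
    have h2 := count_words q z n
    rw [← hsd] at h2
    calc ((Finset.univ.filter (fun f : Fin n → Step d => endp 0 (List.ofFn f) = z)).card : ℝ) *
          (1 / (1 + s)) ^ n
        ≤ (Real.exp (-∑ j, q j * (z j : ℝ)) * s ^ n) * (1 / (1 + s)) ^ n :=
          mul_le_mul_of_nonneg_right h2 (by positivity)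
      _ = _ := by
          rw [mul_assoc, ← mul_pow, mul_one_div]
  refine (ENNReal.tsum_le_tsum hterm).trans ?_
  have hr0 : 0 ≤ s / (1 + s) := by positivity
  have hr1 : s / (1 + s) < 1 := by
    rw [div_lt_one hs1]
    linarith
  have hsum : Summable (fun n : ℕ => Real.exp (-∑ j, q j * (z j : ℝ)) * (s / (1 + s)) ^ n) :=
    (summable_geometric_of_lt_one hr0 hr1).mul_left _
  rw [← ENNReal.ofReal_tsum_of_nonneg (fun n => by positivity) hsum]
  apply ENNReal.ofReal_le_ofReal
  rw [tsum_mul_left, tsum_geometric_of_lt_one hr0 hr1]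
  have h3 : (1 - s / (1 + s))⁻¹ = 1 + s := by
    field_simp
    ring
  rw [h3]

/-- MODULE LQ3.  By Jensen (`exp x ≥ exp m (1 + x - m)` with `m = - s hm z`). -/
theorem hm_low_exp (hd : 0 < d) (q : Fin d → ℝ) (z : V d) :
    (∑ j, q j * (z j : ℝ) - Real.log (1 + 2 * Qc q)) / (2 * Qc q) ≤ hm z := by
  set s : ℝ := 2 * Qc q with hsd
  have hs : 0 < s := by
    have h1 : (1 : ℝ) ≤ Real.cosh (q ⟨0, hd⟩) := Real.one_le_cosh _
    have h2 : Real.cosh (q ⟨0, hd⟩) ≤ Qc q :=
      Finset.single_le_sum (f := fun j => Real.cosh (q j)) (fun j _ => (Real.cosh_pos (q j)).le)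
        (Finset.mem_univ _)
    linarith
  have hs1 : 0 < 1 + s := by linarith
  have hlap := laplace_T hd q z
  rw [← hsd] at hlap
  have hT : Integrable (fun E : Edge d → ℝ => T E 0 z) (PE d) := integrable_T 0 z
  set m : ℝ := -s * hm z with hmd
  -- Jensen
  have hlow : ENNReal.ofReal (Real.exp m) ≤
      ∫⁻ E, ENNReal.ofReal (Real.exp (-s * T E 0 z)) ∂(PE d) := by
    have h1 : ∀ E : Edge d → ℝ, Real.exp m * (1 + (-s * T E 0 z - m)) ≤
        Real.exp (-s * T E 0 z) := by
      intro E
      have h2 := Real.add_one_le_exp (-s * T E 0 z - m)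
      have h3 : Real.exp (-s * T E 0 z) = Real.exp m * Real.exp (-s * T E 0 z - m) := by
        rw [← Real.exp_add]
        congr 1
        ring
      rw [h3]
      exact mul_le_mul_of_nonneg_left (by linarith) (Real.exp_pos _).le
    have h40 : Integrable (fun E : Edge d → ℝ => -s * T E 0 z - m) (PE d) :=
      (hT.const_mul (-s)).sub (integrable_const m)
    have h41 : Integrable (fun E : Edge d → ℝ => 1 + (-s * T E 0 z - m)) (PE d) :=
      (integrable_const (1 : ℝ)).add h40
    have h4 : Integrable (fun E : Edge d → ℝ => Real.exp m * (1 + (-s * T E 0 z - m))) (PE d) :=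
      h41.const_mul (Real.exp m)
    have h5 : ∫ E, Real.exp m * (1 + (-s * T E 0 z - m)) ∂(PE d) = Real.exp m := by
      rw [integral_const_mul, integral_add (integrable_const (1 : ℝ)) h40,
        integral_sub (hT.const_mul (-s)) (integrable_const m), integral_const_mul]
      have h6 : ∫ E, T E 0 z ∂(PE d) = hm z := rfl
      rw [h6]
      simp [hmd]
    have hexp : Integrable (fun E : Edge d → ℝ => Real.exp (-s * T E 0 z)) (PE d) := by
      refine Integrable.of_bound
        ((measurable_T 0 z).const_mul (-s)).exp.aestronglyMeasurable 1 ?_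
      filter_upwards [ae_pos (d := d)] with E hE
      rw [Real.norm_eq_abs, abs_of_pos (Real.exp_pos _)]
      apply Real.exp_le_one_iff.2
      have := T_nonneg (fun e => (hE e).le) 0 z
      nlinarith
    rw [← ofReal_integral_eq_lintegral_ofReal hexp
      (Filter.Eventually.of_forall fun E => (Real.exp_pos _).le)]
    apply ENNReal.ofReal_le_ofReal
    rw [← h5]
    exact integral_mono h4 hexp h1
  have h7 := hlow.trans hlap
  rw [ENNReal.ofReal_le_ofReal_iff (by positivity)] at h7
  have h8 := Real.log_le_log (Real.exp_pos m) h7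
  rw [Real.log_exp, Real.log_mul (Real.exp_pos _).ne' hs1.ne', Real.log_exp] at h8
  rw [div_le_iff₀ hs]
  have : m = -(s * hm z) := by rw [hmd]; ring
  rw [this] at h8
  linarith

end ConeD
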