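import Pool.Agent.ConeD.Defs

/-! The product measure `(PE d)` (module PROD). -/

set_option autoImplicit false

namespace ConeD

open ConeE (mE lintegral_mE mE_ae_pos mE_Ioi lintegral_exp_mE integrable_sq_mE memLp_mE integrable_mE
  integral_mE integral_sq_mE)

variable {d : ℕ}

open MeasureTheory ProbabilityTheory

/-- invariance under a permutation of the edges -/
theorem measurePreserving_perm (σ : (Edge d) ≃ (Edge d)) :
    MeasurePreserving (fun (E : Edge d → ℝ) (e : Edge d) => E (σ e)) (PE d) (PE d) := by
  refine ⟨by fun_prop, ?_⟩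
  exact Measure.map_infinitePi_infinitePi_of_inj (P := fun _ : (Edge d) => mE) σ.injective

theorem measurePreserving_eval (e : Edge d) :
    MeasurePreserving (fun E : Edge d → ℝ => E e) (PE d) mE :=
  measurePreserving_eval_infinitePi (fun _ : (Edge d) => mE) e

theorem iIndepFun_eval : iIndepFun (fun (e : Edge d) (E : Edge d → ℝ) => E e) (PE d) :=
  iIndepFun_infinitePi (P := fun _ : (Edge d) => mE) (X := fun _ x => x) (fun _ => measurable_id)

theorem ae_pos : ∀ᵐ E ∂(PE d), ∀ e, 0 < E e := by
  rw [ae_all_iff]
  intro e
  exact (measurePreserving_eval e).quasiMeasurePreserving.ae mE_ae_pos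

/-- boxes have the product measure -/
theorem prod_box {s : Finset (Edge d)} {t : Edge d → Set ℝ} (ht : ∀ i, MeasurableSet (t i)) :
    (PE d) (Set.pi s t) = ∏ i ∈ s, mE (t i) :=
  Measure.infinitePi_pi (μ := fun _ : (Edge d) => mE) (fun i _ => ht i)

theorem prod_eq_PE {ν : Measure (Edge d → ℝ)}
    (h : ∀ s : Finset (Edge d), ∀ t : Edge d → Set ℝ, (∀ i, MeasurableSet (t i)) →
      ν (Set.pi s t) = ∏ i ∈ s, mE (t i)) : ν = (PE d) :=
  Measure.eq_infinitePi (fun _ : (Edge d) => mE) h

theorem prod_measurable_update (e : Edge d) :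
    Measurable (fun q : (Edge d → ℝ) × ℝ => Function.update q.1 e q.2) := by
  rw [measurable_pi_iff]
  intro i
  by_cases hi : i = e
  · subst hi
    simpa using measurable_snd
  · simp only [Function.update_of_ne hi]
    exact (measurable_pi_apply i).comp measurable_fst

/-- resampling one coordinate -/
theorem measurePreserving_update (e : Edge d) :
    MeasurePreserving (fun q : (Edge d → ℝ) × ℝ => Function.update q.1 e q.2) ((PE d).prod mE) (PE d) := by
  refine ⟨prod_measurable_update e, prod_eq_PE (fun s t ht => ?_)⟩
  have hbox : MeasurableSet (Set.pi (s : Set (Edge d)) t) :=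
    MeasurableSet.pi s.countable_toSet (fun i _ => ht i)
  rw [Measure.map_apply (prod_measurable_update e) hbox]
  by_cases hes : e ∈ s
  · have hpre : (fun q : (Edge d → ℝ) × ℝ => Function.update q.1 e q.2) ⁻¹' (Set.pi (s : Set (Edge d)) t)
        = (Set.pi ((s.erase e : Finset (Edge d)) : Set (Edge d)) t) ×ˢ (t e) := by
      ext q
      simp only [Set.mem_preimage, Set.mem_pi, Finset.mem_coe, Set.mem_prod, Finset.mem_erase]
      constructor
      · intro h
        refine ⟨fun i hi => ?_, ?_⟩
        · have := h i hi.2
          rwa [Function.update_of_ne hi.1] at this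
        · have := h e hes
          rwa [Function.update_self] at this
      · rintro ⟨h1, h2⟩ i hi
        by_cases hie : i = e
        · subst hie
          rwa [Function.update_self]
        · rw [Function.update_of_ne hie]
          exact h1 i ⟨hie, hi⟩
    rw [hpre, Measure.prod_prod, prod_box ht, mul_comm]
    exact Finset.mul_prod_erase s (fun i => mE (t i)) hes
  · have hpre : (fun q : (Edge d → ℝ) × ℝ => Function.update q.1 e q.2) ⁻¹' (Set.pi (s : Set (Edge d)) t)
        = (Set.pi (s : Set (Edge d)) t) ×ˢ (Set.univ : Set ℝ) := by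
      ext q
      simp only [Set.mem_preimage, Set.mem_pi, Finset.mem_coe, Set.mem_prod, Set.mem_univ,
        and_true]
      refine forall₂_congr (fun i hi => ?_)
      have hie : i ≠ e := fun h => hes (h ▸ hi)
      rw [Function.update_of_ne hie]
    rw [hpre, Measure.prod_prod, prod_box ht, measure_univ, mul_one]

/-- resampling and exchange -/
theorem measurePreserving_swap (e : Edge d) :
    MeasurePreserving (fun q : (Edge d → ℝ) × ℝ => (Function.update q.1 e q.2, q.1 e))
      ((PE d).prod mE) ((PE d).prod mE) := by
  have hU := measurePreserving_update e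
  have hW : Measurable (fun q : (Edge d → ℝ) × ℝ => q.1 e) :=
    (measurable_pi_apply e).comp measurable_fst
  have hm : Measurable (fun q : (Edge d → ℝ) × ℝ => (Function.update q.1 e q.2, q.1 e)) :=
    hU.measurable.prodMk hW
  refine ⟨hm, (Measure.prod_eq (fun A B hA hB => ?_)).symm⟩
  rw [Measure.map_apply hm (hA.prod hB)]
  -- the probability that the resampled family is in `A`, given the family
  set g : (Edge d → ℝ) → ENNReal := fun E => mE {x | Function.update E e x ∈ A} with hg
  have hset : MeasurableSet ((fun q : (Edge d → ℝ) × ℝ => Function.update q.1 e q.2) ⁻¹' A) :=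
    hU.measurable hA
  have hgm : Measurable g := measurable_measure_prodMk_left hset
  have h1 : (PE d).prod mE ((fun q : (Edge d → ℝ) × ℝ => (Function.update q.1 e q.2, q.1 e)) ⁻¹'
      (A ×ˢ B)) = ∫⁻ E, g E * B.indicator 1 (E e) ∂(PE d) := by
    rw [Measure.prod_apply (hm (hA.prod hB))]
    refine lintegral_congr (fun E => ?_)
    by_cases hE : E e ∈ B
    · rw [Set.indicator_of_mem hE, Pi.one_apply, mul_one, hg]
      congr 1
      ext x
      simp [hE]
    · rw [Set.indicator_of_notMem hE, mul_zero]
      have : (Prod.mk E ⁻¹' ((fun q : (Edge d → ℝ) × ℝ => (Function.update q.1 e q.2, q.1 e)) ⁻¹'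
          (A ×ˢ B))) = ∅ := by
        ext x
        simp [hE]
      rw [this, measure_empty]
  have h2 : ∫⁻ E, g E ∂(PE d) = (PE d) A := by
    rw [← hU.measure_preimage hA.nullMeasurableSet, Measure.prod_apply hset]
    rfl
  have h3 : ∫⁻ E, g E * B.indicator 1 (E e) ∂(PE d) =
      ∫⁻ q, g q.1 * B.indicator 1 q.2 ∂((PE d).prod mE) := by
    rw [← hU.lintegral_comp (f := fun E => g E * B.indicator 1 (E e))]
    · refine lintegral_congr (fun q => ?_)
      rw [Function.update_self]
      congr 1
      simp only [hg]
      congr 1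
      ext x
      simp
    · exact hgm.mul ((measurable_one.indicator hB).comp (measurable_pi_apply e))
  rw [h1, h3, lintegral_prod_mul hgm.aemeasurable (measurable_one.indicator hB).aemeasurable, h2,
    lintegral_indicator_one hB]

/-- merging two independent families -/
theorem measurePreserving_merge (F : Finset (Edge d)) :
    MeasurePreserving (fun (q : (Edge d → ℝ) × (Edge d → ℝ)) (e : Edge d) =>
      if e ∈ F then q.2 e else q.1 e) ((PE d).prod (PE d)) (PE d) := by
  have hm : Measurable (fun (q : (Edge d → ℝ) × (Edge d → ℝ)) (e : Edge d) =>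
      if e ∈ F then q.2 e else q.1 e) := by
    rw [measurable_pi_iff]
    intro i
    by_cases hi : i ∈ F
    · simp only [hi, if_true]
      exact (measurable_pi_apply i).comp measurable_snd
    · simp only [hi, if_false]
      exact (measurable_pi_apply i).comp measurable_fst
  refine ⟨hm, prod_eq_PE (fun s t ht => ?_)⟩
  have hbox : MeasurableSet (Set.pi (s : Set (Edge d)) t) :=
    MeasurableSet.pi s.countable_toSet (fun i _ => ht i)
  rw [Measure.map_apply hm hbox]
  have hpre : (fun (q : (Edge d → ℝ) × (Edge d → ℝ)) (e : Edge d) =>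
      if e ∈ F then q.2 e else q.1 e) ⁻¹' (Set.pi (s : Set (Edge d)) t)
      = (Set.pi ((s.filter (fun e => ¬ e ∈ F) : Finset (Edge d)) : Set (Edge d)) t) ×ˢ
        (Set.pi ((s.filter (fun e => e ∈ F) : Finset (Edge d)) : Set (Edge d)) t) := by
    ext q
    simp only [Set.mem_preimage, Set.mem_pi, Finset.mem_coe, Set.mem_prod, Finset.mem_filter]
    constructor
    · intro h
      refine ⟨fun i hi => ?_, fun i hi => ?_⟩
      · have := h i hi.1
        rwa [if_neg hi.2] at this
      · have := h i hi.1
        rwa [if_pos hi.2] at this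
    · rintro ⟨h1, h2⟩ i hi
      by_cases hiF : i ∈ F
      · rw [if_pos hiF]
        exact h2 i ⟨hi, hiF⟩
      · rw [if_neg hiF]
        exact h1 i ⟨hi, hiF⟩
  rw [hpre, Measure.prod_prod, prod_box ht, prod_box ht, mul_comm,
    Finset.prod_filter_mul_prod_filter_not]

end ConeD
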