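import Pool.Agent.ConeD.Core
import Pool.Agent.ConeD.Force
import Pool.Agent.ConeD.Conc

/-!
# The barrier has positive probability (end of section 4 of the text)

`p` is a fixed nonzero vertex; the walk `pw` goes from `0` to `n • p` near the segment.
-/

set_option autoImplicit false

namespace ConeD

variable {d : ℕ}

open MeasureTheory

/-- MODULE RY1.  `n` copies of a fixed walk from `0` to `p`. -/
theorem ray (p : V d) : ∃ B : ℝ, 0 ≤ B ∧ ∀ n : ℕ, ∃ pw : List (Step d), endp 0 pw = n • p ∧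
    ∀ l1 l2, pw = l1 ++ l2 → ∃ k : ℕ, k ≤ n ∧ nrm (endp 0 l1 - k • p) ≤ B := by
  obtain ⟨l0, h0, -, -⟩ := exists_walk (0 : V d) p
  refine ⟨l0.length, Nat.cast_nonneg _, ?_⟩
  intro n
  induction n with
  | zero =>
    refine ⟨[], by rw [endp_nil, zero_nsmul], ?_⟩
    intro l1 l2 h
    have h1 : l1 = [] := (List.append_eq_nil_iff.1 h.symm).1
    refine ⟨0, le_rfl, ?_⟩
    rw [h1, endp_nil, zero_nsmul, sub_zero, nrm_zero]
    exact Nat.cast_nonneg _
  | succ n ih =>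
    obtain ⟨pw, h1, h2⟩ := ih
    have hend : ∀ l : List (Step d), endp (n • p) l = endp 0 l + n • p := by
      intro l
      have := endp_add 0 (n • p) l
      rw [zero_add] at this
      exact this
    refine ⟨pw ++ l0, ?_, ?_⟩
    · rw [endp_append, h1, hend, h0, succ_nsmul, add_comm]
    · intro l1 l2 h
      rcases List.append_eq_append_iff.1 h with ⟨a, ha1, ha2⟩ | ⟨a, ha1, ha2⟩
      · refine ⟨n, Nat.le_succ n, ?_⟩
        rw [ha1, endp_append, h1, hend, add_sub_cancel_right]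
        have h3 := nrm_endp_sub_le (0 : V d) a
        rw [sub_zero] at h3
        refine h3.trans ?_
        rw [ha2, List.length_append]
        push_cast
        have : (0 : ℝ) ≤ l2.length := Nat.cast_nonneg _
        linarith
      · obtain ⟨k, hk, hk'⟩ := h2 l1 a ha1
        exact ⟨k, hk.trans (Nat.le_succ n), hk'⟩

/-- MODULE RY2.  The explosion time at `n • p`: `sup_ball` with a vertex `w` with `N ≤ pr w p`,
`h w ≤ (1 + ε) g N`, where `N = (n |p|) ^ (1 - η / 4)` (then `|w| ≤ K N ≤ 2 (n |p|) ^ (1 - η / 8)`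
by `HF.low`); `pr w (n • p) = pr w p`. -/
theorem sup_ray {h : V d → ℝ} {a b C : ℝ} (hh : HF h a b C) {η : ℝ} (hη : 0 < η) (hη1 : η ≤ 1)
    {p : V d} (hp : p ≠ 0) {g : ℝ} (hg : 0 < g)
    (hU : ∀ ε : ℝ, 0 < ε → ∃ N0 : ℝ, ∀ N : ℝ, N0 ≤ N → ∃ w : V d, N ≤ pr w p ∧
      h w ≤ (1 + ε) * g * N)
    {α : ℝ} (hα : 1 < α) {ε : ℝ} (hε : 0 < ε) :
    ∃ R1 : ℝ, ∀ (E : Edge d → ℝ) (R0 : ℝ), (∀ e, 0 ≤ E e) → CC h η E R0 →
      ∀ (τ' : Edge d → ℝ) (n : ℕ), (∀ e, 0 ≤ τ' e) →
      (∀ e, 5 / 8 * (n * nrm p) ≤ mid e → τ' e ≤ tau α E e) → R1 ≤ n → R0 ≤ n * nrm p →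
      Explodes τ' ∧
        S τ' (n • p) ≤ (1 + ε) * (g / (α - 1)) * (n * nrm p) ^ (1 - α) := by
  obtain ⟨K, R2, hK, hsup⟩ := sup_ball hh hη hη1 hα
  have ha := hh.pos
  have hC := hh.Cnn
  have hnp : 1 ≤ nrm p := one_le_nrm hp
  have hnp0 : 0 < nrm p := by linarith
  have hβ : 0 < α - 1 := by linarith
  obtain ⟨ε', hε'⟩ : ∃ ε', min 1 (ε / 3) = ε' := ⟨_, rfl⟩
  have hε'0 : 0 < ε' := by rw [← hε']; positivity
  have hε'1 : ε' ≤ 1 := by rw [← hε']; exact min_le_left _ _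
  have hε'3 : 3 * ε' ≤ ε := by
    have : ε' ≤ ε / 3 := by rw [← hε']; exact min_le_right _ _
    linarith
  obtain ⟨N0, hN0⟩ := hU ε' hε'0
  obtain ⟨K', hK'⟩ : ∃ K', ((1 + ε') * g + C) / a = K' := ⟨_, rfl⟩
  have hK'0 : 0 < K' := by rw [← hK']; positivity
  obtain ⟨d0, hd0⟩ : ∃ d0, min (ε' / K) (2 / K') = d0 := ⟨_, rfl⟩
  have hd0p : 0 < d0 := by rw [← hd0]; positivity
  obtain ⟨R3, hR3⟩ := Filter.eventually_atTop.1
    ((tendsto_rpow_neg_atTop (y := η / 8) (by positivity)).eventually (gt_mem_nhds hd0p))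
  obtain ⟨R4, hR4⟩ := Filter.eventually_atTop.1
    ((tendsto_rpow_atTop (y := 1 - η / 4) (by linarith)).eventually (Filter.eventually_ge_atTop
      (max 1 N0)))
  refine ⟨max 1 (max R2 (max R3 R4)), ?_⟩
  intro E R0 hE hCC τ' n hτ' hτ hn1 hn2
  have hn : (1 : ℝ) ≤ n := (le_max_left _ _).trans hn1
  have hn0 : (0 : ℝ) < n := by linarith
  have hnr : (n : ℝ) ≤ n * nrm p := by
    have := mul_le_mul_of_nonneg_left hnp hn0.le
    linarith
  have hy : nrm (n • p) = n * nrm p := nrm_nsmul n p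
  have hpr : ∀ w : V d, pr w (n • p) = pr w p := by
    intro w
    rw [pr, pr, hy, ip_comm, ip_nsmul, ip_comm]
    field_simp
  obtain ⟨r, hr⟩ : ∃ r, (n : ℝ) * nrm p = r := ⟨_, rfl⟩
  rw [hr] at hτ hn2 hnr hy ⊢
  have hr1 : 1 ≤ r := hn.trans hnr
  have hr0 : 0 < r := by linarith
  have hrR2 : R2 ≤ r := ((le_max_left _ _).trans ((le_max_right _ _).trans hn1)).trans hnr
  have hrR3 : R3 ≤ r := ((le_max_left _ _).trans ((le_max_right _ _).trans
    ((le_max_right _ _).trans hn1))).trans hnr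
  have hrR4 : R4 ≤ r := ((le_max_right _ _).trans ((le_max_right _ _).trans
    ((le_max_right _ _).trans hn1))).trans hnr
  have hD := hR3 r hrR3
  have hN := hR4 r hrR4
  rw [← hd0] at hD
  have hD0 : 0 < r ^ (-(η / 8)) := Real.rpow_pos_of_pos hr0 _
  have hKD : K * r ^ (-(η / 8)) ≤ ε' := by
    have h1 : r ^ (-(η / 8)) ≤ ε' / K := hD.le.trans (min_le_left _ _)
    rw [le_div_iff₀ hK] at h1
    linarith
  have hK'D : K' * r ^ (-(η / 8)) ≤ 2 := by
    have h1 : r ^ (-(η / 8)) ≤ 2 / K' := hD.le.trans (min_le_right _ _)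
    rw [le_div_iff₀ hK'0] at h1
    linarith
  have hN1 : 1 ≤ r ^ (1 - η / 4) := (le_max_left _ _).trans hN
  have hNe : r ^ (1 - η / 4) = r ^ (-(η / 8)) * r ^ (1 - η / 8) := by
    rw [← Real.rpow_add hr0]
    congr 1
    ring
  obtain ⟨N, hNdef⟩ : ∃ N, r ^ (1 - η / 4) = N := ⟨_, rfl⟩
  rw [hNdef] at hN hN1 hNe
  have hN00 : 0 < N := by linarith
  obtain ⟨w, hw1, hw2⟩ := hN0 N ((le_max_right _ _).trans hN)
  have hwn : nrm w ≤ 2 * r ^ (1 - η / 8) := by
    have h1 := hh.low w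
    have h2 : nrm w ≤ K' * N := by
      rw [← hK', div_mul_eq_mul_div, le_div_iff₀ ha]
      have h3 : C * 1 ≤ C * N := mul_le_mul_of_nonneg_left hN1 hC
      linarith
    have h4 : K' * N = K' * r ^ (-(η / 8)) * r ^ (1 - η / 8) := by rw [hNe]; ring
    rw [h4] at h2
    exact h2.trans (mul_le_mul_of_nonneg_right hK'D (Real.rpow_nonneg hr0.le _))
  have h1 := hsup E R0 hE hCC r τ' hτ' hτ (n • p) w (by rw [hy]; exact hrR2)
    (by rw [hy]; exact hn2) (by rw [hy]; linarith) (by rw [hy]; exact hwn)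
    (by rw [hy, hpr, hNdef]; linarith)
  refine ⟨explodes_of_one hτ' h1, (S_le_of_infinite hτ' h1).trans ?_⟩
  rw [hy, hpr]
  refine mul_le_mul_of_nonneg_right ?_ (Real.rpow_nonneg hr0.le _)
  have h2 : h w / ((α - 1) * pr w p) ≤ (1 + ε') * (g / (α - 1)) := by
    rw [div_le_iff₀ (mul_pos hβ (by linarith))]
    have h3 : (1 + ε') * (g / (α - 1)) * ((α - 1) * pr w p) = (1 + ε') * g * pr w p := by
      field_simp
    rw [h3]
    exact hw2.trans (mul_le_mul_of_nonneg_left hw1 (by positivity))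
  have h20 : 0 ≤ h w / ((α - 1) * pr w p) :=
    div_nonneg (hh.nonneg w) (mul_nonneg hβ.le (by linarith))
  calc (1 + K * r ^ (-(η / 8))) * (h w / ((α - 1) * pr w p)) ≤
      (1 + ε') * ((1 + ε') * (g / (α - 1))) := mul_le_mul (by linarith) h2 h20 (by linarith)
    _ = (1 + (2 * ε' + ε' * ε')) * (g / (α - 1)) := by ring
    _ ≤ (1 + ε) * (g / (α - 1)) := by
        refine mul_le_mul_of_nonneg_right ?_ (by positivity)
        have h5 : ε' * ε' ≤ ε' * 1 := mul_le_mul_of_nonneg_left hε'1 hε'0.le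
        linarith

/-- the configuration `τ'` has a barrier at the distance `n |p|` in the direction of `p` -/
def HasBar (h : V d → ℝ) (η α ε g B : ℝ) (p : V d) (n : ℕ) (τ' : Edge d → ℝ) : Prop :=
  ∃ (E : Edge d → ℝ) (R0 : ℝ) (pw : List (Step d)), 2 * R0 ≤ n * nrm p ∧
    Bar h η α (n * nrm p) R0 B E τ' pw ∧ endp 0 pw = n • p ∧
    (∀ l1 l2, pw = l1 ++ l2 → ∃ k : ℕ, k ≤ n ∧ nrm (endp 0 l1 - k • p) ≤ B) ∧
    wt τ' 0 pw + S τ' (endp 0 pw) ≤ (1 + ε) * (g / (α - 1)) * (n * nrm p) ^ (1 - α)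

private theorem RY3_compl {A : Set (Edge d → ℝ)} (h : ∀ᵐ E ∂(PE d), E ∈ A) :
    (PE d) A = (PE d) Set.univ := by
  refine measure_congr ?_
  rw [Filter.eventuallyEq_univ]
  exact h

private theorem RY3_list (L : List (Edge d)) (E : Edge d → ℝ) (h : ∀ e ∈ L, 0 < E e) :
    ∃ c : ℝ, 0 < c ∧ ∀ e ∈ L, c ≤ E e := by
  induction L with
  | nil => exact ⟨1, one_pos, fun e he => absurd he List.not_mem_nil⟩
  | cons a L ih =>
    obtain ⟨c, hc, hL⟩ := ih (fun e he => h e (List.mem_cons_of_mem _ he))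
    refine ⟨min c (E a), lt_min hc (h a List.mem_cons_self), ?_⟩
    intro e he
    rcases List.mem_cons.1 he with rfl | he
    · exact min_le_right _ _
    · exact (min_le_left _ _).trans (hL e he)

private theorem RY3_fin (R : ℝ) : {e : Edge d | Inner R e}.Finite := by
  have h1 : {x : V d | nrm x ≤ R / 2 + 1 + 1}.Finite := finite_ball _
  refine (h1.prod (Set.finite_univ (α := Fin d))).subset ?_
  rintro ⟨x, j⟩ hx
  refine ⟨?_, Set.mem_univ _⟩
  change nrm x ≤ R / 2 + 1 + 1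
  rcases hx with h | h
  · change nrm x < R / 2 + 1 at h
    linarith
  · change nrm (x + ev j) < R / 2 + 1 at h
    have h2 := nrm_sub_le (x + ev j) (ev j)
    rw [add_sub_cancel_right, nrm_ev] at h2
    linarith

private theorem RY3_mid (e : Edge d) :
    mid e ≤ nrm e.1 + 1 / 2 ∧ mid e ≤ nrm (e.1 + ev e.2) + 1 / 2 := by
  have h1 : edg e.1 (e.2, true) = e := by simp [edg]
  have h2 : edg (e.1 + ev e.2) (e.2, false) = e := by simp [edg]
  have h3 := mid_edg_le e.1 (e.2, true)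
  have h4 := mid_edg_le (e.1 + ev e.2) (e.2, false)
  rw [h1] at h3
  rw [h2] at h4
  exact ⟨h3, h4⟩

private theorem RY3_Ioc {c : ℝ} (hc : 0 < c) : ConeE.mE (Set.Ioc 0 c) ≠ 0 := by
  intro h
  have h1 : ConeE.mE (Set.Ioi (0 : ℝ)) ≤ ConeE.mE (Set.Ioc 0 c) + ConeE.mE (Set.Ioi c) := by
    rw [← Set.Ioc_union_Ioi_eq_Ioi hc.le]
    exact measure_union_le _ _
  rw [h, zero_add, ConeE.mE_Ioi le_rfl, ConeE.mE_Ioi hc.le,
    ENNReal.ofReal_le_ofReal_iff (Real.exp_pos _).le, Real.exp_le_exp] at h1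
  linarith

private theorem RY3_wt {τ : Edge d → ℝ} {c : ℝ} (l : List (Step d)) (x : V d)
    (h : ∀ e ∈ edges x l, τ e ≤ c) : wt τ x l ≤ (l.length : ℝ) * c := by
  induction l generalizing x with
  | nil => rw [wt_nil, List.length_nil, Nat.cast_zero, zero_mul]
  | cons s l ih =>
    rw [wt_cons, List.length_cons]
    push_cast
    have h1 := h (edg x s) (by simp [edges])
    have h2 := ih (x + vec s) (fun e he => h e (by simp only [edges, List.mem_cons]; exact Or.inr he))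
    linarith

/-- MODULE RY3.  Barriers have positive probability: choose `n` such that
`CC hm (eta d) E (n |p| / 2)` has positive probability (`conc`), then `c > 0` such that with
positive probability moreover `c ≤ E e` for the edges of the walk `pw`; `force` with `F` the edges
of `pw` and the (finitely many) `Inner` edges, `I e` a small interval `(0, c')` for the edges of
`pw`, the half line above `mid e ^ α` for the others.  `Explodes` and the bound for `S` are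
`sup_ray` (with `ε / 2`). -/
theorem force_ray {p : V d} (hp : p ≠ 0) {g : ℝ} (hg : 0 < g)
    (hU : ∀ ε : ℝ, 0 < ε → ∃ N0 : ℝ, ∀ N : ℝ, N0 ≤ N → ∃ w : V d, N ≤ pr w p ∧
      hm w ≤ (1 + ε) * g * N) :
    ∃ B : ℝ, 0 ≤ B ∧ ∀ α : ℝ, 1 < α → ∀ ε : ℝ, 0 < ε → ∀ n0 : ℕ, ∃ n : ℕ, n0 ≤ n ∧
      (PE d) {E' | (∀ e, 0 < E' e) ∧ Explodes (tau α E') ∧
        HasBar (hm (d := d)) (eta d) α ε g B p n (tau α E')} ≠ 0 := by
  obtain ⟨B, hB, hray⟩ := ray p
  refine ⟨B, hB, ?_⟩
  intro α hα ε hε n0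
  obtain ⟨a, C, hh⟩ := hf_hm d
  have hη : 0 < eta d := by unfold eta; positivity
  have hη1 : eta d ≤ 1 := by
    unfold eta
    rw [div_le_one (by positivity)]
    have : (0 : ℝ) ≤ d := Nat.cast_nonneg d
    linarith
  have hnp : 1 ≤ nrm p := one_le_nrm hp
  have hβ : 0 < α - 1 := by linarith
  obtain ⟨R1, hsup⟩ := sup_ray hh hη hη1 hp hg hU hα (half_pos hε)
  -- a deterministic radius
  obtain ⟨m, hm⟩ : ∃ m : ℕ, (PE d) {E | (∀ e, 0 < E e) ∧ CC (hm (d := d)) (eta d) E m} ≠ 0 := by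
    by_contra hcon
    push Not at hcon
    have h1 : (PE d) (⋃ m : ℕ, {E | (∀ e, 0 < E e) ∧ CC (hm (d := d)) (eta d) E m}) = 0 :=
      measure_iUnion_null hcon
    have h2 : ∀ᵐ E ∂(PE d), E ∈ ⋃ m : ℕ, {E | (∀ e, 0 < E e) ∧
        CC (ConeD.hm (d := d)) (eta d) E m} := by
      filter_upwards [ae_pos, conc d] with E hE hCC
      obtain ⟨R0, hR0⟩ := hCC
      obtain ⟨m, hm⟩ := exists_nat_ge R0
      exact Set.mem_iUnion.2 ⟨m, hE, fun R hR => hR0 R (hm.trans hR)⟩
    have h3 : (PE d) Set.univ = 0 := by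
      rw [← RY3_compl h2, h1]
    rw [measure_univ] at h3
    exact one_ne_zero h3
  obtain ⟨n1, hn1⟩ := exists_nat_ge (max R1 (max (2 * m) 12))
  obtain ⟨n, hn, hnn1⟩ : ∃ n : ℕ, n0 ≤ n ∧ n1 ≤ n := ⟨max n0 n1, le_max_left _ _, le_max_right _ _⟩
  have hnn : (n1 : ℝ) ≤ n := by exact_mod_cast hnn1
  have hnR1 : R1 ≤ n := ((le_max_left _ _).trans hn1).trans hnn
  have hnm : 2 * (m : ℝ) ≤ n := ((le_max_left _ _).trans ((le_max_right _ _).trans hn1)).trans hnn
  have hn12 : (12 : ℝ) ≤ n := ((le_max_right _ _).trans ((le_max_right _ _).trans hn1)).trans hnn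
  have hnr : (n : ℝ) ≤ n * nrm p := by
    have := mul_le_mul_of_nonneg_left hnp (by linarith : (0 : ℝ) ≤ n)
    linarith
  refine ⟨n, hn, ?_⟩
  obtain ⟨pw, hpw1, hpw2⟩ := hray n
  obtain ⟨R, hR⟩ : ∃ R, (n : ℝ) * nrm p = R := ⟨_, rfl⟩
  rw [hR] at hnr
  have hR0 : 0 < R := by linarith
  -- a lower bound for the weights of the walk
  obtain ⟨c, hc, hA⟩ : ∃ c : ℝ, 0 < c ∧ (PE d) {E | ((∀ e, 0 < E e) ∧
      CC (ConeD.hm (d := d)) (eta d) E m) ∧ ∀ e ∈ edges 0 pw, c ≤ E e} ≠ 0 := by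
    by_contra hcon
    push Not at hcon
    apply hm
    refine measure_mono_null (t := ⋃ k : ℕ, {E | ((∀ e, 0 < E e) ∧
      CC (ConeD.hm (d := d)) (eta d) E m) ∧ ∀ e ∈ edges 0 pw, 1 / ((k : ℝ) + 1) ≤ E e}) ?_ ?_
    · intro E hE
      obtain ⟨c, hc0, hc⟩ := RY3_list (edges 0 pw) E (fun e _ => hE.1 e)
      obtain ⟨k, hk⟩ := exists_nat_one_div_lt hc0
      exact Set.mem_iUnion.2 ⟨k, hE, fun e he => hk.le.trans (hc e he)⟩
    · exact measure_iUnion_null fun k => hcon _ (by positivity)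
  obtain ⟨c', hc'⟩ : ∃ c', min c ((ε / 2) * (g / (α - 1)) * R ^ (1 - α) /
      (((pw.length : ℝ) + 1) * 2 ^ α)) = c' := ⟨_, rfl⟩
  have hRα : 0 < R ^ (1 - α) := Real.rpow_pos_of_pos hR0 _
  have h2α : (0 : ℝ) < 2 ^ α := Real.rpow_pos_of_pos (by norm_num) _
  have hlen : (0 : ℝ) < (pw.length : ℝ) + 1 := by positivity
  have hc'0 : 0 < c' := by rw [← hc']; positivity
  have hc'c : c' ≤ c := by rw [← hc']; exact min_le_left _ _
  have hc'2 : ((pw.length : ℝ) + 1) * 2 ^ α * c' ≤ (ε / 2) * (g / (α - 1)) * R ^ (1 - α) := by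
    have h1 : c' ≤ (ε / 2) * (g / (α - 1)) * R ^ (1 - α) / (((pw.length : ℝ) + 1) * 2 ^ α) := by
      rw [← hc']; exact min_le_right _ _
    rw [le_div_iff₀ (by positivity)] at h1
    linarith
  classical
  have hIfin := RY3_fin (d := d) R
  refine force ((edges 0 pw).toFinset ∪ hIfin.toFinset)
    (fun e => if e ∈ edges 0 pw then Set.Ioc 0 c' else Set.Ioi (mid e ^ α)) ?_ _ _ hA ?_
  · intro e _
    by_cases he : e ∈ edges 0 pw
    · simp only [he, if_true]
      exact RY3_Ioc hc'0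
    · simp only [he, if_false]
      rw [ConeE.mE_Ioi (Real.rpow_nonneg (mid_pos e).le _)]
      exact (ENNReal.ofReal_pos.2 (Real.exp_pos _)).ne'
  intro E hE E' hoff hon
  obtain ⟨⟨hE0, hCC⟩, hEc⟩ := hE
  have hpwE : ∀ e ∈ edges 0 pw, 0 < E' e ∧ E' e ≤ c' := by
    intro e he
    have h1 := hon e (Finset.mem_union_left _ (List.mem_toFinset.2 he))
    simp only [he, if_true] at h1
    exact h1
  have hinE : ∀ e, e ∉ edges 0 pw → Inner R e → mid e ^ α < E' e := by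
    intro e he hin
    have h1 := hon e (Finset.mem_union_right _ (hIfin.mem_toFinset.2 hin))
    simp only [he, if_false] at h1
    exact h1
  have hoffE : ∀ e, e ∉ edges 0 pw → ¬ Inner R e → E' e = E e := by
    intro e he hin
    refine hoff e ?_
    rw [Finset.mem_union, List.mem_toFinset, hIfin.mem_toFinset]
    exact fun h => h.elim he hin
  have hE'0 : ∀ e, 0 < E' e := by
    intro e
    by_cases he : e ∈ edges 0 pw
    · exact (hpwE e he).1
    · by_cases hin : Inner R e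
      · exact (Real.rpow_nonneg (mid_pos e).le _).trans_lt (hinE e he hin)
      · rw [hoffE e he hin]
        exact hE0 e
  have hτ0 : ∀ e, 0 ≤ tau α E' e := tau_nonneg fun e => (hE'0 e).le
  have honp : ∀ e ∈ edges 0 pw, tau α E' e ≤ tau α E e := by
    intro e he
    have h1 := (hpwE e he).2
    have h2 := hEc e he
    exact div_le_div_of_nonneg_right (by linarith) (Real.rpow_nonneg (mid_pos e).le _)
  have hfar : ∀ e, 5 / 8 * R ≤ mid e → tau α E' e ≤ tau α E e := by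
    intro e hmid
    by_cases he : e ∈ edges 0 pw
    · exact honp e he
    · have hin : ¬ Inner R e := by
        intro hin
        have h1 := RY3_mid e
        rcases hin with h2 | h2
        · linarith [h1.1]
        · linarith [h1.2]
      rw [tau, tau, hoffE e he hin]
  obtain ⟨hex, hS⟩ := hsup E m (fun e => (hE0 e).le) hCC (tau α E') n hτ0
    (by rw [hR]; exact hfar) hnR1 (by rw [hR]; linarith)
  rw [hR] at hS
  refine ⟨hE'0, hex, E, m, pw, by rw [hR]; linarith, ?_, hpw1, hpw2, ?_⟩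
  · rw [hR]
    refine ⟨hCC, fun e => (hE0 e).le, hτ0, hex, ?_, honp, ?_, ?_⟩
    · intro l1 l2 h
      obtain ⟨k, hk, hk'⟩ := hpw2 l1 l2 h
      have h1 := nrm_le_add (endp 0 l1) (k • p)
      have h2 : nrm (k • p) ≤ R := by
        rw [nrm_nsmul, ← hR]
        exact mul_le_mul_of_nonneg_right (by exact_mod_cast hk) (by linarith)
      linarith
    · intro e he hin
      rw [tau, le_div_iff₀ (Real.rpow_pos_of_pos (mid_pos e) _), one_mul]
      exact (hinE e he hin).le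
    · intro e he hin
      rw [tau, tau, hoffE e he hin]
  · rw [hR, hpw1]
    have h1 : wt (tau α E') 0 pw ≤ (pw.length : ℝ) * (c' * 2 ^ α) := by
      refine RY3_wt pw 0 ?_
      intro e he
      rw [tau, div_le_iff₀ (Real.rpow_pos_of_pos (mid_pos e) _)]
      have h2 : 1 ≤ 2 ^ α * mid e ^ α := by
        rw [← Real.mul_rpow (by norm_num) (mid_pos e).le]
        refine Real.one_le_rpow ?_ (by linarith)
        have := half_le_mid e
        linarith
      have h3 := (hpwE e he).2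
      calc E' e ≤ c' * 1 := by linarith
        _ ≤ c' * (2 ^ α * mid e ^ α) := mul_le_mul_of_nonneg_left h2 hc'0.le
        _ = _ := by ring
    have h4 : 0 ≤ c' * 2 ^ α := by positivity
    have h5 : (1 + ε) * (g / (α - 1)) * R ^ (1 - α) =
        (ε / 2) * (g / (α - 1)) * R ^ (1 - α) + (1 + ε / 2) * (g / (α - 1)) * R ^ (1 - α) := by
      ring
    rw [h5]
    refine add_le_add ?_ hS
    calc wt (tau α E') 0 pw ≤ (pw.length : ℝ) * (c' * 2 ^ α) := h1
      _ ≤ ((pw.length : ℝ) + 1) * (c' * 2 ^ α) :=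
          mul_le_mul_of_nonneg_right (by linarith) h4
      _ = ((pw.length : ℝ) + 1) * 2 ^ α * c' := by ring
      _ ≤ _ := hc'2

end ConeD
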