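import Pool.Agent.ConeD.BasicD

/-!
# Upper bounds for explosion times (section 1 of the text)

`h` is the expected passage time, `CC h η E R0` the concentration of the passage times for `E`,
`τ'` is at most `tau α E` on all the edges with midpoint of norm at least `5 ρ / 8`.
-/

set_option autoImplicit false

namespace ConeD

variable {d : ℕ}

open Filter Topology

/-! elementary facts, proved -/

/-- the tangent inequality for the convex function `x ^ (1 - α)` -/
theorem tangent {α x y : ℝ} (hα : 1 < α) (hx : 0 < x) (hy : 0 < y) :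
    x ^ (1 - α) - (α - 1) * x ^ (-α) * (y - x) ≤ y ^ (1 - α) := by
  have h1 : y = x * (y / x) := by field_simp
  have hq : 0 < y / x := div_pos hy hx
  have h2 : 1 + (1 - α) * (y / x - 1) ≤ (y / x) ^ (1 - α) := by
    rw [Real.rpow_def_of_pos hq]
    have h3 := Real.add_one_le_exp (Real.log (y / x) * (1 - α))
    have h4 := Real.log_le_sub_one_of_pos hq
    nlinarith
  have h5 : y ^ (1 - α) = x ^ (1 - α) * (y / x) ^ (1 - α) := by
    rw [← Real.mul_rpow hx.le hq.le, ← h1]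
  have h6 : x ^ (-α) = x ^ (1 - α) / x := by
    rw [show -α = 1 - α - 1 by ring, Real.rpow_sub_one hx.ne']
  rw [h5, h6]
  have h7 : 0 < x ^ (1 - α) := Real.rpow_pos_of_pos hx _
  have h8 : x ^ (1 - α) - (α - 1) * (x ^ (1 - α) / x) * (y - x) =
      x ^ (1 - α) * (1 + (1 - α) * (y / x - 1)) := by
    field_simp
    ring
  rw [h8]
  exact mul_le_mul_of_nonneg_left h2 h7.le

theorem HF.nsmul {h : V d → ℝ} {a b C : ℝ} (hh : HF h a b C) (n : ℕ) (w : V d) :
    h (n • w) ≤ n * h w := by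
  induction n with
  | zero =>
    have := hh.up (0 • w)
    rw [zero_smul, nrm_zero, mul_zero] at this
    simpa using this
  | succ n ih =>
    rw [succ_nsmul]
    have := hh.sub (n • w) w
    push_cast
    linarith

theorem HF.bpos {h : V d → ℝ} {a b C : ℝ} (hh : HF h a b C) (i0 : Fin d) : 0 < b := by
  by_contra hb
  push Not at hb
  obtain ⟨n, hn⟩ := exists_nat_gt (C / a)
  have h1 := hh.low (n • ev i0)
  have h2 := hh.up (n • ev i0)
  rw [nrm_nsmul, nrm_ev, mul_one] at h1 h2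
  have h3 : C < n * a := by rwa [div_lt_iff₀ hh.pos] at hn
  nlinarith [Nat.cast_nonneg (α := ℝ) n]

/-- the weight of a walk all of whose edges have midpoints of norm at most `m` -/
theorem le_wt_tau {α m : ℝ} (hα : 0 ≤ α) (hm : 0 < m) {E : Edge d → ℝ} (hE : ∀ e, 0 ≤ E e)
    (c : V d) (l : List (Step d))
    (h : ∀ l1 s l2, l = l1 ++ s :: l2 → mid (edg (endp c l1) s) ≤ m) :
    m ^ (-α) * wt E c l ≤ wt (tau α E) c l := by
  induction l generalizing c with
  | nil => simp [wt]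
  | cons s t ih =>
    rw [wt_cons, wt_cons, mul_add]
    have h1 : m ^ (-α) * E (edg c s) ≤ tau α E (edg c s) := by
      have h2 := h [] s t rfl
      rw [endp_nil] at h2
      unfold tau
      rw [Real.rpow_neg hm.le, div_eq_inv_mul]
      apply mul_le_mul_of_nonneg_right _ (hE _)
      apply inv_anti₀ (Real.rpow_pos_of_pos (mid_pos _) _)
      exact Real.rpow_le_rpow (mid_pos _).le h2 hα
    have h3 := ih (c + vec s) (fun l1 s' l2 hl => by
      have := h (s :: l1) s' l2 (by rw [hl]; rfl)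
      rwa [endp_cons] at this)
    linarith

/-- the weight of a walk all of whose edges have midpoints of norm at least `m` -/
theorem wt_tau_le {α m ρ : ℝ} (hα : 0 ≤ α) (hm : 0 < m) {E τ' : Edge d → ℝ} (hE : ∀ e, 0 ≤ E e)
    (hτ : ∀ e, 5 / 8 * ρ ≤ mid e → τ' e ≤ tau α E e) (hρ : 5 / 8 * ρ ≤ m)
    (c : V d) (l : List (Step d))
    (h : ∀ l1 s l2, l = l1 ++ s :: l2 → m ≤ mid (edg (endp c l1) s)) :
    wt τ' c l ≤ m ^ (-α) * wt E c l := by
  induction l generalizing c with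
  | nil => simp [wt]
  | cons s t ih =>
    rw [wt_cons, wt_cons, mul_add]
    have h1 : τ' (edg c s) ≤ m ^ (-α) * E (edg c s) := by
      have h2 := h [] s t rfl
      rw [endp_nil] at h2
      refine (hτ _ (hρ.trans h2)).trans ?_
      unfold tau
      rw [Real.rpow_neg hm.le, div_eq_inv_mul]
      apply mul_le_mul_of_nonneg_right _ (hE _)
      apply inv_anti₀ (Real.rpow_pos_of_pos hm _)
      exact Real.rpow_le_rpow hm.le h2 hα
    have h3 := ih (c + vec s) (fun l1 s' l2 hl => by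
      have := h (s :: l1) s' l2 (by rw [hl]; rfl)
      rwa [endp_cons] at this)
    linarith

/-! the chain of points -/

/-- the chain of points: `p ↦ p + ⌊⟨p, u⟩ / r⌋ • w` with `r = |y|`, `u = y / r` -/
noncomputable def chn (y w : V d) : ℕ → V d
  | 0 => y
  | k + 1 => chn y w k + ⌊pr (chn y w k) y / nrm y⌋₊ • w

/-- the component of the chain in the direction of `y` -/
noncomputable def rho (y w : V d) (k : ℕ) : ℝ := pr (chn y w k) y

/-- the numbers of copies of `w` -/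
noncomputable def cnt (y w : V d) (k : ℕ) : ℕ := ⌊rho y w k / nrm y⌋₊

private theorem SU1_floor {x : ℝ} (hx : 1 ≤ x) : x / 2 ≤ (⌊x⌋₊ : ℝ) := by
  have h1 : 1 ≤ ⌊x⌋₊ := Nat.one_le_floor_iff x |>.2 hx
  have h2 : (1 : ℝ) ≤ (⌊x⌋₊ : ℝ) := by exact_mod_cast h1
  have h3 := Nat.lt_floor_add_one x
  linarith

/-- MODULE SU1.  Elementary facts on the chain. -/
theorem chain_props {y w : V d} (hy : 0 < nrm y) (hw0 : 0 < pr w y) (hw1 : pr w y ≤ nrm y) :
    (∀ k, nrm y ≤ rho y w k) ∧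
    (∀ k, rho y w (k + 1) = rho y w k + cnt y w k * pr w y) ∧
    (∀ k, rho y w k * (1 + pr w y / (2 * nrm y)) ≤ rho y w (k + 1)) ∧
    (∀ k, rho y w (k + 1) ≤ rho y w k * (1 + pr w y / nrm y)) ∧
    (∀ k, rho y w k / (2 * nrm y) ≤ cnt y w k ∧ (cnt y w k : ℝ) ≤ rho y w k / nrm y) ∧
    (∀ k, nrm (chn y w k) ≤ nrm y + nrm w / pr w y * (rho y w k - nrm y)) ∧
    Tendsto (rho y w) atTop atTop := by
  have hrec : ∀ k, rho y w (k + 1) = rho y w k + cnt y w k * pr w y := by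
    intro k
    show pr (chn y w k + ⌊pr (chn y w k) y / nrm y⌋₊ • w) y = _
    rw [pr_add, pr_nsmul]
    rfl
  have hge : ∀ k, nrm y ≤ rho y w k := by
    intro k
    induction k with
    | zero => exact (pr_self hy).ge
    | succ k ih =>
      rw [hrec]
      have : (0 : ℝ) ≤ cnt y w k * pr w y := mul_nonneg (Nat.cast_nonneg _) hw0.le
      linarith
  have hcnt : ∀ k, rho y w k / (2 * nrm y) ≤ cnt y w k ∧ (cnt y w k : ℝ) ≤ rho y w k / nrm y := by
    intro k
    have h1 : 1 ≤ rho y w k / nrm y := by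
      rw [one_le_div hy]
      exact hge k
    refine ⟨?_, Nat.floor_le (by linarith)⟩
    have h2 := SU1_floor h1
    have h3 : rho y w k / (2 * nrm y) = rho y w k / nrm y / 2 := by
      rw [div_div, mul_comm]
    rw [h3]
    exact h2
  have hlow : ∀ k, rho y w k * (1 + pr w y / (2 * nrm y)) ≤ rho y w (k + 1) := by
    intro k
    rw [hrec]
    have h1 := mul_le_mul_of_nonneg_right (hcnt k).1 hw0.le
    have h2 : rho y w k * (1 + pr w y / (2 * nrm y)) =
        rho y w k + rho y w k / (2 * nrm y) * pr w y := by ring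
    rw [h2]
    linarith
  have hup : ∀ k, rho y w (k + 1) ≤ rho y w k * (1 + pr w y / nrm y) := by
    intro k
    rw [hrec]
    have h1 := mul_le_mul_of_nonneg_right (hcnt k).2 hw0.le
    have h2 : rho y w k * (1 + pr w y / nrm y) =
        rho y w k + rho y w k / nrm y * pr w y := by ring
    rw [h2]
    linarith
  refine ⟨hge, hrec, hlow, hup, hcnt, ?_, ?_⟩
  · intro k
    induction k with
    | zero =>
      have h1 : rho y w 0 = nrm y := pr_self hy
      rw [h1, sub_self, mul_zero, add_zero]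
      exact le_rfl
    | succ k ih =>
      have h1 : nrm (chn y w (k + 1)) ≤ nrm (chn y w k) + cnt y w k * nrm w := by
        have h2 := nrm_add_le (chn y w k) (⌊pr (chn y w k) y / nrm y⌋₊ • w)
        rw [nrm_nsmul] at h2
        exact h2
      have h2 : nrm w / pr w y * (rho y w (k + 1) - nrm y) =
          nrm w / pr w y * (rho y w k - nrm y) + cnt y w k * nrm w := by
        rw [hrec]
        field_simp
        ring
      rw [h2]
      linarith
  · have h1 : ∀ k, nrm y * (1 + pr w y / (2 * nrm y)) ^ k ≤ rho y w k := by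
      intro k
      induction k with
      | zero => rw [pow_zero, mul_one]; exact hge 0
      | succ k ih =>
        refine le_trans ?_ (hlow k)
        rw [pow_succ, ← mul_assoc]
        exact mul_le_mul_of_nonneg_right ih (by positivity)
    refine tendsto_atTop_mono h1 ?_
    refine Tendsto.const_mul_atTop hy ?_
    refine tendsto_pow_atTop_atTop_of_one_lt ?_
    have : 0 < pr w y / (2 * nrm y) := by positivity
    linarith

/-- Bernoulli for negative powers -/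
private theorem SU2_bern {α s : ℝ} (hα : 1 ≤ α) (hs : 0 ≤ s) (hs2 : α * s ≤ 1 / 2) :
    (1 - s) ^ (-α) ≤ 1 + 2 * α * s := by
  have hs3 : s ≤ 1 / 2 := by nlinarith
  have h1 : 1 + α * (-s) ≤ (1 + (-s)) ^ α :=
    one_add_mul_self_le_rpow_one_add (by linarith) hα
  have h2 : (1 + (-s)) = 1 - s := by ring
  rw [h2] at h1
  rw [Real.rpow_neg (by linarith)]
  have h3 : 0 < 1 + α * (-s) := by nlinarith
  have h4 : ((1 - s) ^ α)⁻¹ ≤ (1 + α * (-s))⁻¹ := inv_anti₀ h3 h1
  refine h4.trans ?_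
  rw [inv_le_iff_one_le_mul₀ h3]
  nlinarith [mul_nonneg (by linarith : (0:ℝ) ≤ α) hs]

private theorem SU2_bern2 {α δ : ℝ} (hα : 1 ≤ α) (hδ : 0 ≤ δ) (h : α * δ ≤ 1 / 2) :
    (1 + δ) ^ α ≤ 1 + 2 * α * δ := by
  have h0 : (0:ℝ) < 1 + δ := by linarith
  have hs : 0 ≤ δ / (1 + δ) := by positivity
  have hs1 : δ / (1 + δ) ≤ δ := by
    rw [div_le_iff₀ h0]; nlinarith
  have h1 := SU2_bern hα hs ((mul_le_mul_of_nonneg_left hs1 (by linarith)).trans h)
  have h2 : 1 - δ / (1 + δ) = (1 + δ)⁻¹ := by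
    field_simp; ring
  rw [h2, Real.rpow_neg (by positivity), Real.inv_rpow h0.le, inv_inv] at h1
  refine h1.trans ?_
  have : 2 * α * (δ / (1 + δ)) ≤ 2 * α * δ := mul_le_mul_of_nonneg_left hs1 (by linarith)
  linarith

/-- the scale `δ = r ^ (-η / 8)` is small and `r δ ^ 2` is large, from some `r` on -/
private theorem SU2_scale {η : ℝ} (hη : 0 < η) (hη1 : η ≤ 1) {x0 x1 : ℝ} (hx0 : 0 < x0) :
    ∃ R1 : ℝ, 1 ≤ R1 ∧ ∀ r, R1 ≤ r → r ^ (-(η / 8)) ≤ x0 ∧ x1 ≤ r ^ (1 - η / 4) ∧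
      x1 ≤ r ^ (1 - η / 8) := by
  have h1 : Tendsto (fun r : ℝ => r ^ (-(η / 8))) atTop (nhds 0) :=
    tendsto_rpow_neg_atTop (by linarith)
  have h2 : Tendsto (fun r : ℝ => r ^ (1 - η / 4)) atTop atTop :=
    tendsto_rpow_atTop (by linarith)
  have h3 : Tendsto (fun r : ℝ => r ^ (1 - η / 8)) atTop atTop :=
    tendsto_rpow_atTop (by linarith)
  have h4 := ((h1.eventually (Iic_mem_nhds hx0)).and (h2.eventually_ge_atTop x1)).and
    (h3.eventually_ge_atTop x1)
  obtain ⟨R1, hR⟩ := eventually_atTop.1 h4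
  refine ⟨max R1 1, le_max_right _ _, fun r hr => ?_⟩
  obtain ⟨⟨g1, g2⟩, g3⟩ := hR r ((le_max_left _ _).trans hr)
  exact ⟨g1, g2, g3⟩

/-- facts on the powers of `r`, `δ = r ^ (-η / 8)` -/
private theorem SU2_pow {η : ℝ} (hη : 0 < η) {r : ℝ} (hr : 1 ≤ r) :
    0 < r ^ (-(η / 8)) ∧ r ^ (-(η / 8)) ≤ 1 ∧
    r ^ (η / 8) = (r ^ (-(η / 8)))⁻¹ ∧
    r ^ (1 - η / 8) = r * r ^ (-(η / 8)) ∧
    r ^ (1 - η / 4) = r * (r ^ (-(η / 8))) ^ 2 ∧
    r ^ (-η) = (r ^ (-(η / 8))) ^ 8 := by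
  have hr0 : 0 < r := by linarith
  refine ⟨Real.rpow_pos_of_pos hr0 _, Real.rpow_le_one_of_one_le_of_nonpos hr (by linarith),
    ?_, ?_, ?_, ?_⟩
  · rw [Real.rpow_neg hr0.le, inv_inv]
  · rw [show 1 - η / 8 = 1 + -(η / 8) by ring, Real.rpow_add hr0, Real.rpow_one]
  · rw [← Real.rpow_natCast, ← Real.rpow_mul hr0.le,
      show 1 - η / 4 = 1 + -(η / 8) * ((2 : ℕ) : ℝ) by push_cast; ring, Real.rpow_add hr0,
      Real.rpow_one]
  · rw [← Real.rpow_natCast, ← Real.rpow_mul hr0.le,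
      show -(η / 8) * ((8 : ℕ) : ℝ) = -η by push_cast; ring]

private theorem SU2_err {η : ℝ} (hη : 0 < η) (hη1 : η ≤ 1) {r t δ : ℝ} (hr : 1 ≤ r)
    (hδ : δ = r ^ (-(η / 8))) (ht : r ≤ t) :
    (12 * t * r ^ (η / 8)) ^ (1 - η) ≤ 12 * (t * δ ^ 7) ∧ 1 ≤ t * δ ^ 7 ∧ 1 ≤ t * δ := by
  obtain ⟨p1, p2, p3, p4, p5, p6⟩ := SU2_pow hη hr
  have hr0 : 0 < r := by linarith
  have ht0 : 0 < t := by linarith
  rw [← hδ] at p1 p2 p3 p4 p5 p6
  have h7 : 1 ≤ t * δ ^ 7 := by
    have h1 : r ^ (1 - 7 * (η / 8)) = r * δ ^ 7 := by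
      rw [hδ, ← Real.rpow_natCast, ← Real.rpow_mul hr0.le,
        show 1 - 7 * (η / 8) = 1 + -(η / 8) * ((7 : ℕ) : ℝ) by push_cast; ring,
        Real.rpow_add hr0, Real.rpow_one]
    have h2 : 1 ≤ r ^ (1 - 7 * (η / 8)) := Real.one_le_rpow hr (by linarith)
    rw [h1] at h2
    exact h2.trans (mul_le_mul_of_nonneg_right ht (by positivity))
  refine ⟨?_, h7, ?_⟩
  · rw [p3, Real.mul_rpow (by positivity) (by positivity), Real.mul_rpow (by norm_num) ht0.le]
    have h1 : (12 : ℝ) ^ (1 - η) ≤ 12 := by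
      have := Real.rpow_le_rpow_of_exponent_le (by norm_num : (1 : ℝ) ≤ 12)
        (by linarith : 1 - η ≤ 1)
      rwa [Real.rpow_one] at this
    have h2 : t ^ (1 - η) ≤ t * δ ^ 8 := by
      rw [← p6, sub_eq_add_neg, Real.rpow_add ht0, Real.rpow_one]
      refine mul_le_mul_of_nonneg_left ?_ ht0.le
      exact Real.rpow_le_rpow_of_nonpos hr0 ht (by linarith)
    have h3 : (δ⁻¹) ^ (1 - η) ≤ δ⁻¹ := by
      have := Real.rpow_le_rpow_of_exponent_le ((one_le_inv₀ p1).2 p2)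
        (by linarith : 1 - η ≤ 1)
      rwa [Real.rpow_one] at this
    have h4 : (12 : ℝ) ^ (1 - η) * t ^ (1 - η) * (δ⁻¹) ^ (1 - η) ≤ 12 * (t * δ ^ 8) * δ⁻¹ := by
      refine mul_le_mul (mul_le_mul h1 h2 (Real.rpow_nonneg ht0.le _) (by norm_num)) h3
        (Real.rpow_nonneg (by positivity) _) (by positivity)
    refine h4.trans (le_of_eq ?_)
    field_simp
  · have h1 : δ ^ 7 ≤ δ := by
      calc δ ^ 7 = δ * δ ^ 6 := by ring
        _ ≤ δ * 1 := mul_le_mul_of_nonneg_left (pow_le_one₀ p1.le p2) p1.le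
        _ = δ := mul_one _
    exact h7.trans (mul_le_mul_of_nonneg_left h1 ht0.le)

/-- MODULE SU2.  One leg of the chain: from `p` to `p + n • w` with the right weight.
`t` plays the role of `rho y w k`, `r` of `nrm y`.  Put `R = 12 t r ^ (η / 8)` (at least `R0` and
the norms of all the vertices concerned); `T E p (p + n w) ≤ n h(w) + R ^ (1 - η)`; take a walk
with weight less than this plus `1`; its vertices `z` satisfy
`a |z - p| - C - R ^ (1 - η) ≤ T E p z`, hence (first violating vertex) `|z - p| ≤ K t r ^ (-η/8)`,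
so that all the midpoints have norm at least `t (1 - K r ^ (-η/8))`; finally
`R ^ (1 - η) + 1 ≤ K r ^ (-η / 8) (n h(w))` since `n h(w) ≥ (a / 8) t r ^ (-η/4)`. -/
theorem sup_leg {h : V d → ℝ} {a b C : ℝ} (hh : HF h a b C) {η : ℝ} (hη : 0 < η) (hη1 : η ≤ 1)
    {α : ℝ} (hα : 1 < α) :
    ∃ K R1 : ℝ, 0 < K ∧ ∀ (E : Edge d → ℝ) (R0 : ℝ), (∀ e, 0 ≤ E e) → CC h η E R0 →
      ∀ (ρ : ℝ) (τ' : Edge d → ℝ), (∀ e, 0 ≤ τ' e) →
      (∀ e, 5 / 8 * ρ ≤ mid e → τ' e ≤ tau α E e) →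
      ∀ (r t : ℝ) (p w : V d) (n : ℕ), R1 ≤ r → R0 ≤ r → 3 / 4 * ρ ≤ r → r ≤ t → t ≤ nrm p →
        nrm p ≤ 4 * t * r ^ (η / 8) → t / (2 * r) ≤ n → (n : ℝ) ≤ t / r →
        nrm w ≤ 2 * r ^ (1 - η / 8) → r ^ (1 - η / 4) / 2 ≤ nrm w →
        ∃ l : List (Step d), endp p l = p + n • w ∧
          wt τ' p l ≤ (1 + K * r ^ (-(η / 8))) * t ^ (-α) * (n * h w) := by
  have ha := hh.pos
  have hC := hh.Cnn
  obtain ⟨K2, hK2⟩ : ∃ K2 : ℝ, K2 = (2 * |b| + 26 + C) / a := ⟨_, rfl⟩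
  have hK2p : 0 < K2 := by rw [hK2]; positivity
  obtain ⟨K3, hK3⟩ : ∃ K3 : ℝ, K3 = 2 * α * (K2 + 1) := ⟨_, rfl⟩
  have hK3p : 0 < K3 := by rw [hK3]; positivity
  have hx0 : 0 < min (1 / (6 * α * (K2 + 1))) (1 / (K2 + 1)) := by positivity
  obtain ⟨R1, hR1, hR⟩ := SU2_scale hη hη1 (x1 := 4 * C / a) hx0
  refine ⟨K3 + 104 / a + K3 * (104 / a), R1, by positivity, ?_⟩
  intro E R0 hE hCC ρ τ' hτ' hτ r t p w n hr hR0 hρ hrt htp hpt hn1 hn2 hw1 hw2
  obtain ⟨g1, g2, _⟩ := hR r hr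
  have hr1 : 1 ≤ r := hR1.trans hr
  have hr0 : 0 < r := by linarith
  have ht0 : 0 < t := by linarith
  obtain ⟨δ, hδ⟩ : ∃ δ : ℝ, δ = r ^ (-(η / 8)) := ⟨_, rfl⟩
  obtain ⟨p1, p2, p3, p4, p5, p6⟩ := SU2_pow hη hr1
  obtain ⟨e1, e2, e3⟩ := SU2_err hη hη1 hr1 hδ hrt
  rw [← hδ] at g1 p1 p2 p3 p4 p5 p6
  rw [← hδ]
  have hδ1 : 6 * α * ((K2 + 1) * δ) ≤ 1 := by
    have h1 := g1.trans (min_le_left _ _)
    rw [le_div_iff₀ (by positivity)] at h1
    linarith
  have hδ2 : (K2 + 1) * δ ≤ 1 := by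
    have h1 := g1.trans (min_le_right _ _)
    rw [le_div_iff₀ (by positivity)] at h1
    linarith
  have hδ3 : 6 * ((K2 + 1) * δ) ≤ 1 := by
    have : 0 ≤ (α - 1) * ((K2 + 1) * δ) := by
      have : 0 < α - 1 := by linarith
      positivity
    nlinarith
  -- the radius
  obtain ⟨R, hRdef⟩ : ∃ R : ℝ, R = 12 * t * r ^ (η / 8) := ⟨_, rfl⟩
  have hRt : R = 12 * (t / δ) := by rw [hRdef, p3]; ring
  rw [← hRdef] at e1
  have htd : t ≤ t / δ := by
    rw [le_div_iff₀ p1]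
    nlinarith
  have htd2 : t * δ ≤ t / δ := by
    refine le_trans ?_ htd
    nlinarith
  have hRR0 : R0 ≤ R := by
    rw [hRt]
    linarith
  have hp1 : nrm p ≤ 4 * (t / δ) := by
    refine hpt.trans (le_of_eq ?_)
    rw [p3]
    ring
  have hnw : (n : ℝ) * nrm w ≤ 2 * (t * δ) := by
    have h1 : (n : ℝ) * nrm w ≤ t / r * (2 * r ^ (1 - η / 8)) :=
      mul_le_mul hn2 hw1 (nrm_nonneg _) (by positivity)
    refine h1.trans (le_of_eq ?_)
    rw [p4]
    field_simp
  have hq1 : nrm (p + n • w) ≤ R := by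
    have h1 := nrm_add_le p (n • w)
    rw [nrm_nsmul] at h1
    rw [hRt]
    linarith
  have hpR : nrm p ≤ R := by
    rw [hRt]
    have : 0 < t / δ := by positivity
    linarith
  have hT := hCC R hRR0 p (p + n • w) hpR hq1
  rw [add_sub_cancel_left] at hT
  have hT2 := (abs_le.mp hT).2
  have hnsm := hh.nsmul n w
  obtain ⟨l, hl, hwl⟩ := exists_wt_lt (τ := E) (x := p) (y := p + n • w)
    (t := n * h w + R ^ (1 - η) + 1) (by linarith)
  -- lower bound for `n h(w)`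
  have hhw : a * (r * δ ^ 2) / 4 ≤ h w := by
    have h1 := hh.low w
    have h2 : C ≤ a * (r * δ ^ 2) / 4 := by
      rw [← p5]
      rw [div_le_iff₀ ha] at g2
      linarith
    have h3 : a * (r * δ ^ 2 / 2) ≤ a * nrm w := by
      rw [← p5]
      exact mul_le_mul_of_nonneg_left hw2 ha.le
    linarith
  have hnh : a * t * δ ^ 2 / 8 ≤ n * h w := by
    have h1 : t / (2 * r) * (a * (r * δ ^ 2) / 4) ≤ n * h w :=
      mul_le_mul hn1 hhw (by positivity) (Nat.cast_nonneg _)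
    refine le_trans (le_of_eq ?_) h1
    field_simp
    ring
  have herr : R ^ (1 - η) + 1 ≤ 104 / a * δ * (n * h w) := by
    have h1 : 104 / a * δ * (a * t * δ ^ 2 / 8) ≤ 104 / a * δ * (n * h w) :=
      mul_le_mul_of_nonneg_left hnh (by positivity)
    have h2 : 104 / a * δ * (a * t * δ ^ 2 / 8) = 13 * (t * δ ^ 3) := by
      field_simp
      ring
    have h3 : t * δ ^ 7 ≤ t * δ ^ 3 := by
      refine mul_le_mul_of_nonneg_left ?_ ht0.le
      exact pow_le_pow_of_le_one p1.le p2 (by norm_num)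
    linarith
  have hwE : wt E p l ≤ (1 + 104 / a * δ) * (n * h w) := by
    have h1 : (1 + 104 / a * δ) * (n * h w) = n * h w + 104 / a * δ * (n * h w) := by ring
    linarith
  -- confinement
  have hnhu : (n : ℝ) * h w ≤ 2 * |b| * (t * δ) := by
    have h1 : h w ≤ |b| * nrm w := (hh.up w).trans
      (mul_le_mul_of_nonneg_right (le_abs_self b) (nrm_nonneg w))
    calc (n : ℝ) * h w ≤ n * (|b| * nrm w) := mul_le_mul_of_nonneg_left h1 (Nat.cast_nonneg _)
      _ = |b| * (n * nrm w) := by ring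
      _ ≤ |b| * (2 * (t * δ)) := mul_le_mul_of_nonneg_left hnw (abs_nonneg b)
      _ = 2 * |b| * (t * δ) := by ring
  have hδ7 : t * δ ^ 7 ≤ t * δ := by
    refine mul_le_mul_of_nonneg_left ?_ ht0.le
    calc δ ^ 7 = δ * δ ^ 6 := by ring
      _ ≤ δ * 1 := mul_le_mul_of_nonneg_left (pow_le_one₀ p1.le p2) p1.le
      _ = δ := mul_one _
  have hconf : ∀ l1 : List (Step d), (∃ l2, l = l1 ++ l2) →
      nrm (endp p l1 - p) ≤ K2 * (t * δ) := by
    intro l1
    induction l1 using List.reverseRecOn with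
    | nil =>
      intro _
      rw [endp_nil, sub_self, nrm_zero]
      positivity
    | append_singleton l1 s ih =>
      rintro ⟨l2, hl2⟩
      have h1 := ih ⟨s :: l2, by rw [hl2]; simp⟩
      have h2 : nrm (endp p (l1 ++ [s]) - p) ≤ K2 * (t * δ) + 1 := by
        rw [endp_append, endp_cons, endp_nil]
        have h3 : endp p l1 + vec s - p = (endp p l1 - p) + vec s := by abel
        rw [h3]
        refine (nrm_add_le _ _).trans ?_
        rw [nrm_vec]
        linarith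
      set v := endp p (l1 ++ [s]) with hv
      have hvn : nrm v ≤ R := by
        have h4 := nrm_le_add v p
        have h5 : K2 * (t * δ) + 1 ≤ t := by
          have h6 : (K2 + 1) * δ * t ≤ 1 * t := mul_le_mul_of_nonneg_right hδ2 ht0.le
          linarith
        rw [hRt]
        linarith
      have h5 := hCC R hRR0 p v hpR hvn
      have h6 : T E p v ≤ wt E p (l1 ++ [s]) := T_le_wt hE hv.symm
      have h7 : wt E p (l1 ++ [s]) ≤ wt E p l := by
        rw [hl2, wt_append E p (l1 ++ [s]) l2]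
        linarith [wt_nonneg hE (endp p (l1 ++ [s])) l2]
      have h8 := hh.low (v - p)
      have h9 := (abs_le.mp h5).1
      have h10 : a * nrm (v - p) ≤ (2 * |b| + 26 + C) * (t * δ) := by
        have h11 : C ≤ C * (t * δ) := le_mul_of_one_le_right hC e3
        linarith
      rw [hK2, div_mul_eq_mul_div, le_div_iff₀ ha]
      linarith
  -- midpoints
  obtain ⟨m, hm⟩ : ∃ m : ℝ, m = t * (1 - (K2 + 1) * δ) := ⟨_, rfl⟩
  have hm0 : 0 < m := by
    rw [hm]
    exact mul_pos ht0 (by linarith)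
  have hmρ : 5 / 8 * ρ ≤ m := by
    have h1 : t * (5 / 6) ≤ m := by
      rw [hm]
      exact mul_le_mul_of_nonneg_left (by linarith) ht0.le
    linarith
  have hmid : ∀ l1 s l2, l = l1 ++ s :: l2 → m ≤ mid (edg (endp p l1) s) := by
    intro l1 s l2 hl2
    have h1 := hconf l1 ⟨s :: l2, hl2⟩
    have h2 := le_mid_edg (endp p l1) s
    have h3 := nrm_le_add p (endp p l1)
    rw [nrm_sub_comm] at h3
    rw [hm]
    linarith
  refine ⟨l, hl, ?_⟩
  have hfin := wt_tau_le (by linarith : (0 : ℝ) ≤ α) hm0 hE hτ hmρ p l hmid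
  have hmα : m ^ (-α) ≤ t ^ (-α) * (1 + K3 * δ) := by
    rw [hm, Real.mul_rpow ht0.le (by linarith)]
    refine mul_le_mul_of_nonneg_left ?_ (Real.rpow_nonneg ht0.le _)
    have h1 := SU2_bern (α := α) (s := (K2 + 1) * δ) hα.le (by positivity) (by linarith)
    refine h1.trans (le_of_eq ?_)
    rw [hK3]
    ring
  have hnh0 : 0 ≤ n * h w := mul_nonneg (Nat.cast_nonneg _) (hh.nonneg w)
  have htα : 0 ≤ t ^ (-α) := Real.rpow_nonneg ht0.le _
  calc wt τ' p l ≤ m ^ (-α) * wt E p l := hfin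
    _ ≤ (t ^ (-α) * (1 + K3 * δ)) * ((1 + 104 / a * δ) * (n * h w)) :=
        mul_le_mul hmα hwE (wt_nonneg hE _ _) (by positivity)
    _ = ((1 + K3 * δ) * (1 + 104 / a * δ)) * (t ^ (-α) * (n * h w)) := by ring
    _ ≤ (1 + (K3 + 104 / a + K3 * (104 / a)) * δ) * (t ^ (-α) * (n * h w)) := by
        refine mul_le_mul_of_nonneg_right ?_ (mul_nonneg htα hnh0)
        have h1 : K3 * (104 / a) * δ * δ ≤ K3 * (104 / a) * δ * 1 :=
          mul_le_mul_of_nonneg_left p2 (by positivity)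
        linarith
    _ = (1 + (K3 + 104 / a + K3 * (104 / a)) * δ) * t ^ (-α) * (n * h w) := by ring

/-- MODULE SU3.  The ball of radius `(1 + K |y| ^ (-η/8)) h(w) / ((α - 1) ⟨w, u⟩) |y| ^ (1 - α)`
about `y` is infinite: it contains the chain.  Sum `sup_leg` over `k`; by `tangent`
`ρ_k ^ (-α) (ρ_(k+1) - ρ_k) ≤ (1 + λ) ^ α (ρ_k ^ (1 - α) - ρ_(k+1) ^ (1 - α)) / (α - 1)` with
`λ = pr w y / nrm y ≤ 2 |y| ^ (-η / 8)`. -/
theorem sup_ball {h : V d → ℝ} {a b C : ℝ} (hh : HF h a b C) {η : ℝ} (hη : 0 < η) (hη1 : η ≤ 1)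
    {α : ℝ} (hα : 1 < α) :
    ∃ K R1 : ℝ, 0 < K ∧ ∀ (E : Edge d → ℝ) (R0 : ℝ), (∀ e, 0 ≤ E e) → CC h η E R0 →
      ∀ (ρ : ℝ) (τ' : Edge d → ℝ), (∀ e, 0 ≤ τ' e) →
      (∀ e, 5 / 8 * ρ ≤ mid e → τ' e ≤ tau α E e) →
      ∀ y w : V d, R1 ≤ nrm y → R0 ≤ nrm y → 3 / 4 * ρ ≤ nrm y →
        nrm w ≤ 2 * nrm y ^ (1 - η / 8) → nrm y ^ (1 - η / 4) / 2 ≤ pr w y →
        {z : V d | T τ' y z ≤ (1 + K * nrm y ^ (-(η / 8))) * (h w / ((α - 1) * pr w y)) *
          nrm y ^ (1 - α)}.Infinite := by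
  obtain ⟨K0, R0', hK0, hleg⟩ := sup_leg hh hη hη1 hα
  have hx0 : 0 < 1 / (4 * α) := by positivity
  obtain ⟨R1, hR1, hR⟩ := SU2_scale hη hη1 (x1 := 0) hx0
  refine ⟨K0 + 4 * α + K0 * (4 * α), max R1 R0', by positivity, ?_⟩
  intro E R0 hE hCC ρ τ' hτ' hτ y w hr hR0 hρ hw1 hw2
  obtain ⟨r, hrdef⟩ : ∃ r : ℝ, r = nrm y := ⟨_, rfl⟩
  rw [← hrdef] at hr hR0 hρ hw1 hw2
  obtain ⟨g1, _, _⟩ := hR r ((le_max_left _ _).trans hr)
  have hr1 : 1 ≤ r := hR1.trans ((le_max_left _ _).trans hr)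
  have hr0 : 0 < r := by linarith
  obtain ⟨δ, hδ⟩ : ∃ δ : ℝ, δ = r ^ (-(η / 8)) := ⟨_, rfl⟩
  obtain ⟨p1, p2, p3, p4, p5, p6⟩ := SU2_pow hη hr1
  rw [← hδ] at g1 p1 p2 p3 p4 p5 p6
  have hy : 0 < nrm y := by rw [← hrdef]; exact hr0
  have hδ1 : 4 * α * δ ≤ 1 := by
    rw [le_div_iff₀ (by positivity)] at g1
    linarith
  have hδ2 : 2 * δ ≤ 1 := by
    have : 0 < (α - 1) * δ := mul_pos (by linarith) p1
    linarith
  have hprw : 0 < pr w y := by
    refine lt_of_lt_of_le ?_ hw2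
    rw [p5]
    positivity
  have hprw1 : pr w y ≤ 2 * (r * δ) := by
    refine (pr_le w y).trans ?_
    rw [← p4]
    exact hw1
  have hprw2 : pr w y ≤ nrm y := by
    rw [← hrdef]
    have : r * (2 * δ) ≤ r * 1 := mul_le_mul_of_nonneg_left hδ2 hr0.le
    linarith
  have hprw3 : r * δ ^ 2 / 2 ≤ pr w y := by
    rw [← p5]
    exact hw2
  obtain ⟨c1, c2, c3, c4, c5, c6, c7⟩ := chain_props hy hprw hprw2
  have hrho0 : ∀ k, 0 < rho y w k := fun k => lt_of_lt_of_le hy (c1 k)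
  have hhw := hh.nonneg w
  -- one leg
  have hone : ∀ k, T τ' (chn y w k) (chn y w (k + 1)) ≤
      (1 + K0 * δ) * (rho y w k) ^ (-α) * (cnt y w k * h w) := by
    intro k
    have hq1 : nrm (chn y w k) ≤ 4 * rho y w k * r ^ (η / 8) := by
      have h1 : nrm w / pr w y ≤ 4 / δ := by
        rw [div_le_div_iff₀ hprw p1]
        have h2 : nrm w ≤ 2 * (r * δ) := by
          rw [← p4]
          exact hw1
        have h3 : nrm w * δ ≤ 2 * (r * δ) * δ := mul_le_mul_of_nonneg_right h2 p1.le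
        linarith
      have h2 : nrm (chn y w k) ≤ r + 4 / δ * (rho y w k - r) := by
        have h3 := c6 k
        have h4 := c1 k
        rw [← hrdef] at h3 h4
        refine h3.trans ?_
        have := mul_le_mul_of_nonneg_right h1 (by linarith : 0 ≤ rho y w k - r)
        linarith
      have h3 : r ≤ 4 / δ * r := by
        have : 1 ≤ 4 / δ := by
          rw [one_le_div p1]
          linarith
        exact le_mul_of_one_le_left hr0.le this
      rw [p3]
      have h4 : 4 * rho y w k * δ⁻¹ = 4 / δ * rho y w k := by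
        rw [div_eq_mul_inv]
        ring
      rw [h4]
      linarith
    obtain ⟨l, hl1, hl2⟩ := hleg E R0 hE hCC ρ τ' hτ' hτ r (rho y w k) (chn y w k) w (cnt y w k)
      ((le_max_right _ _).trans hr) hR0 hρ (by rw [hrdef]; exact c1 k) (pr_le _ _) hq1
      (by rw [hrdef]; exact (c5 k).1) (by rw [hrdef]; exact (c5 k).2) hw1
      (hw2.trans (pr_le _ _))
    rw [← hδ] at hl2
    exact (T_le_wt hτ' (l := l) (by rw [hl1]; rfl)).trans hl2
  -- convexity
  have hconv : ∀ k, (rho y w k) ^ (-α) * (cnt y w k * h w) ≤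
      (1 + 4 * α * δ) * (h w / ((α - 1) * pr w y)) *
        ((rho y w k) ^ (1 - α) - (rho y w (k + 1)) ^ (1 - α)) := by
    intro k
    have h1 := tangent hα (hrho0 (k + 1)) (hrho0 k)
    have h2 : rho y w k - rho y w (k + 1) = -(cnt y w k * pr w y) := by
      rw [c2 k]
      ring
    rw [h2] at h1
    have h3 : (rho y w k) ^ (-α) ≤ (1 + 4 * α * δ) * (rho y w (k + 1)) ^ (-α) := by
      have h4 : rho y w (k + 1) ≤ (1 + 2 * δ) * rho y w k := by
        have h5 := c4 k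
        have h6 : pr w y / nrm y ≤ 2 * δ := by
          rw [div_le_iff₀ hy, ← hrdef]
          linarith
        have h7 := mul_le_mul_of_nonneg_left h6 (hrho0 k).le
        linarith
      have h5 : ((1 + 2 * δ) * rho y w k) ^ (-α) ≤ (rho y w (k + 1)) ^ (-α) :=
        Real.rpow_le_rpow_of_nonpos (hrho0 (k + 1)) h4 (by linarith)
      have h6 : (1 + 2 * δ) ^ α ≤ 1 + 4 * α * δ := by
        have := SU2_bern2 (α := α) (δ := 2 * δ) hα.le (by linarith) (by linarith)
        linarith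
      have h7 : (rho y w k) ^ (-α) = (1 + 2 * δ) ^ α * ((1 + 2 * δ) * rho y w k) ^ (-α) := by
        rw [Real.mul_rpow (by linarith) (hrho0 k).le, ← mul_assoc, ← Real.rpow_add (by linarith)]
        rw [add_neg_cancel, Real.rpow_zero, one_mul]
      rw [h7]
      exact mul_le_mul h6 h5 (Real.rpow_nonneg (by have := hrho0 k; positivity) _) (by positivity)
    have h4 : (α - 1) * pr w y * ((rho y w (k + 1)) ^ (-α) * cnt y w k) ≤
        (rho y w k) ^ (1 - α) - (rho y w (k + 1)) ^ (1 - α) := by linarith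
    have h5 : 0 < (α - 1) * pr w y := mul_pos (by linarith) hprw
    have h6 : (rho y w (k + 1)) ^ (-α) * cnt y w k ≤
        ((rho y w k) ^ (1 - α) - (rho y w (k + 1)) ^ (1 - α)) / ((α - 1) * pr w y) := by
      rw [le_div_iff₀ h5]
      linarith
    calc (rho y w k) ^ (-α) * (cnt y w k * h w)
        ≤ ((1 + 4 * α * δ) * (rho y w (k + 1)) ^ (-α)) * (cnt y w k * h w) :=
          mul_le_mul_of_nonneg_right h3 (mul_nonneg (Nat.cast_nonneg _) hhw)
      _ = ((1 + 4 * α * δ) * h w) * ((rho y w (k + 1)) ^ (-α) * cnt y w k) := by ring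
      _ ≤ ((1 + 4 * α * δ) * h w) *
          (((rho y w k) ^ (1 - α) - (rho y w (k + 1)) ^ (1 - α)) / ((α - 1) * pr w y)) :=
          mul_le_mul_of_nonneg_left h6 (mul_nonneg (by positivity) hhw)
      _ = _ := by ring
  -- sum
  obtain ⟨Q, hQ⟩ : ∃ Q : ℝ, Q = (1 + K0 * δ) * ((1 + 4 * α * δ) * (h w / ((α - 1) * pr w y))) :=
    ⟨_, rfl⟩
  have hQ0 : 0 ≤ Q := by
    rw [hQ]
    have h5 : 0 < (α - 1) * pr w y := mul_pos (by linarith) hprw
    positivity
  have hsum : ∀ k, T τ' y (chn y w k) ≤ Q * (r ^ (1 - α) - (rho y w k) ^ (1 - α)) := by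
    intro k
    induction k with
    | zero =>
      have h1 : chn y w 0 = y := rfl
      have h2 : rho y w 0 = r := by
        rw [hrdef]
        exact pr_self hy
      rw [h1, h2, sub_self, mul_zero, T_self hτ']
    | succ k ih =>
      have h1 := T_triangle hτ' y (chn y w k) (chn y w (k + 1))
      have h2 := (hone k).trans (le_of_eq (mul_assoc _ _ _))
      have h3 := mul_le_mul_of_nonneg_left (hconv k) (by positivity : 0 ≤ 1 + K0 * δ)
      have h4 : (1 + K0 * δ) * ((1 + 4 * α * δ) * (h w / ((α - 1) * pr w y)) *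
        ((rho y w k) ^ (1 - α) - (rho y w (k + 1)) ^ (1 - α))) =
        Q * ((rho y w k) ^ (1 - α) - (rho y w (k + 1)) ^ (1 - α)) := by
        rw [hQ]
        ring
      rw [h4] at h3
      have h5 : T τ' y (chn y w (k + 1)) ≤ Q * (r ^ (1 - α) - (rho y w k) ^ (1 - α)) +
          Q * ((rho y w k) ^ (1 - α) - (rho y w (k + 1)) ^ (1 - α)) :=
        h1.trans (add_le_add ih (h2.trans h3))
      refine h5.trans (le_of_eq ?_)
      ring
  have hstrict : StrictMono (rho y w) := by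
    refine strictMono_nat_of_lt_succ fun k => ?_
    refine lt_of_lt_of_le ?_ (c3 k)
    have h1 : 0 < pr w y / (2 * nrm y) := by positivity
    have h2 := mul_pos (hrho0 k) h1
    linarith
  have hinj : Function.Injective (chn y w) := by
    intro i j hij
    apply hstrict.injective
    unfold rho
    rw [hij]
  refine Set.infinite_of_injective_forall_mem hinj fun k => ?_
  have h1 := hsum k
  have h2 : 0 ≤ (rho y w k) ^ (1 - α) := Real.rpow_nonneg (hrho0 k).le _
  have h3 : 0 ≤ r ^ (1 - α) := Real.rpow_nonneg hr0.le _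
  show T τ' y (chn y w k) ≤ _
  rw [← hrdef, ← hδ]
  have h4 : T τ' y (chn y w k) ≤ Q * r ^ (1 - α) :=
    h1.trans (mul_le_mul_of_nonneg_left (by linarith) hQ0)
  refine h4.trans ?_
  refine mul_le_mul_of_nonneg_right ?_ h3
  rw [hQ, ← mul_assoc]
  have h5 : 0 < (α - 1) * pr w y := mul_pos (by linarith) hprw
  refine mul_le_mul_of_nonneg_right ?_ (by positivity)
  have h6 : K0 * (4 * α) * δ * δ ≤ K0 * (4 * α) * δ * 1 :=
    mul_le_mul_of_nonneg_left p2 (by positivity)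
  linarith

/-- the upper bound (U) for a time `s` at the vertex `y` -/
def UB (h : V d → ℝ) (η α K s : ℝ) (y : V d) : Prop :=
  ∀ w : V d, nrm w ≤ 2 * nrm y ^ (1 - η / 8) → nrm y ^ (1 - η / 4) / 2 ≤ pr w y →
    s ≤ (1 + K * nrm y ^ (-(η / 8))) * (h w / ((α - 1) * pr w y)) * nrm y ^ (1 - α)

/-- the integer part of `x • y` -/
private noncomputable def UP_w (x : ℝ) (y : V d) : V d := fun j => ⌊x * (y j : ℝ)⌋

private theorem UP_err (x : ℝ) (y : V d) : ‖toE (UP_w x y) - x • toE y‖ ≤ Real.sqrt d := by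
  rw [EuclideanSpace.norm_eq]
  apply Real.sqrt_le_sqrt
  have h1 : ∀ j : Fin d, ‖(toE (UP_w x y) - x • toE y) j‖ ^ 2 ≤ 1 := by
    intro j
    have h2 : (toE (UP_w x y) - x • toE y) j = (⌊x * (y j : ℝ)⌋ : ℝ) - x * (y j : ℝ) := rfl
    rw [h2, Real.norm_eq_abs, sq_abs]
    have h3 := Int.floor_le (x * (y j : ℝ))
    have h4 := Int.lt_floor_add_one (x * (y j : ℝ))
    nlinarith
  refine (Finset.sum_le_sum fun j _ => h1 j).trans ?_
  simp

private theorem UP_nrm {x : ℝ} (hx : 0 ≤ x) (y : V d) :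
    nrm (UP_w x y) ≤ x * nrm y + Real.sqrt d := by
  rw [nrm_eq, nrm_eq]
  have h1 := UP_err x y
  have h2 : toE (UP_w x y) = x • toE y + (toE (UP_w x y) - x • toE y) := by abel
  rw [h2]
  refine (norm_add_le _ _).trans ?_
  rw [norm_smul, Real.norm_eq_abs, abs_of_nonneg hx]
  linarith

private theorem UP_ip (x y : V d) : ip x y = inner ℝ (toE x) (toE y) := by
  rw [PiLp.inner_apply, ip]
  refine Finset.sum_congr rfl fun j _ => ?_
  rw [toE_apply, toE_apply]
  simp [mul_comm]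

private theorem UP_pr (x : ℝ) {y : V d} (hy : 0 < nrm y) :
    x * nrm y - Real.sqrt d ≤ pr (UP_w x y) y := by
  unfold pr
  rw [le_div_iff₀ hy, UP_ip]
  have h2 : toE (UP_w x y) = x • toE y + (toE (UP_w x y) - x • toE y) := by abel
  rw [h2, inner_add_left, real_inner_smul_left, real_inner_self_eq_norm_sq, ← nrm_eq]
  have h3 := abs_real_inner_le_norm (toE (UP_w x y) - x • toE y) (toE y)
  rw [← nrm_eq] at h3
  have h4 := (abs_le.mp h3).1
  have h5 := mul_le_mul_of_nonneg_right (UP_err x y) hy.le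
  nlinarith

/-- MODULE UP.  (U) with `w` the integer part of `|y| ^ (-η/8) y`. -/
theorem ub_crude {h : V d → ℝ} {a b C : ℝ} (hh : HF h a b C) {η : ℝ} (hη : 0 < η) (hη1 : η ≤ 1)
    {α : ℝ} (hα : 1 < α) {K : ℝ} (hK : 0 < K) :
    ∃ R1 : ℝ, ∀ (s : ℝ) (y : V d), R1 ≤ nrm y → UB h η α K s y →
      s ≤ 2 * b / (α - 1) * nrm y ^ (1 - α) := by
  have hx0 : 0 < min (1 / (2 * K)) (1 / 2) := by positivity
  obtain ⟨R1, hR1, hR⟩ := SU2_scale hη hη1 (x1 := 10 * Real.sqrt d) hx0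
  refine ⟨R1, fun s y hr hUB => ?_⟩
  obtain ⟨r, hrdef⟩ : ∃ r : ℝ, r = nrm y := ⟨_, rfl⟩
  unfold UB at hUB
  rw [← hrdef] at hr hUB ⊢
  obtain ⟨g1, _, g3⟩ := hR r hr
  have hr1 : 1 ≤ r := hR1.trans hr
  have hr0 : 0 < r := by linarith
  obtain ⟨δ, hδ⟩ : ∃ δ : ℝ, δ = r ^ (-(η / 8)) := ⟨_, rfl⟩
  obtain ⟨p1, p2, p3, p4, p5, p6⟩ := SU2_pow hη hr1
  rw [p4, p5] at hUB
  rw [← hδ] at g1 p1 p2 p4 hUB
  rw [p4] at g3
  have hy : 0 < nrm y := by rw [← hrdef]; exact hr0
  have hδ1 : K * δ ≤ 1 / 2 := by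
    have h1 := g1.trans (min_le_left _ _)
    rw [le_div_iff₀ (by positivity)] at h1
    linarith
  have hδ2 : δ ≤ 1 / 2 := g1.trans (min_le_right _ _)
  have hsq : 0 ≤ Real.sqrt d := Real.sqrt_nonneg _
  have h1 := UP_nrm p1.le y
  have h2 := UP_pr δ hy
  rw [← hrdef] at h1 h2
  have h3 : r * δ ^ 2 ≤ r * δ * (1 / 2) := by
    have : r * δ * δ ≤ r * δ * (1 / 2) := mul_le_mul_of_nonneg_left hδ2 (by positivity)
    linarith
  have hrδ : 0 < r * δ := by positivity
  have h4 := hUB (UP_w δ y) (by linarith) (by linarith)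
  have h5 : 0 < pr (UP_w δ y) y := by linarith
  have hb : h (UP_w δ y) ≤ b * nrm (UP_w δ y) := hh.up _
  have hb0 : 0 ≤ b := by
    by_contra hb
    push Not at hb
    have h6 := hh.nonneg (UP_w δ y)
    have h7 := pr_le (UP_w δ y) y
    have h8 : b * nrm (UP_w δ y) < 0 := mul_neg_of_neg_of_pos hb (by linarith)
    linarith
  have h6 : (1 + K * δ) * (h (UP_w δ y) / ((α - 1) * pr (UP_w δ y) y)) ≤ 2 * b / (α - 1) := by
    have hα1 : 0 < α - 1 := by linarith
    have h7 : h (UP_w δ y) / ((α - 1) * pr (UP_w δ y) y) ≤ (11 / 9) * b / (α - 1) := by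
      rw [div_le_div_iff₀ (by positivity) hα1]
      have h8 : h (UP_w δ y) ≤ 11 / 9 * b * pr (UP_w δ y) y := by
        refine hb.trans ?_
        have h9 : nrm (UP_w δ y) ≤ 11 / 9 * pr (UP_w δ y) y := by linarith
        have h10 := mul_le_mul_of_nonneg_left h9 hb0
        linarith
      have h11 := mul_le_mul_of_nonneg_right h8 hα1.le
      linarith
    have h8 : 0 ≤ (11 / 9) * b / (α - 1) := by positivity
    have h9 : 0 ≤ h (UP_w δ y) / ((α - 1) * pr (UP_w δ y) y) :=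
      div_nonneg (hh.nonneg _) (by positivity)
    calc (1 + K * δ) * (h (UP_w δ y) / ((α - 1) * pr (UP_w δ y) y))
        ≤ (3 / 2) * (h (UP_w δ y) / ((α - 1) * pr (UP_w δ y) y)) :=
          mul_le_mul_of_nonneg_right (by linarith) h9
      _ ≤ (3 / 2) * ((11 / 9) * b / (α - 1)) := mul_le_mul_of_nonneg_left h7 (by norm_num)
      _ = (11 / 6) * (b / (α - 1)) := by ring
      _ ≤ 2 * (b / (α - 1)) :=
          mul_le_mul_of_nonneg_right (by norm_num) (div_nonneg hb0 hα1.le)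
      _ = 2 * b / (α - 1) := by ring
  exact h4.trans (mul_le_mul_of_nonneg_right h6 (Real.rpow_nonneg hr0.le _))

end ConeD
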