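import Pool.Agent.ConeD.Light

/-! Measurability, integrability, invariance of passage times and properties of `hm`
(module TPROP). -/

set_option autoImplicit false

namespace ConeD

open ConeE (mE lintegral_mE mE_ae_pos mE_Ioi lintegral_exp_mE integrable_sq_mE memLp_mE integrable_mE
  integral_mE integral_sq_mE)

variable {d : ℕ}

open MeasureTheory

theorem measurable_T (x y : V d) : Measurable (fun E : Edge d → ℝ => T E x y) := by
  unfold T
  exact Measurable.iInf fun l => measurable_wt x l.1

theorem memLp_T (x y : V d) : MemLp (fun E : Edge d → ℝ => T E x y) 2 (PE d) := by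
  obtain ⟨l, hl, -, -⟩ := exists_walk x y
  refine (memLp_wt x l).mono' (measurable_T x y).aestronglyMeasurable ?_
  filter_upwards [ae_pos] with E hE
  have h0 : ∀ e, 0 ≤ E e := fun e => (hE e).le
  rw [Real.norm_of_nonneg (T_nonneg h0 x y)]
  exact T_le_wt h0 hl

theorem integrable_T (x y : V d) : Integrable (fun E : Edge d → ℝ => T E x y) (PE d) :=
  (memLp_T x y).integrable (by norm_num)

/-- translation of the edges -/
def shE (x : V d) : (Edge d) ≃ (Edge d) where
  toFun e := (e.1 + x, e.2)
  invFun e := (e.1 - x, e.2)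
  left_inv e := by simp
  right_inv e := by simp

theorem wt_shift (E : Edge d → ℝ) (x : V d) (l : List (Step d)) :
    wt E x l = wt (fun e => E (shE x e)) 0 l := by
  rw [wt_eq_sum, wt_eq_sum]
  have h := edges_add 0 x l
  rw [zero_add] at h
  rw [h, List.map_map]
  rfl

theorem endp_shift (x y : V d) (l : List (Step d)) : endp x l = y ↔ endp 0 l = y - x := by
  have h := endp_add 0 x l
  rw [zero_add] at h
  rw [h, eq_sub_iff_add_eq]

theorem T_shift (E : Edge d → ℝ) (x y : V d) :
    T E x y = T (fun e => E (shE x e)) 0 (y - x) := by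
  unfold T
  refine Equiv.iInf_congr (Equiv.subtypeEquivRight fun l => endp_shift x y l) fun l => ?_
  exact (wt_shift E x l.1).symm

theorem integral_shift (f : (Edge d → ℝ) → ℝ) (hf : Measurable f) (x : V d) :
    ∫ E, f (fun e => E (shE x e)) ∂(PE d) = ∫ E, f E ∂(PE d) := by
  have h := measurePreserving_perm (shE x)
  have h2 : ∫ E, f E ∂(Measure.map (fun (E : Edge d → ℝ) (e : Edge d) => E (shE x e)) (PE d)) =
      ∫ E, f (fun e => E (shE x e)) ∂(PE d) :=
    integral_map h.measurable.aemeasurable hf.aestronglyMeasurable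
  rw [← h2, h.map_eq]

theorem integral_T (x y : V d) : ∫ E, T E x y ∂(PE d) = hm (y - x) := by
  simp_rw [T_shift _ x y]
  exact integral_shift (fun E => T E 0 (y - x)) (measurable_T 0 (y - x)) x

/-- translation invariance of the law of `T` -/
theorem var_T (x y : V d) :
    ∫ E, (T E x y - hm (y - x)) ^ 2 ∂(PE d) = ∫ E, (T E 0 (y - x) - hm (y - x)) ^ 2 ∂(PE d) := by
  simp_rw [T_shift _ x y]
  exact integral_shift (fun E => (T E 0 (y - x) - hm (y - x)) ^ 2)
    (((measurable_T 0 (y - x)).sub_const _).pow_const 2) x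

theorem hm_nonneg (z : V d) : 0 ≤ hm z := by
  refine integral_nonneg_of_ae ?_
  filter_upwards [ae_pos] with E hE
  exact T_nonneg (fun e => (hE e).le) 0 z

theorem hm_neg (z : V d) : hm (-z) = hm z := by
  have h1 := integral_T z 0
  rw [zero_sub] at h1
  rw [← h1]
  unfold hm
  refine integral_congr_ae ?_
  filter_upwards [ae_pos] with E hE
  exact T_comm (fun e => (hE e).le) z 0

theorem hm_add_le (z w : V d) : hm (z + w) ≤ hm z + hm w := by
  have h1 := integral_T z (z + w)
  rw [add_sub_cancel_left] at h1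
  rw [← h1]
  unfold hm
  rw [← integral_add (integrable_T _ _) (integrable_T _ _)]
  refine integral_mono_ae (integrable_T _ _) ((integrable_T _ _).add (integrable_T _ _)) ?_
  filter_upwards [ae_pos] with E hE
  exact T_triangle (fun e => (hE e).le) 0 z (z + w)

theorem hm_le (z : V d) : hm z ≤ d * nrm z := by
  obtain ⟨l, hl, hlen, -⟩ := exists_walk 0 z
  rw [sub_zero] at hlen
  refine le_trans ?_ hlen
  rw [← integral_wt 0 l]
  refine integral_mono_ae (integrable_T _ _) (integrable_wt _ _) ?_
  filter_upwards [ae_pos] with E hE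
  exact T_le_wt (fun e => (hE e).le) hl

theorem hm_low (d : ℕ) : ∃ a C : ℝ, 0 < a ∧ 0 ≤ C ∧ ∀ z : V d, a * nrm z - C ≤ hm z := by
  obtain ⟨a, X, ha, hX0, hXi, hX⟩ := exists_light (d := d)
  refine ⟨a, a * ∫ E, X E ∂(PE d), ha, mul_nonneg ha.le (integral_nonneg hX0), fun z => ?_⟩
  have h1 : ∫ E, (a * nrm z - a * X E) ∂(PE d) = a * nrm z - a * ∫ E, X E ∂(PE d) := by
    rw [integral_sub (integrable_const _) (hXi.const_mul a), integral_const, integral_const_mul]
    simp
  rw [← h1]
  refine integral_mono_ae ((integrable_const _).sub (hXi.const_mul a)) (integrable_T _ _) ?_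
  filter_upwards [ae_pos, hX] with E hE hXE
  obtain ⟨l0, hl0, -, -⟩ := exists_walk 0 z
  have : Nonempty {l : List (Step d) // endp 0 l = z} := ⟨⟨l0, hl0⟩⟩
  refine le_ciInf fun l => ?_
  obtain ⟨l', hl', -, hsub, hnd⟩ := loop_erase 0 l.1
  have h2 := wt_le_of_sublist (fun e => (hE e).le) hsub
  have h3 := hXE l' hnd
  have h4 := nrm_endp_sub_le 0 l'
  rw [sub_zero, hl', l.2] at h4
  have h5 : a * nrm z ≤ a * l'.length := mul_le_mul_of_nonneg_left h4 ha.le
  have h6 : a * nrm z - a * X E ≤ a * ((l'.length : ℝ) - X E) := by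
    rw [mul_sub]
    linarith
  exact h6.trans (h3.trans h2)

/-- the expected passage time is a function as required by the deterministic part -/
theorem hf_hm (d : ℕ) : ∃ a C : ℝ, HF (hm (d := d)) a d C := by
  obtain ⟨a, C, ha, hC, h⟩ := hm_low d
  exact ⟨a, C, ⟨ha, hC, hm_nonneg, hm_neg, hm_add_le, h, hm_le⟩⟩

end ConeD
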