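import Pool.Agent.ConeD.Law

/-! From the exploration to the Markov chain of the problem (module TRANS). -/

set_option autoImplicit false

open MeasureTheory Classical

namespace ConeD

variable {d : ℕ}

namespace TRANSAux

/-- the list of the first `n` terms, newest first -/
def lst (s : ℕ → (Edge d)) : ℕ → List (Edge d)
  | 0 => []
  | n + 1 => s n :: lst s n

theorem length_lst (s : ℕ → (Edge d)) (n : ℕ) : (lst s n).length = n := by
  induction n with
  | zero => rfl
  | succ n ih => simp [lst, ih]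

theorem mem_lst (s : ℕ → (Edge d)) (n : ℕ) (f : Edge d) : f ∈ lst s n ↔ ∃ i < n, f = s i := by
  induction n with
  | zero => simp [lst]
  | succ n ih =>
    simp only [lst, List.mem_cons, ih]
    constructor
    · rintro (h | ⟨i, hi, h⟩)
      · exact ⟨n, Nat.lt_succ_self n, h⟩
      · exact ⟨i, Nat.lt_succ_of_lt hi, h⟩
    · rintro ⟨i, hi, h⟩
      rcases Nat.lt_succ_iff_lt_or_eq.1 hi with h1 | h1
      · exact Or.inr ⟨i, h1, h⟩
      · subst h1; exact Or.inl h

theorem lst_eq_iff (s t : ℕ → (Edge d)) (n : ℕ) : lst s n = lst t n ↔ ∀ i < n, s i = t i := by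
  induction n with
  | zero => simp [lst]
  | succ n ih =>
    simp only [lst, List.cons.injEq, ih]
    constructor
    · rintro ⟨h1, h2⟩ i hi
      rcases Nat.lt_succ_iff_lt_or_eq.1 hi with h3 | h3
      · exact h2 i h3
      · subst h3; exact h1
    · intro h
      exact ⟨h n (Nat.lt_succ_self n), fun i hi => h i (Nat.lt_succ_of_lt hi)⟩

theorem exists_lst (i0 : Fin d) : ∀ σ : List (Edge d), ∃ s : ℕ → (Edge d), lst s σ.length = σ
  | [] => ⟨fun _ => (0, i0), rfl⟩
  | a :: σ => by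
    obtain ⟨s, hs⟩ := exists_lst i0 σ
    refine ⟨Function.update s σ.length a, ?_⟩
    simp only [List.length_cons, lst, Function.update_self, List.cons.injEq, true_and]
    conv_rhs => rw [← hs]
    rw [lst_eq_iff]
    intro i hi
    rw [Function.update_of_ne hi.ne]

theorem mem_ends (v : V d) (e : Edge d) : v ∈ ends e ↔ v = e.1 ∨ v = e.1 + ev e.2 := by
  simp [ends]

theorem mem_vs_lst (s : ℕ → (Edge d)) (n : ℕ) (v : V d) :
    v ∈ vs (lst s n) ↔ v = 0 ∨ ∃ i < n, (v = (s i).1 ∨ v = (s i).1 + ev (s i).2) := by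
  induction n with
  | zero => simp [lst, vs]
  | succ n ih =>
    simp only [lst, vs, Finset.mem_union, ih, mem_ends]
    constructor
    · rintro ((h | ⟨i, hi, h⟩) | h)
      · exact Or.inl h
      · exact Or.inr ⟨i, Nat.lt_succ_of_lt hi, h⟩
      · exact Or.inr ⟨n, Nat.lt_succ_self n, h⟩
    · rintro (h | ⟨i, hi, h⟩)
      · exact Or.inl (Or.inl h)
      · rcases Nat.lt_succ_iff_lt_or_eq.1 hi with h3 | h3
        · exact Or.inl (Or.inr ⟨i, h3, h⟩)
        · subst h3; exact Or.inr h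

theorem G_zero {τ : Edge d → ℝ} {s : ℕ → (Edge d)} {n : ℕ} (hn : 0 < n) (h : G τ (lst s n)) :
    (0 : V d) = (s 0).1 ∨ (0 : V d) = (s 0).1 + ev (s 0).2 := by
  have h1 : ∀ n, G τ (lst s (n + 1)) → s 0 ∈ bd [] := by
    intro n
    induction n with
    | zero => intro h; exact h.2.1
    | succ n ih => intro h; exact ih h.1
  obtain ⟨m, rfl⟩ : ∃ m, n = m + 1 := ⟨n - 1, by omega⟩
  have h2 := (mem_bd.1 (h1 m h)).2
  simp only [vs, Finset.mem_singleton] at h2
  rcases h2 with h2 | h2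
  · exact Or.inl h2.symm
  · exact Or.inr h2.symm

/-- the condition of the problem -/
def Cnd (n : ℕ) (s : ℕ → (Edge d)) (f : Edge d) : Prop :=
  (∀ i < n, f ≠ s i) ∧
    (n = 0 → ((0 : Fin d → ℤ) = f.1 ∨ (0 : Fin d → ℤ) = f.1 + Pi.single f.2 1)) ∧
    (0 < n → ∃ i < n, ∃ p : Fin d → ℤ,
      (p = f.1 ∨ p = f.1 + Pi.single f.2 1) ∧
      (p = (s i).1 ∨ p = (s i).1 + Pi.single (s i).2 1))

theorem cnd_iff {n : ℕ} {s : ℕ → (Edge d)}
    (h0 : 0 < n → (0 : V d) = (s 0).1 ∨ (0 : V d) = (s 0).1 + ev (s 0).2) (f : Edge d) :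
    Cnd n s f ↔ f ∈ bd (lst s n) := by
  rw [mem_bd, mem_lst, mem_vs_lst, mem_vs_lst]
  unfold Cnd
  constructor
  · rintro ⟨h1, h2, h3⟩
    refine ⟨by rintro ⟨i, hi, h⟩; exact h1 i hi h, ?_⟩
    rcases Nat.eq_zero_or_pos n with hn | hn
    · rcases h2 hn with h | h
      · exact Or.inl (Or.inl h.symm)
      · exact Or.inr (Or.inl h.symm)
    · obtain ⟨i, hi, p, hp | hp, hp'⟩ := h3 hn
      · exact Or.inl (Or.inr ⟨i, hi, by rw [← hp]; exact hp'⟩)
      · refine Or.inr (Or.inr ⟨i, hi, ?_⟩)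
        have : f.1 + ev f.2 = p := hp.symm
        rw [this]; exact hp'
  · rintro ⟨h1, h2⟩
    refine ⟨fun i hi h => h1 ⟨i, hi, h⟩, ?_, ?_⟩
    · rintro rfl
      rcases h2 with (h | ⟨i, hi, _⟩) | (h | ⟨i, hi, _⟩)
      · exact Or.inl h.symm
      · exact absurd hi (Nat.not_lt_zero i)
      · exact Or.inr h.symm
      · exact absurd hi (Nat.not_lt_zero i)
    · intro hn
      rcases h2 with (h | ⟨i, hi, h⟩) | (h | ⟨i, hi, h⟩)
      · exact ⟨0, hn, 0, Or.inl h.symm, h0 hn⟩
      · exact ⟨i, hi, f.1, Or.inl rfl, h⟩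
      · exact ⟨0, hn, 0, Or.inr h.symm, h0 hn⟩
      · exact ⟨i, hi, f.1 + ev f.2, Or.inr rfl, h⟩

end TRANSAux

open TRANSAux

theorem path_prob (i0 : Fin d) (α : ℝ) (K : Set (V d)) :
    ∀ (Ω : Type) [MeasurableSpace Ω] (P : Measure Ω), IsProbabilityMeasure P →
    ∀ e : ℕ → Ω → (Fin d → ℤ) × Fin d,
      (∀ (n : ℕ) (f : (Fin d → ℤ) × Fin d), MeasurableSet {ω | e n ω = f}) →
      (∀ (n : ℕ) (s : ℕ → (Fin d → ℤ) × Fin d) (f : (Fin d → ℤ) × Fin d),
        P {ω | (∀ i < n, e i ω = s i) ∧ e n ω = f}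
          = P {ω | ∀ i < n, e i ω = s i} *
            ENNReal.ofReal
              (if ((∀ i < n, f ≠ s i) ∧
                    (n = 0 → ((0 : Fin d → ℤ) = f.1 ∨ (0 : Fin d → ℤ) = f.1 + Pi.single f.2 1)) ∧
                    (0 < n → ∃ i < n, ∃ p : Fin d → ℤ,
                      (p = f.1 ∨ p = f.1 + Pi.single f.2 1) ∧
                      (p = (s i).1 ∨ p = (s i).1 + Pi.single (s i).2 1)))
               then
                (Real.sqrt (∑ j : Fin d,
                    ((f.1 j : ℝ) + (if j = f.2 then (1 / 2 : ℝ) else 0)) ^ 2)) ^ α /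
                (∑' g : (Fin d → ℤ) × Fin d,
                  if ((∀ i < n, g ≠ s i) ∧
                      (n = 0 → ((0 : Fin d → ℤ) = g.1 ∨ (0 : Fin d → ℤ) = g.1 + Pi.single g.2 1)) ∧
                      (0 < n → ∃ i < n, ∃ p : Fin d → ℤ,
                        (p = g.1 ∨ p = g.1 + Pi.single g.2 1) ∧
                        (p = (s i).1 ∨ p = (s i).1 + Pi.single (s i).2 1)))
                  then
                    (Real.sqrt (∑ j : Fin d,
                      ((g.1 j : ℝ) + (if j = g.2 then (1 / 2 : ℝ) else 0)) ^ 2)) ^ α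
                  else 0)
               else 0)) →
      (PE d) {E | (∀ e, 0 < E e) ∧ Explodes (tau α E) ∧ ∀ x ∈ Ainf (tau α E), x ∈ K} ≤
        P {ω | ∀ (n : ℕ) (p : Fin d → ℤ),
          (p = (e n ω).1 ∨ p = (e n ω).1 + Pi.single (e n ω).2 1) → p ∈ K} := by
  intro Ω _ P hP e hem hstep
  set w : Edge d → ℝ := fun f => mid f ^ α with hw
  have hwpos : ∀ f, 0 < w f := fun f => Real.rpow_pos_of_pos (mid_pos f) α
  set τ : (Edge d → ℝ) → (Edge d) → ℝ := fun E f => E f / w f with hτ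
  have hτα : ∀ E, τ E = tau α E := fun E => rfl
  -- law of the prefixes
  have hlaw : ∀ (n : ℕ) (s : ℕ → (Edge d)),
      P {ω | ∀ i < n, e i ω = s i} = (PE d) {E | G (τ E) (lst s n)} := by
    intro n s
    induction n with
    | zero =>
      have h1 : {ω : Ω | ∀ i < 0, e i ω = s i} = Set.univ := by ext; simp
      have h2 : {E : Edge d → ℝ | G (τ E) (lst s 0)} = Set.univ := by ext; simp [lst, G]
      rw [h1, h2, measure_univ, measure_univ]
    | succ n ih =>
      have h1 : {ω : Ω | ∀ i < n + 1, e i ω = s i} =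
          {ω | (∀ i < n, e i ω = s i) ∧ e n ω = s n} := by
        ext ω
        simp only [Set.mem_ofPred_eq]
        constructor
        · intro h
          exact ⟨fun i hi => h i (Nat.lt_succ_of_lt hi), h n (Nat.lt_succ_self n)⟩
        · rintro ⟨h2, h3⟩ i hi
          rcases Nat.lt_succ_iff_lt_or_eq.1 hi with h4 | h4
          · exact h2 i h4
          · subst h4; exact h3
      rw [h1, hstep n s (s n), ih]
      by_cases hz : (PE d) {E | G (τ E) (lst s n)} = 0
      · rw [hz, zero_mul]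
        symm
        refine le_antisymm ?_ zero_le
        rw [← hz]
        exact measure_mono fun E hE => hE.1
      · obtain ⟨E, hE⟩ : {E | G (τ E) (lst s n)}.Nonempty := by
          rw [Set.nonempty_iff_ne_empty]
          intro h
          rw [h, measure_empty] at hz
          exact hz rfl
        have h0 : 0 < n → (0 : V d) = (s 0).1 ∨ (0 : V d) = (s 0).1 + ev (s 0).2 :=
          fun hn => G_zero hn hE
        have hc := cnd_iff h0
        by_cases hb : s n ∈ bd (lst s n)
        · have hb' : Cnd n s (s n) := (hc _).2 hb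
          unfold Cnd at hb'
          rw [if_pos hb']
          have hsum : (∑' g : (Fin d → ℤ) × Fin d,
                  if ((∀ i < n, g ≠ s i) ∧
                      (n = 0 → ((0 : Fin d → ℤ) = g.1 ∨ (0 : Fin d → ℤ) = g.1 + Pi.single g.2 1)) ∧
                      (0 < n → ∃ i < n, ∃ p : Fin d → ℤ,
                        (p = g.1 ∨ p = g.1 + Pi.single g.2 1) ∧
                        (p = (s i).1 ∨ p = (s i).1 + Pi.single (s i).2 1)))
                  then
                    (Real.sqrt (∑ j : Fin d,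
                      ((g.1 j : ℝ) + (if j = g.2 then (1 / 2 : ℝ) else 0)) ^ 2)) ^ α
                  else 0) = ∑ g ∈ bd (lst s n), w g := by
            rw [tsum_eq_sum (s := bd (lst s n))]
            · apply Finset.sum_congr rfl
              intro g hg
              have hg' : Cnd n s g := (hc g).2 hg
              exact if_pos hg'
            · intro g hg
              have hg' : ¬ Cnd n s g := fun h => hg ((hc g).1 h)
              exact if_neg hg'
          rw [hsum]
          exact (law_step w hwpos (lst s n) hb).symm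
        · have hb' : ¬ Cnd n s (s n) := fun h => hb ((hc _).1 h)
          unfold Cnd at hb'
          rw [if_neg hb', ENNReal.ofReal_zero, mul_zero]
          symm
          have : {E : Edge d → ℝ | G (τ E) (lst s (n + 1))} = ∅ := by
            ext E
            simp only [Set.mem_ofPred_eq, Set.mem_empty_iff_false, iff_false]
            intro h
            exact hb h.2.1
          rw [this, measure_empty]
  -- prefixes
  set pre : Ω → ℕ → List (Edge d) := fun ω n => lst (fun i => e i ω) n with hpre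
  have hpm : ∀ n σ, MeasurableSet {ω | pre ω n = σ} := by
    intro n
    induction n with
    | zero =>
      intro σ
      have : {ω | pre ω 0 = σ} = {_ω | [] = σ} := rfl
      rw [this]
      exact MeasurableSet.const _
    | succ n ih =>
      intro σ
      cases σ with
      | nil =>
        have : {ω | pre ω (n + 1) = []} = ∅ := by
          ext ω; simp [hpre, lst]
        rw [this]; exact MeasurableSet.empty
      | cons a σ =>
        have : {ω | pre ω (n + 1) = a :: σ} = {ω | e n ω = a} ∩ {ω | pre ω n = σ} := by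
          ext ω; simp [hpre, lst]
        rw [this]
        exact (hem n a).inter (ih σ)
  have hGm : ∀ σ, MeasurableSet {E | G (τ E) σ} := fun σ => measurableSet_G w σ
  -- marginal lemma
  have hmarg : ∀ (n : ℕ) (H : Set (List (Edge d))),
      P {ω | pre ω n ∈ H} = (PE d) {E | ∃ σ ∈ H, σ.length = n ∧ G (τ E) σ} := by
    intro n H
    have h1 : {ω | pre ω n ∈ H} = ⋃ σ : {σ : List (Edge d) // σ ∈ H ∧ σ.length = n},
        {ω | pre ω n = σ.1} := by
      ext ω
      simp only [Set.mem_ofPred_eq, Set.mem_iUnion]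
      constructor
      · intro h
        exact ⟨⟨pre ω n, h, length_lst _ n⟩, rfl⟩
      · rintro ⟨σ, hσ⟩
        rw [hσ]; exact σ.2.1
    have h2 : {E | ∃ σ ∈ H, σ.length = n ∧ G (τ E) σ} =
        ⋃ σ : {σ : List (Edge d) // σ ∈ H ∧ σ.length = n}, {E | G (τ E) σ.1} := by
      ext E
      simp only [Set.mem_ofPred_eq, Set.mem_iUnion]
      constructor
      · rintro ⟨σ, h3, h4, h5⟩
        exact ⟨⟨σ, h3, h4⟩, h5⟩
      · rintro ⟨σ, hσ⟩
        exact ⟨σ.1, σ.2.1, σ.2.2, hσ⟩
    rw [h1, h2, measure_iUnion, measure_iUnion]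
    · apply tsum_congr
      rintro ⟨σ, hσ, hl⟩
      obtain ⟨s, hs⟩ := exists_lst i0 σ
      rw [hl] at hs
      have h3 : {ω | pre ω n = σ} = {ω | ∀ i < n, e i ω = s i} := by
        ext ω
        simp only [Set.mem_ofPred_eq, hpre]
        rw [← hs, lst_eq_iff]
      show P {ω | pre ω n = σ} = (PE d) {E | G (τ E) σ}
      rw [h3, hlaw n s, hs]
    · rintro ⟨σ, hσ, hl⟩ ⟨σ', hσ', hl'⟩ hne
      rw [Function.onFun, Set.disjoint_left]
      intro E h3 h4
      exact hne (Subtype.ext (G_unique (hl.trans hl'.symm) h3 h4))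
    · exact fun σ => hGm σ.1
    · rintro ⟨σ, hσ, hl⟩ ⟨σ', hσ', hl'⟩ hne
      rw [Function.onFun, Set.disjoint_left]
      intro ω h3 h4
      exact hne (Subtype.ext (h3.symm.trans h4))
    · exact fun σ => hpm n σ.1
  have hPm : ∀ n (H : Set (List (Edge d))), MeasurableSet {ω | pre ω n ∈ H} := by
    intro n H
    have h1 : {ω | pre ω n ∈ H} = ⋃ σ : List (Edge d), ⋃ (_ : σ ∈ H), {ω | pre ω n = σ} := by
      ext ω; simp
    rw [h1]
    exact MeasurableSet.iUnion fun σ => MeasurableSet.iUnion fun _ => hpm n σ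
  have hEm : ∀ n (H : Set (List (Edge d))),
      MeasurableSet {E | ∃ σ ∈ H, σ.length = n ∧ G (τ E) σ} := by
    intro n H
    have h1 : {E | ∃ σ ∈ H, σ.length = n ∧ G (τ E) σ} =
        ⋃ σ : List (Edge d), ⋃ (_ : σ ∈ H), ⋃ (_ : σ.length = n), {E | G (τ E) σ} := by
      ext E
      simp only [Set.mem_ofPred_eq, Set.mem_iUnion, exists_prop]
    rw [h1]
    exact MeasurableSet.iUnion fun σ => MeasurableSet.iUnion fun _ =>
      MeasurableSet.iUnion fun _ => hGm σ
  -- law of the whole path in sets closed under tails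
  have hpath : ∀ H : Set (List (Edge d)), (∀ s σ, s :: σ ∈ H → σ ∈ H) →
      P {ω | ∀ n, pre ω n ∈ H} = (PE d) {E | ∀ n, ∃ σ ∈ H, σ.length = n ∧ G (τ E) σ} := by
    intro H hH
    have h1 : {ω | ∀ n, pre ω n ∈ H} = ⋂ n, {ω | pre ω n ∈ H} := by ext; simp
    have h2 : {E | ∀ n, ∃ σ ∈ H, σ.length = n ∧ G (τ E) σ} =
        ⋂ n, {E | ∃ σ ∈ H, σ.length = n ∧ G (τ E) σ} := by ext; simp
    have ha1 : Antitone fun n => {ω | pre ω n ∈ H} := by
      refine antitone_nat_of_succ_le fun n ω h => ?_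
      exact hH _ _ h
    have ha2 : Antitone fun n => {E | ∃ σ ∈ H, σ.length = n ∧ G (τ E) σ} := by
      refine antitone_nat_of_succ_le fun n E h => ?_
      obtain ⟨σ, h3, h4, h5⟩ := h
      cases σ with
      | nil => simp at h4
      | cons a σ =>
        exact ⟨σ, hH _ _ h3, by simpa using h4, h5.1⟩
    have t1 := tendsto_measure_iInter_atTop (μ := P)
      (fun n => (hPm n H).nullMeasurableSet) ha1 ⟨0, measure_ne_top _ _⟩
    have t2 := tendsto_measure_iInter_atTop (μ := (PE d))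
      (fun n => (hEm n H).nullMeasurableSet) ha2 ⟨0, measure_ne_top _ _⟩
    rw [h1, h2]
    refine tendsto_nhds_unique t1 ?_
    have : (⇑P ∘ fun n => {ω | pre ω n ∈ H}) =
        (⇑(PE d) ∘ fun n => {E | ∃ σ ∈ H, σ.length = n ∧ G (τ E) σ}) := by
      funext n
      exact hmarg n H
    rw [this]
    exact t2
  have hall : ∀ᵐ E ∂(PE d), ∀ n, ∃ σ : List (Edge d), σ.length = n ∧ G (τ E) σ := by
    rw [ae_all_iff]
    intro n
    have h1 := hmarg n Set.univ
    have h2 : {ω : Ω | pre ω n ∈ (Set.univ : Set (List (Edge d)))} = Set.univ := by ext; simp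
    rw [h2, measure_univ] at h1
    have h3 := (mem_ae_iff_prob_eq_one (hEm n Set.univ)).2 h1.symm
    filter_upwards [h3] with E hE
    obtain ⟨σ, _, h4, h5⟩ := hE
    exact ⟨σ, h4, h5⟩
  set H : Set (List (Edge d)) := {σ | ∀ v ∈ vs σ, v = 0 ∨ v ∈ K} with hH
  have hHt : ∀ s σ, s :: σ ∈ H → σ ∈ H := by
    intro s σ h v hv
    exact h v (Finset.mem_union_left _ hv)
  have h1 : (PE d) {E | (∀ e, 0 < E e) ∧ Explodes (tau α E) ∧ ∀ x ∈ Ainf (tau α E), x ∈ K} ≤
      (PE d) {E | ∀ n, ∃ σ ∈ H, σ.length = n ∧ G (τ E) σ} := by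
    refine measure_mono_ae ?_
    filter_upwards [hall] with E hE2 hE n
    obtain ⟨hpos, hex, hconf⟩ := hE
    obtain ⟨σ, h1, h2⟩ := hE2 n
    refine ⟨σ, fun v hv => Or.inr ?_, h1, h2⟩
    exact hconf v (explore_good (τ := tau α E) i0 (fun f => div_pos (hpos f) (hwpos f)) hex h2 v hv)
  rcases Set.eq_empty_or_nonempty
    {E : Edge d → ℝ | (∀ e, 0 < E e) ∧ Explodes (tau α E) ∧ ∀ x ∈ Ainf (tau α E), x ∈ K} with
    hemp | ⟨E0, hE0⟩
  · rw [hemp, measure_empty]
    exact zero_le
  have h0K : (0 : V d) ∈ K := by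
    obtain ⟨hpos, hex, hconf⟩ := hE0
    obtain ⟨σ, h1, h2⟩ : ∃ σ : List (Edge d), σ.length = 0 ∧ G (tau α E0) σ := ⟨[], rfl, trivial⟩
    exact hconf 0 (explore_good (τ := tau α E0) i0 (fun f => div_pos (hpos f) (hwpos f)) hex h2 0
      (expl_zero_mem σ))
  refine h1.trans ?_
  rw [← hpath H hHt]
  refine measure_mono fun ω hω n p hp => ?_
  have hpv : p ∈ vs (pre ω (n + 1)) := by
    refine Finset.mem_union_right _ ?_
    rw [mem_ends]
    exact hp
  rcases hω (n + 1) p hpv with h | h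
  · rw [h]; exact h0K
  · exact h

/-- the vector form of a confinement to a cone -/
theorem cone_vec {κ M : ℝ} (h1 : |κ| < 1) (hM : 0 ≤ M) {u : Fin d → ℝ}
    (hu : ∑ j : Fin d, u j ^ 2 = 1) (x : V d)
    (hx : κ * nrm x - M ≤ ∑ j : Fin d, (x j : ℝ) * u j) :
    Real.sqrt (∑ j : Fin d, ((x j : ℝ) - (-(M / (1 - |κ|)) * u j)) ^ 2) * κ
      ≤ ∑ j : Fin d, ((x j : ℝ) - (-(M / (1 - |κ|)) * u j)) * u j := by
  set L : ℝ := M / (1 - |κ|) with hL
  have hL0 : 0 ≤ L := div_nonneg hM (by linarith)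
  have hLM : (1 - |κ|) * L = M := by
    rw [hL]
    field_simp [show (1 - |κ|) ≠ 0 by linarith]
  have hsum : ∑ j : Fin d, ((x j : ℝ) - (-L * u j)) * u j = ∑ j : Fin d, (x j : ℝ) * u j + L := by
    have : ∀ j, ((x j : ℝ) - (-L * u j)) * u j = (x j : ℝ) * u j + L * u j ^ 2 := fun j => by ring
    simp only [this]
    rw [Finset.sum_add_distrib, ← Finset.mul_sum, hu, mul_one]
  rw [hsum]
  set U : EuclideanSpace ℝ (Fin d) := WithLp.toLp 2 u with hU
  have hUn : ‖U‖ = 1 := by
    rw [EuclideanSpace.norm_eq]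
    have : ∑ j : Fin d, ‖U j‖ ^ 2 = 1 := by
      rw [← hu]
      refine Finset.sum_congr rfl fun j _ => ?_
      rw [Real.norm_eq_abs, sq_abs]
    rw [this, Real.sqrt_one]
  have hsq : Real.sqrt (∑ j : Fin d, ((x j : ℝ) - (-L * u j)) ^ 2) = ‖toE x + L • U‖ := by
    rw [EuclideanSpace.norm_eq]
    congr 1
    refine Finset.sum_congr rfl fun j _ => ?_
    rw [Real.norm_eq_abs, sq_abs]
    congr 1
    show _ = toE x j + L • u j
    rw [toE_apply, smul_eq_mul]
    ring
  rw [hsq]
  have hLU : ‖L • U‖ = L := by rw [norm_smul, hUn, Real.norm_of_nonneg hL0, mul_one]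
  have t1 : ‖toE x + L • U‖ ≤ nrm x + L := by
    rw [nrm_eq]
    exact (norm_add_le _ _).trans (by rw [hLU])
  have t2 : nrm x - L ≤ ‖toE x + L • U‖ := by
    rw [nrm_eq]
    have := norm_sub_norm_le (toE x) (-(L • U))
    rw [norm_neg, hLU, sub_neg_eq_add] at this
    exact this
  rcases le_total 0 κ with h | h
  · rw [abs_of_nonneg h] at hLM
    have := mul_le_mul_of_nonneg_right t1 h
    nlinarith
  · rw [abs_of_nonpos h] at hLM
    have := mul_le_mul_of_nonpos_right t2 h
    nlinarith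

theorem transfer (i0 : Fin d) (α : ℝ) {κ M : ℝ} (h1 : |κ| < 1) (hM : 0 ≤ M) {u : Fin d → ℝ}
    (hu : ∑ j : Fin d, u j ^ 2 = 1) (pr : ENNReal)
    (hpr : pr ≤ (PE d) {E | (∀ e, 0 < E e) ∧ Explodes (tau α E) ∧ ∀ x ∈ Ainf (tau α E),
      κ * nrm x - M ≤ ∑ j : Fin d, (x j : ℝ) * u j}) :
    ∀ (Ω : Type) [MeasurableSpace Ω] (P : Measure Ω), IsProbabilityMeasure P →
    ∀ e : ℕ → Ω → (Fin d → ℤ) × Fin d,
      (∀ (n : ℕ) (f : (Fin d → ℤ) × Fin d), MeasurableSet {ω | e n ω = f}) →
      (∀ (n : ℕ) (s : ℕ → (Fin d → ℤ) × Fin d) (f : (Fin d → ℤ) × Fin d),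
        P {ω | (∀ i < n, e i ω = s i) ∧ e n ω = f}
          = P {ω | ∀ i < n, e i ω = s i} *
            ENNReal.ofReal
              (if ((∀ i < n, f ≠ s i) ∧
                    (n = 0 → ((0 : Fin d → ℤ) = f.1 ∨ (0 : Fin d → ℤ) = f.1 + Pi.single f.2 1)) ∧
                    (0 < n → ∃ i < n, ∃ p : Fin d → ℤ,
                      (p = f.1 ∨ p = f.1 + Pi.single f.2 1) ∧
                      (p = (s i).1 ∨ p = (s i).1 + Pi.single (s i).2 1)))
               then
                (Real.sqrt (∑ j : Fin d,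
                    ((f.1 j : ℝ) + (if j = f.2 then (1 / 2 : ℝ) else 0)) ^ 2)) ^ α /
                (∑' g : (Fin d → ℤ) × Fin d,
                  if ((∀ i < n, g ≠ s i) ∧
                      (n = 0 → ((0 : Fin d → ℤ) = g.1 ∨ (0 : Fin d → ℤ) = g.1 + Pi.single g.2 1)) ∧
                      (0 < n → ∃ i < n, ∃ p : Fin d → ℤ,
                        (p = g.1 ∨ p = g.1 + Pi.single g.2 1) ∧
                        (p = (s i).1 ∨ p = (s i).1 + Pi.single (s i).2 1)))
                  then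
                    (Real.sqrt (∑ j : Fin d,
                      ((g.1 j : ℝ) + (if j = g.2 then (1 / 2 : ℝ) else 0)) ^ 2)) ^ α
                  else 0)
               else 0)) →
      pr ≤ P {ω | ∀ (n : ℕ) (p : Fin d → ℤ),
          (p = (e n ω).1 ∨ p = (e n ω).1 + Pi.single (e n ω).2 1) →
          Real.sqrt (∑ j : Fin d, ((p j : ℝ) - (-(M / (1 - |κ|)) * u j)) ^ 2) *
              Real.cos (2 * Real.arccos κ / 2)
            ≤ ∑ j : Fin d, ((p j : ℝ) - (-(M / (1 - |κ|)) * u j)) * u j} := by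
  intro Ω _ P hP e hem hstep
  have h2 := path_prob i0 α {x : V d | κ * nrm x - M ≤ ∑ j : Fin d, (x j : ℝ) * u j} Ω P hP e hem hstep
  refine hpr.trans (h2.trans ?_)
  refine measure_mono fun ω hω n p hp => ?_
  have h3 : Real.cos (2 * Real.arccos κ / 2) = κ := by
    rw [mul_div_cancel_left₀ _ (two_ne_zero)]
    exact Real.cos_arccos (by linarith [(abs_lt.1 h1).1]) (abs_lt.1 h1).2.le
  rw [h3]
  exact cone_vec h1 hM hu p (hω n p hp)

end ConeD
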